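import Mathlib

set_option autoImplicit false

namespace Pool.Agent.BX

open Finset

/-- **A 2-design with `λ = 1`.**  `𝓛` is a family of `(t+1)`-subsets (lines) of `T` such that any two
distinct points of `T` are in exactly one line.  Count the pairs `(q, l)`, `p, q ∈ l`, `q ≠ p`:
`|T| - 1 = t * r(p)` where `r(p)` is the number of lines through `p`; so `t ∣ |T| - 1`.  Count the pairs
`(p, l)`, `p ∈ l`: `∑_p r(p) = (t+1) |𝓛|`; so `|T| (|T| - 1) = t (t+1) |𝓛|`.
(`Finset.sum_card_bipartiteAbove_eq_sum_card_bipartiteBelow` or `Finset.sum_comm`.) -/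
theorem lin_space {α : Type*} [DecidableEq α] (T : Finset α) (𝓛 : Finset (Finset α)) (t : ℕ)
    (h1 : ∀ l ∈ 𝓛, l ⊆ T ∧ l.card = t + 1)
    (h2 : ∀ p ∈ T, ∀ q ∈ T, p ≠ q → ∃! l, l ∈ 𝓛 ∧ p ∈ l ∧ q ∈ l) :
    (T.Nonempty → t ∣ T.card - 1) ∧ t * (t + 1) ∣ T.card * (T.card - 1) := by
  have hr : ∀ p ∈ T, T.card - 1 = t * (𝓛.filter (fun l => p ∈ l)).card := by
    intro p hp
    have h3 : T.erase p = (𝓛.filter (fun l => p ∈ l)).biUnion (fun l => l.erase p) := by
      ext q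
      simp only [Finset.mem_erase, Finset.mem_biUnion, Finset.mem_filter]
      constructor
      · rintro ⟨hqp, hq⟩
        obtain ⟨l, ⟨hl, hpl, hql⟩, -⟩ := h2 p hp q hq (Ne.symm hqp)
        exact ⟨l, ⟨hl, hpl⟩, hqp, hql⟩
      · rintro ⟨l, ⟨hl, hpl⟩, hqp, hql⟩
        exact ⟨hqp, (h1 l hl).1 hql⟩
    rw [← Finset.card_erase_of_mem hp, h3, Finset.card_biUnion]
    · rw [Finset.sum_congr rfl (g := fun _ => t), Finset.sum_const, smul_eq_mul, mul_comm]
      intro l hl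
      rw [Finset.mem_filter] at hl
      rw [Finset.card_erase_of_mem hl.2, (h1 l hl.1).2, Nat.add_sub_cancel]
    · intro l hl l' hl' hne
      rw [Finset.mem_coe, Finset.mem_filter] at hl hl'
      change Disjoint (l.erase p) (l'.erase p)
      rw [Finset.disjoint_left]
      intro q hq hq'
      rw [Finset.mem_erase] at hq hq'
      apply hne
      obtain ⟨l0, -, huniq⟩ := h2 p hp q ((h1 l hl.1).1 hq.2) (Ne.symm hq.1)
      rw [huniq l ⟨hl.1, hl.2, hq.2⟩, huniq l' ⟨hl'.1, hl'.2, hq'.2⟩]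
  refine ⟨fun ⟨p, hp⟩ => ⟨_, hr p hp⟩, ?_⟩
  have h3 : ∑ p ∈ T, (𝓛.filter (fun l => p ∈ l)).card = 𝓛.card * (t + 1) := by
    simp only [Finset.card_filter]
    rw [Finset.sum_comm]
    rw [Finset.sum_congr rfl (g := fun _ => t + 1), Finset.sum_const, smul_eq_mul]
    intro l hl
    rw [← Finset.card_filter, ← (h1 l hl).2]
    congr 1
    ext q
    rw [Finset.mem_filter]
    exact ⟨fun h => h.2, fun h => ⟨(h1 l hl).1 h, h⟩⟩
  have h4 : T.card * (T.card - 1) = t * (t + 1) * 𝓛.card := by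
    calc T.card * (T.card - 1) = ∑ _p ∈ T, (T.card - 1) := by
          rw [Finset.sum_const, smul_eq_mul]
      _ = ∑ p ∈ T, t * (𝓛.filter (fun l => p ∈ l)).card := Finset.sum_congr rfl hr
      _ = t * (t + 1) * 𝓛.card := by rw [← Finset.mul_sum, h3]; ring
  exact ⟨_, h4⟩

end Pool.Agent.BX
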