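import Mathlib
import Pool.Agent.BX.D1
import Pool.Agent.BetaL.Noda

set_option autoImplicit false

namespace Pool.Agent.BX

open Finset Pool.Agent.MP_1e96f1_co Pool.Agent.BetaL

variable {Ω : Type*} [Fintype Ω] [DecidableEq Ω]

/-- **Lines in the sets at distance `n + 1` from a block.**  Put `x = d + 2n + 1`; `β(n+1)` says: every
`x`-set `X` has exactly one block `B` with `|X \ B| ≤ n` (`beta_exists`, `beta_unique` in
`Pool/Agent/BetaL/Cells.lean`).  Fix a block `B0`, `T ⊆ B0` with `d + n + 2` points, `Z ⊆ B0ᶜ` with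
`n + 1` points, `W = T ∪ Z` (`x + 2` points).  Lines: the sets `W \ B`, `B ∈ Bs`, with `n + 2` points and
contained in `T`.  Let `p ≠ q ∈ T`, `X = W \ {p, q}` (`x` points), `B` the block with `|X \ B| ≤ n`.
Since `|X \ B0| = |Z| = n + 1`, `B ≠ B0`, so `|B ∩ B0| ≤ d`.  As `|X ∩ B| ≥ d + n + 1` and
`|X \ B0| = n + 1`, all of `X \ B0 = Z` is in `B`, `|X ∩ B ∩ B0| = d`, so `B ∩ B0 ⊆ X`; in particular
`p, q ∉ B`; `|X \ B| = n`, `|W \ B| = n + 2`, `W \ B ⊆ T` (`Z ⊆ B`).  So `W \ B` is a line through `p, q`.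
Uniqueness: a line `W \ B' ∋ p, q` has `|X \ B'| = n`, so `B' = B` (`beta_unique`).
Then `lin_space` with `t = n + 1`, `|T| = d + n + 2`: `n + 1 ∣ d + n + 1`, so `n + 1 ∣ d`. -/
theorem div_block {Bs : Finset (Finset Ω)} {v k d n : ℕ} (hD : IsDesign Bs v k d)
    (hB : IsBeta Bs v d (n + 1)) (hk : d + n + 2 ≤ k) (hw : n + 1 ≤ v - k) :
    (n + 1) ∣ d ∧ (n + 1) * (n + 2) ∣ (d + n + 2) * (d + n + 1) := by
  obtain ⟨B0, hB0⟩ : Bs.Nonempty := Finset.card_pos.mp (by have := hD.two_le; omega)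
  have hcB0 := hD.card_block B0 hB0
  obtain ⟨T, hT, hTc⟩ := Finset.exists_subset_card_eq (s := B0) (n := d + n + 2) (by omega)
  have hcomp : (B0ᶜ).card = v - k := by
    rw [Finset.card_compl, hD.card_points, hcB0]
  obtain ⟨Z, hZ, hZc⟩ := Finset.exists_subset_card_eq (s := B0ᶜ) (n := n + 1) (by omega)
  have hZ' : ∀ z ∈ Z, z ∉ B0 := fun z hz => Finset.mem_compl.mp (hZ hz)
  have hTZ : Disjoint T Z := by
    rw [Finset.disjoint_left]
    intro a ha hz
    exact hZ' a hz (hT ha)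
  have hWc : (T ∪ Z).card = d + 2 * n + 3 := by
    rw [Finset.card_union_of_disjoint hTZ, hTc, hZc]; ring
  have main := lin_space T
    ((Bs.filter (fun B => ((T ∪ Z) \ B).card = n + 2 ∧ (T ∪ Z) \ B ⊆ T)).image
      (fun B => (T ∪ Z) \ B)) (n + 1) ?_ ?_
  · rw [hTc] at main
    obtain ⟨m1, m2⟩ := main
    refine ⟨?_, ?_⟩
    · have h1 := m1 (Finset.card_pos.mp (by omega))
      have h2 : d + n + 2 - 1 = d + (n + 1) := by omega
      rw [h2] at h1
      exact (Nat.dvd_add_left (dvd_refl _)).mp h1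
    · have h2 : d + n + 2 - 1 = d + n + 1 := by omega
      rw [h2] at m2
      exact m2
  · intro l hl
    obtain ⟨B, hB', rfl⟩ := Finset.mem_image.mp hl
    obtain ⟨-, h1, h2⟩ := Finset.mem_filter.mp hB'
    exact ⟨h2, h1⟩
  · intro p hp q hq hpq
    -- the set `X`
    set X : Finset Ω := (T ∪ Z) \ {p, q} with hX
    have hpW : p ∈ T ∪ Z := Finset.mem_union_left _ hp
    have hqW : q ∈ T ∪ Z := Finset.mem_union_left _ hq
    have hpq2 : ({p, q} : Finset Ω).card = 2 := Finset.card_pair hpq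
    have hsub : ({p, q} : Finset Ω) ⊆ T ∪ Z := by
      intro a ha
      rw [Finset.mem_insert, Finset.mem_singleton] at ha
      rcases ha with rfl | rfl
      · exact hpW
      · exact hqW
    have hXc : X.card = d + 2 * n + 1 := by
      rw [hX, Finset.card_sdiff_of_subset hsub, hWc, hpq2]
      omega
    -- lines and `X`
    have hline : ∀ C : Finset Ω, p ∉ C → q ∉ C → ((T ∪ Z) \ C).card = (X \ C).card + 2 := by
      intro C hpC hqC
      have e : (T ∪ Z) \ C = (X \ C) ∪ {p, q} := by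
        ext a
        rw [hX]
        simp only [Finset.mem_sdiff, Finset.mem_union, Finset.mem_insert, Finset.mem_singleton]
        constructor
        · rintro ⟨h1, h2⟩
          by_cases h3 : a = p ∨ a = q
          · exact Or.inr h3
          · exact Or.inl ⟨⟨h1, h3⟩, h2⟩
        · rintro (⟨⟨h1, -⟩, h3⟩ | rfl | rfl)
          · exact ⟨h1, h3⟩
          · exact ⟨Or.inl hp, hpC⟩
          · exact ⟨Or.inl hq, hqC⟩
      have hdis : Disjoint (X \ C) ({p, q} : Finset Ω) := by
        rw [Finset.disjoint_left]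
        intro a ha h2
        rw [Finset.mem_sdiff, hX, Finset.mem_sdiff] at ha
        exact ha.1.2 h2
      rw [e, Finset.card_union_of_disjoint hdis, hpq2]
    obtain ⟨B, hBs, hBn⟩ := beta_exists hB hXc
    have hXB0 : X \ B0 = Z := by
      ext a
      rw [hX]
      simp only [Finset.mem_sdiff, Finset.mem_union, Finset.mem_insert, Finset.mem_singleton]
      constructor
      · rintro ⟨⟨h1 | h1, -⟩, h3⟩
        · exact absurd (hT h1) h3
        · exact h1
      · intro hz
        refine ⟨⟨Or.inr hz, ?_⟩, hZ' a hz⟩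
        rintro (rfl | rfl)
        · exact hZ' _ hz (hT hp)
        · exact hZ' _ hz (hT hq)
    have hne : B ≠ B0 := by
      rintro rfl
      rw [hXB0, hZc] at hBn
      omega
    have hint := hD.inter_le B hBs B0 hB0 hne
    have c1 := Finset.card_sdiff_add_card_inter X B
    have c2 := Finset.card_sdiff_add_card_inter (X ∩ B) B0
    have s1 : (X ∩ B) \ B0 ⊆ Z := by
      rw [← hXB0]
      intro a ha
      rw [Finset.mem_sdiff, Finset.mem_inter] at ha
      rw [Finset.mem_sdiff]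
      exact ⟨ha.1.1, ha.2⟩
    have s2 : (X ∩ B) ∩ B0 ⊆ B ∩ B0 := by
      intro a ha
      rw [Finset.mem_inter, Finset.mem_inter] at ha
      rw [Finset.mem_inter]
      exact ⟨ha.1.2, ha.2⟩
    have c3 := Finset.card_le_card s1
    have c4 := Finset.card_le_card s2
    rw [hZc] at c3
    have e1 : (X ∩ B) \ B0 = Z := Finset.eq_of_subset_of_card_le s1 (by omega)
    have e2 : (X ∩ B) ∩ B0 = B ∩ B0 := Finset.eq_of_subset_of_card_le s2 (by omega)
    have hZB : ∀ z ∈ Z, z ∈ B := by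
      intro z hz
      rw [← e1, Finset.mem_sdiff, Finset.mem_inter] at hz
      exact hz.1.2
    have hpB : p ∉ B := by
      intro h
      have h1 : p ∈ B ∩ B0 := Finset.mem_inter.mpr ⟨h, hT hp⟩
      rw [← e2, Finset.mem_inter, Finset.mem_inter, hX, Finset.mem_sdiff] at h1
      exact h1.1.1.2 (Finset.mem_insert_self _ _)
    have hqB : q ∉ B := by
      intro h
      have h1 : q ∈ B ∩ B0 := Finset.mem_inter.mpr ⟨h, hT hq⟩
      rw [← e2, Finset.mem_inter, Finset.mem_inter, hX, Finset.mem_sdiff] at h1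
      exact h1.1.1.2 (Finset.mem_insert_of_mem (Finset.mem_singleton_self _))
    have hl := hline B hpB hqB
    refine ⟨(T ∪ Z) \ B, ⟨Finset.mem_image.mpr ⟨B, Finset.mem_filter.mpr ⟨hBs, ?_, ?_⟩, rfl⟩,
      Finset.mem_sdiff.mpr ⟨hpW, hpB⟩, Finset.mem_sdiff.mpr ⟨hqW, hqB⟩⟩, ?_⟩
    · omega
    · intro a ha
      rw [Finset.mem_sdiff, Finset.mem_union] at ha
      rcases ha.1 with h | h
      · exact h
      · exact absurd (hZB a h) ha.2
    · rintro l ⟨hl1, hl2, hl3⟩
      obtain ⟨C, hC, rfl⟩ := Finset.mem_image.mp hl1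
      obtain ⟨hCs, hCc, -⟩ := Finset.mem_filter.mp hC
      have h5 := hline C (Finset.mem_sdiff.mp hl2).2 (Finset.mem_sdiff.mp hl3).2
      have h6 : C = B := beta_unique hB hXc hCs hBs (by omega) hBn
      rw [h6]

end Pool.Agent.BX
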