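import Mathlib

set_option autoImplicit false

namespace Pool.Agent.BX

/-- `|x - y|` for natural numbers -/
def ad (x y : ℕ) : ℕ := Nat.add (Nat.sub x y) (Nat.sub y x)

/-- The Horner loop (from `j = T - 1` down to `j = 0`), in truncated arithmetic modulo `M`
(`X` components) together with the majorants `V`, `G`, `U`. -/
def loop (M a T S S2 K P1 r1 nX1 KX2 nXH XC0 Cp Cn CG C2 g2 r2 PP GH RH : ℕ) (t : ℕ) :
    (XD VD GD UD XF VF GF UF : ℕ) → (ℕ → ℕ → ℕ → ℕ → ℕ) → ℕ :=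
  Nat.rec (fun _ _ _ _ XF VF GF UF out => out XF VF GF UF)
    (fun j ih XD VD GD UD XF VF GF UF out =>
      (fun XA VA GA XC VC GC XQ VQ GQ UQ den num =>
        (fun Xp Vp Gp Up XD' VD' GD' UD' =>
          ih XD' VD' GD' UD'
            (Nat.mod (Nat.add XD' (Nat.mul num (Nat.mul Xp (Nat.sub M XF)))) M)
            (Nat.add VD' (Nat.mul num (Nat.mul Vp VF)))
            (Nat.add GD' (Nat.mul num (Nat.add (Nat.mul Vp GF) (Nat.mul Gp VF))))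
            (Nat.add UD' (Nat.mul num (Nat.mul Up UF))) out)
          (Nat.mod (Nat.mul XA XC) M) (Nat.mul VA VC) (Nat.add (Nat.mul VA GC) (Nat.mul GA VC))
          (Nat.mul (Nat.add VA GA) (Nat.add VC GC))
          (Nat.mod (Nat.mul den (Nat.mul XQ XD)) M) (Nat.mul den (Nat.mul VQ VD))
          (Nat.mul den (Nat.add (Nat.mul VQ GD) (Nat.mul GQ VD))) (Nat.mul den (Nat.mul UQ UD)))
        (Nat.add S (Nat.mul j nX1)) (ad S (Nat.mul j P1)) (Nat.mul j r1)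
        (Nat.add XC0 (Nat.mul (Nat.add T j) KX2))
        (ad (Nat.add Cp (Nat.mul (Nat.add T j) C2)) Cn)
        (Nat.add CG (Nat.mul (ad (Nat.mul (Nat.add T j) K) g2) r2))
        (Nat.add S2 (Nat.mul j nXH)) (ad S2 (Nat.mul j PP)) (Nat.mul j GH)
        (Nat.add (ad S2 (Nat.mul j PP)) (Nat.mul j (Nat.add GH RH)))
        (Nat.mul (Nat.add j 1) (Nat.add (Nat.add a 1) j)) (Nat.sub T j)) t

/-- the sign test at the end: `1` positive, `2` negative, `0` unknown -/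
def dec (h b b4 M : ℕ) (X V G U : ℕ) : ℕ :=
  (fun Y =>
    (fun y0 q1 =>
      (fun y1 q2 =>
        (fun Rr =>
          cond (Nat.ble h U) 0
            (cond (Nat.ble (Nat.add (Nat.add h Rr) 1) y0) 1
              (cond (Nat.ble (Nat.add (Nat.add y0 Rr) 1) h) 2 0)))
          (Nat.add (Nat.add (ad y1 h) (Nat.add (ad (Nat.mod q2 b) h) (ad (Nat.div q2 b) h)))
            (Nat.sub U (Nat.add V G))))
        (Nat.mod q1 b) (Nat.div q1 b))
      (Nat.mod Y b4) (Nat.div Y b4))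
    (Nat.mod (Nat.add X (Nat.mul h (Nat.add 1 (Nat.mul b4 (Nat.add 1 (Nat.mul b (Nat.add 1 b))))))) M)

/-- certified sign of `Ψ(T)` on the box -/
def sgnT (a S K g1 g2 B0 T P1 r1 P2 r2 P3 r3 : ℕ) : ℕ :=
  (fun h =>
    (fun b =>
      (fun b4 =>
        (fun M XE1 XE2 =>
          (fun nX1 nX2 =>
            loop M a T S (Nat.mul K (Nat.mul S S)) K P1 r1 nX1 (Nat.mul K XE2)
              (Nat.sub M (Nat.mod (Nat.mul K (Nat.mul XE1 XE2)) M))
              (Nat.add (Nat.add P3 (Nat.mul r3 (Nat.mul b4 (Nat.mul b b))))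
                (Nat.add (Nat.mul g1 nX1) (Nat.mul g2 nX2)))
              P3 (Nat.add (Nat.mul g1 P1) (Nat.mul g2 P2)) (Nat.add r3 (Nat.mul g1 r1))
              (Nat.mul K P2) g2 r2 (Nat.mul K (Nat.mul P1 P2))
              (Nat.mul K (Nat.add (Nat.mul P1 r2) (Nat.mul P2 r1))) (Nat.mul K (Nat.mul r1 r2))
              T 1 1 0 1 1 1 0 1 (dec h b b4 M))
            (Nat.sub M (Nat.mod XE1 M)) (Nat.sub M (Nat.mod XE2 M)))
          (Nat.mul b4 (Nat.mul b (Nat.mul b b))) (Nat.add P1 (Nat.mul r1 b4))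
          (Nat.add P2 (Nat.mul r2 (Nat.mul b4 b))))
        (Nat.mul (Nat.mul b b) (Nat.mul b b)))
      (Nat.mul 2 h))
    (Nat.pow 2 (Nat.add (Nat.mul T B0) 20))

/-- the leaf test -/
def leafT (sp : Bool) (a S K g1 g2 B0 T P1 r1 P2 r2 P3 r3 : ℕ) : Bool :=
  Nat.ble 1 T &&
  (Nat.ble (Nat.add (Nat.mul T (Nat.mul (Nat.add P1 r1) (Nat.add P2 r2))) 1) (Nat.mul S S) &&
  (cond (Nat.beq T 1) (Nat.beq (sgnT a S K g1 g2 B0 2 P1 r1 P2 r2 P3 r3) 2)
    (cond (sp && Nat.beq T 2) (Nat.beq (sgnT a S K g1 g2 B0 3 P1 r1 P2 r2 P3 r3) 2)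
      (Nat.beq (Nat.mul (sgnT a S K g1 g2 B0 T P1 r1 P2 r2 P3 r3)
        (sgnT a S K g1 g2 B0 (Nat.add T 1) P1 r1 P2 r2 P3 r3)) 2))))

/-- the test that the box does not meet the region; `l`, `h` are the end points -/
def outT (a S K g1 g2 l1 h1 l2 h2 l3 h3 : ℕ) : Bool :=
  -- `c + e₂ ≥ a + 1`
  (Nat.ble (Nat.add (Nat.mul (Nat.add a 1) (Nat.mul K S)) (Nat.add (Nat.mul g1 h1) (Nat.mul g2 h2)))
      (Nat.add l3 (Nat.mul K h2)) &&
    Nat.ble (Nat.add (Nat.mul (Nat.add a 1) (Nat.mul K S)) (Nat.add (Nat.mul g1 h1) (Nat.mul g2 l2)))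
      (Nat.add l3 (Nat.mul K l2))) ||
  -- `(1 + e₁) (c - 3 e₂) < a - 1`
  (Nat.ble (Nat.add (Nat.mul (Nat.add S h1) h3) 1)
      (Nat.add (Nat.mul (Nat.sub a 1) (Nat.mul K (Nat.mul S S)))
        (Nat.mul (Nat.add S h1) (Nat.add (Nat.mul g1 l1) (Nat.mul (Nat.add g2 (Nat.mul 3 K)) l2))))) ||
  -- `e₂ (1 + 4 e₁ + e₁²) > e₁`
  (Nat.ble (Nat.add (Nat.mul h1 (Nat.mul S S)) 1)
      (Nat.mul l2 (Nat.add (Nat.mul S S) (Nat.add (Nat.mul 4 (Nat.mul S l1)) (Nat.mul l1 l1))))) ||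
  -- `e₂ > (2 a + 3) e₁²`
  (Nat.ble (Nat.add (Nat.mul (Nat.add (Nat.mul 2 a) 3) (Nat.mul h1 h1)) 1) (Nat.mul l2 S))

/-- certificate trees -/
inductive Tr where
  /-- box outside of the region -/
  | O : Tr
  /-- sign change between `T` and `T + 1` -/
  | L : ℕ → Tr
  /-- bisect the first coordinate -/
  | A : Tr → Tr → Tr
  /-- bisect the second coordinate -/
  | B : Tr → Tr → Tr
  /-- bisect the third coordinate -/
  | C : Tr → Tr → Tr

/-- the checker; box with centre `(P1, P2, P3)` and radii `(r1, r2, r3)` -/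
def check (sp : Bool) (a S K g1 g2 B0 : ℕ) : (t : Tr) → (P1 r1 P2 r2 P3 r3 : ℕ) → Bool
  | Tr.O, P1, r1, P2, r2, P3, r3 => outT a S K g1 g2 (Nat.sub P1 r1) (Nat.add P1 r1)
      (Nat.sub P2 r2) (Nat.add P2 r2) (Nat.sub P3 r3) (Nat.add P3 r3)
  | Tr.L T, P1, r1, P2, r2, P3, r3 => leafT sp a S K g1 g2 B0 T P1 r1 P2 r2 P3 r3
  | Tr.A t1 t2, P1, r1, P2, r2, P3, r3 =>
      (fun q => Nat.beq (Nat.mul 2 q) r1 &&
        (check sp a S K g1 g2 B0 t1 (Nat.sub P1 q) q P2 r2 P3 r3 &&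
          check sp a S K g1 g2 B0 t2 (Nat.add P1 q) q P2 r2 P3 r3)) (Nat.div r1 2)
  | Tr.B t1 t2, P1, r1, P2, r2, P3, r3 =>
      (fun q => Nat.beq (Nat.mul 2 q) r2 &&
        (check sp a S K g1 g2 B0 t1 P1 r1 (Nat.sub P2 q) q P3 r3 &&
          check sp a S K g1 g2 B0 t2 P1 r1 (Nat.add P2 q) q P3 r3)) (Nat.div r2 2)
  | Tr.C t1 t2, P1, r1, P2, r2, P3, r3 =>
      (fun q => Nat.beq (Nat.mul 2 q) r3 &&
        (check sp a S K g1 g2 B0 t1 P1 r1 P2 r2 (Nat.sub P3 q) q &&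
          check sp a S K g1 g2 B0 t2 P1 r1 P2 r2 (Nat.add P3 q) q)) (Nat.div r3 2)

end Pool.Agent.BX
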