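import Mathlib
import Pool.Agent.BX.Chk

set_option autoImplicit false

namespace Pool.Agent.BX

open Finset

/-- **Boxes outside of the region.**  `E₁ = S e₁ ∈ [l1, h1]`, `E₂ = S e₂ ∈ [l2, h2]`,
`E₃ = K S s ∈ [l3, h3]`, `K S c = E₃ - g1 E₁ - g2 E₂`.  Each of the four alternatives of `outT`
contradicts one of the inequalities:
(1) `K S (c + e₂) = E₃ - g1 E₁ + (K - g2) E₂ ≥ l3 - g1 h1 + min ((K - g2) l2, (K - g2) h2)
≥ (a+1) K S` against `r1`;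
(2) `K S² (1 + e₁)(c - 3 e₂) = (S + E₁)(E₃ - g1 E₁ - (g2 + 3 K) E₂)`; the second factor is
`≤ h3 - g1 l1 - (g2 + 3K) l2 =: w`, if it is `≤ 0` the product is `≤ 0 < (a-1) K S²`
(so that `r2` fails), otherwise the product is `≤ (S + h1) w < (a-1) K S²`;
(3) `l2 (S² + 4 S l1 + l1²) > h1 S²` against `r3` (`e₁ ≤ 1` is not needed: `r3` says
`E₂ (S² + 4 S E₁ + E₁²) ≤ E₁ S²`, monotone);
(4) `l2 S > (2a+3) h1²` against `r4`.
`Nat.ble m n = true ↔ m ≤ n` (`Nat.ble_eq`), `Nat.sub a 1` is `a - 1`. -/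
theorem outT_sound {a S K g1 g2 l1 h1 l2 h2 l3 h3 : ℕ} (ha : 2 ≤ a) (hS : 0 < S) (hK : 0 < K)
    {e1 e2 c E1 E2 E3 : ℝ} (q1 : E1 = S * e1) (q2 : E2 = S * e2)
    (q3 : K * S * c = E3 - g1 * E1 - g2 * E2)
    (b1 : (l1 : ℝ) ≤ E1) (b1' : E1 ≤ h1) (b2 : (l2 : ℝ) ≤ E2) (b2' : E2 ≤ h2)
    (b3 : (l3 : ℝ) ≤ E3) (b3' : E3 ≤ h3)
    (r1 : c + e2 < a + 1) (r2 : (a : ℝ) - 1 ≤ (1 + e1) * (c - 3 * e2))
    (r3 : e2 * (1 + 4 * e1 + e1 ^ 2) ≤ e1) (r4 : e2 ≤ (2 * a + 3) * e1 ^ 2) :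
    outT a S K g1 g2 l1 h1 l2 h2 l3 h3 = false := by
  have hSr : (0 : ℝ) < S := by exact_mod_cast hS
  have hKr : (0 : ℝ) < K := by exact_mod_cast hK
  have har : (2 : ℝ) ≤ a := by exact_mod_cast ha
  have g1r : (0 : ℝ) ≤ g1 := Nat.cast_nonneg g1
  have g2r : (0 : ℝ) ≤ g2 := Nat.cast_nonneg g2
  have l1r : (0 : ℝ) ≤ l1 := Nat.cast_nonneg l1
  have l2r : (0 : ℝ) ≤ l2 := Nat.cast_nonneg l2
  have l3r : (0 : ℝ) ≤ l3 := Nat.cast_nonneg l3
  have E1r : 0 ≤ E1 := l1r.trans b1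
  have E2r : 0 ≤ E2 := l2r.trans b2
  have hsub : ((a - 1 : ℕ) : ℝ) = (a : ℝ) - 1 := by
    rw [Nat.cast_sub (by omega), Nat.cast_one]
  have f1 : (g1 : ℝ) * E1 ≤ g1 * h1 := mul_le_mul_of_nonneg_left b1' g1r
  have f1' : (g1 : ℝ) * l1 ≤ g1 * E1 := mul_le_mul_of_nonneg_left b1 g1r
  rw [Bool.eq_false_iff]
  intro h
  simp only [outT, Bool.or_eq_true, Bool.and_eq_true, Nat.ble_eq, Nat.add_eq, Nat.mul_eq,
    Nat.sub_eq] at h
  rcases h with ((⟨u1, u2⟩ | u) | u) | u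
  · have u1' : ((a : ℝ) + 1) * (K * S) + (g1 * h1 + g2 * h2) ≤ l3 + K * h2 := by exact_mod_cast u1
    have u2' : ((a : ℝ) + 1) * (K * S) + (g1 * h1 + g2 * l2) ≤ l3 + K * l2 := by exact_mod_cast u2
    have hKS : (0 : ℝ) < K * S := mul_pos hKr hSr
    have m1 := mul_lt_mul_of_pos_left r1 hKS
    have m2 : (K : ℝ) * S * (c + e2) = E3 - g1 * E1 + (K - g2) * E2 := by
      rw [mul_add, q3, q2]
      ring
    rw [m2] at m1
    rcases le_total (g2 : ℝ) K with hk | hk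
    · have m3 : ((K : ℝ) - g2) * l2 ≤ (K - g2) * E2 :=
        mul_le_mul_of_nonneg_left b2 (by linarith)
      nlinarith
    · have m3 : ((g2 : ℝ) - K) * E2 ≤ (g2 - K) * h2 :=
        mul_le_mul_of_nonneg_left b2' (by linarith)
      nlinarith
  · have u' : ((S : ℝ) + h1) * h3 + 1 ≤ ((a - 1 : ℕ) : ℝ) * (K * (S * S)) +
        (S + h1) * (g1 * l1 + (g2 + 3 * K) * l2) := by exact_mod_cast u
    rw [hsub] at u'
    have hKS : (0 : ℝ) < K * (S * S) := by positivity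
    have m1 := mul_le_mul_of_nonneg_left r2 hKS.le
    have m2 : (K : ℝ) * (S * S) * ((1 + e1) * (c - 3 * e2)) =
        (S + E1) * (E3 - g1 * E1 - (g2 + 3 * K) * E2) := by
      have m3 : (K : ℝ) * (S * S) * ((1 + e1) * (c - 3 * e2)) =
          (S + S * e1) * (K * S * c - 3 * K * (S * e2)) := by ring
      rw [m3, q3, ← q1, ← q2]
      ring
    rw [m2] at m1
    obtain ⟨w, hw⟩ : ∃ w : ℝ, w = h3 - g1 * l1 - (g2 + 3 * K) * l2 := ⟨_, rfl⟩
    have f2 : ((g2 : ℝ) + 3 * K) * l2 ≤ (g2 + 3 * K) * E2 :=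
      mul_le_mul_of_nonneg_left b2 (by positivity)
    have hW : E3 - g1 * E1 - (g2 + 3 * K) * E2 ≤ w := by
      rw [hw]
      linarith
    have m4 : (S + E1) * (E3 - g1 * E1 - (g2 + 3 * K) * E2) ≤ (S + E1) * w :=
      mul_le_mul_of_nonneg_left hW (by positivity)
    have u2 : ((S : ℝ) + h1) * w < (K : ℝ) * (S * S) * ((a : ℝ) - 1) := by
      have e : ((S : ℝ) + h1) * w = (S + h1) * h3 - (S + h1) * (g1 * l1 + (g2 + 3 * K) * l2) := by
        rw [hw]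
        ring
      rw [e]
      linarith
    rcases le_total w 0 with h0 | h0
    · have m5 : (S + E1) * w ≤ 0 := mul_nonpos_of_nonneg_of_nonpos (by positivity) h0
      have m6 : 0 < (K : ℝ) * (S * S) * ((a : ℝ) - 1) := mul_pos hKS (by linarith)
      linarith
    · have m5 : (S + E1) * w ≤ (S + h1) * w := mul_le_mul_of_nonneg_right (by linarith) h0
      linarith
  · have u' : (h1 : ℝ) * (S * S) + 1 ≤ l2 * (S * S + (4 * (S * l1) + l1 * l1)) := by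
      exact_mod_cast u
    have hS3 : (0 : ℝ) < S ^ 3 := by positivity
    have m1 := mul_le_mul_of_nonneg_left r3 hS3.le
    have m2 : (S : ℝ) ^ 3 * (e2 * (1 + 4 * e1 + e1 ^ 2)) =
        E2 * (S * S + (4 * (S * E1) + E1 * E1)) := by
      rw [q1, q2]
      ring
    have m3 : (S : ℝ) ^ 3 * e1 = E1 * (S * S) := by
      rw [q1]
      ring
    rw [m2, m3] at m1
    have m4 : E1 * ((S : ℝ) * S) ≤ h1 * (S * S) := mul_le_mul_of_nonneg_right b1' (by positivity)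
    have m5 : (l2 : ℝ) * (S * S + (4 * (S * l1) + l1 * l1)) ≤
        E2 * (S * S + (4 * (S * E1) + E1 * E1)) := by
      apply mul_le_mul b2 _ (by positivity) E2r
      have m6 : (S : ℝ) * l1 ≤ S * E1 := mul_le_mul_of_nonneg_left b1 hSr.le
      have m7 : (l1 : ℝ) * l1 ≤ E1 * E1 := mul_le_mul b1 b1 l1r E1r
      linarith
    linarith
  · have u' : (2 * (a : ℝ) + 3) * (h1 * h1) + 1 ≤ l2 * S := by exact_mod_cast u
    have hS2 : (0 : ℝ) < S ^ 2 := by positivity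
    have m1 := mul_le_mul_of_nonneg_left r4 hS2.le
    have m2 : (S : ℝ) ^ 2 * e2 = E2 * S := by
      rw [q2]
      ring
    have m3 : (S : ℝ) ^ 2 * ((2 * a + 3) * e1 ^ 2) = (2 * a + 3) * (E1 * E1) := by
      rw [q1]
      ring
    rw [m2, m3] at m1
    have m4 : (l2 : ℝ) * S ≤ E2 * S := mul_le_mul_of_nonneg_right b2 hSr.le
    have m5 : E1 * E1 ≤ (h1 : ℝ) * h1 := mul_le_mul b1' b1' E1r (E1r.trans b1')
    have m6 : (2 * (a : ℝ) + 3) * (E1 * E1) ≤ (2 * a + 3) * (h1 * h1) :=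
      mul_le_mul_of_nonneg_left m5 (by positivity)
    linarith

end Pool.Agent.BX
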