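import Mathlib

set_option autoImplicit false

namespace Pool.Agent.BX

open Finset

/-- the factor of the Lloyd sum -/
noncomputable def qq (a T : ℕ) (e1 e2 c : ℝ) (j : ℕ) : ℝ :=
  ((T : ℝ) - j) * ((1 - j * e1) * (c + (T + j) * e2)) / ((j + 1) * (a + 1 + j) * (1 - j * (e1 * e2)))

/-- tail sums `∑ᵢ (-1)ⁱ q(j) q(j+1) … q(j+i-1)`, `i ≤ T - j` -/
noncomputable def tl (q : ℕ → ℝ) (T j : ℕ) : ℝ :=
  ∑ i ∈ range (T - j + 1), (-1) ^ i * ∏ r ∈ range i, q (j + r)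

/-- the normalized Lloyd polynomial at `T`, in the parameters `e1 = 1/n`, `e2 = n/N`, `c = n L/N` -/
noncomputable def Psi (a T : ℕ) (e1 e2 c : ℝ) : ℝ := tl (qq a T e1 e2 c) T 0

/-- `X` encodes (modulo `b⁷`) the affine form `v + p x + q y + r z` (`x, y, z ∈ [-1, 1]`), which
approximates `f` with error at most `U - V - G`; `V`, `G` bound the constant and the linear part. -/
def Rep (b : ℤ) (x y z : ℝ) (f : ℝ) (X : ℤ) (V G U : ℝ) : Prop :=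
  ∃ v p q r : ℤ, b ^ 7 ∣ X - (v + p * b ^ 4 + q * b ^ 5 + r * b ^ 6) ∧ |(v : ℝ)| ≤ V ∧
    |(p : ℝ)| + |(q : ℝ)| + |(r : ℝ)| ≤ G ∧ |f - v - (p * x + q * y + r * z)| ≤ U - V - G

end Pool.Agent.BX
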