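import Mathlib
import Pool.Agent.BX.Defs

set_option autoImplicit false

namespace Pool.Agent.BX

open Finset

/-- recurrence of the tail sums: split off the term `i = 0` and reindex (`prod_range_succ'`). -/
theorem tl_top (q : ℕ → ℝ) (T : ℕ) : tl q T T = 1 := by
  simp [tl]

theorem tl_succ (q : ℕ → ℝ) {T j : ℕ} (h : j < T) : tl q T j = 1 - q j * tl q T (j + 1) := by
  have e : T - j + 1 = (T - (j + 1) + 1) + 1 := by omega
  unfold tl
  rw [e, sum_range_succ']
  have h2 : ∀ i ∈ range (T - (j + 1) + 1), (-1 : ℝ) ^ (i + 1) * ∏ r ∈ range (i + 1), q (j + r) =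
      -(q j * ((-1) ^ i * ∏ r ∈ range i, q (j + 1 + r))) := by
    intro i _
    rw [prod_range_succ', pow_succ]
    have h3 : ∏ k ∈ range i, q (j + (k + 1)) = ∏ r ∈ range i, q (j + 1 + r) := by
      apply prod_congr rfl
      intro k _
      rw [show j + (k + 1) = j + 1 + k by ring]
    rw [h3, add_zero]
    ring
  rw [sum_congr rfl h2, sum_neg_distrib, ← mul_sum]
  simp
  ring

/-- product of affine forms.  Take `v v'`, `v p' + v' p`, …; the difference of the encodings is divisible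
by `b⁷` since `b⁸ ∣` all products of two linear terms.  With `f = v + l + e`, `f' = v' + l' + e'`
(`|l| ≤ G`, `|e| ≤ R := U - V - G`):
`f f' - v v' - (v l' + v' l) = l l' + v e' + v' e + l e' + l' e + e e'`, bounded by
`G G' + V R' + V' R + G R' + G' R + R R' = U U' - V V' - (V G' + G V')`. -/
theorem Rep.mul {b : ℤ} {x y z f f' : ℝ} {X X' : ℤ} {V G U V' G' U' : ℝ} (hx : |x| ≤ 1)
    (hy : |y| ≤ 1) (hz : |z| ≤ 1) (h : Rep b x y z f X V G U) (h' : Rep b x y z f' X' V' G' U') :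
    Rep b x y z (f * f') (X * X') (V * V') (V * G' + G * V') (U * U') := by
  obtain ⟨v, p, q, r, ⟨k, hk⟩, hv, hl, he⟩ := h
  obtain ⟨v', p', q', r', ⟨k', hk'⟩, hv', hl', he'⟩ := h'
  have hX : X = v + p * b ^ 4 + q * b ^ 5 + r * b ^ 6 + b ^ 7 * k := by linarith
  have hX' : X' = v' + p' * b ^ 4 + q' * b ^ 5 + r' * b ^ 6 + b ^ 7 * k' := by linarith
  have hV0 : 0 ≤ V := (abs_nonneg _).trans hv
  have hV0' : 0 ≤ V' := (abs_nonneg _).trans hv'
  have hG0 : 0 ≤ G := le_trans (by positivity) hl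
  have hG0' : 0 ≤ G' := le_trans (by positivity) hl'
  refine ⟨v * v', v * p' + v' * p, v * q' + v' * q, v * r' + v' * r, ?_, ?_, ?_, ?_⟩
  · refine ⟨k * (v' + p' * b ^ 4 + q' * b ^ 5 + r' * b ^ 6) +
      k' * (v + p * b ^ 4 + q * b ^ 5 + r * b ^ 6) + b ^ 7 * k * k' +
      b * (p + q * b + r * b ^ 2) * (p' + q' * b + r' * b ^ 2), ?_⟩
    rw [hX, hX']
    ring
  · push_cast
    rw [abs_mul]
    exact mul_le_mul hv hv' (abs_nonneg _) hV0
  · push_cast
    have h1 : |(v : ℝ) * p' + v' * p| ≤ |(v : ℝ)| * |(p' : ℝ)| + |(v' : ℝ)| * |(p : ℝ)| := by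
      refine (abs_add_le _ _).trans (le_of_eq ?_)
      rw [abs_mul, abs_mul]
    have h2 : |(v : ℝ) * q' + v' * q| ≤ |(v : ℝ)| * |(q' : ℝ)| + |(v' : ℝ)| * |(q : ℝ)| := by
      refine (abs_add_le _ _).trans (le_of_eq ?_)
      rw [abs_mul, abs_mul]
    have h3 : |(v : ℝ) * r' + v' * r| ≤ |(v : ℝ)| * |(r' : ℝ)| + |(v' : ℝ)| * |(r : ℝ)| := by
      refine (abs_add_le _ _).trans (le_of_eq ?_)
      rw [abs_mul, abs_mul]
    have h4 : |(v : ℝ)| * (|(p' : ℝ)| + |(q' : ℝ)| + |(r' : ℝ)|) ≤ V * G' :=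
      mul_le_mul hv hl' (by positivity) hV0
    have h5 : |(v' : ℝ)| * (|(p : ℝ)| + |(q : ℝ)| + |(r : ℝ)|) ≤ V' * G :=
      mul_le_mul hv' hl (by positivity) hV0'
    linarith
  · push_cast
    have hlin : ∀ (p q r : ℝ), |p * x + q * y + r * z| ≤ |p| + |q| + |r| := by
      intro p q r
      have a1 : |p * x| ≤ |p| := by
        rw [abs_mul]
        exact mul_le_of_le_one_right (abs_nonneg _) hx
      have a2 : |q * y| ≤ |q| := by
        rw [abs_mul]
        exact mul_le_of_le_one_right (abs_nonneg _) hy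
      have a3 : |r * z| ≤ |r| := by
        rw [abs_mul]
        exact mul_le_of_le_one_right (abs_nonneg _) hz
      have a4 := abs_add_le (p * x + q * y) (r * z)
      have a5 := abs_add_le (p * x) (q * y)
      linarith
    obtain ⟨l, hldef⟩ : ∃ l, l = (p : ℝ) * x + q * y + r * z := ⟨_, rfl⟩
    obtain ⟨l', hldef'⟩ : ∃ l', l' = (p' : ℝ) * x + q' * y + r' * z := ⟨_, rfl⟩
    have hL : |l| ≤ G := by
      rw [hldef]
      exact (hlin _ _ _).trans hl
    have hL' : |l'| ≤ G' := by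
      rw [hldef']
      exact (hlin _ _ _).trans hl'
    rw [← hldef] at he
    rw [← hldef'] at he'
    obtain ⟨e, hedef⟩ : ∃ e, e = f - v - l := ⟨_, rfl⟩
    obtain ⟨e', hedef'⟩ : ∃ e', e' = f' - v' - l' := ⟨_, rfl⟩
    rw [← hedef] at he
    rw [← hedef'] at he'
    have hR0 : 0 ≤ U - V - G := (abs_nonneg _).trans he
    have key : f * f' - v * v' - (((v : ℝ) * p' + v' * p) * x + (v * q' + v' * q) * y +
        (v * r' + v' * r) * z) = l * l' + v * e' + e * v' + l * e' + e * l' + e * e' := by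
      have hf : f = v + l + e := by rw [hedef]; ring
      have hf' : f' = v' + l' + e' := by rw [hedef']; ring
      rw [hf, hf', hldef, hldef']
      ring
    rw [key]
    have b1 : |l * l'| ≤ G * G' := by
      rw [abs_mul]
      exact mul_le_mul hL hL' (abs_nonneg _) hG0
    have b2 : |(v : ℝ) * e'| ≤ V * (U' - V' - G') := by
      rw [abs_mul]
      exact mul_le_mul hv he' (abs_nonneg _) hV0
    have b3 : |e * (v' : ℝ)| ≤ (U - V - G) * V' := by
      rw [abs_mul]
      exact mul_le_mul he hv' (abs_nonneg _) hR0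
    have b4 : |l * e'| ≤ G * (U' - V' - G') := by
      rw [abs_mul]
      exact mul_le_mul hL he' (abs_nonneg _) hG0
    have b5 : |e * l'| ≤ (U - V - G) * G' := by
      rw [abs_mul]
      exact mul_le_mul he hL' (abs_nonneg _) hR0
    have b6 : |e * e'| ≤ (U - V - G) * (U' - V' - G') := by
      rw [abs_mul]
      exact mul_le_mul he he' (abs_nonneg _) hR0
    have c1 := abs_add_le (l * l' + v * e' + e * v' + l * e' + e * l') (e * e')
    have c2 := abs_add_le (l * l' + v * e' + e * v' + l * e') (e * l')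
    have c3 := abs_add_le (l * l' + v * e' + e * v') (l * e')
    have c4 := abs_add_le (l * l' + v * e') (e * v')
    have c5 := abs_add_le (l * l') (v * e')
    have c6 : U * U' - V * V' - (V * G' + G * V') = G * G' + V * (U' - V' - G') +
        (U - V - G) * V' + G * (U' - V' - G') + (U - V - G) * G' +
        (U - V - G) * (U' - V' - G') := by ring
    rw [c6]
    linarith

theorem Rep.add {b : ℤ} {x y z f f' : ℝ} {X X' : ℤ} {V G U V' G' U' : ℝ}
    (h : Rep b x y z f X V G U) (h' : Rep b x y z f' X' V' G' U') :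
    Rep b x y z (f + f') (X + X') (V + V') (G + G') (U + U') := by
  obtain ⟨v, p, q, r, ⟨k, hk⟩, hv, hl, he⟩ := h
  obtain ⟨v', p', q', r', ⟨k', hk'⟩, hv', hl', he'⟩ := h'
  refine ⟨v + v', p + p', q + q', r + r', ⟨k + k', ?_⟩, ?_, ?_, ?_⟩
  · rw [mul_add, ← hk, ← hk']
    ring
  · push_cast
    exact (abs_add_le _ _).trans (add_le_add hv hv')
  · push_cast
    have h1 := abs_add_le (p : ℝ) p'
    have h2 := abs_add_le (q : ℝ) q'
    have h3 := abs_add_le (r : ℝ) r'
    linarith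
  · push_cast
    have h1 := abs_add_le (f - v - (p * x + q * y + r * z)) (f' - v' - (p' * x + q' * y + r' * z))
    have e : f + f' - ((v : ℝ) + v') - (((p : ℝ) + p') * x + (q + q') * y + (r + r') * z) =
        (f - v - (p * x + q * y + r * z)) + (f' - v' - (p' * x + q' * y + r' * z)) := by ring
    rw [e]
    linarith

theorem Rep.smul {b : ℤ} {x y z f : ℝ} {X : ℤ} {V G U : ℝ} (k : ℕ)
    (h : Rep b x y z f X V G U) :
    Rep b x y z ((k : ℝ) * f) ((k : ℤ) * X) ((k : ℝ) * V) ((k : ℝ) * G) ((k : ℝ) * U) := by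
  obtain ⟨v, p, q, r, ⟨m, hm⟩, hv, hl, he⟩ := h
  have hk : (0 : ℝ) ≤ k := Nat.cast_nonneg k
  refine ⟨k * v, k * p, k * q, k * r, ⟨k * m, ?_⟩, ?_, ?_, ?_⟩
  · rw [mul_left_comm, ← hm]
    ring
  · push_cast
    rw [abs_mul, abs_of_nonneg hk]
    exact mul_le_mul_of_nonneg_left hv hk
  · push_cast
    rw [abs_mul, abs_mul, abs_mul, abs_of_nonneg hk, ← mul_add, ← mul_add]
    exact mul_le_mul_of_nonneg_left hl hk
  · push_cast
    have e : (k : ℝ) * f - k * v - (k * p * x + k * q * y + k * r * z) =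
        k * (f - v - (p * x + q * y + r * z)) := by ring
    rw [e, abs_mul, abs_of_nonneg hk]
    refine (mul_le_mul_of_nonneg_left he hk).trans (le_of_eq ?_)
    ring

theorem Rep.neg {b : ℤ} {x y z f : ℝ} {X : ℤ} {V G U : ℝ} (h : Rep b x y z f X V G U) :
    Rep b x y z (-f) (-X) V G U := by
  obtain ⟨v, p, q, r, ⟨m, hm⟩, hv, hl, he⟩ := h
  refine ⟨-v, -p, -q, -r, ⟨-m, ?_⟩, ?_, ?_, ?_⟩
  · rw [mul_neg, ← hm]
    ring
  · push_cast
    rw [abs_neg]
    exact hv
  · push_cast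
    rw [abs_neg, abs_neg, abs_neg]
    exact hl
  · push_cast
    have e : -f - -(v : ℝ) - (-(p : ℝ) * x + -q * y + -r * z) =
        -(f - v - (p * x + q * y + r * z)) := by ring
    rw [e, abs_neg]
    exact he

theorem Rep.congr {b : ℤ} {x y z f : ℝ} {X X' : ℤ} {V G U : ℝ} (hX : b ^ 7 ∣ X - X')
    (h : Rep b x y z f X V G U) : Rep b x y z f X' V G U := by
  obtain ⟨v, p, q, r, hd, hv, hl, he⟩ := h
  refine ⟨v, p, q, r, ?_, hv, hl, he⟩
  have e : X' - (v + p * b ^ 4 + q * b ^ 5 + r * b ^ 6) =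
      X - (v + p * b ^ 4 + q * b ^ 5 + r * b ^ 6) - (X - X') := by ring
  rw [e]
  exact dvd_sub hd hX

theorem Rep.lin {b : ℤ} {x y z : ℝ} (v p q r : ℤ) {X : ℤ} {V G : ℝ}
    (hX : b ^ 7 ∣ X - (v + p * b ^ 4 + q * b ^ 5 + r * b ^ 6)) (hV : |(v : ℝ)| = V)
    (hG : |(p : ℝ)| + |(q : ℝ)| + |(r : ℝ)| = G) :
    Rep b x y z (v + (p * x + q * y + r * z)) X V G (V + G) := by
  refine ⟨v, p, q, r, hX, le_of_eq hV, le_of_eq hG, ?_⟩
  have e : (v : ℝ) + (p * x + q * y + r * z) - v - (p * x + q * y + r * z) = 0 := by ring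
  rw [e, abs_zero]
  linarith

theorem Rep.one (b : ℤ) (x y z : ℝ) : Rep b x y z 1 1 1 0 1 := by
  refine ⟨1, 0, 0, 0, ?_, ?_, ?_, ?_⟩
  · simp
  · simp
  · simp
  · simp

end Pool.Agent.BX
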