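import Mathlib
import Pool.Agent.BX.RepL
import Pool.Agent.BX.Chk

set_option autoImplicit false

namespace Pool.Agent.BX

open Finset

theorem ad_cast (m n : ℕ) : ((ad m n : ℕ) : ℝ) = |(m : ℝ) - n| := by
  have h : ad m n = (m - n) + (n - m) := rfl
  rw [h]
  rcases le_total m n with h1 | h1
  · rw [Nat.sub_eq_zero_of_le h1, zero_add, Nat.cast_sub h1, abs_of_nonpos, neg_sub]
    have : (m : ℝ) ≤ n := by exact_mod_cast h1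
    linarith
  · rw [Nat.sub_eq_zero_of_le h1, add_zero, Nat.cast_sub h1, abs_of_nonneg]
    have : (n : ℝ) ≤ m := by exact_mod_cast h1
    linarith


/-- `-X` modulo `M`, as a natural number -/
theorem neg_mod {M X : ℕ} (hM : 0 < M) : (M : ℤ) ∣ ((M - X % M : ℕ) : ℤ) - (-(X : ℤ)) := by
  have h1 : X % M ≤ M := (Nat.mod_lt X hM).le
  refine ⟨1 + ((X / M : ℕ) : ℤ), ?_⟩
  have h2 : ((M * (X / M) + X % M : ℕ) : ℤ) = X := by exact_mod_cast Nat.div_add_mod X M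
  rw [Nat.cast_sub h1]
  push_cast at h2 ⊢
  linear_combination -h2


/-- the form `S - j E₁`, `E₁ = P1 + r1 x` (`Rep.lin` with `v = S - j P1`, `p = - j r1`, `q = r = 0`) -/
theorem base_A {b S j P1 r1 : ℕ} (hb : 0 < b) (x y z : ℝ) :
    Rep b x y z ((S : ℝ) - j * (P1 + r1 * x))
      ((S + j * (b ^ 7 - (P1 + r1 * b ^ 4) % b ^ 7) : ℕ) : ℤ)
      ((ad S (j * P1) : ℕ) : ℝ) ((j * r1 : ℕ) : ℝ) ((ad S (j * P1) + j * r1 : ℕ) : ℝ) := by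
  have hM : 0 < b ^ 7 := pow_pos hb 7
  obtain ⟨k, hk⟩ := neg_mod (X := P1 + r1 * b ^ 4) hM
  have h := Rep.lin (b := (b : ℤ)) (x := x) (y := y) (z := z) ((S : ℤ) - j * P1) (-((j : ℤ) * r1)) 0 0
    (X := ((S + j * (b ^ 7 - (P1 + r1 * b ^ 4) % b ^ 7) : ℕ) : ℤ))
    (V := ((ad S (j * P1) : ℕ) : ℝ)) (G := ((j * r1 : ℕ) : ℝ)) ?_ ?_ ?_
  · have e1 : ((((S : ℤ) - j * P1 : ℤ) : ℝ) + (((-((j : ℤ) * r1) : ℤ) : ℝ) * x + ((0 : ℤ) : ℝ) * y +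
        ((0 : ℤ) : ℝ) * z)) = (S : ℝ) - j * (P1 + r1 * x) := by
      push_cast
      ring
    rw [e1] at h
    rw [Nat.cast_add (ad S (j * P1))]
    exact h
  · refine ⟨(j : ℤ) * k, ?_⟩
    rw [Nat.cast_add, Nat.cast_mul]
    push_cast at hk ⊢
    linear_combination (j : ℤ) * hk
  · rw [ad_cast]
    push_cast
    rfl
  · push_cast
    rw [abs_neg, abs_of_nonneg (by positivity), abs_zero]
    ring


/-- the form `E₃ - g1 E₁ - g2 E₂ + (T + j) K E₂`, `E₂ = P2 + r2 y`, `E₃ = P3 + r3 z`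
(`Rep.lin` with `v = P3 - g1 P1 - g2 P2 + (T+j) K P2`, `p = - g1 r1`, `q = ((T+j) K - g2) r2`,
`r = r3`). -/
theorem base_C {b K T j P1 r1 P2 r2 P3 r3 g1 g2 : ℕ} (hb : 0 < b) (x y z : ℝ) :
    Rep b x y z (((P3 : ℝ) + r3 * z) - g1 * (P1 + r1 * x) - g2 * (P2 + r2 * y) +
        (T + j) * (K * (P2 + r2 * y)))
      (((P3 + r3 * b ^ 6 + (g1 * (b ^ 7 - (P1 + r1 * b ^ 4) % b ^ 7) +
        g2 * (b ^ 7 - (P2 + r2 * b ^ 5) % b ^ 7))) + (T + j) * (K * (P2 + r2 * b ^ 5)) : ℕ) : ℤ)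
      ((ad (P3 + (T + j) * (K * P2)) (g1 * P1 + g2 * P2) : ℕ) : ℝ)
      (((r3 + g1 * r1) + ad ((T + j) * K) g2 * r2 : ℕ) : ℝ)
      ((ad (P3 + (T + j) * (K * P2)) (g1 * P1 + g2 * P2) +
        ((r3 + g1 * r1) + ad ((T + j) * K) g2 * r2) : ℕ) : ℝ) := by
  have hM : 0 < b ^ 7 := pow_pos hb 7
  obtain ⟨k1, hk1⟩ := neg_mod (X := P1 + r1 * b ^ 4) hM
  obtain ⟨k2, hk2⟩ := neg_mod (X := P2 + r2 * b ^ 5) hM
  have h := Rep.lin (b := (b : ℤ)) (x := x) (y := y) (z := z)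
    ((P3 : ℤ) - g1 * P1 - g2 * P2 + (T + j) * (K * P2)) (-((g1 : ℤ) * r1))
    ((((T : ℤ) + j) * K - g2) * r2) (r3 : ℤ)
    (X := (((P3 + r3 * b ^ 6 + (g1 * (b ^ 7 - (P1 + r1 * b ^ 4) % b ^ 7) +
        g2 * (b ^ 7 - (P2 + r2 * b ^ 5) % b ^ 7))) + (T + j) * (K * (P2 + r2 * b ^ 5)) : ℕ) : ℤ))
    (V := ((ad (P3 + (T + j) * (K * P2)) (g1 * P1 + g2 * P2) : ℕ) : ℝ))
    (G := (((r3 + g1 * r1) + ad ((T + j) * K) g2 * r2 : ℕ) : ℝ)) ?_ ?_ ?_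
  · have e1 : ((((P3 : ℤ) - g1 * P1 - g2 * P2 + (T + j) * (K * P2) : ℤ) : ℝ) +
        (((-((g1 : ℤ) * r1) : ℤ) : ℝ) * x + (((((T : ℤ) + j) * K - g2) * r2 : ℤ) : ℝ) * y +
        ((r3 : ℤ) : ℝ) * z)) = ((P3 : ℝ) + r3 * z) - g1 * (P1 + r1 * x) - g2 * (P2 + r2 * y) +
        (T + j) * (K * (P2 + r2 * y)) := by
      push_cast
      ring
    rw [e1] at h
    rw [Nat.cast_add (ad (P3 + (T + j) * (K * P2)) (g1 * P1 + g2 * P2))]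
    exact h
  · refine ⟨(g1 : ℤ) * k1 + (g2 : ℤ) * k2, ?_⟩
    rw [Nat.cast_add, Nat.cast_add, Nat.cast_add, Nat.cast_add, Nat.cast_mul g1, Nat.cast_mul g2]
    push_cast at hk1 hk2 ⊢
    linear_combination (g1 : ℤ) * hk1 + (g2 : ℤ) * hk2
  · rw [ad_cast]
    push_cast
    congr 1
    ring
  · rw [Nat.cast_add, Nat.cast_mul, ad_cast]
    push_cast
    rw [abs_neg, abs_mul _ (r2 : ℝ), abs_of_nonneg (by positivity : (0 : ℝ) ≤ g1 * r1),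
      abs_of_nonneg (by positivity : (0 : ℝ) ≤ (r2 : ℝ)),
      abs_of_nonneg (by positivity : (0 : ℝ) ≤ (r3 : ℝ))]
    ring


/-- the form `S2 - j K E₁ E₂`: `E₁ E₂ = P1 P2 + P1 r2 y + P2 r1 x + r1 r2 x y`, so (directly from the
definition of `Rep`) `v = S2 - j K P1 P2`, `p = - j K P2 r1`, `q = - j K P1 r2`, `r = 0`, the error is
`j K r1 r2 |x y| ≤ j K r1 r2`. The encoding: `(P1 + r1 b⁴)(P2 + r2 b⁵)` has the additional term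
`r1 r2 b⁹`. -/
theorem base_Q {b K S2 j P1 r1 P2 r2 : ℕ} (hb : 0 < b) {x y z : ℝ} (hx : |x| ≤ 1) (hy : |y| ≤ 1) :
    Rep b x y z ((S2 : ℝ) - j * (K * ((P1 + r1 * x) * (P2 + r2 * y))))
      ((S2 + j * (b ^ 7 - (K * ((P1 + r1 * b ^ 4) * (P2 + r2 * b ^ 5))) % b ^ 7) : ℕ) : ℤ)
      ((ad S2 (j * (K * (P1 * P2))) : ℕ) : ℝ) ((j * (K * (P1 * r2 + P2 * r1)) : ℕ) : ℝ)
      ((ad S2 (j * (K * (P1 * P2))) +
        j * ((K * (P1 * r2 + P2 * r1)) + K * (r1 * r2)) : ℕ) : ℝ) := by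
  have hM : 0 < b ^ 7 := pow_pos hb 7
  obtain ⟨k, hk⟩ := neg_mod (X := K * ((P1 + r1 * b ^ 4) * (P2 + r2 * b ^ 5))) hM
  refine ⟨(S2 : ℤ) - j * (K * (P1 * P2)), -((j : ℤ) * (K * (P2 * r1))),
    -((j : ℤ) * (K * (P1 * r2))), 0, ?_, ?_, ?_, ?_⟩
  · refine ⟨(j : ℤ) * k - j * (K * (r1 * r2)) * b ^ 2, ?_⟩
    rw [Nat.cast_add, Nat.cast_mul j]
    push_cast at hk ⊢
    linear_combination (j : ℤ) * hk
  · rw [ad_cast]
    push_cast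
    exact le_rfl
  · push_cast
    rw [abs_neg, abs_neg, abs_of_nonneg (by positivity), abs_of_nonneg (by positivity), abs_zero]
    apply le_of_eq
    ring
  · rw [Nat.cast_add (ad S2 (j * (K * (P1 * P2))))]
    have e1 : (S2 : ℝ) - j * (K * ((P1 + r1 * x) * (P2 + r2 * y))) -
        (((S2 : ℤ) - j * (K * (P1 * P2)) : ℤ) : ℝ) -
        (((-((j : ℤ) * (K * (P2 * r1))) : ℤ) : ℝ) * x + ((-((j : ℤ) * (K * (P1 * r2))) : ℤ) : ℝ) * y +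
          ((0 : ℤ) : ℝ) * z) = -((j : ℝ) * (K * (r1 * r2)) * (x * y)) := by
      push_cast
      ring
    rw [e1, abs_neg, abs_mul, abs_of_nonneg (by positivity : (0 : ℝ) ≤ j * (K * (r1 * r2)))]
    have h1 : |x * y| ≤ 1 := by
      rw [abs_mul]
      exact mul_le_one₀ hx (abs_nonneg y) hy
    have h2 : (j : ℝ) * (K * (r1 * r2)) * |x * y| ≤ (j : ℝ) * (K * (r1 * r2)) * 1 :=
      mul_le_mul_of_nonneg_left h1 (by positivity)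
    refine h2.trans (le_of_eq ?_)
    push_cast
    ring


end Pool.Agent.BX
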