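import Mathlib
import Pool.Agent.BX.Defs
import Pool.Agent.BX.Chk

set_option autoImplicit false

namespace Pool.Agent.BX

open Finset

private theorem Dec_eq (h b b4 M X V G U Y : ℕ)
    (hY : (X + h * (1 + b4 * (1 + b * (1 + b)))) % M = Y) : dec h b b4 M X V G U =
      cond (Nat.ble h U) 0
        (cond (Nat.ble (h + (ad (Y / b4 % b) h + (ad (Y / b4 / b % b) h + ad (Y / b4 / b / b) h) +
          (U - (V + G))) + 1) (Y % b4)) 1
          (cond (Nat.ble (Y % b4 + (ad (Y / b4 % b) h + (ad (Y / b4 / b % b) h +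
            ad (Y / b4 / b / b) h) + (U - (V + G))) + 1) h) 2 0)) := by
  subst hY
  rfl

private theorem Dec_ad (x y : ℕ) : ((ad x y : ℕ) : ℝ) = |(x : ℝ) - y| := by
  have h1 : ad x y = (x - y) + (y - x) := rfl
  rw [h1]
  rcases le_total x y with h | h
  · have h2 : (x : ℝ) ≤ y := by exact_mod_cast h
    rw [Nat.sub_eq_zero_of_le h, zero_add, Nat.cast_sub h, abs_of_nonpos (by linarith)]
    ring
  · have h2 : (y : ℝ) ≤ x := by exact_mod_cast h
    rw [Nat.sub_eq_zero_of_le h, add_zero, Nat.cast_sub h, abs_of_nonneg (by linarith)]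

private theorem Dec_shift {h : ℕ} {v : ℤ} (hv : |(v : ℝ)| < h) :
    ∃ v' : ℕ, (v' : ℤ) = v + h ∧ v' < 2 * h ∧ (v' : ℝ) = v + h := by
  have h1 := abs_lt.1 hv
  have h2 : -(h : ℤ) < v := by exact_mod_cast h1.1
  have h3 : v < (h : ℤ) := by exact_mod_cast h1.2
  refine ⟨(v + h).toNat, Int.toNat_of_nonneg (by omega), by omega, ?_⟩
  have h4 : (((v + h).toNat : ℕ) : ℤ) = v + h := Int.toNat_of_nonneg (by omega)
  exact_mod_cast congrArg (Int.cast : ℤ → ℝ) h4

private theorem Dec_lt {b v p q r : ℕ} (hv : v < b) (hp : p < b) (hq : q < b) (hr : r < b) :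
    v < b ^ 4 ∧ v + b ^ 4 * (p + b * (q + b * r)) < b ^ 7 := by
  have hb : 1 ≤ b := by omega
  have h1 : b ≤ b ^ 4 := Nat.le_self_pow (by norm_num) b
  have h2 : q + b * r + 1 ≤ b ^ 2 := by
    have : b * (r + 1) ≤ b * b := Nat.mul_le_mul_left b hr
    nlinarith
  have h3 : p + b * (q + b * r) + 1 ≤ b ^ 3 := by
    have : b * (q + b * r + 1) ≤ b * b ^ 2 := Nat.mul_le_mul_left b h2
    nlinarith
  have h4 : b ^ 4 * (p + b * (q + b * r) + 1) ≤ b ^ 4 * b ^ 3 := Nat.mul_le_mul_left _ h3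
  refine ⟨by omega, ?_⟩
  have h5 : b ^ 4 * b ^ 3 = b ^ 7 := by ring
  rw [h5, mul_add, mul_one] at h4
  omega

/-- **The sign test.**  Let `b = 2 h`, `M = b⁷`, `v, p, q, r` as in `Rep`.  If `h ≤ U` then `dec = 0`,
nothing to show.  Otherwise `V + G ≤ U < h` (as `0 ≤ U - V - G`, `Rep` contains an absolute value) so
`|v|, |p|, |q|, |r| < h`, and `v + h, p + h, q + h, r + h` are integers in `(0, b)`; the number
`(v + h) + (p + h) b⁴ + (q + h) b⁵ + (r + h) b⁶` lies in `[0, b⁷)` and is congruent to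
`X + h (1 + b⁴ + b⁵ + b⁶)` modulo `b⁷`; so it is `Y`, and its digits are `y0 = Y % b⁴ = v + h`,
`q1 = Y / b⁴`, `y1 = q1 % b = p + h`, `q2 = q1 / b`, `q2 % b = q + h`, `q2 / b = r + h`.
(`ad y1 h = |p|` etc.)  `U - (V + G)` is the natural number `R`.  If `h + Rr + 1 ≤ y0` then
`v > |p| + |q| + |r| + R ≥ |f - v|`, so `f > 0`.  If `y0 + Rr + 1 ≤ h` then `f < 0`. -/
theorem dec_sound {h X V G U : ℕ} (hh : 0 < h) {x y z f : ℝ} (hx : |x| ≤ 1) (hy : |y| ≤ 1)
    (hz : |z| ≤ 1) (hR : Rep ((2 * h : ℕ) : ℤ) x y z f X V G U) :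
    (dec h (2 * h) ((2 * h) ^ 4) ((2 * h) ^ 7) X V G U = 1 → 0 < f) ∧
    (dec h (2 * h) ((2 * h) ^ 4) ((2 * h) ^ 7) X V G U = 2 → f < 0) := by
  obtain ⟨v, p, q, r, hdvd, hvV, hG, hf⟩ := hR
  by_cases hhU : h ≤ U
  · have h1 : dec h (2 * h) ((2 * h) ^ 4) ((2 * h) ^ 7) X V G U = 0 := by
      rw [Dec_eq _ _ _ _ _ _ _ _ _ rfl, Nat.ble_eq_true_of_le hhU]
      rfl
    rw [h1]
    exact ⟨fun h2 => absurd h2 (by norm_num), fun h2 => absurd h2 (by norm_num)⟩
  rw [not_le] at hhU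
  have hUR : (U : ℝ) < h := by exact_mod_cast hhU
  have hVG : (V : ℝ) + G ≤ U := by
    have := (abs_nonneg _).trans hf
    linarith
  have hVGn : V + G ≤ U := by exact_mod_cast hVG
  have hV0 : (0 : ℝ) ≤ V := Nat.cast_nonneg V
  have hG0 : (0 : ℝ) ≤ G := Nat.cast_nonneg G
  have ap := abs_nonneg (p : ℝ)
  have aq := abs_nonneg (q : ℝ)
  have ar := abs_nonneg (r : ℝ)
  obtain ⟨v', hv1, hv2, hv3⟩ := Dec_shift (h := h) (v := v) (by linarith)
  obtain ⟨p', hp1, hp2, hp3⟩ := Dec_shift (h := h) (v := p) (by linarith)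
  obtain ⟨q', hq1, hq2, hq3⟩ := Dec_shift (h := h) (v := q) (by linarith)
  obtain ⟨r', hr1, hr2, hr3⟩ := Dec_shift (h := h) (v := r) (by linarith)
  obtain ⟨hvb, hlt⟩ := Dec_lt hv2 hp2 hq2 hr2
  have hY : (X + h * (1 + (2 * h) ^ 4 * (1 + (2 * h) * (1 + (2 * h))))) % (2 * h) ^ 7 =
      v' + (2 * h) ^ 4 * (p' + (2 * h) * (q' + (2 * h) * r')) := by
    have h1 : (v' + (2 * h) ^ 4 * (p' + (2 * h) * (q' + (2 * h) * r'))) ≡
        (X + h * (1 + (2 * h) ^ 4 * (1 + (2 * h) * (1 + (2 * h))))) [MOD (2 * h) ^ 7] := by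
      rw [Nat.modEq_iff_dvd]
      have e0 : (((X + h * (1 + (2 * h) ^ 4 * (1 + (2 * h) * (1 + (2 * h)))) : ℕ) : ℤ)) -
          ((v' + (2 * h) ^ 4 * (p' + (2 * h) * (q' + (2 * h) * r')) : ℕ) : ℤ) =
          X - (v + p * ((2 * h : ℕ) : ℤ) ^ 4 + q * ((2 * h : ℕ) : ℤ) ^ 5 +
            r * ((2 * h : ℕ) : ℤ) ^ 6) := by
        push_cast
        rw [hv1, hp1, hq1, hr1]
        ring
      rw [e0, Nat.cast_pow]
      exact hdvd
    have h2 : (v' + (2 * h) ^ 4 * (p' + (2 * h) * (q' + (2 * h) * r'))) % (2 * h) ^ 7 =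
        v' + (2 * h) ^ 4 * (p' + (2 * h) * (q' + (2 * h) * r')) := Nat.mod_eq_of_lt hlt
    rw [← h2]
    exact h1.symm
  have hb4 : 0 < (2 * h) ^ 4 := by positivity
  have hb : 0 < 2 * h := by omega
  have e1 : (v' + (2 * h) ^ 4 * (p' + (2 * h) * (q' + (2 * h) * r'))) % (2 * h) ^ 4 = v' := by
    rw [Nat.add_mul_mod_self_left, Nat.mod_eq_of_lt hvb]
  have e2 : (v' + (2 * h) ^ 4 * (p' + (2 * h) * (q' + (2 * h) * r'))) / (2 * h) ^ 4 =
      p' + (2 * h) * (q' + (2 * h) * r') := by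
    rw [Nat.add_mul_div_left _ _ hb4, Nat.div_eq_of_lt hvb, zero_add]
  have e3 : (p' + (2 * h) * (q' + (2 * h) * r')) % (2 * h) = p' := by
    rw [Nat.add_mul_mod_self_left, Nat.mod_eq_of_lt hp2]
  have e4 : (p' + (2 * h) * (q' + (2 * h) * r')) / (2 * h) = q' + (2 * h) * r' := by
    rw [Nat.add_mul_div_left _ _ hb, Nat.div_eq_of_lt hp2, zero_add]
  have e5 : (q' + (2 * h) * r') % (2 * h) = q' := by
    rw [Nat.add_mul_mod_self_left, Nat.mod_eq_of_lt hq2]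
  have e6 : (q' + (2 * h) * r') / (2 * h) = r' := by
    rw [Nat.add_mul_div_left _ _ hb, Nat.div_eq_of_lt hq2, zero_add]
  rw [Dec_eq _ _ _ _ _ _ _ _ _ hY, e1, e2, e3, e4, e5, e6]
  set Rr : ℕ := ad p' h + (ad q' h + ad r' h) + (U - (V + G)) with hRr
  have hRrR : (Rr : ℝ) = |(p : ℝ)| + |(q : ℝ)| + |(r : ℝ)| + (U - V - G) := by
    rw [hRr]
    push_cast [Nat.cast_sub hVGn]
    rw [Dec_ad, Dec_ad, Dec_ad, hp3, hq3, hr3, add_sub_cancel_right, add_sub_cancel_right,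
      add_sub_cancel_right]
    ring
  have hnb : Nat.ble h U = false := by
    rw [← Bool.not_eq_true, Nat.ble_eq]
    omega
  rw [hnb]
  have bp : |(p : ℝ) * x| ≤ |(p : ℝ)| := by
    rw [abs_mul]
    exact mul_le_of_le_one_right ap hx
  have bq : |(q : ℝ) * y| ≤ |(q : ℝ)| := by
    rw [abs_mul]
    exact mul_le_of_le_one_right aq hy
  have br : |(r : ℝ) * z| ≤ |(r : ℝ)| := by
    rw [abs_mul]
    exact mul_le_of_le_one_right ar hz
  have cp := abs_le.1 bp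
  have cq := abs_le.1 bq
  have cr := abs_le.1 br
  have cf := abs_le.1 hf
  constructor
  · intro h1
    by_cases h2 : h + Rr + 1 ≤ v'
    · have h3 : ((h : ℝ)) + Rr + 1 ≤ v' := by exact_mod_cast h2
      rw [hv3, hRrR] at h3
      linarith [cp.1, cq.1, cr.1, cf.1]
    · have h3 : Nat.ble (h + Rr + 1) v' = false := by
        rw [← Bool.not_eq_true, Nat.ble_eq]
        exact h2
      rw [h3] at h1
      by_cases h4 : v' + Rr + 1 ≤ h
      · rw [Nat.ble_eq_true_of_le h4] at h1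
        exact absurd (show (2 : ℕ) = 1 from h1) (by norm_num)
      · have h5 : Nat.ble (v' + Rr + 1) h = false := by
          rw [← Bool.not_eq_true, Nat.ble_eq]
          exact h4
        rw [h5] at h1
        exact absurd (show (0 : ℕ) = 1 from h1) (by norm_num)
  · intro h1
    by_cases h2 : h + Rr + 1 ≤ v'
    · rw [Nat.ble_eq_true_of_le h2] at h1
      exact absurd (show (1 : ℕ) = 2 from h1) (by norm_num)
    · have h3 : Nat.ble (h + Rr + 1) v' = false := by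
        rw [← Bool.not_eq_true, Nat.ble_eq]
        exact h2
      rw [h3] at h1
      by_cases h4 : v' + Rr + 1 ≤ h
      · have h5 : (v' : ℝ) + Rr + 1 ≤ h := by exact_mod_cast h4
        rw [hv3, hRrR] at h5
        linarith [cp.2, cq.2, cr.2, cf.2]
      · have h5 : Nat.ble (v' + Rr + 1) h = false := by
          rw [← Bool.not_eq_true, Nat.ble_eq]
          exact h4
        rw [h5] at h1
        exact absurd (show (0 : ℕ) = 2 from h1) (by norm_num)

end Pool.Agent.BX
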