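import Mathlib
import Pool.Agent.BX.RepL
import Pool.Agent.BX.Chk

set_option autoImplicit false

namespace Pool.Agent.BX

open Finset

/-- **The loop.**  Induction on `t`.  `t = 0`: nothing to do.  Step `t + 1`, `j = t < T`: `loop … (t+1) …`
unfolds (by `rfl`; `Nat.add m n` is `m + n` etc.) to `loop … t …` with the new state, where
`D' = den * Q j * D` (`den = (j+1)(a+1+j)`), and, by `tl_succ` and `hq`,
`D' * tl q T j = D' - D' * q j * tl q T (j+1) = D' - num * ((A j * C j) * (D * tl q T (j+1)))` with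
`num = T - j`.  Use `Rep.mul`, `Rep.smul`, `Rep.neg`, `Rep.add`; the reductions modulo `M = b⁷` and the
natural subtraction `M - XF` (`XF ≤ M`; it is `≡ - XF`) are handled by `Rep.congr`
(`(Nat.mod m M : ℤ) ≡ m`, e.g. `Int.emod_emod_of_dvd`, `Int.dvd_sub_self_of_emod_eq`,
`Nat.cast` and `Int.emod_add_ediv`).  Then apply the induction hypothesis: the new `XF` is `< M`. -/
theorem loop_sound {M a T S S2 K P1 r1 nX1 KX2 nXH XC0 Cp Cn CG C2 g2 r2 PP GH RH : ℕ} {b : ℤ}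
    {x y z : ℝ} (hx : |x| ≤ 1) (hy : |y| ≤ 1) (hz : |z| ≤ 1) (hM0 : 0 < M) (hM : (M : ℤ) = b ^ 7)
    (A C Q q : ℕ → ℝ)
    (hA : ∀ j < T, Rep b x y z (A j) ((S + j * nX1 : ℕ) : ℤ) ((ad S (j * P1) : ℕ) : ℝ)
      ((j * r1 : ℕ) : ℝ) ((ad S (j * P1) + j * r1 : ℕ) : ℝ))
    (hC : ∀ j < T, Rep b x y z (C j) ((XC0 + (T + j) * KX2 : ℕ) : ℤ)
      ((ad (Cp + (T + j) * C2) Cn : ℕ) : ℝ) ((CG + ad ((T + j) * K) g2 * r2 : ℕ) : ℝ)
      ((ad (Cp + (T + j) * C2) Cn + (CG + ad ((T + j) * K) g2 * r2) : ℕ) : ℝ))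
    (hQ : ∀ j < T, Rep b x y z (Q j) ((S2 + j * nXH : ℕ) : ℤ) ((ad S2 (j * PP) : ℕ) : ℝ)
      ((j * GH : ℕ) : ℝ) ((ad S2 (j * PP) + j * (GH + RH) : ℕ) : ℝ))
    (hQ0 : ∀ j < T, 0 < Q j)
    (hq : ∀ j < T, q j * (((j : ℝ) + 1) * (a + 1 + j) * Q j) = ((T : ℝ) - j) * (A j * C j)) :
    ∀ t ≤ T, ∀ (D : ℝ) (XD VD GD UD XF VF GF UF : ℕ) (out : ℕ → ℕ → ℕ → ℕ → ℕ), 0 < D → XF ≤ M →
      Rep b x y z D XD VD GD UD → Rep b x y z (D * tl q T t) XF VF GF UF →
      ∃ (D' : ℝ) (X V G U : ℕ), 0 < D' ∧ Rep b x y z (D' * tl q T 0) X V G U ∧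
        loop M a T S S2 K P1 r1 nX1 KX2 nXH XC0 Cp Cn CG C2 g2 r2 PP GH RH t
          XD VD GD UD XF VF GF UF out = out X V G U := by
  have hcongr : ∀ {f : ℝ} {X : ℕ} {V G U : ℝ}, Rep b x y z f (X : ℤ) V G U →
      Rep b x y z f ((Nat.mod X M : ℕ) : ℤ) V G U := by
    intro f X V G U h
    refine Rep.congr ?_ h
    rw [← hM]
    have e : (Nat.mod X M : ℕ) = X % M := rfl
    rw [e, Int.natCast_mod]
    exact Int.dvd_self_sub_emod
  intro t
  induction t with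
  | zero =>
    intro _ D XD VD GD UD XF VF GF UF out hD _ _ hF
    exact ⟨D, XF, VF, GF, UF, hD, hF, rfl⟩
  | succ t ih =>
    intro htT D XD VD GD UD XF VF GF UF out hD hXF hRD hRF
    have htT' : t < T := htT
    have hAj := hA t htT'
    have hCj := hC t htT'
    have hQj := hQ t htT'
    -- the new `D`
    have hD1 := (Rep.mul hx hy hz hQj hRD).smul ((t + 1) * (a + 1 + t))
    have hD2 : Rep b x y z ((((t + 1) * (a + 1 + t) : ℕ) : ℝ) * (Q t * D))
        ((Nat.mod (Nat.mul ((t + 1) * (a + 1 + t))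
          (Nat.mul (S2 + t * nXH) XD)) M : ℕ) : ℤ)
        (((Nat.mul ((t + 1) * (a + 1 + t)) (Nat.mul (ad S2 (t * PP)) VD)) : ℕ) : ℝ)
        (((Nat.mul ((t + 1) * (a + 1 + t)) (Nat.add (Nat.mul (ad S2 (t * PP)) GD)
          (Nat.mul (t * GH) VD))) : ℕ) : ℝ)
        (((Nat.mul ((t + 1) * (a + 1 + t))
          (Nat.mul (ad S2 (t * PP) + t * (GH + RH)) UD)) : ℕ) : ℝ) := by
      apply hcongr
      simp only [Nat.mul_eq, Nat.add_eq]
      push_cast
      push_cast at hD1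
      exact hD1
    have hp : Rep b x y z (A t * C t)
        ((Nat.mod (Nat.mul (S + t * nX1) (XC0 + (T + t) * KX2)) M : ℕ) : ℤ)
        ((Nat.mul (ad S (t * P1)) (ad (Cp + (T + t) * C2) Cn) : ℕ) : ℝ)
        ((Nat.add (Nat.mul (ad S (t * P1)) (CG + ad ((T + t) * K) g2 * r2))
          (Nat.mul (t * r1) (ad (Cp + (T + t) * C2) Cn)) : ℕ) : ℝ)
        ((Nat.mul (Nat.add (ad S (t * P1)) (t * r1))
          (Nat.add (ad (Cp + (T + t) * C2) Cn) (CG + ad ((T + t) * K) g2 * r2)) : ℕ) : ℝ) := by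
      apply hcongr
      have := Rep.mul hx hy hz hAj hCj
      simp only [Nat.mul_eq, Nat.add_eq]
      push_cast
      push_cast at this
      exact this
    have hneg : Rep b x y z (-(D * tl q T (t + 1))) ((Nat.sub M XF : ℕ) : ℤ) VF GF UF := by
      refine Rep.congr ?_ hRF.neg
      rw [← hM]
      have e : ((Nat.sub M XF : ℕ) : ℤ) = M - XF := by
        have : (Nat.sub M XF : ℕ) = M - XF := rfl
        rw [this, Nat.cast_sub hXF]
      rw [e]
      exact ⟨-1, by ring⟩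
    have hF1 := Rep.add hD2 ((Rep.mul hx hy hz hp hneg).smul (T - t))
    set D' : ℝ := (((t + 1) * (a + 1 + t) : ℕ) : ℝ) * (Q t * D) with hD'
    have hD'0 : 0 < D' := by
      have h1 : (0 : ℝ) < (((t + 1) * (a + 1 + t) : ℕ) : ℝ) := by
        have : 0 < (t + 1) * (a + 1 + t) := by positivity
        exact_mod_cast this
      exact mul_pos h1 (mul_pos (hQ0 t htT') hD)
    have hval : D' + ((T - t : ℕ) : ℝ) * (A t * C t * -(D * tl q T (t + 1))) = D' * tl q T t := by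
      rw [tl_succ q htT']
      have h1 := hq t htT'
      have h2 : ((T - t : ℕ) : ℝ) = (T : ℝ) - t := by
        rw [Nat.cast_sub htT'.le]
      rw [h2]
      have h3 : D' * (1 - q t * tl q T (t + 1))
          = D' - (q t * (((t : ℝ) + 1) * (a + 1 + t) * Q t)) * (D * tl q T (t + 1)) := by
        rw [hD']; push_cast; ring
      rw [h3, h1]; ring
    rw [hval] at hF1
    have hF2 := ih htT'.le D'
      (Nat.mod (Nat.mul ((t + 1) * (a + 1 + t)) (Nat.mul (S2 + t * nXH) XD)) M)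
      (Nat.mul ((t + 1) * (a + 1 + t)) (Nat.mul (ad S2 (t * PP)) VD))
      (Nat.mul ((t + 1) * (a + 1 + t)) (Nat.add (Nat.mul (ad S2 (t * PP)) GD)
          (Nat.mul (t * GH) VD)))
      (Nat.mul ((t + 1) * (a + 1 + t))
          (Nat.mul (ad S2 (t * PP) + t * (GH + RH)) UD))
      (Nat.mod (Nat.add (Nat.mod (Nat.mul ((t + 1) * (a + 1 + t)) (Nat.mul (S2 + t * nXH) XD)) M)
        (Nat.mul (T - t) (Nat.mul (Nat.mod (Nat.mul (S + t * nX1) (XC0 + (T + t) * KX2)) M)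
          (Nat.sub M XF)))) M)
      (Nat.add (Nat.mul ((t + 1) * (a + 1 + t)) (Nat.mul (ad S2 (t * PP)) VD))
        (Nat.mul (T - t) (Nat.mul (Nat.mul (ad S (t * P1)) (ad (Cp + (T + t) * C2) Cn)) VF)))
      (Nat.add (Nat.mul ((t + 1) * (a + 1 + t)) (Nat.add (Nat.mul (ad S2 (t * PP)) GD)
          (Nat.mul (t * GH) VD)))
        (Nat.mul (T - t) (Nat.add (Nat.mul (Nat.mul (ad S (t * P1)) (ad (Cp + (T + t) * C2) Cn)) GF)
          (Nat.mul (Nat.add (Nat.mul (ad S (t * P1)) (CG + ad ((T + t) * K) g2 * r2))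
          (Nat.mul (t * r1) (ad (Cp + (T + t) * C2) Cn))) VF))))
      (Nat.add (Nat.mul ((t + 1) * (a + 1 + t))
          (Nat.mul (ad S2 (t * PP) + t * (GH + RH)) UD))
        (Nat.mul (T - t) (Nat.mul (Nat.mul (Nat.add (ad S (t * P1)) (t * r1))
          (Nat.add (ad (Cp + (T + t) * C2) Cn) (CG + ad ((T + t) * K) g2 * r2))) UF)))
      out hD'0 (Nat.mod_lt _ hM0).le hD2 ?_
    · obtain ⟨D'', X, V, G, U, h1, h2, h3⟩ := hF2
      refine ⟨D'', X, V, G, U, h1, h2, ?_⟩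
      rw [← h3]
      rfl
    · apply hcongr
      simp only [Nat.mul_eq, Nat.add_eq]
      simp only [Nat.mul_eq, Nat.add_eq] at hF1
      push_cast
      push_cast at hF1
      exact hF1

end Pool.Agent.BX
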