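import Mathlib
import Pool.Agent.BX.Base
import Pool.Agent.BX.Loop
import Pool.Agent.BX.Dec

set_option autoImplicit false

namespace Pool.Agent.BX

open Finset

private theorem sgn_eq (a S K g1 g2 B0 T P1 r1 P2 r2 P3 r3 h : ℕ)
    (hh : Nat.pow 2 (Nat.add (Nat.mul T B0) 20) = h) :
    sgnT a S K g1 g2 B0 T P1 r1 P2 r2 P3 r3 =
      loop ((2 * h) ^ 7) a T S (K * (S * S)) K P1 r1
        ((2 * h) ^ 7 - (P1 + r1 * (2 * h) ^ 4) % (2 * h) ^ 7) (K * (P2 + r2 * (2 * h) ^ 5))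
        ((2 * h) ^ 7 - (K * ((P1 + r1 * (2 * h) ^ 4) * (P2 + r2 * (2 * h) ^ 5))) % (2 * h) ^ 7)
        (P3 + r3 * (2 * h) ^ 6 + (g1 * ((2 * h) ^ 7 - (P1 + r1 * (2 * h) ^ 4) % (2 * h) ^ 7) +
          g2 * ((2 * h) ^ 7 - (P2 + r2 * (2 * h) ^ 5) % (2 * h) ^ 7)))
        P3 (g1 * P1 + g2 * P2) (r3 + g1 * r1) (K * P2) g2 r2 (K * (P1 * P2))
        (K * (P1 * r2 + P2 * r1)) (K * (r1 * r2)) T 1 1 0 1 1 1 0 1
        (dec h (2 * h) ((2 * h) ^ 4) ((2 * h) ^ 7)) := by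
  have e5 : (2 * h) ^ 5 = (2 * h) ^ 4 * (2 * h) := by ring
  have e6 : (2 * h) ^ 6 = (2 * h) ^ 4 * ((2 * h) * (2 * h)) := by ring
  have e7 : (2 * h) ^ 7 = (2 * h) ^ 4 * ((2 * h) * ((2 * h) * (2 * h))) := by ring
  have e4 : (2 * h) ^ 4 = ((2 * h) * (2 * h)) * ((2 * h) * (2 * h)) := by ring
  rw [e7, e6, e5, e4]
  unfold sgnT
  rw [hh]
  rfl

private theorem sgn_Q {S K j : ℕ} {E1 E2 e1 e2 : ℝ} (hS : 0 < S) (hK : 0 < K) (f1 : E1 = S * e1)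
    (f2 : E2 = S * e2) (h1 : 0 < 1 - (j : ℝ) * (e1 * e2)) :
    0 < ((K * (S * S) : ℕ) : ℝ) - j * (K * (E1 * E2)) := by
  have h2 : ((K * (S * S) : ℕ) : ℝ) - j * (K * (E1 * E2)) =
      K * (S * S) * (1 - (j : ℝ) * (e1 * e2)) := by
    rw [f1, f2]
    push_cast
    ring
  rw [h2]
  have h3 : (0 : ℝ) < K := by exact_mod_cast hK
  have h4 : (0 : ℝ) < S := by exact_mod_cast hS
  positivity

private theorem sgn_q {a T S K j : ℕ} {E1 E2 E3 e1 e2 c : ℝ} (f1 : E1 = S * e1)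
    (f2 : E2 = S * e2) (f3 : E3 = K * S * c) (h1 : 0 < 1 - (j : ℝ) * (e1 * e2)) :
    qq a T e1 e2 c j * (((j : ℝ) + 1) * (a + 1 + j) *
      (((K * (S * S) : ℕ) : ℝ) - j * (K * (E1 * E2)))) = ((T : ℝ) - j) *
      (((S : ℝ) - j * E1) * (E3 + (T + j) * (K * E2))) := by
  have h2 : (j : ℝ) + 1 ≠ 0 := by positivity
  have h3 : (a : ℝ) + 1 + j ≠ 0 := by positivity
  rw [f3, f1, f2]
  unfold qq
  push_cast
  rw [div_mul_eq_mul_div, div_eq_iff (mul_ne_zero (mul_ne_zero h2 h3) h1.ne')]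
  ring

/-- Assembly of `base_A`, `base_C`, `base_Q`, `loop_sound` (with `t = T`, `D = 1`, all states `1 1 0 1`)
and `dec_sound`: with `E₁ = P1 + r1 x`, `E₂ = P2 + r2 y`, `E₃ = P3 + r3 z`, `e₁ = E₁/S`, `e₂ = E₂/S`,
`c = (E₃ - g1 E₁ - g2 E₂)/(K S)`:
`A j = S - j E₁ = S (1 - j e₁)`, `C j = E₃ - g1 E₁ - g2 E₂ + (T+j) K E₂ = K S (c + (T+j) e₂)`,
`Q j = K S² - j K E₁ E₂ = K S² (1 - j (e₁ e₂))`, `q = qq a T e₁ e₂ c`.
`Nat.mul`, `Nat.add`, … are `*`, `+`, … by `rfl` (`show`); `Nat.mul (Nat.mul b b) (Nat.mul b b) = b ^ 4`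
etc. by `ring`. -/
theorem sgnT_sound {a S K g1 g2 B0 T P1 r1 P2 r2 P3 r3 : ℕ} (hS : 0 < S) (hK : 0 < K)
    {x y z : ℝ} (hx : |x| ≤ 1) (hy : |y| ≤ 1) (hz : |z| ≤ 1)
    (hpos : ∀ j < T, 0 < 1 - (j : ℝ) * (((P1 + r1 * x) / S) * ((P2 + r2 * y) / S))) :
    (sgnT a S K g1 g2 B0 T P1 r1 P2 r2 P3 r3 = 1 →
      0 < Psi a T ((P1 + r1 * x) / S) ((P2 + r2 * y) / S)
        ((P3 + r3 * z - g1 * (P1 + r1 * x) - g2 * (P2 + r2 * y)) / (K * S))) ∧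
    (sgnT a S K g1 g2 B0 T P1 r1 P2 r2 P3 r3 = 2 →
      Psi a T ((P1 + r1 * x) / S) ((P2 + r2 * y) / S)
        ((P3 + r3 * z - g1 * (P1 + r1 * x) - g2 * (P2 + r2 * y)) / (K * S)) < 0) := by
  obtain ⟨h, hh⟩ : ∃ h, Nat.pow 2 (Nat.add (Nat.mul T B0) 20) = h := ⟨_, rfl⟩
  have hh0 : 0 < h := by
    rw [← hh]
    exact Nat.pow_pos (by norm_num)
  have hb : 0 < 2 * h := by omega
  rw [sgn_eq a S K g1 g2 B0 T P1 r1 P2 r2 P3 r3 h hh]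
  have hS' : (S : ℝ) ≠ 0 := by
    have : (0 : ℝ) < S := by exact_mod_cast hS
    exact this.ne'
  have hK' : (K : ℝ) ≠ 0 := by
    have : (0 : ℝ) < K := by exact_mod_cast hK
    exact this.ne'
  have f1 : (P1 : ℝ) + r1 * x = S * ((P1 + r1 * x) / S) := by
    field_simp
  have f2 : (P2 : ℝ) + r2 * y = S * ((P2 + r2 * y) / S) := by
    field_simp
  have f3 : (P3 : ℝ) + r3 * z - g1 * (P1 + r1 * x) - g2 * (P2 + r2 * y) = K * S *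
      ((P3 + r3 * z - g1 * (P1 + r1 * x) - g2 * (P2 + r2 * y)) / (K * S)) := by
    field_simp
  have hQ := fun j hj => sgn_Q (j := j) hS hK f1 f2 (hpos j hj)
  have hq := fun j hj => sgn_q (a := a) (T := T) (j := j) f1 f2 f3 (hpos j hj)
  obtain ⟨e1, he1⟩ : ∃ e1, e1 = ((P1 : ℝ) + r1 * x) / S := ⟨_, rfl⟩
  obtain ⟨e2, he2⟩ : ∃ e2, e2 = ((P2 : ℝ) + r2 * y) / S := ⟨_, rfl⟩
  obtain ⟨c, hc⟩ : ∃ c, c = ((P3 : ℝ) + r3 * z - g1 * (P1 + r1 * x) - g2 * (P2 + r2 * y)) / (K * S) :=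
    ⟨_, rfl⟩
  simp only [← he1, ← he2, ← hc] at hq ⊢
  have c1 : Rep ((2 * h : ℕ) : ℤ) x y z 1 ((1 : ℕ) : ℤ) ((1 : ℕ) : ℝ) ((0 : ℕ) : ℝ) ((1 : ℕ) : ℝ) := by
    have := Rep.one ((2 * h : ℕ) : ℤ) x y z
    simpa only [Nat.cast_one, Nat.cast_zero] using this
  have c2 : Rep ((2 * h : ℕ) : ℤ) x y z (1 * tl (qq a T e1 e2 c) T T) ((1 : ℕ) : ℤ) ((1 : ℕ) : ℝ)
      ((0 : ℕ) : ℝ) ((1 : ℕ) : ℝ) := by
    rw [tl_top, mul_one]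
    exact c1
  have cM : (((2 * h) ^ 7 : ℕ) : ℤ) = ((2 * h : ℕ) : ℤ) ^ 7 := by push_cast; ring
  have cM1 : 1 ≤ (2 * h) ^ 7 := Nat.pow_pos hb
  have hT := loop_sound (a := a) (K := K) (Cp := P3) (Cn := g1 * P1 + g2 * P2)
    (CG := r3 + g1 * r1) (C2 := K * P2) (g2 := g2) (r2 := r2) hx hy hz (Nat.pow_pos hb) cM
    (fun j => (S : ℝ) - j * (P1 + r1 * x))
    (fun j => ((P3 : ℝ) + r3 * z) - g1 * (P1 + r1 * x) - g2 * (P2 + r2 * y) +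
        (T + j) * (K * (P2 + r2 * y)))
    (fun j => ((K * (S * S) : ℕ) : ℝ) - j * (K * ((P1 + r1 * x) * (P2 + r2 * y))))
    (qq a T e1 e2 c)
    (fun j _ => base_A hb x y z)
    (fun j _ => base_C hb x y z)
    (fun j _ => base_Q hb hx hy) hQ hq T le_rfl 1 1 1 0 1 1 1 0 1
    (dec h (2 * h) ((2 * h) ^ 4) ((2 * h) ^ 7)) one_pos cM1 c1 c2
  obtain ⟨D', X, V, G, U, hD, hR, hl⟩ := hT
  rw [hl]
  have hd := dec_sound hh0 hx hy hz hR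
  have hPsi : Psi a T e1 e2 c = tl (qq a T e1 e2 c) T 0 := rfl
  rw [hPsi]
  refine ⟨fun h1 => ?_, fun h1 => ?_⟩
  · exact (mul_pos_iff_of_pos_left hD).1 (hd.1 h1)
  · have h2 := hd.2 h1
    by_contra h3
    have h4 := mul_nonneg hD.le (not_lt.1 h3)
    linarith

end Pool.Agent.BX
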