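import Mathlib
import Pool.Agent.BX.Sgn
import Pool.Agent.BX.Out

set_option autoImplicit false

namespace Pool.Agent.BX

open Finset

private theorem exists_unit {E P r : ℝ} (hr : 0 ≤ r) (h : |E - P| ≤ r) :
    ∃ x : ℝ, |x| ≤ 1 ∧ E = P + r * x := by
  rcases eq_or_lt_of_le hr with h0 | h0
  · refine ⟨0, by simp, ?_⟩
    rw [← h0] at h
    have : E - P = 0 := abs_nonpos_iff.mp h
    linarith
  · refine ⟨(E - P) / r, ?_, ?_⟩
    · rw [abs_div, abs_of_pos h0, div_le_one h0]; exact h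
    · field_simp; ring

private theorem mul_eq_two {m n : ℕ} (h : m * n = 2) : (m = 1 ∧ n = 2) ∨ (m = 2 ∧ n = 1) := by
  have hm : m ∣ 2 := ⟨n, h.symm⟩
  have h2 : m ≤ 2 := Nat.le_of_dvd (by norm_num) hm
  interval_cases m <;> omega

/-- **Leaves.**  `|E₁ - P1| ≤ r1` gives `x` with `|x| ≤ 1`, `E₁ = P1 + r1 x` (`x = (E₁ - P1)/r1`, or
`x = 0` if `r1 = 0`); same for `y`, `z`.  The test `T (P1 + r1)(P2 + r2) + 1 ≤ S²` gives
`T e₁ e₂ < 1`, hence `1 - j (e₁ e₂) > 0` for `j ≤ T` (`0 ≤ e₁, e₂`), so `sgnT_sound` applies to `T` and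
to `T + 1`.  The product of the two codes is `2` only for `(1, 2)` and `(2, 1)` (the codes are `0, 1, 2`:
the value of `sgnT` is a value of `dec` — or: from `m * n = 2` conclude `(m, n) = (1,2)` or `(2,1)`).
`T = 1`: `Ψ(1) > 0 > Ψ(2)`.  `sp`, `T = 2`: `Ψ(3) < 0`; `Ψ(2) > 0` is impossible by `hs` at `T = 2`
(needs `2 e₁ e₂ < 1`), `Ψ(2) < 0` by `hs` at `T = 1`, `Ψ(2) = 0` by `h2`. -/
theorem leafT_sound {sp : Bool} {a S K g1 g2 B0 T P1 r1 P2 r2 P3 r3 : ℕ} (hS : 0 < S) (hK : 0 < K)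
    {e1 e2 c E1 E2 E3 : ℝ} (q1 : E1 = S * e1) (q2 : E2 = S * e2)
    (q3 : K * S * c = E3 - g1 * E1 - g2 * E2) (he1 : 0 ≤ e1) (he2 : 0 ≤ e2)
    (b1 : |E1 - P1| ≤ r1) (b2 : |E2 - P2| ≤ r2) (b3 : |E3 - P3| ≤ r3)
    (hs : ∀ T : ℕ, 1 ≤ T → (T : ℝ) * (e1 * e2) < 1 →
      ¬ (Psi a T e1 e2 c * Psi a (T + 1) e1 e2 c < 0))
    (h1 : 0 < Psi a 1 e1 e2 c) (h2 : sp = true → Psi a 2 e1 e2 c ≠ 0) :
    leafT sp a S K g1 g2 B0 T P1 r1 P2 r2 P3 r3 = false := by
  by_contra hne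
  rw [Bool.not_eq_false] at hne
  have hSr : (0 : ℝ) < S := by exact_mod_cast hS
  have hKr : (0 : ℝ) < K := by exact_mod_cast hK
  obtain ⟨x, hx, ex⟩ := exists_unit (by positivity) b1
  obtain ⟨y, hy, ey⟩ := exists_unit (by positivity) b2
  obtain ⟨z, hz, ez⟩ := exists_unit (by positivity) b3
  have x1 : ((P1 : ℝ) + r1 * x) / S = e1 := by
    rw [← ex, q1]; field_simp
  have x2 : ((P2 : ℝ) + r2 * y) / S = e2 := by
    rw [← ey, q2]; field_simp
  have x3 : ((P3 : ℝ) + r3 * z - g1 * (P1 + r1 * x) - g2 * (P2 + r2 * y)) / (K * S) = c := by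
    rw [← ex, ← ey, ← ez, ← q3]; field_simp
  have hsound : ∀ T' : ℕ, (∀ j < T', 0 < 1 - (j : ℝ) * (e1 * e2)) →
      (sgnT a S K g1 g2 B0 T' P1 r1 P2 r2 P3 r3 = 1 → 0 < Psi a T' e1 e2 c) ∧
      (sgnT a S K g1 g2 B0 T' P1 r1 P2 r2 P3 r3 = 2 → Psi a T' e1 e2 c < 0) := by
    intro T' hT'
    have h := sgnT_sound (a := a) (S := S) (K := K) (g1 := g1) (g2 := g2) (B0 := B0) (T := T')
      (P1 := P1) (r1 := r1) (P2 := P2) (r2 := r2) (P3 := P3) (r3 := r3) hS hK hx hy hz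
      (by rw [x1, x2]; exact hT')
    rw [x1, x2, x3] at h
    exact h
  unfold leafT at hne
  rw [Bool.and_eq_true, Bool.and_eq_true] at hne
  obtain ⟨t1, t2, t3⟩ := hne
  have t1' : 1 ≤ T := Nat.le_of_ble_eq_true t1
  have t2' : T * ((P1 + r1) * (P2 + r2)) + 1 ≤ S * S := Nat.le_of_ble_eq_true t2
  have hE1 : 0 ≤ E1 := by rw [q1]; positivity
  have hE2 : 0 ≤ E2 := by rw [q2]; positivity
  have hTe : (T : ℝ) * (e1 * e2) < 1 := by
    have k1 : E1 ≤ P1 + r1 := by have := (abs_le.mp b1).2; linarith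
    have k2 : E2 ≤ P2 + r2 := by have := (abs_le.mp b2).2; linarith
    have k3 : E1 * E2 ≤ (P1 + r1) * (P2 + r2) := mul_le_mul k1 k2 hE2 (by positivity)
    have k4 : (T : ℝ) * (((P1 : ℝ) + r1) * (P2 + r2)) + 1 ≤ S * S := by exact_mod_cast t2'
    have k5 : (T : ℝ) * (E1 * E2) ≤ T * (((P1 : ℝ) + r1) * (P2 + r2)) :=
      mul_le_mul_of_nonneg_left k3 (by positivity)
    have k6 : (T : ℝ) * (e1 * e2) * (S * S) < 1 * (S * S) := by
      have : (T : ℝ) * (e1 * e2) * (S * S) = T * (E1 * E2) := by rw [q1, q2]; ring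
      rw [this]; linarith
    exact lt_of_mul_lt_mul_right k6 (by positivity)
  have hee : 0 ≤ e1 * e2 := mul_nonneg he1 he2
  have hpos : ∀ j : ℕ, j ≤ T → 0 < 1 - (j : ℝ) * (e1 * e2) := by
    intro j hj
    have : (j : ℝ) * (e1 * e2) ≤ T * (e1 * e2) :=
      mul_le_mul_of_nonneg_right (by exact_mod_cast hj) hee
    linarith
  rcases Nat.eq_or_lt_of_le t1' with hT1 | hT1
  · -- `T = 1`
    subst hT1
    have hbb : Nat.beq 1 1 = true := rfl
    rw [hbb, cond_true] at t3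
    have t4 := Nat.eq_of_beq_eq_true t3
    have k := (hsound 2 (fun j hj => hpos j (by omega))).2 t4
    have := hs 1 le_rfl hTe
    exact this (mul_neg_of_pos_of_neg h1 k)
  · have hTne : Nat.beq T 1 = false := by
      rw [Bool.eq_false_iff]
      intro h
      have := Nat.eq_of_beq_eq_true h
      omega
    rw [hTne, cond_false] at t3
    have hone : (1 : ℕ) * (e1 * e2) < 1 := by
      have := hpos 1 (by omega)
      linarith
    rcases hb : (sp && Nat.beq T 2) with _ | _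
    · rw [hb, cond_false] at t3
      have t4 := Nat.eq_of_beq_eq_true t3
      have k1 := hsound T (fun j hj => hpos j (by omega))
      have k2 := hsound (T + 1) (fun j hj => hpos j (by omega))
      rcases mul_eq_two t4 with ⟨m1, m2⟩ | ⟨m1, m2⟩
      · exact hs T t1' hTe (mul_neg_of_pos_of_neg (k1.1 m1) (k2.2 m2))
      · exact hs T t1' hTe (mul_neg_of_neg_of_pos (k1.2 m1) (k2.1 m2))
    · rw [hb, cond_true] at t3
      rw [Bool.and_eq_true] at hb
      have hT2 : T = 2 := Nat.eq_of_beq_eq_true hb.2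
      subst hT2
      have t4 := Nat.eq_of_beq_eq_true t3
      have k := (hsound 3 (fun j hj => hpos j (by omega))).2 t4
      rcases lt_trichotomy (Psi a 2 e1 e2 c) 0 with h | h | h
      · exact hs 1 le_rfl hone (mul_neg_of_pos_of_neg h1 h)
      · exact h2 hb.1 h
      · exact hs 2 (by omega) hTe (mul_neg_of_pos_of_neg h k)

/-- **The tree.**  Induction on the tree.  Inner nodes: `q = r/2`, `2 q = r`, and a point with
`|E - P| ≤ 2 q` satisfies `|E - (P - q)| ≤ q` or `|E - (P + q)| ≤ q`.  The natural subtraction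
`P - q` is the real one since `2 q = r ≤ P` (hypotheses `c1`, `c2`, `c3` are preserved: `q ≤ P - q`). -/
theorem check_sound {sp : Bool} {a S K g1 g2 B0 : ℕ} (ha : 2 ≤ a) (hS : 0 < S) (hK : 0 < K)
    {e1 e2 c E1 E2 E3 : ℝ} (q1 : E1 = S * e1) (q2 : E2 = S * e2)
    (q3 : K * S * c = E3 - g1 * E1 - g2 * E2) (he1 : 0 ≤ e1) (he2 : 0 ≤ e2)
    (hr1 : c + e2 < a + 1) (hr2 : (a : ℝ) - 1 ≤ (1 + e1) * (c - 3 * e2))
    (hr3 : e2 * (1 + 4 * e1 + e1 ^ 2) ≤ e1) (hr4 : e2 ≤ (2 * a + 3) * e1 ^ 2)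
    (hs : ∀ T : ℕ, 1 ≤ T → (T : ℝ) * (e1 * e2) < 1 →
      ¬ (Psi a T e1 e2 c * Psi a (T + 1) e1 e2 c < 0))
    (h1 : 0 < Psi a 1 e1 e2 c) (h2 : sp = true → Psi a 2 e1 e2 c ≠ 0)
    (t : Tr) (P1 r1 P2 r2 P3 r3 : ℕ) (c1 : r1 ≤ P1) (c2 : r2 ≤ P2) (c3 : r3 ≤ P3)
    (b1 : |E1 - P1| ≤ r1) (b2 : |E2 - P2| ≤ r2) (b3 : |E3 - P3| ≤ r3) :
    check sp a S K g1 g2 B0 t P1 r1 P2 r2 P3 r3 = false := by
  induction t generalizing P1 r1 P2 r2 P3 r3 with
  | O =>
    have g1' := abs_le.mp b1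
    have g2' := abs_le.mp b2
    have g3' := abs_le.mp b3
    have k1 : ((P1 - r1 : ℕ) : ℝ) = P1 - r1 := Nat.cast_sub c1
    have k2 : ((P2 - r2 : ℕ) : ℝ) = P2 - r2 := Nat.cast_sub c2
    have k3 : ((P3 - r3 : ℕ) : ℝ) = P3 - r3 := Nat.cast_sub c3
    exact outT_sound (l1 := P1 - r1) (h1 := P1 + r1) (l2 := P2 - r2) (h2 := P2 + r2)
      (l3 := P3 - r3) (h3 := P3 + r3) ha hS hK q1 q2 q3
      (by rw [k1]; linarith) (by push_cast; linarith) (by rw [k2]; linarith)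
      (by push_cast; linarith) (by rw [k3]; linarith) (by push_cast; linarith) hr1 hr2 hr3 hr4
  | L T => exact leafT_sound hS hK q1 q2 q3 he1 he2 b1 b2 b3 hs h1 h2
  | A t1 t2 ih1 ih2 =>
    show (Nat.beq (Nat.mul 2 (Nat.div r1 2)) r1 &&
        (check sp a S K g1 g2 B0 t1 (Nat.sub P1 (Nat.div r1 2)) (Nat.div r1 2) P2 r2 P3 r3 &&
          check sp a S K g1 g2 B0 t2 (Nat.add P1 (Nat.div r1 2)) (Nat.div r1 2) P2 r2 P3 r3)) = false
    rcases hb : Nat.beq (Nat.mul 2 (Nat.div r1 2)) r1 with _ | _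
    · rfl
    · have hq : 2 * (r1 / 2) = r1 := Nat.eq_of_beq_eq_true hb
      set q := r1 / 2 with hqd
      have hqr : (r1 : ℝ) = 2 * q := by exact_mod_cast hq.symm
      have hqP : q ≤ P1 := by omega
      have kq : ((P1 - q : ℕ) : ℝ) = P1 - q := Nat.cast_sub hqP
      have g1' := abs_le.mp b1
      rcases le_total E1 P1 with hE | hE
      · have := ih1 (P1 - q) q P2 r2 P3 r3 (by omega) c2 c3
          (by rw [kq, abs_le]; constructor <;> linarith) b2 b3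
        show (true && (check sp a S K g1 g2 B0 t1 (P1 - q) q P2 r2 P3 r3 &&
          check sp a S K g1 g2 B0 t2 (P1 + q) q P2 r2 P3 r3)) = false
        rw [this]; rfl
      · have := ih2 (P1 + q) q P2 r2 P3 r3 (by omega) c2 c3
          (by push_cast; rw [abs_le]; constructor <;> linarith) b2 b3
        show (true && (check sp a S K g1 g2 B0 t1 (P1 - q) q P2 r2 P3 r3 &&
          check sp a S K g1 g2 B0 t2 (P1 + q) q P2 r2 P3 r3)) = false
        rw [this, Bool.and_false]; rfl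
  | B t1 t2 ih1 ih2 =>
    show (Nat.beq (Nat.mul 2 (Nat.div r2 2)) r2 &&
        (check sp a S K g1 g2 B0 t1 P1 r1 (Nat.sub P2 (Nat.div r2 2)) (Nat.div r2 2) P3 r3 &&
          check sp a S K g1 g2 B0 t2 P1 r1 (Nat.add P2 (Nat.div r2 2)) (Nat.div r2 2) P3 r3)) = false
    rcases hb : Nat.beq (Nat.mul 2 (Nat.div r2 2)) r2 with _ | _
    · rfl
    · have hq : 2 * (r2 / 2) = r2 := Nat.eq_of_beq_eq_true hb
      set q := r2 / 2 with hqd
      have hqr : (r2 : ℝ) = 2 * q := by exact_mod_cast hq.symm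
      have hqP : q ≤ P2 := by omega
      have kq : ((P2 - q : ℕ) : ℝ) = P2 - q := Nat.cast_sub hqP
      have g1' := abs_le.mp b2
      rcases le_total E2 P2 with hE | hE
      · have := ih1 P1 r1 (P2 - q) q P3 r3 c1 (by omega) c3 b1
          (by rw [kq, abs_le]; constructor <;> linarith) b3
        show (true && (check sp a S K g1 g2 B0 t1 P1 r1 (P2 - q) q P3 r3 &&
          check sp a S K g1 g2 B0 t2 P1 r1 (P2 + q) q P3 r3)) = false
        rw [this]; rfl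
      · have := ih2 P1 r1 (P2 + q) q P3 r3 c1 (by omega) c3 b1
          (by push_cast; rw [abs_le]; constructor <;> linarith) b3
        show (true && (check sp a S K g1 g2 B0 t1 P1 r1 (P2 - q) q P3 r3 &&
          check sp a S K g1 g2 B0 t2 P1 r1 (P2 + q) q P3 r3)) = false
        rw [this, Bool.and_false]; rfl
  | C t1 t2 ih1 ih2 =>
    show (Nat.beq (Nat.mul 2 (Nat.div r3 2)) r3 &&
        (check sp a S K g1 g2 B0 t1 P1 r1 P2 r2 (Nat.sub P3 (Nat.div r3 2)) (Nat.div r3 2) &&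
          check sp a S K g1 g2 B0 t2 P1 r1 P2 r2 (Nat.add P3 (Nat.div r3 2)) (Nat.div r3 2))) = false
    rcases hb : Nat.beq (Nat.mul 2 (Nat.div r3 2)) r3 with _ | _
    · rfl
    · have hq : 2 * (r3 / 2) = r3 := Nat.eq_of_beq_eq_true hb
      set q := r3 / 2 with hqd
      have hqr : (r3 : ℝ) = 2 * q := by exact_mod_cast hq.symm
      have hqP : q ≤ P3 := by omega
      have kq : ((P3 - q : ℕ) : ℝ) = P3 - q := Nat.cast_sub hqP
      have g1' := abs_le.mp b3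
      rcases le_total E3 P3 with hE | hE
      · have := ih1 P1 r1 P2 r2 (P3 - q) q c1 c2 (by omega) b1 b2
          (by rw [kq, abs_le]; constructor <;> linarith)
        show (true && (check sp a S K g1 g2 B0 t1 P1 r1 P2 r2 (P3 - q) q &&
          check sp a S K g1 g2 B0 t2 P1 r1 P2 r2 (P3 + q) q)) = false
        rw [this]; rfl
      · have := ih2 P1 r1 P2 r2 (P3 + q) q c1 c2 (by omega) b1 b2
          (by push_cast; rw [abs_le]; constructor <;> linarith)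
        show (true && (check sp a S K g1 g2 B0 t1 P1 r1 P2 r2 (P3 - q) q &&
          check sp a S K g1 g2 B0 t2 P1 r1 P2 r2 (P3 + q) q)) = false
        rw [this, Bool.and_false]; rfl

end Pool.Agent.BX
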