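import Mathlib
import Pool.Agent.BX.Tree

set_option autoImplicit false

namespace Pool.Agent.BX

open Finset

/-- certificate for one value of `n` -/
def cf (sp : Bool) (a n κ K g2 B0 : ℕ) (t : Tr) : Bool :=
  check sp a (2 * n * 2 ^ κ) K 0 g2 B0 t (2 * 2 ^ κ) 0 (2 ^ κ) (2 ^ κ) (K * (a + 2) * n * 2 ^ κ)
    (K * (a + 2) * n * 2 ^ κ)

/-- certificate for all `n ≥ n1` -/
def cg (a n1 κ K g1 g2 B0 : ℕ) (t : Tr) : Bool :=
  check false a (2 * n1 * 2 ^ κ) K g1 g2 B0 t (2 ^ κ) (2 ^ κ) (2 ^ κ) (2 ^ κ)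
    (K * (a + 2) * n1 * 2 ^ κ) (K * (a + 2) * n1 * 2 ^ κ)

/-- the region of the parameters (`n`, `N = d + 2 n`, `L = v - 2 N - 1`) -/
structure Reg (a n : ℕ) (N L : ℝ) : Prop where
  hn : 3 ≤ n
  r1 : n * (L + 1) < (a + 1) * N
  r2 : (N + 2) * (a - 1) ≤ (n + 1) * (L - 3)
  r3 : (n : ℝ) ^ 2 + 4 * n + 1 ≤ N
  r4 : (n : ℝ) ^ 3 ≤ (2 * a + 3) * N

lemma Reg.facts {a n : ℕ} {N L : ℝ} (h : Reg a n N L) (ha : 2 ≤ a) :
    0 < N ∧ (n * L / N) + n / N < (a : ℝ) + 1 ∧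
    (a : ℝ) - 1 ≤ (1 + 1 / n) * ((n * L / N) - 3 * (n / N)) ∧
    (n / N) * (1 + 4 * (1 / n) + (1 / (n : ℝ)) ^ 2) ≤ 1 / n ∧
    n / N ≤ (2 * a + 3) * (1 / (n : ℝ)) ^ 2 := by
  obtain ⟨hn, r1, r2, r3, r4⟩ := h
  have hn' : (3 : ℝ) ≤ n := by exact_mod_cast hn
  have ha' : (2 : ℝ) ≤ a := by exact_mod_cast ha
  have hn0 : (0 : ℝ) < n := by linarith
  have hN : 0 < N := by nlinarith
  refine ⟨hN, ?_, ?_, ?_, ?_⟩
  · rw [← add_div, div_lt_iff₀ hN]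
    linarith
  · have e : (1 + 1 / (n : ℝ)) * ((n * L / N) - 3 * (n / N)) = (n + 1) * (L - 3) / N := by
      field_simp
    rw [e, le_div_iff₀ hN]
    have : 0 ≤ 2 * ((a : ℝ) - 1) := by linarith
    linarith
  · have e : (n / N) * (1 + 4 * (1 / n) + (1 / (n : ℝ)) ^ 2) =
        (n ^ 2 + 4 * n + 1) / (N * n) := by
      field_simp
    rw [e, div_le_div_iff₀ (by positivity) hn0]
    nlinarith
  · have e : (2 * (a : ℝ) + 3) * (1 / (n : ℝ)) ^ 2 = (2 * a + 3) / n ^ 2 := by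
      field_simp
    rw [e, div_le_div_iff₀ hN (by positivity)]
    nlinarith

/-- the box of the third coordinate -/
lemma Reg.root3 {a n K g1 g2 : ℕ} {N L : ℝ} (ha : 2 ≤ a) (hK : 0 < K)
    (hg : 7 * g1 + 3 * g2 ≤ 21 * K) (h : Reg a n N L) :
    0 ≤ K * (n * L / N) + g1 * (1 / n) + g2 * (n / N) ∧
    K * (n * L / N) + g1 * (1 / n) + g2 * (n / N) ≤ K * ((a : ℝ) + 2) := by
  obtain ⟨hN, f1, f2, f3, f4⟩ := h.facts ha
  have hn' : (3 : ℝ) ≤ n := by exact_mod_cast h.hn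
  have ha' : (2 : ℝ) ≤ a := by exact_mod_cast ha
  have hK' : (0 : ℝ) < K := by exact_mod_cast hK
  have hg' : 7 * (g1 : ℝ) + 3 * g2 ≤ 21 * K := by exact_mod_cast hg
  have hn0 : (0 : ℝ) < n := by linarith
  have e1 : 1 / (n : ℝ) ≤ 1 / 3 := by
    rw [div_le_div_iff₀ hn0 (by norm_num)]; linarith
  have e10 : 0 < 1 / (n : ℝ) := by positivity
  have e20 : 0 < (n : ℝ) / N := by positivity
  have e2 : (n : ℝ) / N ≤ 1 / 7 := by
    rw [div_le_div_iff₀ hN (by norm_num)]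
    have := h.r3
    nlinarith
  have g10 : (0 : ℝ) ≤ g1 := by positivity
  have g20 : (0 : ℝ) ≤ g2 := by positivity
  have hc : 0 ≤ (n : ℝ) * L / N := by
    have h1 : 0 < (1 + 1 / (n : ℝ)) * ((n * L / N) - 3 * (n / N)) := by linarith
    have h2 : 0 < (n * L / N) - 3 * ((n : ℝ) / N) := pos_of_mul_pos_right h1 (by positivity)
    linarith
  constructor
  · positivity
  · have h1 : (g1 : ℝ) * (1 / n) ≤ g1 * (1 / 3) := mul_le_mul_of_nonneg_left e1 g10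
    have h2 : (g2 : ℝ) * (n / N) ≤ g2 * (1 / 7) := mul_le_mul_of_nonneg_left e2 g20
    have h3 : (K : ℝ) * (n * L / N) ≤ K * (a + 1) :=
      mul_le_mul_of_nonneg_left (by linarith) hK'.le
    linarith

lemma hs_conv {n N : ℝ} (hn : 0 < n) (hN : 0 < N) (T : ℕ)
    (h : (T : ℝ) * ((1 / n) * (n / N)) < 1) : (T : ℝ) < N := by
  have e : (1 / n) * (n / N) = 1 / N := by field_simp
  rw [e, mul_one_div, div_lt_one hN] at h
  exact h

theorem cf_false {sp : Bool} {a n κ K g2 B0 : ℕ} {t : Tr} (hc : cf sp a n κ K g2 B0 t = true)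
    (ha : 2 ≤ a) (hK : 0 < K) (hg : g2 ≤ 7 * K) {N L : ℝ} (h : Reg a n N L)
    (hs : ∀ T : ℕ, 1 ≤ T → (T : ℝ) < N →
      ¬ (Psi a T (1 / n) (n / N) (n * L / N) * Psi a (T + 1) (1 / n) (n / N) (n * L / N) < 0))
    (h1 : 0 < Psi a 1 (1 / n) (n / N) (n * L / N))
    (h2 : sp = true → Psi a 2 (1 / n) (n / N) (n * L / N) ≠ 0) : False := by
  obtain ⟨hN, f1, f2, f3, f4⟩ := h.facts ha
  have hn' : (3 : ℝ) ≤ n := by exact_mod_cast h.hn
  have hn0 : (0 : ℝ) < n := by linarith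
  have hnn : 0 < n := by have := h.hn; omega
  have hK' : (0 : ℝ) < K := by exact_mod_cast hK
  obtain ⟨s1, s2⟩ := h.root3 (g1 := 0) (g2 := g2) ha hK (by omega)
  have hp : (0 : ℝ) < 2 ^ κ := by positivity
  have hnN : (n : ℝ) * n ≤ N := by have := h.r3; nlinarith
  have hfalse := check_sound (sp := sp) (a := a) (S := 2 * n * 2 ^ κ) (K := K) (g1 := 0) (g2 := g2)
    (B0 := B0) (e1 := 1 / n) (e2 := n / N) (c := n * L / N)
    (E1 := ((2 * n * 2 ^ κ : ℕ) : ℝ) * (1 / n)) (E2 := ((2 * n * 2 ^ κ : ℕ) : ℝ) * (n / N))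
    (E3 := ((2 * n * 2 ^ κ : ℕ) : ℝ) *
      (K * (n * L / N) + (0 : ℕ) * (1 / n) + g2 * (n / N))) ha (by positivity) hK rfl rfl
    (by push_cast; ring) (by positivity) (by positivity) f1 f2 f3 f4
    (fun T hT hT1 => hs T hT (hs_conv hn0 hN T hT1)) h1 h2 t (2 * 2 ^ κ) 0 (2 ^ κ) (2 ^ κ)
    (K * (a + 2) * n * 2 ^ κ) (K * (a + 2) * n * 2 ^ κ) (Nat.zero_le _) le_rfl le_rfl ?_ ?_ ?_
  · unfold cf at hc
    rw [hfalse] at hc
    exact Bool.noConfusion hc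
  · have e : ((2 * n * 2 ^ κ : ℕ) : ℝ) * (1 / n) - ((2 * 2 ^ κ : ℕ) : ℝ) = 0 := by
      push_cast
      field_simp
      ring
    rw [e]
    simp
  · have e0 : 0 ≤ (n : ℝ) / N := by positivity
    have e1 : ((2 * n * 2 ^ κ : ℕ) : ℝ) * (n / N) ≤ 2 * 2 ^ κ := by
      have e2 : (n : ℝ) * (n / N) ≤ 1 := by
        rw [mul_div_assoc', div_le_one hN]; exact hnN
      push_cast
      calc 2 * (n : ℝ) * 2 ^ κ * (n / N) = 2 * 2 ^ κ * (n * (n / N)) := by ring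
        _ ≤ 2 * 2 ^ κ * 1 := mul_le_mul_of_nonneg_left e2 (by positivity)
        _ = 2 * 2 ^ κ := by ring
    have e3 : 0 ≤ ((2 * n * 2 ^ κ : ℕ) : ℝ) * (n / N) := by positivity
    rw [abs_le]
    push_cast at e1 e3 ⊢
    constructor <;> linarith
  · have e1 : ((2 * n * 2 ^ κ : ℕ) : ℝ) *
        (K * (n * L / N) + (0 : ℕ) * (1 / n) + g2 * (n / N)) ≤
        ((2 * n * 2 ^ κ : ℕ) : ℝ) * (K * ((a : ℝ) + 2)) :=
      mul_le_mul_of_nonneg_left s2 (by positivity)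
    have e3 : 0 ≤ ((2 * n * 2 ^ κ : ℕ) : ℝ) *
        (K * (n * L / N) + (0 : ℕ) * (1 / n) + g2 * (n / N)) := mul_nonneg (by positivity) s1
    have e4 : ((K * (a + 2) * n * 2 ^ κ : ℕ) : ℝ) * 2 =
        ((2 * n * 2 ^ κ : ℕ) : ℝ) * (K * ((a : ℝ) + 2)) := by
      push_cast; ring
    rw [abs_le]
    constructor <;> linarith

theorem cg_false {a n1 n κ K g1 g2 B0 : ℕ} {t : Tr} (hc : cg a n1 κ K g1 g2 B0 t = true)
    (ha : 2 ≤ a) (hn1 : n1 ≤ n) (hn1' : 0 < n1) (hK : 0 < K) (hg : 7 * g1 + 3 * g2 ≤ 21 * K)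
    {N L : ℝ} (h : Reg a n N L)
    (hs : ∀ T : ℕ, 1 ≤ T → (T : ℝ) < N →
      ¬ (Psi a T (1 / n) (n / N) (n * L / N) * Psi a (T + 1) (1 / n) (n / N) (n * L / N) < 0))
    (h1 : 0 < Psi a 1 (1 / n) (n / N) (n * L / N)) : False := by
  obtain ⟨hN, f1, f2, f3, f4⟩ := h.facts ha
  have hn' : (3 : ℝ) ≤ n := by exact_mod_cast h.hn
  have hn0 : (0 : ℝ) < n := by linarith
  have hn1r : (n1 : ℝ) ≤ n := by exact_mod_cast hn1
  have hn10 : (0 : ℝ) < n1 := by exact_mod_cast hn1'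
  have hK' : (0 : ℝ) < K := by exact_mod_cast hK
  obtain ⟨s1, s2⟩ := h.root3 (g1 := g1) (g2 := g2) ha hK hg
  have hp : (0 : ℝ) < 2 ^ κ := by positivity
  have hnN : (n : ℝ) * n ≤ N := by have := h.r3; nlinarith
  have hfalse := check_sound (sp := false) (a := a) (S := 2 * n1 * 2 ^ κ) (K := K) (g1 := g1)
    (g2 := g2) (B0 := B0) (e1 := 1 / n) (e2 := n / N) (c := n * L / N)
    (E1 := ((2 * n1 * 2 ^ κ : ℕ) : ℝ) * (1 / n)) (E2 := ((2 * n1 * 2 ^ κ : ℕ) : ℝ) * (n / N))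
    (E3 := ((2 * n1 * 2 ^ κ : ℕ) : ℝ) *
      (K * (n * L / N) + g1 * (1 / n) + g2 * (n / N))) ha (by positivity) hK rfl rfl
    (by ring) (by positivity) (by positivity) f1 f2 f3 f4
    (fun T hT hT1 => hs T hT (hs_conv hn0 hN T hT1)) h1 (fun h => Bool.noConfusion h) t
    (2 ^ κ) (2 ^ κ) (2 ^ κ) (2 ^ κ)
    (K * (a + 2) * n1 * 2 ^ κ) (K * (a + 2) * n1 * 2 ^ κ) le_rfl le_rfl le_rfl ?_ ?_ ?_
  · unfold cg at hc
    rw [hfalse] at hc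
    exact Bool.noConfusion hc
  · have e1 : ((2 * n1 * 2 ^ κ : ℕ) : ℝ) * (1 / n) ≤ 2 * 2 ^ κ := by
      have e2 : (n1 : ℝ) * (1 / n) ≤ 1 := by
        rw [mul_one_div, div_le_one hn0]; exact hn1r
      push_cast
      calc 2 * (n1 : ℝ) * 2 ^ κ * (1 / n) = 2 * 2 ^ κ * (n1 * (1 / n)) := by ring
        _ ≤ 2 * 2 ^ κ * 1 := mul_le_mul_of_nonneg_left e2 (by positivity)
        _ = 2 * 2 ^ κ := by ring
    have e3 : 0 ≤ ((2 * n1 * 2 ^ κ : ℕ) : ℝ) * (1 / n) := by positivity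
    rw [abs_le]
    push_cast at e1 e3 ⊢
    constructor <;> linarith
  · have e1 : ((2 * n1 * 2 ^ κ : ℕ) : ℝ) * (n / N) ≤ 2 * 2 ^ κ := by
      have e2 : (n1 : ℝ) * (n / N) ≤ 1 := by
        rw [mul_div_assoc', div_le_one hN]
        have : (n1 : ℝ) * n ≤ n * n := mul_le_mul_of_nonneg_right hn1r hn0.le
        linarith
      push_cast
      calc 2 * (n1 : ℝ) * 2 ^ κ * (n / N) = 2 * 2 ^ κ * (n1 * (n / N)) := by ring
        _ ≤ 2 * 2 ^ κ * 1 := mul_le_mul_of_nonneg_left e2 (by positivity)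
        _ = 2 * 2 ^ κ := by ring
    have e3 : 0 ≤ ((2 * n1 * 2 ^ κ : ℕ) : ℝ) * (n / N) := by positivity
    rw [abs_le]
    push_cast at e1 e3 ⊢
    constructor <;> linarith
  · have e1 : ((2 * n1 * 2 ^ κ : ℕ) : ℝ) *
        (K * (n * L / N) + g1 * (1 / n) + g2 * (n / N)) ≤
        ((2 * n1 * 2 ^ κ : ℕ) : ℝ) * (K * ((a : ℝ) + 2)) :=
      mul_le_mul_of_nonneg_left s2 (by positivity)
    have e3 : 0 ≤ ((2 * n1 * 2 ^ κ : ℕ) : ℝ) *
        (K * (n * L / N) + g1 * (1 / n) + g2 * (n / N)) := mul_nonneg (by positivity) s1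
    have e4 : ((K * (a + 2) * n1 * 2 ^ κ : ℕ) : ℝ) * 2 =
        ((2 * n1 * 2 ^ κ : ℕ) : ℝ) * (K * ((a : ℝ) + 2)) := by
      push_cast; ring
    rw [abs_le]
    constructor <;> linarith

end Pool.Agent.BX
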