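import Mathlib
import Pool.Agent.BX.Real

set_option autoImplicit false
set_option maxRecDepth 100000

namespace Pool.Agent.BX

open Tr

theorem c2_3 : cf false 2 3 10 64 228 39
    (C (C (B (B (C O (C (B (C O (B (C O (C O (L 5))) O)) O) (C (B (C (B (C (C (L 5) (B (L 5) O)) (C
    (B (C (L 5) (B (L 5) (C (L 5) (B (L 5) O)))) O) (B (C (B (C (B (L 5) (C (L 5) (B (C (L 5) (B (L
    5) (B (C (L 5) (L 15)) (L 15)))) (L 15)))) (B (B (L 16) (B (L 16) (L 16))) (C (B (C (B (B (L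
    16) (L 33)) (B (L 15) (L 4))) (L 4)) (L 4)) (L 4)))) (C (B (B (L 15) (B (L 15) (L 15))) O) (L
    4))) (B (L 4) (L 4))) O))) O) (C (B (L 4) O) (L 4))) O) (C (L 4) (C (B (L 4) O) (B (C (C (B (L
    4) (L 4)) (B (B (C (C (L 4) (C (B (C (L 4) (B (B (L 13) (L 13)) (L 4))) (L 4)) (B (C (B (B (L
    3) (L 13)) (L 13)) (L 3)) (B (C (C (L 4) (B (B (L 13) (B (L 13) (L 13))) (B (L 26) (L 12)))) (C
    (B (L 3) (C (B (L 3) (L 12)) (L 3))) (L 3))) (L 12))))) (C (C (B (L 3) (L 3)) (L 3)) (L 3))) (C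
    (C (L 4) (C (L 4) (B (C (L 4) (B (L 12) (L 4))) (L 4)))) (C (C (B (C (B (L 12) (L 12)) (L 3))
    (B (C (C (L 4) (B (B (L 12) (B (L 12) (L 22))) (B (L 11) (L 4)))) (C (B (L 3) (B (L 11) (L
    11))) (L 3))) (L 11))) (B (L 3) (L 3))) (L 3)))) (C (B (L 4) (L 4)) (B (B (B (L 11) (L 11)) (B
    (L 11) (B (L 11) (B (L 11) (L 19))))) (B (B (B (L 19) (L 10)) (L 10)) O))))) (C (B (L 3) (C (B
    (L 3) (L 3)) (L 3))) (L 3))) O)))))) O) O) (C (B (C (B (C (C (B (L 3) (C (L 3) (L 3))) (L 3))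
    (C (L 3) (L 3))) O) (B (C (C (B (C (B (B (B (B (C (B (C (B (B (C (L 3) (L 10)) (L 10)) (L 10))
    (L 2)) (L 10)) (L 2)) (L 10)) (B (L 10) (L 10))) (C (L 3) (C (B (B (L 10) (B (L 10) (B (L 20)
    (L 20)))) (C (L 3) (B (B (L 9) (L 9)) (L 3)))) (B (L 2) (B (L 9) (L 9)))))) (C (L 3) (B (C (L
    3) (B (L 9) (L 3))) (L 3)))) (B (L 2) (C (B (B (L 9) (L 9)) (C (B (L 9) (L 3)) (B (B (L 9) (L
    9)) (C (B (C (L 3) (B (L 9) (L 3))) (L 3)) (B (B (B (L 9) (L 9)) (L 16)) (L 8)))))) (B (L 2) (C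
    (B (L 2) (C (B (L 2) (L 8)) (L 2))) (L 2)))))) (C (L 3) (B (C (L 3) (B (B (L 8) (L 8)) (L 8)))
    (L 3)))) (B (L 2) (C (B (C (B (L 2) (L 8)) (L 2)) (C (B (B (L 8) (B (L 8) (L 3))) (L 3)) (B (C
    (B (L 2) (B (L 8) (B (L 8) (L 8)))) (L 2)) (B (B (B (C (B (B (L 13) (L 13)) (L 13)) (L 2)) (L
    13)) (L 7)) (L 7))))) (B (L 2) (C (L 2) (L 2)))))) (L 2)) (C (C (L 3) (B (C (B (C (L 3) (B (L
    7) O)) O) (B (B (L 7) (L 7)) O)) O)) (C (B (C (B (L 2) O) (L 2)) O) (B (L 2) O))))) O) (B (C (B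
    (L 2) (L 2)) (B (C (B (B (C (B (B (C (B (C (B (L 18) (B (L 18) (L 18))) (L 1)) (C (B (C (L 2)
    (L 7)) (L 7)) (L 7))) (L 1)) (C (L 7) (L 1))) (B (L 7) (L 7))) (L 1)) (B (C (L 7) (C (L 7) (L
    1))) (C (L 2) (C (B (L 7) (C (L 7) (B (L 7) (C (L 7) (C (B (L 1) (C (B (L 1) (L 7)) (L 1))) (L
    1)))))) (L 1))))) (C (L 2) (B (B (C (C (L 2) (B (C (L 2) (B (B (L 13) (L 6)) (L 6))) (L 2))) (B
    (C (B (L 1) (L 6)) (L 1)) (L 6))) (C (L 2) (L 6))) (L 2)))) (B (L 1) (C (B (C (B (L 1) (L 6))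
    (L 1)) (L 6)) (L 1)))) (C (L 2) (B (C (B (B (L 6) (L 6)) (L 2)) (B (C (B (L 1) (L 6)) (L 1)) (C
    (B (C (L 2) (B (L 6) (B (L 10) (L 2)))) (L 2)) (B (C (B (L 1) (L 10)) (L 1)) (B (L 5) (L
    5)))))) (C (L 2) (B (C (L 2) (B (L 5) (L 2))) O)))))) O))) (C (C (B (C (B (L 1) (C (B (L 1) (B
    (C (L 5) (L 1)) O)) (L 1))) (L 1)) O) (B (L 1) O)) (L 1))) = true := by
  decide +kernel

theorem c2_4 : cf false 2 4 12 64 200 44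
    (C (C (B (C O (B (C O (C (B (C (C O (B (L 5) O)) (C (B (C (B (L 5) O) (B (C (B (L 5) (L 5)) (B
    (C (L 5) (B (C (L 5) (L 5)) (B (C (L 5) (B (B (L 15) (L 15)) (L 15))) (L 15)))) (B (B (L 15) (L
    15)) (C (B (B (L 15) (B (L 15) O)) O) (L 4))))) O)) O) (B (C (B (C (B (C (B (C (B (L 16) (C (B
    (L 16) (B (B (L 16) (L 32)) (L 32))) (B (B (L 16) (L 4)) (L 4)))) (B (L 16) (L 4))) (C (B (C (B
    (L 15) (L 4)) (L 4)) (L 4)) (L 4))) (L 4)) (L 4)) (L 4)) (L 4)) (L 4)) O))) O) (C (B (L 4) O)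
    (C (L 4) (B (L 4) (L 4)))))) O)) O) (C (B (C (C (B (C (C (B (C (C (L 4) (B (L 4) (L 4))) (C (B
    (C (L 4) (B (L 4) (C (L 4) (B (B (L 12) (L 12)) (B (L 12) (C (C (B (L 4) (C (L 4) (B (L 4) (L
    11)))) (B (B (L 12) (L 22)) (B (L 22) (L 11)))) (L 3))))))) (B (C (L 4) (B (B (B (L 11) (L 11))
    (L 11)) (L 11))) (B (B (L 11) (L 11)) (C (C (L 4) (B (B (L 11) (L 19)) (B (L 19) (L 10)))) (L
    3))))) (B (C (B (C (B (C (L 4) (B (L 4) (B (L 13) (L 13)))) (B (C (L 4) (B (B (B (L 13) (L 26))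
    (B (B (L 26) (L 12)) (L 12))) (L 12))) (L 12))) (B (C (B (L 13) (C (B (L 13) (L 3)) (L 3))) (L
    3)) (L 3))) (C (B (B (L 12) (L 12)) (L 3)) (L 3))) (L 3)) (L 3)))) (C (C (B (L 4) O) (B (C (L
    4) (B (L 4) O)) O)) (C (B (C (B (B (B (L 10) (L 10)) (L 10)) O) (L 3)) O) (L 3)))) (B (L 3) (L
    3))) (L 3)) O) (L 3)) (C (C (B (C (L 3) (B (C (L 3) (B (C (L 3) (B (B (L 10) (L 10)) (C (L 3)
    (B (B (L 10) (C (L 3) (C (L 3) (B (L 10) (L 3))))) (L 3))))) (L 3))) (L 3))) (L 3)) (B (C (B (C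
    (B (C (B (L 2) (C (B (C (B (L 2) (B (L 10) (B (L 10) (L 19)))) (L 2)) (B (B (B (L 19) (L 9)) (L
    9)) (L 9))) (L 2))) (L 2)) (B (B (L 9) (L 9)) (B (L 9) (L 9)))) (L 2)) (C (B (C (L 3) (B (C (L
    3) (B (B (L 9) (B (L 9) (L 3))) (L 3))) (L 3))) (L 3)) (B (C (B (C (B (C (B (L 2) (L 16)) (L
    2)) (B (B (L 16) (L 8)) (L 8))) (L 2)) (B (L 8) (L 8))) (B (L 2) (C (B (L 2) (L 8)) (L 2)))) (B
    (L 8) (L 8))))) (B (L 2) (C (B (L 2) (C (B (L 2) (L 8)) (L 2))) (L 2)))) (C (L 3) (B (B (C (C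
    (B (B (L 8) (L 8)) (L 3)) (B (C (B (L 2) (B (L 8) (L 8))) (L 2)) (B (B (L 13) (L 13)) (L 7))))
    (L 2)) (B (B (L 7) (L 7)) (L 7))) (C O (B (B (L 7) O) O)))))) (B (L 2) (C (C (B (L 2) (C (B (B
    (L 7) O) O) (B (L 2) O))) (L 2)) (L 2))))) O) (C (B (L 2) O) (B (C (B (C (B (C (L 2) (B (C (L
    2) (B (L 7) (L 2))) (L 2))) (L 2)) (B (B (C (B (L 7) (L 7)) (L 1)) (B (L 7) (C (L 7) (B (L 7)
    (C (L 7) (L 1)))))) (C (L 2) (B (C (B (C (L 2) (B (B (L 7) (L 7)) (C (L 2) (B (L 13) (L 2)))))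
    (L 2)) (B (C (B (L 1) (B (L 13) (L 6))) (L 1)) (B (L 6) (L 6)))) (L 2))))) (L 2)) (B (C (B (L
    1) (C (B (C (B (L 1) (L 6)) (L 1)) (B (L 6) (L 6))) (L 1))) (L 1)) (C (B (B (L 6) (L 6)) (L 2))
    (B (C (B (L 1) (L 6)) (L 1)) (C (B (B (L 6) (C (L 2) (B (L 10) (L 10)))) (L 2)) (B (C (B (L 1)
    (C (B (L 1) (L 10)) (L 1))) (L 1)) (B (B (L 5) (L 5)) (L 5)))))))) O)))) (C (C (C (B (C (B (L
    1) (L 1)) (L 1)) O) (L 1)) (L 1)) (L 1))) = true := by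
  decide +kernel

theorem c2_5 : cf false 2 5 12 64 212 45
    (C (C (B (C O (B (C O (C (C O (B (C (B (L 5) O) (B (C (L 5) (C (B (L 5) O) (B (C (B (L 5) (C (B
    (L 5) (C (L 5) (B (L 5) (C (L 5) (B (L 5) O))))) (B (L 15) (B (L 15) (C (B (L 15) O) (L 4))))))
    (B (C (B (L 5) (B (L 15) (L 15))) (B (C (B (L 5) (C (L 5) (B (C (L 5) (B (L 5) (L 15))) (L
    15)))) (B (B (L 16) (B (L 16) (B (L 16) (L 16)))) (C (B (B (L 32) (L 15)) (L 4)) (L 4)))) (C (B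
    (L 15) (L 4)) (L 4)))) (C (B (L 15) (L 4)) (L 4)))) (C O (L 4))))) O)) O)) (C (B (C (B (C (C (B
    (C (B (C (B (C (B (C (B (L 16) (L 4)) (L 4)) (L 4)) (L 4)) (L 4)) (L 4)) (L 4)) (L 4)) (L 4))
    (L 4)) (L 4)) O) (L 4)) O) (L 4)))) O)) O) (C (B (C (C (C (C (B (L 4) O) (B (C (L 4) (C (B (L
    4) (L 4)) (B (C (C (B (L 4) (L 4)) (B (B (C (C (L 4) (C (L 4) (B (L 4) (C (L 4) (B (C (L 4) (C
    (L 4) (B (L 4) (L 12)))) (L 12)))))) (C (C (B (B (L 13) (B (L 13) (B (L 13) (L 13)))) (C (B (C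
    (B (B (B (B (L 13) (L 43)) (L 12)) (L 12)) (L 12)) (L 3)) (L 3)) (L 3))) (L 3)) (L 3))) (B (B
    (L 12) (L 12)) (B (L 12) (L 12)))) (C (C (B (L 4) (L 4)) (B (B (B (B (L 12) (B (L 22) (L 22)))
    (B (L 11) (L 11))) (B (L 11) (L 11))) (B (L 11) (L 11)))) (C (B (L 3) (L 3)) (L 3))))) (C (B (L
    3) (L 3)) (L 3))) (C (C (B (L 4) O) (B (C (C (B (C (L 4) (L 4)) (L 4)) (B (C (C (B (B (L 11) (L
    11)) (C (L 4) (B (B (B (L 11) (L 19)) (L 10)) (L 10)))) (B (C (C (B (L 3) (L 3)) (L 3)) (L 3))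
    (L 3))) (L 3)) (B (L 10) (L 10)))) (L 3)) O)) (C (B (L 3) O) (L 3)))))) O)) (B (C (C (C (B (L
    3) (L 3)) (L 3)) (L 3)) (L 3)) O)) (L 3)) (C (C (L 3) (B (C (B (C (L 3) (B (C (L 3) (B (B (L
    10) (L 10)) (L 3))) (L 3))) (L 3)) (B (C (B (C (B (C (B (L 2) (L 10)) (L 2)) (B (B (L 10) (B (L
    10) (C (L 10) (B (L 2) (L 10))))) (C (L 3) (B (C (B (B (L 19) (L 19)) (L 9)) (L 2)) (L 9)))))
    (L 2)) (C (B (C (L 3) (B (L 9) (L 3))) (L 3)) (B (B (L 9) (L 9)) (L 9)))) (B (L 2) (C (B (L 2)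
    (L 9)) (L 2)))) (C (L 3) (B (B (B (L 9) (B (L 9) (L 9))) (C (L 3) (C (B (B (L 9) (B (L 16) (L
    16))) (C (L 3) (B (L 8) (L 3)))) (B (L 2) (B (L 8) (L 8)))))) (C (L 3) (B (B (L 8) (L 3)) (L
    3))))))) (L 3))) (C (B (C (B (L 2) (C (B (L 2) (B (B (L 8) (L 8)) (L 8))) (L 2))) (L 2)) (C (B
    (C (B (B (L 8) (L 8)) (L 3)) (B (B (L 2) (L 8)) (C (B (B (L 8) (L 3)) (L 3)) (B (B (L 8) (L 8))
    (C (B (C (L 3) (B (L 8) (L 3))) (L 3)) (B (B (L 13) (L 13)) (B (L 7) (L 7)))))))) (L 3)) (B (C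
    (B (L 2) (C (B (L 2) (C (B (L 2) (L 7)) (L 2))) (L 2))) (L 2)) (B (B (B (L 7) (L 7)) (L 7)) (B
    (L 7) (L 7)))))) (B (L 2) (L 2))))) (C O (C O (C O (B (C (B (C O (B (L 2) O)) O) (B (L 2) O))
    O))))) (C (B (L 2) (C (B (L 2) O) (L 2))) (B (C (B (C (L 2) (B (C (B (C (L 2) (B (L 7) (L 2)))
    (L 2)) (B (B (L 7) (L 7)) (B (L 7) (L 7)))) (L 2))) (L 2)) (B (C (B (C (B (L 1) (C (B (L 1) (L
    7)) (L 1))) (L 1)) (B (C (B (B (C (L 7) (L 1)) (C (L 7) (C (C (L 7) (L 1)) (L 1)))) (C (L 2) (B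
    (B (L 13) (L 13)) (C (L 6) (L 6))))) (L 1)) (B (C (C (L 2) (L 6)) (L 6)) (C (L 2) (L 6))))) (L
    1)) (C (B (C (L 2) (B (L 6) (L 2))) (L 2)) (B (B (L 6) (L 6)) (B (L 6) (B (L 6) (L 6))))))) (L
    2))))) (C (C (C (B (C (B (L 1) (C (B (L 1) (C (B (L 1) (C (B (L 6) (L 6)) (L 1))) (L 1))) (L
    1))) (L 1)) (C (B (B (C (B (C (C (B (C (L 2) (B (L 6) (L 2))) (L 2)) (B (B (L 10) (L 10)) (B (L
    5) O))) (C (B (L 1) (L 5)) (L 1))) O) (L 1)) O) O) (B (L 1) O))) (L 1)) (L 1)) (L 1))) = true := by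
  decide +kernel

theorem c2_6 : cf false 2 6 12 64 224 45
    (C (C (B (C O (C O (C (B (B (C O (C O (C (L 5) (L 5)))) O) O) (B (C (C (B (C (B (C (L 5) (B (L
    5) O)) O) (B (C (B (B (B (C (L 5) (C (B (C (L 5) (C (B (B (L 16) (B (L 16) (L 16))) (B (L 32)
    (L 15))) (B (C (B (L 16) (L 4)) (L 4)) (L 4)))) (B (L 15) (L 15))) (L 4))) (B (C (L 5) (L 15))
    (L 15))) (B (L 15) (B (L 15) (C (L 15) (L 4))))) (C (B (C (B (C (B (L 5) O) (B (B (L 15) O) O))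
    O) (L 4)) O) (L 4))) (L 4)) O)) O) (B (L 4) O)) (L 4)) O)))) O) (C (C (B (C (C (L 4) (C (B (C
    (C (L 4) (B (L 4) (L 4))) (C (B (C (B (C (L 4) (B (C (B (C (L 4) (B (L 13) (C (L 4) (B (L 13)
    (L 4))))) (L 4)) (B (C (B (L 3) (C (B (L 13) (B (L 13) (B (L 13) (B (L 13) (B (L 25) (L
    12)))))) (L 3))) (L 3)) (B (B (B (L 12) (L 12)) (L 12)) (L 12)))) (C (L 4) (B (L 12) (L 4)))))
    (L 4)) (B (C (B (L 3) (C (B (L 12) (L 12)) (L 3))) (L 3)) (B (C (C (B (C (L 4) (B (L 12) (C (L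
    4) (B (L 12) (L 4))))) (L 4)) (B (C (B (L 3) (B (L 12) (B (L 12) (L 12)))) (L 3)) (B (B (B (B
    (L 22) (L 11)) (L 11)) (L 11)) (L 11)))) (L 3)) (B (L 11) (L 11))))) (C (L 4) (B (C (L 4) (B (B
    (L 11) (L 11)) (L 4))) (L 4)))) (B (L 3) (C (B (C (B (C (B (L 3) (L 11)) (L 3)) (C (B (B (L 11)
    (B (L 11) (B (L 19) (B (L 19) (L 10))))) (C (L 4) (B (B (L 10) (L 10)) (L 10)))) (B (L 3) (C (B
    (L 3) (L 10)) (L 3))))) (L 3)) (B (B (L 10) (L 10)) O)) (B (L 3) (L 3)))))) O) (B (C (L 3) (L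
    3)) O))) (C (B (L 3) (L 3)) (L 3))) O) (C (B (C (L 3) (B (C (L 3) (B (C (L 3) (B (C (B (B (L
    10) (L 10)) (L 3)) (B (B (L 2) (L 10)) (C (B (L 10) (L 3)) (B (B (L 10) (L 10)) (C (B (C (L 3)
    (B (L 10) (L 3))) (L 3)) (B (C (B (L 10) (L 19)) (B (L 2) (L 19))) (B (L 9) (L 9)))))))) (L
    3))) (L 3))) (L 3))) O) (B (C (B (C (B (C (B (C (B (L 2) (C (B (L 2) (C (B (L 2) (L 9)) (L 2)))
    (L 2))) (L 2)) (B (B (B (L 9) (L 9)) (L 9)) (B (L 9) (L 9)))) (L 2)) (C (B (C (L 3) (B (L 9) (L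
    3))) (L 3)) (B (C (B (L 9) (B (L 9) (L 9))) (B (L 2) (C (B (L 2) (L 9)) (L 2)))) (C (L 3) (B (B
    (C (B (B (L 9) (L 16)) (B (L 16) (B (L 8) (L 8)))) (L 2)) (B (L 8) (L 8))) (B (L 8) (L 3)))))))
    (B (L 2) (C (B (L 2) (C (B (L 2) (L 8)) (L 2))) (L 2)))) (C (L 3) (B (B (B (L 8) (L 8)) (B (L
    8) (L 8))) (C (L 3) (B (C (L 3) (B (L 8) (L 3))) (L 3)))))) (B (L 2) (C (B (L 2) (C (B (C (B (B
    (L 2) (L 8)) (C (B (B (L 8) (L 8)) (L 3)) (B (B (L 2) (L 13)) (B (L 13) (L 7))))) (B (L 2) (C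
    (B (L 2) (C (B (L 2) (L 7)) (L 2))) (L 2)))) (C (L 3) (B (B (L 7) (L 7)) (L 7)))) (B (L 2) (C
    (B (L 2) (L 7)) (L 2))))) (L 2)))) (C (L 3) (B (C (B (C (L 3) (B (B (L 7) (L 7)) (L 3))) O) (B
    (C (B (L 7) (L 7)) (L 2)) O)) O))))) (C (B (L 2) (C (C (B (C (B (L 2) O) (L 2)) O) (B (L 2) O))
    (L 2))) (B (C (B (C (L 2) (B (C (L 2) (B (B (L 7) (L 7)) (L 2))) (L 2))) (L 2)) (B (C (B (C (B
    (L 7) (L 7)) (L 1)) (C (B (C (L 2) (B (L 7) (L 2))) (L 2)) (B (C (B (L 7) (B (L 7) (B (L 13) (L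
    13)))) (L 1)) (C (B (C (L 2) (B (C (L 2) (B (L 13) (L 2))) (L 2))) (L 2)) (B (B (L 6) (L 6)) (L
    6)))))) (B (L 1) (C (B (L 1) (C (B (L 1) (L 6)) (L 1))) (L 1)))) (C (L 2) (B (B (C (L 6) (L 1))
    (L 6)) (B (L 6) (L 2)))))) (L 2))))) (C (C (C (B (C (B (L 1) (C (B (L 1) (B (L 6) (L 6))) (L
    1))) (L 1)) (C (B (B (C (B (C (L 6) (B (L 6) (L 6))) (C (L 2) (B (C (L 6) (L 6)) O))) (C (B (L
    1) (C (B (L 1) O) (L 1))) (L 1))) O) O) (B (L 1) O))) (L 1)) (L 1)) (L 1))) = true := by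
  decide +kernel

theorem c2_7 : cf false 2 7 12 64 204 45
    (C (C (B (C O (C O (C (B (B (C O (L 5)) O) O) (B (C (C (B (C (B (L 5) O) (B (C (L 5) (B (L 5)
    (C O (B (C (L 5) (B (L 5) O)) O)))) O)) O) (B (C (B (C (B (B (B (C (L 5) (B (B (C (C (L 5) (C
    (L 5) (B (L 32) (L 15)))) (L 4)) (C (L 15) (L 4))) (L 15))) (B (L 15) (L 15))) (B (L 15) (B (L
    15) (C (L 15) (L 4))))) (C (B (C (B (B (L 15) (C (B (L 15) O) (L 4))) O) (L 4)) O) (L 4))) (L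
    4)) O) (L 4)) O)) (L 4)) O)))) O) (C (C (C (B (C (L 4) (C (C (L 4) (B (C (L 4) (B (L 4) (L 4)))
    O)) (C (B (C (B (C (C (L 4) (B (C (L 4) (B (L 4) (C (L 4) (B (L 12) (L 12))))) (C (B (L 4) (C
    (L 4) (C (L 4) (B (L 4) (L 11))))) (B (B (B (L 12) (L 12)) (C (C (C (L 4) (B (L 4) (C (L 4) (B
    (L 4) (L 4))))) (B (L 12) (C (B (B (L 12) (B (L 12) (L 22))) (L 11)) (L 3)))) (L 3))) (C (C (B
    (B (L 11) (L 11)) (L 11)) (B (C (B (L 11) (L 3)) (L 3)) (L 3))) (L 3)))))) (C (B (C (B (C (B (C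
    (L 4) (B (L 13) (B (L 13) (C (B (L 13) (C (B (B (L 13) (L 25)) (L 12)) (L 3))) (L 3))))) (B (B
    (L 12) (L 12)) (L 12))) (B (L 3) (L 3))) (C (C (B (L 12) (L 3)) (L 3)) (L 3))) (L 3)) (L 3)) (L
    3))) (C (C (B (L 4) (C (L 4) (C (B (L 4) (L 4)) (B (C (L 4) (B (L 4) (B (L 10) (L 10)))) (B (L
    10) (L 10)))))) (B (C (B (B (L 11) (L 11)) (B (L 11) (B (L 11) (L 11)))) (C (B (L 3) (L 3)) (L
    3))) (C (C (B (C (B (B (B (L 11) (L 11)) (B (B (B (L 11) (L 19)) (L 10)) (L 10))) (B (L 10) (L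
    3))) (L 3)) (L 3)) (L 3)) (L 3)))) (L 3))) (L 3)) (C (C (B (C O (B (L 3) O)) O) (B (L 3) O)) (L
    3))) (L 3)))) O) (B (C (L 3) (L 3)) O)) (C (C (L 3) (L 3)) (B (C (B (C (C (B (C (B (C (L 3) (B
    (L 10) (L 3))) (L 3)) (B (B (B (L 10) (L 10)) (B (B (L 10) (L 10)) (C (L 3) (B (B (L 10) (B (L
    10) (L 10))) (C (L 3) (B (L 19) (L 9))))))) (C (L 3) (B (C (L 3) (B (B (L 9) (L 3)) (L 3))) (L
    3))))) (L 3)) (B (C (B (L 2) (B (B (B (L 9) (L 9)) (L 9)) (L 9))) (L 2)) (C (B (C (L 3) (B (L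
    9) (L 3))) (L 3)) (B (B (L 9) (L 9)) (C (L 3) (B (B (L 9) (L 9)) (L 3))))))) (B (L 2) (C (C (B
    (L 2) (C (B (B (L 2) (B (L 9) (L 9))) (C (B (C (L 3) (B (C (L 3) (B (L 9) (L 3))) (L 3))) (L
    3)) (B (C (B (B (L 9) (L 16)) (C (L 3) (B (L 16) (L 3)))) (B (L 2) (B (L 8) (L 8)))) (L 8))))
    (B (L 2) (C (B (L 2) (L 8)) (L 2))))) (L 2)) (L 2)))) (C (L 3) (B (B (B (C (B (L 8) (L 8)) (L
    2)) (C (L 8) (L 2))) (B (L 8) (L 8))) (C (L 3) (C (B (B (L 8) (L 3)) (L 3)) (B (B (L 8) (L 8))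
    (C (L 3) (B (L 8) (L 3))))))))) (B (L 2) (C (B (L 2) (C (B (L 2) (C (C (B (L 8) (B (L 8) (B (L
    13) (L 13)))) (B (L 2) (C (B (L 2) (C (B (L 2) (L 13)) (L 2))) (L 2)))) (L 2))) (L 2))) (L
    2)))) (C (L 3) (B (C (B (B (C (B (B (C (B (L 13) (L 7)) (L 2)) (L 7)) (L 7)) (L 2)) (B (L 7) (L
    7))) (C (L 3) (B (L 7) O))) (B (L 2) (C (B (L 2) O) (L 2)))) O))))) (C (C (B (L 2) (C (B (L 2)
    O) (L 2))) (L 2)) (C (B (L 2) (L 2)) (B (B (C (B (B (C (L 7) (L 1)) (C (L 7) (B (L 1) (L 7))))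
    (C (L 2) (B (B (L 7) (C (L 7) (L 1))) (C (C (L 2) (B (C (L 2) (B (L 7) (L 2))) (L 2))) (B (C (B
    (B (L 7) (L 13)) (B (L 13) (L 13))) (L 1)) (B (C (L 6) (L 6)) (L 6))))))) (L 1)) (C (C (L 2) (B
    (C (L 2) (B (C (L 2) (L 6)) (L 2))) (L 2))) (B (B (C (B (L 6) (L 6)) (L 1)) (L 6)) (B (L 6) (L
    6))))) (C (L 2) (B (C (L 2) (B (L 6) (L 2))) O))))))) (C (C (C (B (L 1) (C (C (B (B (B (L 6) (C
    (L 6) (L 1))) (B (C (L 6) (C (B (L 1) O) (L 1))) O)) O) (B (L 1) O)) (L 1))) (L 1)) (L 1)) (L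
    1))) = true := by
  decide +kernel

theorem c2_8 : cf false 2 8 12 64 192 45
    (C (C (C O (B (C O (C O (B (C (B (C (C (L 5) (B (L 5) O)) (C (B (C (L 5) (B (C (L 5) (B (L 5)
    (B (L 15) (L 15)))) (C (B (C (L 5) (B (L 5) O)) O) (B (C (B (B (L 15) (L 15)) (C (B (B (L 15)
    O) O) (L 4))) (B (C (B (L 15) (L 4)) (L 4)) (L 4))) O)))) O) (B (C (B (C (B (B (B (B (C (L 5)
    (L 15)) (L 15)) (L 15)) (B (L 15) (L 15))) (C (B (L 15) (L 4)) (L 4))) (L 4)) (L 4)) (L 4)) (L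
    4)))) O) (C (L 4) (L 4))) O))) O)) (C (C (C (B (C (L 4) (C (B (L 4) (C (L 4) (C (L 4) (L 4))))
    (B (C (C (B (L 4) (L 4)) (B (C (L 4) (B (L 4) (C (L 4) (B (C (L 4) (B (L 12) (B (L 12) (L
    12)))) (B (C (C (L 4) (B (L 4) (B (L 4) (L 11)))) (C (B (B (L 12) (B (B (L 12) (L 22)) (B (L
    22) (L 11)))) (B (L 11) (L 11))) (L 3))) (B (L 11) (L 11))))))) (C (B (L 4) (C (L 4) (B (C (L
    4) (B (L 11) (B (L 11) (L 11)))) (B (C (L 4) (C (B (C (L 4) (B (L 11) (B (B (L 19) (L 27)) (L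
    10)))) (L 10)) (C (B (L 3) (L 3)) (L 3)))) (B (L 10) (L 10)))))) (B (B (B (L 11) (L 11)) (B (L
    11) (L 11))) (C (B (C (B (L 11) (L 3)) (L 3)) (L 3)) (L 3)))))) (C (B (C (B (C (B (C (L 4) (B
    (C (L 4) (B (L 4) (C (L 4) (B (L 4) (C (L 4) (B (L 4) (C (L 4) (B (L 4) (L 12))))))))) (B (B (B
    (L 12) (L 12)) (L 12)) (L 12)))) (B (L 12) (L 12))) (B (C (B (C (B (L 13) (C (B (L 13) (C (B (L
    13) (C (B (B (L 25) (L 12)) (L 12)) (L 3))) (L 3))) (L 3))) (B (L 13) (L 3))) (L 3)) (L 3)) (L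
    3))) (C (B (C (B (L 12) (L 3)) (L 3)) (L 3)) (L 3))) (L 3)) (L 3)) (L 3))) (C (C (B (C (L 4) (B
    (L 4) O)) O) (B (C (B (B (B (L 10) (L 10)) (L 10)) O) (L 3)) O)) (L 3))))) O) (B (C (L 3) (L
    3)) O)) (C (L 3) (B (C (C (B (C (L 3) (B (C (B (C (L 3) (B (L 10) (L 3))) (L 3)) (B (C (B (L
    10) (B (L 10) (B (L 10) (C (L 3) (B (L 10) (B (L 10) (L 19))))))) (L 2)) (C (B (C (L 3) (B (C
    (L 3) (B (B (L 9) (L 3)) (L 3))) (L 3))) (L 3)) (B (B (B (B (L 9) (L 9)) (L 9)) (L 9)) (L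
    9))))) (L 3))) (L 3)) (B (C (B (C (B (L 2) (C (B (L 2) (L 9)) (L 2))) (L 2)) (B (B (L 9) (L 9))
    (B (B (L 9) (L 9)) (B (L 9) (C (L 3) (B (L 9) (C (L 9) (L 2)))))))) (L 2)) (C (B (C (L 3) (B (C
    (B (C (L 3) (B (C (L 3) (B (B (L 9) (L 16)) (B (L 8) (L 3)))) (L 3))) (L 3)) (B (C (B (C (B (L
    2) (L 8)) (L 2)) (L 8)) (L 2)) (L 8))) (L 3))) (L 3)) (B (C (B (C (B (L 2) (L 8)) (L 2)) (B (L
    8) (L 8))) (L 2)) (B (B (L 8) (L 8)) (B (L 8) (L 8))))))) (C (B (L 2) (C (B (L 2) (C (B (L 2)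
    (C (L 8) (L 2))) (L 2))) (L 2))) (L 2))) (C (C (L 3) (B (C (L 3) (L 3)) O)) (C (B (C (B (C (B
    (B (L 8) (B (L 8) (B (L 8) (L 13)))) (C (L 3) (B (C (B (C (L 3) (B (L 13) (L 3))) (L 3)) (B (B
    (L 13) (L 7)) (L 7))) (L 3)))) (B (L 2) (C (B (C (B (L 2) (L 7)) (L 2)) (L 7)) (L 2)))) (C (L
    3) (B (B (L 7) (L 7)) O))) (B (L 2) (C (B (B (L 2) (L 7)) O) (L 2)))) O) (B (L 2) O)))))) (C (C
    (L 2) (L 2)) (C (L 2) (B (C (B (B (B (C (L 7) (L 1)) (C (L 7) (L 7))) (C (L 2) (B (B (L 7) (L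
    7)) (C (L 2) (B (B (L 7) (C (L 7) (B (L 1) (L 13)))) (C (L 2) (B (B (L 13) (L 13)) (B (L 13) (L
    6))))))))) (C (L 2) (B (C (L 2) (B (C (L 2) (B (L 6) (L 2))) (L 2))) (L 2)))) (B (L 1) (B (C (B
    (B (C (L 6) (L 1)) (L 6)) (L 6)) (L 1)) (B (L 6) (L 6))))) (C (L 2) (B (C (L 2) (B (L 6) (L
    2))) O))))))) (C (C (C (C (B (L 1) (C (B (C (B (L 6) (B (L 6) O)) (L 1)) O) (B (L 1) O))) (L
    1)) (L 1)) (L 1)) (L 1))) = true := by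
  decide +kernel

theorem c2_9 : cf false 2 9 12 64 208 46
    (C (C (C O (B (C O (C O (C (B (C (B (L 5) O) (B (C (B (L 5) O) (B (C (C (L 5) (B (L 5) (C (L 5)
    (B (L 5) O)))) (C (B (C (B (L 5) (C (L 5) (B (L 5) (L 15)))) (B (C (L 5) (B (L 5) (L 15))) (B
    (L 15) (L 15)))) (C (B (B (L 15) (B (L 15) (C (B (L 15) O) (L 4)))) O) (B (L 4) (L 4)))) (B (C
    (B (B (B (L 15) (L 15)) (L 15)) (L 4)) (L 4)) (L 4)))) O)) O)) O) (B (C (B (L 4) O) (L 4))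
    O)))) O)) (C (C (C (C (B (L 4) O) (C (L 4) (B (C (L 4) (C (L 4) (B (C (L 4) (C (B (C (L 4) (C
    (B (L 4) (L 4)) (B (C (C (L 4) (B (L 4) (L 4))) (C (B (B (B (L 13) (B (L 13) (B (B (L 13) (B (L
    13) (L 25))) (B (L 25) (L 12))))) (B (B (L 12) (L 12)) (L 12))) (B (L 12) (L 12))) (B (L 3) (L
    3)))) (C (L 4) (B (B (L 12) (L 12)) (C (C (L 4) (B (C (L 4) (B (L 4) (L 4))) (L 4))) (C (B (B
    (L 12) (B (L 12) (L 12))) (B (B (B (B (L 12) (L 22)) (L 11)) (L 11)) (L 11))) (B (L 3) (L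
    3))))))))) (C (L 4) (C (L 4) (B (C (L 4) (B (B (L 11) (L 11)) (B (L 11) (L 4)))) (C (L 4) (B (L
    4) (L 4))))))) (B (C (C (B (L 3) (C (C (L 3) (L 3)) (L 3))) (L 3)) (L 3)) (C (C (B (C (B (C (C
    (B (L 3) (L 3)) (L 3)) (L 3)) (B (L 11) (L 11))) (L 3)) (C (B (B (L 11) (L 11)) (C (L 4) (B (L
    11) (B (L 11) (B (L 11) (L 11)))))) (B (L 3) (C (B (L 3) (C (C (B (L 3) (B (L 3) (L 11))) (L
    3)) (L 3))) (L 3))))) (B (L 3) (L 3))) (L 3))))) (C (L 4) (B (C (C (L 4) (B (L 4) (L 4))) (C (B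
    (C (C (B (C (L 4) (B (L 4) (L 4))) (L 4)) (B (C (B (B (C (B (C (B (B (L 11) (L 27)) (L 10)) (L
    3)) (L 10)) (L 3)) (L 10)) (L 10)) (B (L 3) (L 10))) (B (L 10) (L 10)))) (C (B (L 3) (C (B (L
    3) (L 10)) (L 3))) (L 3))) (B (L 10) O)) (B (L 3) (L 3)))) O))))) O))) (C (B (C (C (C (B (L 3)
    (C (B (L 3) O) (L 3))) (L 3)) (L 3)) (L 3)) O) (L 3))) (C (L 3) (C (B (C (L 3) (B (B (C (C (B
    (B (L 10) (C (L 3) (B (L 10) (B (L 10) (L 3))))) (L 3)) (B (C (B (L 2) (C (B (L 2) (B (L 10) (L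
    10))) (L 2))) (L 2)) (B (B (C (B (B (C (L 19) (L 2)) (C (L 19) (L 2))) (L 9)) (L 2)) (B (L 9)
    (L 9))) (B (L 9) (L 9))))) (L 2)) (C (C (L 3) (B (C (L 3) (B (L 9) (L 3))) (L 3))) (B (B (L 9)
    (L 9)) (B (L 9) (B (L 9) (L 9)))))) (C (L 3) (B (C (L 3) (B (C (L 3) (B (B (L 9) (B (L 9) (L
    9))) (C (L 3) (B (C (L 3) (B (C (L 3) (B (L 9) (L 16))) (L 3))) (L 3))))) (L 3))) (L 3))))) (L
    3)) (B (C (B (L 2) (C (B (C (B (C (B (L 2) (B (C (C (B (C (B (L 2) (L 16)) (L 2)) (L 8)) (B (L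
    2) (L 8))) (L 2)) (L 8))) (L 2)) (B (B (L 8) (L 8)) (L 8))) (B (L 2) (C (B (L 2) (L 8)) (L
    2)))) (C (L 3) (B (B (L 8) (L 8)) (L 8)))) (B (L 2) (C (B (L 2) (L 8)) (L 2))))) (L 2)) (C (B
    (C (L 3) (B (C (B (L 8) (L 3)) (B (L 8) (C (L 3) (B (L 8) (L 3))))) (L 3))) O) (B (C (B (C (B
    (L 2) (C (B (L 8) (B (L 8) (L 8))) (L 2))) (L 2)) (C (B (C (B (C (L 3) (B (C (L 3) (B (L 8) (L
    3))) (L 3))) (L 3)) (B (B (B (L 13) (L 13)) (B (L 7) (L 7))) (B (L 7) (L 3)))) O) (B (C (B (L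
    2) (L 7)) (L 2)) O))) (B (L 2) (C (B (L 2) O) (L 2)))) O)))))) (C (C (B (L 2) (C (C (B (L 2) O)
    (L 2)) (L 2))) (L 2)) (C (L 2) (B (C (B (C (B (C (L 2) (B (L 7) (L 2))) (L 2)) (B (B (L 7) (L
    7)) (C (L 2) (B (L 7) (C (L 2) (B (L 7) (L 2))))))) (L 2)) (B (C (B (L 1) (C (B (L 1) (B (L 7)
    (B (L 7) (C (L 2) (B (L 7) (L 13)))))) (L 1))) (L 1)) (B (B (C (B (C (C (L 2) (C (B (C (L 2) (L
    13)) (L 2)) (B (B (L 13) (L 6)) (L 6)))) (C (B (L 1) (L 6)) (L 1))) (C (L 2) (L 6))) (L 1)) (C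
    (B (C (L 2) (L 6)) (L 6)) (L 6))) (B (C (L 2) (L 6)) (C (L 2) (L 6)))))) (C (L 2) (B (C (L 2)
    (B (L 6) (L 2))) O))))))) (C (C (C (C (B (L 1) (C (B (B (B (L 6) (L 6)) (B (L 6) O)) O) (B (L
    1) O))) (L 1)) (L 1)) (L 1)) (L 1))) = true := by
  decide +kernel

theorem c2_10 : cf false 2 10 12 64 208 46
    (C (C (C O (B (C O (C O (C (B (C O (B (C (L 5) (C (L 5) (B (C (L 5) (B (L 5) (C (L 5) (B (L 5)
    O)))) O))) O)) O) (B (C (B (C (C (B (C (B (C (L 5) (B (L 5) (B (L 15) (L 15)))) (C (B (C (L 5)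
    (B (L 5) (B (L 15) (L 15)))) (C (B (C O (B (L 5) O)) O) (B (C (B (B (L 15) O) O) (L 4)) O))) (B
    (C (B (L 15) (C (B (L 15) (L 4)) (L 4))) (L 4)) (L 4)))) (B (C (B (B (B (L 15) (L 15)) (L 15))
    (B (L 15) (L 4))) (L 4)) (L 4))) O) (L 4)) (L 4)) O) (L 4)) O)))) O)) (C (C (C (C (B (L 4) O)
    (C (L 4) (B (L 4) O))) (C (C (B (C (C (B (C (L 4) (C (L 4) (B (C (C (L 4) (B (L 4) (L 4))) (C
    (B (C (C (B (C (L 4) (B (C (L 4) (C (L 4) (B (L 13) (L 4)))) (L 4))) (L 4)) (B (C (B (C (B (L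
    13) (B (L 13) (C (L 4) (C (B (B (L 13) (B (L 13) (L 25))) (L 12)) (L 3))))) (L 3)) (B (B (L 12)
    (L 12)) (L 12))) (B (L 3) (L 3))) (B (L 12) (L 12)))) (C (B (L 3) (L 3)) (L 3))) (B (B (L 12)
    (L 12)) (C (L 4) (B (L 12) (B (L 12) (B (B (L 12) (L 12)) (B (B (L 22) (L 11)) (L 11)))))))) (B
    (L 3) (L 3)))) (C (L 4) (C (B (C (L 4) (B (B (B (L 11) (L 11)) (L 11)) (B (L 11) (L 4)))) (L
    4)) (B (C (B (L 3) (B (L 11) (L 11))) (L 3)) (B (L 11) (B (L 11) (L 11))))))))) (C (L 4) (C (L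
    4) (B (C (L 4) (B (C (L 4) (C (L 4) (B (B (L 11) (B (L 11) (C (L 4) (B (L 11) (B (B (L 11) (L
    27)) (L 10)))))) (C (L 4) (B (B (L 10) (L 10)) (L 4)))))) (L 4))) O)))) (B (C (C (B (L 3) (C (C
    (B (L 3) (L 3)) (L 3)) (L 3))) (L 3)) (L 3)) (C (C (B (C (B (C (C (B (L 3) (C (B (C (B (L 3) (L
    10)) (L 3)) (L 10)) (L 3))) (L 3)) (L 3)) (B (B (L 10) (L 10)) (L 10))) (L 3)) O) (B (L 3) O))
    (L 3)))) (L 3)) O) (B (L 3) O)) (L 3))) (C (L 3) (C (B (C (L 3) (B (C (B (C (L 3) (B (C (L 3)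
    (B (L 10) (C (L 3) (B (L 10) (L 3))))) (L 3))) (L 3)) (B (C (B (C (B (L 2) (B (L 10) (B (L 10)
    (L 10)))) (L 2)) (B (B (C (C (L 3) (B (B (L 10) (L 19)) (B (L 19) (L 9)))) (L 2)) (B (C (L 9)
    (L 9)) (L 9))) (B (L 9) (L 9)))) (B (L 2) (C (B (L 2) (L 9)) (L 2)))) (C (L 3) (B (B (L 9) (L
    9)) (B (L 9) (L 3)))))) (L 3))) (L 3)) (B (C (B (C (B (L 2) (C (B (L 2) (B (L 9) (L 9))) (L
    2))) (L 2)) (B (C (C (B (C (B (L 9) (L 3)) (B (L 9) (B (L 9) (L 3)))) (L 3)) (B (C (B (L 2) (C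
    (B (L 9) (B (L 9) (L 9))) (L 2))) (L 2)) (B (B (C (B (B (C (L 16) (C (L 16) (L 2))) (C (L 3) (B
    (L 16) (L 8)))) (B (C (L 3) (L 8)) (L 8))) (L 2)) (B (L 8) (L 8))) (B (L 8) (L 8))))) (L 2)) (C
    (C (L 3) (B (C (L 3) (B (L 8) (L 3))) (L 3))) (B (B (L 8) (L 8)) (L 8))))) (L 2)) (C (B (C (L
    3) (B (C (L 3) (B (L 8) (L 3))) (L 3))) O) (B (C (B (B (L 8) (B (L 8) (L 8))) (C (B (C (L 3) (B
    (L 8) (L 3))) (L 3)) (B (B (L 8) (B (L 8) (L 8))) (C (L 3) (B (C (B (L 8) O) (B (B (L 8) (L 8))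
    O)) O))))) (B (L 2) (C (B (L 2) (C (B (C (B (L 2) O) (L 2)) O) (L 2))) (L 2)))) O)))))) (C (C
    (C (B (L 2) (C (B (L 2) O) (L 2))) (L 2)) (L 2)) (C (L 2) (B (C (B (C (L 2) (B (B (L 7) (L 7))
    (C (L 2) (B (L 7) (L 2))))) (L 2)) (B (C (B (L 1) (C (B (L 7) (B (L 7) (L 7))) (B (L 1) (C (B
    (L 1) (L 7)) (L 1))))) (L 1)) (B (B (C (C (L 2) (C (B (B (C (L 7) (L 1)) (B (L 13) (L 13))) (C
    (L 2) (B (B (L 6) (L 6)) (L 2)))) (B (L 1) (L 6)))) (L 1)) (C (C (L 2) (B (L 6) (L 2))) (B (L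
    6) (L 6)))) (C (L 2) (B (L 6) (L 6)))))) (C (L 2) (B (C (L 2) (B (L 6) (L 2))) O))))))) (C (C
    (C (C (B (L 1) (C (B (B (B (L 6) (L 6)) (L 6)) O) (B (L 1) O))) (L 1)) (L 1)) (L 1)) (L 1))) = true := by
  decide +kernel

theorem c2_11 : cf false 2 11 12 64 180 46
    (C (C (C O (B (C O (C O (C (B (C O (B (C (L 5) (B (L 5) O)) O)) O) (B (C (B (C (B (C (B (L 5)
    (C (L 5) (B (C (L 5) (C (L 5) (B (L 5) (L 15)))) (C (C (L 5) (B (L 5) O)) (C (B (B (L 15) (B (L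
    15) O)) O) (B (C (B (L 15) (L 4)) (L 4)) O)))))) (B (B (B (C (C (L 5) (L 5)) (B (L 15) (L 15)))
    (C (L 15) (L 15))) (B (L 15) (L 15))) (C (B (C (B (L 15) (B (L 15) (L 4))) (L 4)) (L 4)) (L
    4)))) (C O (L 4))) (L 4)) O) (L 4)) O)))) O)) (C (C (C (C (B (L 4) O) (B (C (L 4) (B (L 4) (C
    (L 4) (C (L 4) (B (L 4) (C (L 4) (B (C (L 4) (B (L 4) O)) O))))))) O)) (C (B (C (C (B (C (B (L
    4) (C (L 4) (B (C (L 4) (B (L 4) (C (L 4) (B (L 4) (L 11))))) (B (B (L 11) (L 11)) (L 11)))))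
    (B (C (B (L 4) (C (L 4) (B (B (L 12) (L 12)) (B (L 12) (B (L 12) (L 12)))))) (B (C (B (C (L 4)
    (B (L 4) (C (L 4) (B (L 4) (L 12))))) (B (L 12) (L 12))) (B (C (B (B (L 13) (B (B (L 13) (L
    13)) (C (C (L 4) (C (B (L 4) (L 12)) (B (B (L 13) (B (L 13) (L 25))) (L 12)))) (L 3)))) (C (B
    (B (L 12) (L 12)) (L 12)) (L 3))) (L 3)) (L 3))) (C (B (B (L 12) (L 3)) (L 3)) (L 3)))) (C (B
    (C (B (C (L 4) (B (C (L 4) (B (C (L 4) (B (L 4) (B (L 12) (B (L 12) (L 12))))) (B (B (C (L 4)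
    (B (B (L 22) (L 11)) (L 11))) (L 11)) (L 11)))) (B (L 11) (L 11)))) (B (L 11) (L 11))) (B (C (B
    (C (B (B (L 12) (C (C (B (L 12) (L 3)) (L 3)) (L 3))) (L 3)) (L 3)) (L 3)) (L 3)) (L 3))) (L
    3)) (L 3)))) (C (B (C (B (C (L 4) (B (L 4) (C (L 4) (B (L 11) (C (B (L 4) (C (L 4) (B (C (L 4)
    (B (L 4) (C (L 4) (B (L 4) (L 10))))) (L 10)))) (B (B (L 11) (L 11)) (C (B (C (B (B (L 11) (L
    27)) (B (L 18) (L 10))) (B (C (B (L 11) (L 3)) (L 3)) (L 3))) (L 3)) (L 3)))))))) (B (B (B (B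
    (C (L 4) (L 10)) (L 10)) (L 10)) (L 10)) (B (L 10) (L 10)))) (B (C (B (B (L 11) (L 11)) (C (B
    (B (L 11) (L 11)) (L 3)) (L 3))) (L 3)) (L 3))) (C (B (C (B (L 10) O) (L 3)) O) (L 3))) (L 3)))
    (B (C (B (L 3) (L 3)) (L 3)) (L 3))) (L 3)) (C O (L 3))) (L 3))) (C (L 3) (C (C (L 3) (B (C (L
    3) (B (C (B (C (L 3) (B (B (L 10) (B (L 10) (L 10))) (C (L 3) (B (C (L 3) (B (B (L 10) (C (L 3)
    (C (L 3) (B (L 10) (L 19))))) (L 3))) (L 3))))) (L 3)) (B (C (B (L 2) (C (B (C (B (C (B (L 2)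
    (C (B (L 2) (L 19)) (L 2))) (L 2)) (B (L 9) (L 9))) (L 2)) (B (L 9) (L 9))) (B (L 2) (B (L 2)
    (L 9))))) (L 2)) (B (B (L 9) (L 9)) (B (L 9) (L 9))))) (C (L 3) (B (C (L 3) (B (C (L 3) (B (L
    9) (L 3))) (L 3))) (L 3))))) (L 3))) (C (B (C (B (C (B (L 2) (L 2)) (L 2)) (C (B (C (B (B (L 9)
    (L 9)) (C (L 3) (B (B (L 9) (B (L 9) (L 9))) (L 3)))) (B (L 2) (C (B (C (B (L 2) (C (B (L 2) (L
    9)) (L 2))) (L 2)) (B (B (C (C (B (L 16) (B (L 8) (L 8))) (L 2)) (L 2)) (L 8)) (L 8))) (L 2))))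
    (C (L 3) (B (B (L 8) (L 8)) (L 3)))) (B (L 2) (C (B (C (B (L 2) (L 8)) (L 2)) (L 8)) (L 2)))))
    (L 2)) (C (B (C (L 3) (B (B (L 8) (L 8)) (L 3))) O) (B (C (B (C (B (L 2) (L 8)) (L 2)) (B (L 8)
    O)) (L 2)) O))) (B (L 2) (C (B (L 2) O) (L 2))))))) (C (L 2) (C (L 2) (C (B (C (L 2) (B (C (B
    (B (L 7) (L 2)) (L 2)) (B (B (L 7) (L 7)) (B (L 7) (L 2)))) (L 2))) (L 2)) (B (C (B (C (B (L 1)
    (B (L 7) (L 7))) (L 1)) (C (B (C (L 2) (B (B (L 7) (C (L 2) (C (B (L 7) (L 2)) (B (L 7) (L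
    13))))) (L 2))) (L 2)) (B (C (B (C (B (L 1) (C (B (L 1) (L 13)) (L 1))) (L 1)) (B (B (L 6) (L
    6)) (L 6))) (B (L 1) (B (L 1) (L 6)))) (B (L 6) (L 6))))) (B (L 1) (C (B (L 1) (B (L 6) (L 6)))
    (L 1)))) (C (L 2) (B (B (L 6) (L 6)) O)))))))) (C (C (C (C (C (B (L 1) (C (B (C (B (L 1) (L 6))
    (L 1)) O) (B (L 1) O))) (L 1)) (L 1)) (L 1)) (L 1)) (L 1))) = true := by
  decide +kernel

end Pool.Agent.BX
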