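import Mathlib
import Pool.Agent.BX.Real

set_option autoImplicit false
set_option maxRecDepth 100000

namespace Pool.Agent.BX

open Tr

theorem c2_12 : cf false 2 12 10 64 204 42
    (C (C (C O (C O (C O (B (C (B (C O (C O (B (L 5) O))) O) (B (C (C (B (C (B (L 5) O) (B (C (L 5)
    (B (L 5) (C (L 5) (B (B (L 15) (L 15)) (C (B (B (L 5) (L 15)) (B (B (L 15) O) O)) (B (B (L 15)
    (L 15)) (L 4))))))) O)) O) (B (C (B (C (B (B (B (B (L 15) (L 15)) (L 15)) (B (L 15) (L 15))) (C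
    (B (B (L 15) (L 4)) (L 4)) (L 4))) (L 4)) (L 4)) (L 4)) O)) (L 4)) O)) O)))) (C (C (C (B (C (L
    4) (L 4)) O) (C (C (C (B (L 4) O) (B (C (C (B (L 4) (L 4)) (B (C (C (B (L 4) (C (L 4) (C (L 4)
    (L 4)))) (B (C (B (C (L 4) (C (L 4) (B (C (L 4) (B (L 4) (L 4))) (B (L 12) (L 12))))) (C (L 4)
    (B (L 12) (B (L 12) (L 12))))) (B (C (C (B (C (B (C (L 4) (B (L 13) (B (L 13) (B (B (L 13) (L
    25)) (L 12))))) (B (B (L 12) (L 12)) (L 12))) (B (C (B (L 13) (L 3)) (L 3)) (L 3))) (C (B (L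
    12) (L 3)) (L 3))) (L 3)) (L 3)) (L 3))) (C (B (C (C (L 4) (B (L 4) (C (L 4) (C (L 4) (B (L 4)
    (L 11)))))) (C (B (C (B (C (L 4) (B (L 4) (L 12))) (C (C (L 4) (B (L 4) (L 4))) (B (C (C (L 4)
    (B (L 4) (B (B (L 4) (L 11)) (L 11)))) (C (B (B (L 12) (B (L 12) (L 22))) (B (B (L 11) (L 11))
    (L 3))) (B (L 3) (L 3)))) (L 11)))) (B (B (L 12) (L 12)) (L 3))) (C (B (L 11) (L 11)) (L 3)))
    (L 3))) (B (L 11) (L 11))) (L 3)))) (C (B (L 3) (L 3)) (L 3))) (C (C (B (C (L 4) (C (L 4) (B (L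
    4) (L 4)))) (C (L 4) (C (L 4) (B (L 4) O)))) (B (C (C (B (B (L 11) (B (L 11) (L 11))) (C (C (L
    4) (B (L 4) (L 4))) (C (B (C (C (L 4) (B (L 4) (L 4))) (C (B (B (L 11) (L 11)) (C (C (B (L 4)
    (L 4)) (B (B (L 11) (B (L 11) (B (L 18) (L 10)))) (B (L 10) (L 10)))) (C (B (L 3) (L 3)) (L
    3)))) (B (L 3) (L 3)))) (B (L 10) (L 10))) (B (L 3) (L 3))))) (B (L 3) (L 3))) (L 3)) (C (B (B
    (L 10) (L 10)) O) (L 3)))) (L 3)))) (C (B (L 3) (L 3)) (L 3))) O)) (B (L 3) (L 3))) (L 3))) (C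
    (L 3) (C (B (C (L 3) (B (C (L 3) (B (C (L 3) (B (B (L 10) (B (L 10) (L 10))) (L 3))) (L 3))) (L
    3))) (L 3)) (B (C (B (C (B (C (B (C (B (L 2) (C (B (L 2) (L 10)) (L 2))) (L 2)) (C (B (C (B (B
    (L 10) (B (L 10) (L 10))) (C (L 3) (B (B (L 19) (L 19)) (L 9)))) (B (L 2) (C (B (L 2) (L 9)) (L
    2)))) (B (L 9) (L 9))) (B (L 2) (B (L 2) (L 9))))) (L 2)) (B (B (B (L 9) (L 9)) (L 9)) (B (L 9)
    (L 9)))) (L 2)) (C (B (C (L 3) (B (L 9) (L 3))) (L 3)) (B (C (B (B (L 9) (L 9)) (B (L 9) (B (L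
    9) (B (L 9) (C (L 3) (B (L 9) (L 9))))))) (L 2)) (C (B (C (L 3) (B (C (L 3) (B (C (L 3) (B (B
    (L 16) (B (L 16) (L 8))) (L 8))) (L 3))) (L 3))) (L 3)) (B (C (B (C (B (C (B (L 2) (L 8)) (L
    2)) (L 8)) (L 2)) (L 8)) (B (L 2) (L 2))) (B (L 8) (L 8))))))) (B (L 2) (C (B (L 2) (C (B (L 2)
    (B (L 2) (L 8))) (L 2))) (L 2)))) (C (B (L 3) O) (B (C (B (B (L 8) (L 8)) O) (B (L 2) O))
    O)))))) (C (C (C (B (L 2) (C (B (L 2) O) (L 2))) (L 2)) (L 2)) (C (L 2) (B (C (B (C (L 2) (B (B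
    (L 7) (L 7)) (L 2))) (L 2)) (B (C (B (B (L 1) (L 7)) (B (L 7) (C (L 7) (L 7)))) (L 1)) (C (B (C
    (L 2) (B (B (L 7) (C (L 2) (L 7))) (C (L 2) (B (C (L 2) (B (B (L 7) (L 13)) (L 2))) (L 2)))))
    (L 2)) (B (C (B (L 1) (C (B (C (B (B (L 1) (L 13)) (B (L 6) (L 6))) (L 1)) (L 6)) (L 1))) (L
    1)) (B (C (B (L 6) (L 6)) (L 6)) (L 6)))))) (C (L 2) (B (C (L 2) (B (B (L 6) (L 2)) O))
    O))))))) (C (C (C (C (B (L 1) (C (B (C (B (L 6) O) (L 1)) O) (B (L 1) O))) (L 1)) (L 1)) (L 1))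
    (L 1))) = true := by
  decide +kernel

theorem c2_13 : cf false 2 13 12 64 204 47
    (C (C (C O (C O (C O (B (C (B (C O (C O (L 5))) O) (B (C (C (B (C (L 5) (B (L 5) O)) O) (B (C
    (B (C (B (L 5) (C (L 5) (B (L 5) (C (L 5) (B (L 5) (C (L 5) (B (L 5) (L 15)))))))) (B (C (L 5)
    (B (C (L 5) (B (L 15) (L 15))) (B (L 15) (L 15)))) (C (B (B (L 15) (L 15)) (C (B (L 15) (B (L
    15) (C (L 15) (L 4)))) (L 4))) (B (C (B (L 15) (L 4)) (L 4)) (L 4))))) (C O (B (L 4) O))) (B (C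
    (B (C (B (C (B (L 15) (L 4)) (L 4)) (L 4)) (L 4)) (L 4)) (L 4)) (L 4))) O)) (L 4)) O)) O)))) (C
    (C (C (B (L 4) O) (C (C (C (B (L 4) O) (B (C (L 4) (C (B (C (L 4) (C (B (C (L 4) (C (L 4) (B (L
    4) (L 4)))) (C (L 4) (C (L 4) (B (L 4) (L 4))))) (B (C (C (B (C (L 4) (B (C (L 4) (B (L 4) (C
    (L 4) (C (L 4) (B (L 4) (L 4)))))) (B (L 12) (L 12)))) (B (L 12) (B (L 12) (L 12)))) (B (C (B
    (C (B (B (L 13) (B (L 13) (B (B (L 13) (L 25)) (L 12)))) (B (B (L 12) (L 12)) (L 12))) (L 3))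
    (C (C (B (L 12) (L 3)) (L 3)) (L 3))) (L 3)) (L 3))) (L 3)) (C (C (B (C (C (B (L 4) (L 4)) (B
    (C (L 4) (B (L 12) (B (L 12) (B (L 12) (B (L 12) (B (L 12) (B (L 12) (L 22)))))))) (B (B (B (B
    (L 11) (L 11)) (L 11)) (L 11)) (L 11)))) (C (B (C (B (L 12) (C (B (L 12) (L 3)) (L 3))) (L 3))
    (L 3)) (L 3))) (B (B (L 11) (L 11)) (L 11))) (B (L 3) (L 3))) (L 3))))) (C (L 4) (C (B (C (L 4)
    (C (L 4) (B (L 4) (L 4)))) (C (L 4) (C (L 4) (B (L 4) (L 4))))) (B (C (C (B (B (L 11) (L 11))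
    (C (C (B (L 4) (L 4)) (B (B (L 11) (L 11)) (B (B (L 11) (L 11)) (B (C (L 4) (C (C (C (B (B (L
    11) (B (L 11) (L 4))) (L 4)) (B (B (L 3) (B (L 11) (L 18))) (L 10))) (L 3)) (L 3))) (L 10)))))
    (C (B (L 3) (L 3)) (L 3)))) (L 3)) (L 3)) (C (C (B (B (B (L 10) (L 10)) (L 10)) (B (L 10) O))
    (B (L 3) (C (B (L 3) (L 3)) (L 3)))) (L 3)))))) (B (L 3) (L 3)))) O)) (C (B (L 3) (C O (L 3)))
    (L 3))) (L 3))) (C (L 3) (C (B (C (L 3) (L 3)) (L 3)) (B (C (B (C (B (C (B (B (L 10) (B (L 10)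
    (L 10))) (C (L 3) (B (C (B (L 10) (L 3)) (B (L 10) (C (B (C (L 3) (B (L 10) (L 3))) (L 3)) (B
    (B (L 10) (L 19)) (B (L 19) (L 9)))))) (L 3)))) (B (L 2) (C (B (C (B (L 2) (C (B (L 2) (B (L 2)
    (L 9))) (L 2))) (L 2)) (B (L 9) (L 9))) (L 2)))) (C (L 3) (B (B (L 9) (L 9)) (B (L 9) (L 3)))))
    (B (L 2) (C (B (L 2) (L 9)) (L 2)))) (C (L 3) (B (B (B (L 9) (L 9)) (B (L 9) (B (L 9) (L 9))))
    (C (L 3) (B (C (B (C (L 3) (B (L 9) (L 3))) (L 3)) (B (C (B (L 9) (B (L 9) (B (L 9) (L 9)))) (L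
    2)) (B (B (C (C (L 3) (C (L 3) (B (L 16) (L 8)))) (C (C (B (L 2) (L 8)) (L 2)) (L 2))) (C (L 3)
    (L 8))) (L 8)))) (C (L 3) (B (L 8) (L 3)))))))) (B (L 2) (C (B (L 2) (C (B (L 2) (B (L 8) (L
    8))) (L 2))) (L 2)))) (C (L 3) (B (B (C (B (B (L 8) (L 8)) O) (L 2)) O) O)))))) (C (C (C (B (L
    2) (C (B (L 2) O) (L 2))) (L 2)) (L 2)) (C (L 2) (B (C (B (C (L 2) (B (B (L 7) (L 7)) (L 2)))
    (L 2)) (B (C (B (B (L 7) (L 7)) (B (L 7) (L 7))) (L 1)) (C (B (C (L 2) (B (L 7) (L 2))) (L 2))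
    (B (C (B (C (B (L 1) (L 7)) (L 1)) (C (B (B (L 7) (C (L 7) (B (L 1) (L 13)))) (C (L 2) (B (L
    13) (L 6)))) (B (L 1) (C (B (L 1) (L 6)) (L 1))))) (L 1)) (B (C (B (C (L 2) (L 6)) (L 6)) (L
    6)) (C (L 2) (L 6))))))) (C (L 2) (B (C (L 2) (B (B (L 6) O) O)) O))))))) (C (C (C (C (B (L 1)
    (C (B (C (B (L 6) O) (L 1)) O) (L 1))) (L 1)) (L 1)) (L 1)) (L 1))) = true := by
  decide +kernel

theorem c2_14 : cf false 2 14 12 64 204 47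
    (C (C (C O (C O (C O (B (C (C O (B (L 5) O)) (C (B (C (B (L 5) O) (B (C (B (L 5) O) (B (C (B (C
    (L 5) (B (C (L 5) (B (L 5) (L 15))) (B (L 15) (L 15)))) (B (B (L 15) (L 15)) (B (L 15) (B (L
    15) (C (L 15) (L 4)))))) (B (C (B (B (L 15) (L 15)) (L 4)) (L 4)) (L 4))) (C (B (C (B (C (B (B
    (L 15) O) O) (L 4)) O) (L 4)) O) (L 4)))) O)) O) (B (C (L 4) (L 4)) O))) O)))) (C (C (C (B (L
    4) O) (C (C (C (L 4) (B (C (L 4) (C (L 4) (B (C (L 4) (C (L 4) (B (L 4) (L 4)))) (C (L 4) (C (L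
    4) (B (L 4) (L 4))))))) (C O (C O (B (C O (C (L 4) (B (L 4) O))) O))))) (C (B (C (C (B (C (C (B
    (C (C (B (C (L 4) (C (L 4) (B (C (L 4) (B (L 4) (C (L 4) (B (L 4) (L 12))))) (B (L 12) (L
    12))))) (C (L 4) (B (L 12) (L 12)))) (B (C (C (B (C (B (B (L 13) (B (L 13) (B (B (L 13) (L 25))
    (L 12)))) (B (B (L 12) (L 12)) (L 12))) (B (L 3) (L 3))) (C (B (L 3) (L 3)) (L 3))) (L 3)) (L
    3)) (L 3))) (L 3)) (C (C (C (B (L 4) (L 4)) (B (C (B (B (L 12) (L 12)) (C (L 4) (B (B (L 12) (B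
    (B (L 12) (B (L 12) (B (L 22) (L 11)))) (L 11))) (B (L 11) (L 11))))) (B (C (C (B (L 3) (L 3))
    (L 3)) (L 3)) (L 3))) (B (B (L 11) (L 11)) (L 11)))) (C (B (L 3) (L 3)) (L 3))) (L 3))) (L 3))
    (L 3)) (C (C (B (C (B (B (L 11) (L 11)) (B (L 11) (B (L 11) (L 11)))) (L 3)) (C (C (B (C (L 4)
    (B (C (L 4) (C (L 4) (B (C (L 4) (B (L 11) (L 4))) (L 4)))) (L 4))) (L 4)) (B (C (B (C (C (B (B
    (L 11) (B (L 11) (B (L 11) (L 11)))) (B (B (B (B (L 18) (L 10)) (L 10)) (L 10)) (L 10))) (B (L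
    3) (L 3))) (L 3)) (B (L 10) (L 10))) (L 3)) (B (L 10) (L 10)))) (C (B (L 3) (L 3)) (L 3)))) (L
    3)) (L 3))) (L 3)) (L 3)) (C (C (B (C (C (B (B (B (L 10) O) O) O) (B (L 3) O)) (L 3)) O) (B (L
    3) O)) (L 3))) (L 3))) (L 3))) (C (L 3) (C (L 3) (B (C (B (C (B (C (C (L 3) (B (C (L 3) (B (L
    10) (L 3))) (L 3))) (B (C (B (L 10) (L 10)) (L 2)) (C (C (L 3) (B (C (B (L 10) (L 3)) (B (L 10)
    (C (L 3) (B (L 10) (L 3))))) (L 3))) (C (B (C (B (L 2) (B (L 10) (B (L 10) (L 19)))) (L 2)) (B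
    (B (B (L 9) (L 9)) (L 9)) (L 9))) (B (L 2) (B (L 2) (L 9))))))) (C (L 3) (C (L 3) (B (C (L 3)
    (B (L 9) (L 3))) (L 3))))) (B (L 2) (C (B (B (L 9) (L 9)) (B (L 9) (L 9))) (L 2)))) (C (L 3) (B
    (B (L 9) (B (L 9) (L 9))) (C (L 3) (B (C (L 3) (B (L 9) (L 3))) (L 3)))))) (B (L 2) (C (B (L 2)
    (C (B (C (B (L 9) (B (L 9) (B (L 9) (C (L 3) (B (L 9) (L 16)))))) (L 2)) (B (B (C (C (L 3) (B
    (B (B (L 16) (L 16)) (C (L 3) (L 8))) (L 8))) (L 2)) (C (C (L 3) (L 8)) (L 8))) (B (L 8) (L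
    8)))) (L 2))) (L 2)))) (C (L 3) (B (B (B (B (C (L 8) (L 2)) O) O) O) O)))))) (C (C (C (B (L 2)
    (C (B (L 2) O) (L 2))) (L 2)) (L 2)) (C (L 2) (C (B (C (L 2) (B (C (L 2) (B (L 7) (L 2))) (L
    2))) (L 2)) (B (C (B (B (B (L 7) (L 7)) (B (L 7) (L 7))) (C (L 2) (B (C (L 2) (B (L 7) (L 2)))
    (L 2)))) (B (L 1) (C (B (C (B (L 7) (B (L 7) (B (L 7) (L 2)))) (B (L 1) (C (B (L 1) (B (L 7) (L
    13))) (L 1)))) (C (L 2) (B (B (B (B (L 13) (L 13)) (L 6)) (L 6)) (L 2)))) (B (L 1) (B (C (B (L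
    1) (L 6)) (L 1)) (L 6)))))) (C (L 2) (B (C (L 2) (B (B (L 6) O) O)) O)))))))) (C (C (C (C (C (B
    (L 1) (B (C (B (B (L 6) O) O) (L 1)) O)) (L 1)) (L 1)) (L 1)) (L 1)) (L 1))) = true := by
  decide +kernel

theorem c2_15 : cf false 2 15 12 64 220 47
    (C (C (C O (C O (B (C O (C (C O (B (L 5) O)) (C (B (C (L 5) (C (B (L 5) O) (B (C (B (L 5) (C O
    (B (L 5) O))) (B (C (L 5) (B (C (L 5) (B (L 5) (L 15))) (B (L 15) (B (L 15) (L 15))))) (C (B (C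
    (B (L 5) O) (B (C (B (L 5) O) (B (B (L 5) (L 15)) O)) O)) O) (B (C (B (C (B (B (L 15) (L 15))
    O) (L 4)) O) (L 4)) O)))) O))) O) (B (C (C (B (C (B (C (B (C (B (B (L 15) (L 15)) (L 15)) (B (C
    (B (L 15) (L 4)) (L 4)) (L 4))) (L 4)) (L 4)) (L 4)) (L 4)) O) (L 4)) (L 4)) O)))) O))) (C (C
    (C (B (L 4) O) (C (C (C (L 4) (B (L 4) O)) (B (C (C (B (C (L 4) (B (C (B (C (B (C (L 4) (B (B
    (L 13) (C (L 4) (B (L 13) (B (B (L 13) (L 25)) (B (L 12) (L 12)))))) (C (L 4) (B (B (L 12) (L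
    12)) (L 4))))) (L 4)) (B (C (B (L 3) (B (B (L 3) (L 12)) (L 12))) (L 3)) (B (L 12) (L 12)))) (C
    (L 4) (B (L 12) (L 4)))) (B (L 3) (C (B (L 12) (L 12)) (L 3)))) (C (L 4) (B (C (B (B (L 12) (L
    4)) (L 4)) (B (B (L 12) (L 12)) (B (B (L 12) (L 12)) (C (L 4) (C (B (B (L 12) (B (L 12) (C (L
    4) (C (B (L 12) (B (L 22) (L 11))) (L 3))))) (B (B (L 11) (L 11)) (L 11))) (B (L 3) (B (L 3) (L
    11)))))))) (C (L 4) (B (C (L 4) (B (B (L 11) (L 11)) (L 4))) (L 4))))))) (L 4)) (B (C (B (L 3)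
    (C (B (L 3) (C (B (C (B (L 11) (L 11)) (L 3)) (L 11)) (L 3))) (L 3))) (L 3)) (C (B (B (B (L 11)
    (L 11)) (B (L 11) (L 11))) (C (L 4) (B (C (L 4) (B (B (L 11) (L 11)) (C (L 4) (B (B (L 11) (C
    (L 4) (C (B (L 11) (L 4)) (B (L 11) (B (B (L 11) (L 18)) (L 10)))))) (C (L 4) (B (L 10) (L
    4))))))) (L 4)))) (B (L 3) (C (B (C (B (L 3) (C (B (C (B (L 3) (C (L 3) (L 3))) (L 3)) (B (L
    10) (L 10))) (L 3))) (L 3)) (B (B (L 10) (L 10)) O)) (L 3)))))) (L 3)) O)) (C (B (L 3) O) (L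
    3)))) (C (L 3) (C (L 3) (B (C (B (C (B (C (L 3) (B (B (L 10) (L 10)) (L 3))) (L 3)) (B (C (B (C
    (B (L 2) (L 10)) (L 2)) (C (B (B (L 10) (B (L 10) (C (L 3) (B (L 10) (L 19))))) (C (L 3) (B (B
    (B (L 19) (L 19)) (L 9)) (L 9)))) (B (L 2) (C (B (L 2) (L 9)) (L 2))))) (L 2)) (B (B (C (B (L
    9) (L 9)) (L 2)) (C (L 9) (L 9))) (B (L 9) (L 9))))) (C (L 3) (B (C (L 3) (B (L 9) (L 3))) (L
    3)))) (B (L 2) (C (B (B (L 9) (B (L 9) (L 9))) (C (L 3) (B (B (L 9) (L 9)) (C (L 3) (B (B (L 9)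
    (B (L 9) (C (L 3) (B (L 9) (L 9))))) O))))) (B (L 2) (C (B (L 2) (C (B (L 2) O) (L 2))) (L
    2)))))) O)))) (C (C (C (B (L 2) O) (L 2)) (L 2)) (C (L 2) (B (C (B (L 2) (L 2)) (B (B (C (L 7)
    (L 1)) (C (L 7) (C (L 7) (L 1)))) (C (L 2) (B (B (C (L 7) (L 1)) (C (B (L 7) (L 7)) (C (B (L 1)
    (B (L 1) (L 7))) (L 1)))) (C (L 2) (B (C (B (B (B (L 7) (L 13)) (B (L 13) (L 13))) (C (L 2) (B
    (L 13) (L 6)))) (B (L 1) (L 6))) (B (C (L 2) (L 6)) O))))))) O))))) (C (C (C (C (B (C (B (L 1)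
    (C (B (L 1) (C (B (L 1) (L 6)) (L 1))) (L 1))) (L 1)) O) (L 1)) (L 1)) (L 1)) (L 1))) = true := by
  decide +kernel

theorem c2_16 : cf false 2 16 12 64 220 48
    (C (C (C O (C O (B (C O (C O (C (B (C (L 5) (C (B (L 5) O) (B (C (L 5) (B (L 5) (C (L 5) (B (L
    5) O)))) O))) O) (B (C (C (B (C (B (C (B (L 5) (C (L 5) (B (L 5) (C (L 5) (B (L 5) (L 15))))))
    (B (C (L 5) (B (C (L 5) (B (L 5) (L 15))) (L 15))) (B (L 15) (B (L 15) (L 15))))) (C (B (C (B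
    (L 5) O) (B (B (L 15) (B (L 15) O)) O)) O) (B (C (B (L 4) O) (L 4)) O))) (B (C (B (C (B (B (L
    15) (L 15)) (L 4)) (L 4)) (L 4)) (L 4)) (L 4))) O) (L 4)) (L 4)) O)))) O))) (C (C (C (B (L 4)
    O) (C (C (L 4) (C (B (C (B (L 4) (L 4)) (B (C (B (C (B (B (C (C (L 4) (B (B (L 13) (B (L 13) (B
    (B (L 13) (B (L 25) (L 25))) (B (L 25) (L 12))))) (B (B (L 12) (L 12)) (L 12)))) (C (B (L 3) (C
    (B (L 3) (L 12)) (L 3))) (L 3))) (B (L 12) (L 12))) (C (L 4) (B (L 12) (L 4)))) (B (L 3) (C (B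
    (L 12) (L 12)) (L 3)))) (C (L 4) (B (B (B (L 12) (L 12)) (B (L 12) (B (L 12) (B (L 12) (L
    12))))) (C (L 4) (B (C (L 4) (B (B (C (B (B (L 12) (C (C (L 4) (B (L 12) (B (L 33) (L 11)))) (L
    3))) (L 11)) (L 3)) (L 11)) (L 11))) (L 4)))))) (B (L 3) (C (B (L 3) (C (B (C (B (L 3) (L 11))
    (L 3)) (B (L 11) (L 11))) (L 3))) (L 3)))) (C (L 4) (B (B (B (L 11) (L 11)) (B (L 11) (L 11)))
    (C (L 4) (B (B (L 11) (B (L 11) (L 11))) (C (L 4) (B (C (L 4) (B (C (L 4) (B (L 11) O)) O))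
    O)))))))) O) (B (C (B (L 3) (C (B (L 3) (C (B (L 3) (C (B (C (B (C (B (L 3) O) (L 3)) O) (L 3))
    O) (L 3))) (L 3))) (L 3))) (L 3)) O))) (C (B (L 3) O) (L 3)))) (C (L 3) (C (L 3) (B (C (B (C (B
    (C (L 3) (B (C (L 3) (B (L 10) (L 3))) (L 3))) (L 3)) (B (C (B (B (L 10) (L 10)) (C (L 3) (B (B
    (L 10) (B (L 10) (L 10))) (C (L 3) (B (B (B (L 10) (L 19)) (B (L 19) (L 9))) (B (L 9) (L
    9))))))) (B (L 2) (C (B (L 2) (C (B (L 2) (L 9)) (L 2))) (L 2)))) (C (L 3) (B (B (B (L 9) (L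
    9)) (L 9)) (B (L 9) (L 9)))))) (L 3)) (B (C (B (L 2) (C (B (L 2) (L 9)) (L 2))) (L 2)) (C (B (B
    (L 9) (L 9)) (C (L 3) (B (B (L 9) (L 9)) (C (L 3) (B (L 9) O))))) (B (L 2) (C (B (L 2) (C (B (L
    9) O) (L 2))) (L 2)))))) O)))) (C (C (C (B (L 2) O) (L 2)) (L 2)) (C (L 2) (C (L 2) (B (B (B (C
    (L 7) (L 1)) (C (L 7) (C (L 7) (L 1)))) (C (L 2) (B (B (C (L 7) (L 1)) (C (L 7) (C (L 7) (L
    1)))) (C (L 2) (C (B (B (L 7) (C (L 2) (C (L 2) (B (L 7) (L 2))))) (L 2)) (B (C (B (L 1) (C (B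
    (L 13) (L 13)) (B (L 1) (L 6)))) (L 1)) (B (B (L 6) O) O))))))) O)))))) (C (C (C (C (C (B (C (B
    (L 1) (C (B (L 1) (C (B (L 1) (L 6)) (L 1))) (L 1))) (L 1)) O) (L 1)) (L 1)) (L 1)) (L 1)) (L
    1))) = true := by
  decide +kernel

theorem c2_17 : cf false 2 17 12 64 204 48
    (C (C (C O (C O (B (C O (C O (C (B (C (L 5) (B (C (L 5) (L 5)) O)) O) (B (C (B (C (C (B (L 5)
    (C (B (L 5) O) (B (C (B (L 5) O) (B (C (L 5) (B (L 15) (B (L 15) (L 15)))) O)) O))) (B (B (C (L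
    5) (B (B (L 15) (L 15)) (L 15))) (B (L 15) (B (L 15) (L 15)))) (C (B (C (B (C (B (L 15) (L 4))
    (L 4)) (L 4)) (L 4)) O) (L 4)))) (C (B (L 4) (L 4)) (L 4))) O) (L 4)) O)))) O))) (C (C (C (B (C
    (L 4) (L 4)) O) (C (C (L 4) (C (C (B (L 4) O) (B (C (C (L 4) (B (C (L 4) (C (L 4) (B (C (L 4)
    (C (L 4) (B (C (L 4) (B (C (C (L 4) (C (L 4) (B (L 4) (L 4)))) (C (C (B (B (L 13) (B (L 13) (C
    (B (B (L 13) (L 25)) (B (L 25) (L 12))) (L 3)))) (B (B (L 12) (L 12)) (L 12))) (B (L 3) (L 3)))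
    (L 3))) (B (L 12) (L 12)))) (C (L 4) (B (L 12) (L 12)))))) (C (L 4) (C (L 4) (B (C (L 4) (B (L
    12) (L 4))) (L 4))))))) (C (L 4) (C (L 4) (B (L 4) (L 4)))))) (C (B (C (C (B (C (C (B (L 3) (C
    (C (B (L 3) (L 12)) (L 3)) (L 3))) (L 3)) (L 3)) (C (C (B (C (B (L 12) (B (L 12) (L 12))) (L
    3)) (B (C (C (L 4) (B (B (L 12) (B (L 12) (B (L 12) (B (L 12) (B (L 33) (L 11)))))) (B (B (L
    11) (L 11)) (L 11)))) (C (B (L 3) (L 3)) (L 3))) (B (L 11) (L 11)))) (B (L 3) (L 3))) (L 3)))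
    (L 3)) (L 3)) (C (C (B (C (B (B (L 11) (L 11)) (B (L 11) (L 11))) (B (L 3) (L 3))) (C (B (C (L
    4) (B (L 11) (L 4))) O) (B (B (L 11) (L 11)) O))) (B (L 3) (C (B (L 3) O) (L 3)))) (L 3))) (L
    3))) O)) (C (B (L 3) O) (L 3)))) (L 3))) (C (L 3) (C (L 3) (C (B (C (L 3) (B (C (B (C (B (B (L
    10) (L 3)) (L 3)) (B (B (L 10) (L 10)) (C (L 3) (B (B (L 10) (L 10)) (L 3))))) (L 3)) (B (C (B
    (L 2) (C (B (C (B (L 2) (L 10)) (L 2)) (B (C (B (L 10) (B (L 10) (L 19))) (L 2)) (B (B (L 19)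
    (L 9)) (L 9)))) (L 2))) (L 2)) (B (B (B (L 9) (L 9)) (L 9)) (B (L 9) (L 9))))) (L 3))) O) (B (C
    (B (C (B (L 2) (C (B (L 2) (L 9)) (L 2))) (L 2)) (B (B (L 9) (L 9)) (B (B (L 9) (L 9)) O))) (L
    2)) O))))) (C (C (C (C (B (L 2) O) (L 2)) (L 2)) (L 2)) (C (L 2) (C (L 2) (B (B (B (C (L 7) (L
    1)) (C (L 7) (C (L 7) (L 1)))) (C (L 2) (B (B (C (L 7) (L 1)) (C (L 7) (L 1))) (C (C (L 2) (B
    (L 7) O)) (C (B (B (L 7) (B (L 7) O)) O) (B (L 1) O)))))) O)))))) (C (C (C (C (C (B (L 1) O) (L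
    1)) (L 1)) (L 1)) (L 1)) (L 1))) = true := by
  decide +kernel

theorem c2_18 : cf false 2 18 12 64 208 48
    (C (C (C O (C O (B (C O (C O (C (B (C (L 5) (C (L 5) (B (L 5) O))) O) (B (C (C (B (C (L 5) (B
    (C (L 5) (B (L 5) (C (L 5) (B (L 5) (L 15))))) (C (B (L 5) O) (B (B (B (L 15) (L 15)) (C (C (B
    (L 5) O) (B (B (L 15) O) O)) (L 4))) O)))) O) (B (C (B (C (B (C (L 5) (B (C (L 5) (B (L 5) (L
    15))) (L 15))) (B (L 15) (L 15))) (B (C (B (B (L 15) (L 15)) (L 4)) (L 4)) (L 4))) (L 4)) (L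
    4)) O)) (L 4)) O)))) O))) (C (C (C (C (B (L 4) O) (L 4)) (C (C (L 4) (C (C (L 4) (B (C (L 4) (B
    (C (L 4) (C (B (C (L 4) (B (L 4) (L 4))) (L 4)) (B (C (B (C (B (B (B (L 13) (B (L 13) (B (B (L
    13) (L 25)) (B (L 25) (L 12))))) (B (B (L 12) (L 12)) (L 12))) (C (L 4) (B (L 12) (L 12)))) (B
    (L 3) (C (B (L 3) (L 12)) (L 3)))) (C (L 4) (B (L 12) (L 12)))) (B (L 3) (C (B (L 3) (L 12)) (L
    3)))) (C (B (L 4) (L 4)) (B (B (L 12) (B (L 12) (L 12))) (C (L 4) (B (B (L 12) (C (L 4) (B (L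
    12) (C (L 4) (C (B (B (L 12) (B (B (L 12) (L 22)) (B (L 33) (L 11)))) (L 11)) (B (L 3) (L
    11))))))) (C (L 4) (B (B (L 11) (L 4)) (L 4)))))))))) (C (L 4) (C (L 4) (B (L 4) (L 4)))))) O))
    (B (C (C (B (C (C (B (L 3) (C (B (L 3) (C (B (L 3) (B (B (L 11) (L 11)) (L 11))) (L 3))) (L
    3))) (L 3)) (L 3)) (C (C (B (B (B (L 11) (L 11)) (B (L 11) (L 11))) (C (L 4) (B (B (L 11) O)
    O))) (B (L 3) (C (B (C (B (L 3) O) (L 3)) O) (L 3)))) (L 3))) (L 3)) (L 3)) O))) (C (L 3) (L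
    3)))) (C (L 3) (C (L 3) (C (B (C (L 3) (B (C (B (C (L 3) (B (B (L 10) (L 3)) (L 3))) (L 3)) (B
    (C (B (B (L 10) (L 10)) (C (B (L 10) (L 3)) (B (L 10) (C (L 3) (B (B (L 10) (L 10)) (L 3))))))
    (B (L 2) (C (B (L 2) (C (B (B (L 2) (L 10)) (B (B (L 19) (L 19)) (L 9))) (B (L 2) (C (B (L 2)
    (L 9)) (L 2))))) (L 2)))) (C (L 3) (B (B (B (L 9) (L 9)) (L 9)) (L 3))))) (L 3))) O) (B (C (B
    (C (B (L 2) (C (B (C (B (L 2) (L 9)) (L 2)) (L 9)) (L 2))) (L 2)) (C (B (B (L 9) (L 9)) (L 3))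
    (B (C (B (L 2) (L 9)) (L 2)) (B (L 9) O)))) (B (L 2) (C (B (L 2) (C (B (L 2) O) (L 2))) (L
    2)))) O))))) (C (C (C (C (B (L 2) O) (L 2)) (L 2)) (L 2)) (C (L 2) (C (L 2) (B (B (B (C (L 7)
    (L 1)) (C (L 7) (B (L 1) (L 7)))) (C (L 2) (B (B (L 7) (C (L 7) (L 1))) (C (C (L 2) (B (L 7)
    O)) (B (B (L 7) O) O))))) O)))))) (C (C (C (C (C (B (L 1) O) (L 1)) (L 1)) (L 1)) (L 1)) (L
    1))) = true := by
  decide +kernel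

theorem c2_19 : cf false 2 19 12 64 192 49
    (C (C (C O (C O (B (C O (C O (C (B (C (L 5) (B (L 5) O)) O) (B (C (B (C (B (L 5) (C (L 5) (C (B
    (L 5) O) (B (C (L 5) (B (L 5) (C (L 5) (B (L 5) O)))) O)))) (B (B (B (C (L 5) (B (L 15) (L
    15))) (C (B (L 15) (L 15)) (L 15))) (B (C (L 15) (L 4)) (C (L 15) (L 4)))) (C (C (B (B (B (L
    15) (L 15)) (C (C (B (L 15) O) (B (L 15) (L 4))) (L 4))) O) (L 4)) (L 4)))) O) (L 4)) O))))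
    O))) (C (C (C (B (C (L 4) (L 4)) O) (C (C (C (L 4) (L 4)) (C (B (C (L 4) (C (B (L 4) (L 4)) (B
    (C (L 4) (B (L 4) (C (L 4) (B (L 4) (C (L 4) (B (C (L 4) (B (L 12) (B (L 12) (L 12)))) (C (B (C
    (L 4) (B (C (L 4) (B (L 4) (C (L 4) (B (L 4) (C (L 4) (B (L 12) (B (L 33) (L 11)))))))) (B (L
    11) (L 11)))) (L 11)) (B (C (B (B (L 12) (C (C (B (L 12) (C (B (B (L 12) (L 12)) (L 3)) (L 3)))
    (L 3)) (L 3))) (L 3)) (L 3)) (L 3))))))))) (C (B (L 4) O) (B (B (B (B (L 11) (L 11)) (L 11)) (B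
    (L 11) (L 11))) O))))) O) (B (C (C (B (C (B (C (B (L 4) (C (L 4) (B (L 12) (L 12)))) (B (B (C
    (L 4) (C (B (C (L 4) (B (L 4) (C (L 4) (B (L 13) (B (L 13) (B (L 25) (L 12))))))) (B (B (L 12)
    (L 12)) (L 12))) (B (C (B (L 13) (C (B (L 13) (L 3)) (L 3))) (L 3)) (L 3)))) (B (L 12) (L 12)))
    (C (B (L 12) (L 3)) (L 3)))) (C (B (B (L 12) (L 12)) (C (B (C (B (L 12) (L 3)) (L 3)) (L 3)) (L
    3))) (L 3))) (B (L 3) (L 3))) (L 3)) (L 3)) (L 3)) O))) (L 3))) (C (L 3) (C (L 3) (C (B (C (L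
    3) (B (C (L 3) (B (B (B (L 10) (L 10)) (B (B (L 10) (L 10)) (C (L 3) (C (B (L 10) (C (L 3) (C
    (B (L 10) (L 3)) (B (B (L 10) (L 10)) (B (L 19) (L 9)))))) (L 2))))) (C (L 3) (B (C (B (C (L 3)
    (B (C (L 3) (L 9)) (L 3))) (L 3)) (B (B (L 9) (L 9)) (L 9))) (L 3))))) (L 3))) O) (B (C (B (C
    (B (L 2) (C (B (C (B (L 2) (L 9)) (L 2)) (B (L 9) (L 9))) (L 2))) (L 2)) (B (B (B (L 9) (L 9))
    (L 9)) O)) (L 2)) O))))) (C (C (C (C (B (L 2) O) (L 2)) (L 2)) (L 2)) (C (L 2) (C (L 2) (B (B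
    (B (C (L 7) (L 1)) (C (L 7) (B (L 1) (L 7)))) (C (L 2) (B (B (L 7) (C (L 7) (L 1))) O)))
    O)))))) (C (C (C (C (C (B (L 1) O) (L 1)) (L 1)) (L 1)) (L 1)) (L 1))) = true := by
  decide +kernel

theorem c2_20 : cf false 2 20 12 64 204 49
    (C (C (C O (C O (C O (C O (B (C (B (L 5) O) (B (C (C (B (L 5) O) (B (C (B (L 5) (C (B (L 5) O)
    (B (C (L 5) (B (L 5) (B (L 15) (B (L 15) (L 15))))) O))) (B (B (C (L 5) (B (B (L 15) (L 15)) (L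
    15))) (B (L 15) (L 15))) (C (B (C (B (L 15) (C (B (L 15) (L 4)) (L 4))) (L 4)) (L 4)) (L 4))))
    O)) (C (B (C (L 4) (L 4)) (L 4)) (L 4))) O)) O))))) (C (C (C (C (B (L 4) O) (L 4)) (C (C (L 4)
    (C (C (L 4) (L 4)) (C (B (C (C (L 4) (B (L 4) (L 4))) (C (B (C (B (C (C (L 4) (C (B (L 4) (L
    4)) (B (C (B (C (C (B (C (L 4) (B (L 13) (L 4))) (L 4)) (B (B (L 13) (B (L 13) (B (L 13) (B (L
    25) (L 12))))) (B (B (L 12) (L 12)) (L 12)))) (C (B (L 3) (C (B (L 3) (L 12)) (L 3))) (L 3)))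
    (B (L 12) (L 12))) (B (L 3) (L 3))) (B (L 12) (L 12))))) (C (C (B (L 3) (L 3)) (L 3)) (L 3)))
    (B (B (L 12) (L 12)) (C (L 4) (C (C (B (B (L 12) (L 12)) (C (L 4) (B (B (L 12) (L 12)) (B (B (B
    (L 12) (B (B (L 12) (L 12)) (B (L 33) (L 11)))) (L 11)) (L 11))))) (L 3)) (L 3))))) (L 3)) (C
    (C (B (L 4) O) (B (C (B (B (B (L 11) (L 11)) (L 11)) (B (L 11) (L 11))) (B (L 3) (C (B (L 3) (L
    11)) (L 3)))) O)) (C (B (L 3) O) (L 3)))) (L 3))) O) (B (L 3) O)))) (C (L 3) (L 3)))) (C (L 3)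
    (C (L 3) (C (B (C (L 3) (B (C (L 3) (B (C (B (L 10) (L 3)) (B (B (L 10) (L 10)) (C (L 3) (B (L
    10) (L 3))))) (L 3))) (L 3))) O) (B (C (B (C (B (C (B (L 2) (C (B (L 10) (B (L 10) (B (L 10) (B
    (L 10) (L 19))))) (L 2))) (L 2)) (B (B (B (C (B (C (C (L 3) (B (L 19) (L 9))) (L 2)) (L 9)) (L
    2)) (C (L 9) (L 2))) (B (L 9) (L 9))) (B (L 9) (L 9)))) (L 2)) (C (B (C (L 3) (B (L 9) (L 3)))
    O) (B (B (L 9) (L 9)) O))) (B (L 2) (C (B (L 2) O) (L 2)))) O))))) (C (C (C (C (B (L 2) O) (L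
    2)) (L 2)) (L 2)) (C (L 2) (C (L 2) (B (B (B (C (L 7) (L 1)) (C (L 7) (L 7))) (C (L 2) (B (B (L
    7) (L 7)) O))) O)))))) (C (C (C (C (C (B (L 1) O) (L 1)) (L 1)) (L 1)) (L 1)) (L 1))) = true := by
  decide +kernel

end Pool.Agent.BX
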