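import Mathlib
import Pool.Agent.BX.Real

set_option autoImplicit false
set_option maxRecDepth 100000

namespace Pool.Agent.BX

open Tr

theorem c2_21 : cf false 2 21 12 64 208 49
    (C (C (C O (C O (C O (C O (B (C (C O (B (L 5) O)) (C (B (C (B (L 5) O) (B (C (L 5) (B (C (L 5)
    (B (L 5) (B (L 15) (L 15)))) (B (B (B (L 15) (L 15)) (B (L 15) (C (L 15) (B (L 15) (L 15)))))
    (C O (C (L 4) (L 4)))))) O)) O) (B (C (B (C (B (C (B (B (B (L 15) (L 15)) (L 15)) (C (B (L 15)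
    (L 4)) (L 4))) (L 4)) (L 4)) (L 4)) (L 4)) (L 4)) O))) O))))) (C (C (C (C (B (L 4) O) (L 4)) (C
    (C (L 4) (C (L 4) (C (B (C (L 4) (C (B (L 4) (L 4)) (B (C (B (C (L 4) (B (C (B (C (L 4) (C (L
    4) (B (B (L 13) (B (L 13) (C (L 4) (C (L 4) (B (L 13) (C (L 4) (C (L 4) (B (L 25) (L 4)))))))))
    (L 4)))) (L 4)) (B (C (C (B (C (B (L 3) (C (B (L 3) (C (B (L 3) (B (L 25) (L 12))) (L 3))) (L
    3))) (L 3)) (B (B (L 12) (L 12)) (L 12))) (B (L 3) (C (B (L 3) (L 12)) (L 3)))) (L 3)) (B (L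
    12) (L 12)))) (C (L 4) (B (L 12) (L 4))))) (L 4)) (B (C (B (L 3) (C (B (L 12) (L 12)) (L 3)))
    (L 3)) (B (B (L 12) (L 12)) (B (L 12) (B (L 12) (B (L 12) (B (L 12) (B (L 12) (C (L 4) (C (C (L
    4) (B (B (L 12) (L 12)) (B (L 33) (L 11)))) (L 3))))))))))) (C (L 4) (B (C (L 4) (B (B (B (B (B
    (B (L 11) (L 11)) (L 11)) (L 11)) (L 11)) (L 11)) (C (L 4) (B (L 11) O)))) O))))) O) (B (C (C
    (B (L 3) (C (B (C (B (L 3) (B (L 11) O)) (L 3)) O) (B (L 3) O))) (L 3)) (L 3)) O)))) (C (C (C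
    (L 3) (L 3)) (L 3)) (L 3)))) (C (L 3) (C (L 3) (C (B (C (L 3) (B (C (L 3) (B (C (L 3) (B (L 10)
    (L 3))) (L 3))) (L 3))) O) (B (C (B (C (B (C (B (B (L 2) (L 10)) (B (L 10) (B (L 10) (B (L 10)
    (L 10))))) (B (L 2) (C (B (L 2) (C (B (L 2) (B (L 2) (L 10))) (L 2))) (L 2)))) (C (L 3) (B (B
    (C (B (C (B (B (L 19) (L 19)) (L 9)) (L 2)) (L 9)) (L 2)) (L 9)) (B (L 9) (L 3))))) (B (L 2) (C
    (B (L 2) (B (L 9) (L 9))) (L 2)))) (C (L 3) (B (B (L 9) (L 9)) O))) (B (L 2) (C (B (L 2) O) (L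
    2)))) O))))) (C (C (C (C (B (L 2) O) (L 2)) (L 2)) (L 2)) (C (L 2) (C (L 2) (B (B (B (C (L 7)
    (L 1)) (C (L 7) (L 7))) (C (L 2) (B (B (L 7) (L 7)) O))) O)))))) (C (C (C (C (C (B (L 1) O) (L
    1)) (L 1)) (L 1)) (L 1)) (L 1))) = true := by
  decide +kernel

theorem c2_22 : cf false 2 22 12 64 200 49
    (C (C (C O (C O (C O (C O (B (C (B (L 5) O) (B (C (C (B (L 5) O) (B (C (L 5) (B (L 5) (C (L 5)
    (B (C (L 5) (B (L 5) (B (L 15) (L 15)))) (C (B (C (L 5) (B (L 5) O)) O) (B (C (B (L 15) O) (B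
    (B (L 15) (L 4)) O)) O)))))) O)) (C (B (C (B (B (C (L 5) (B (B (L 15) (L 15)) (L 15))) (B (L
    15) (L 15))) (C (B (C (B (L 15) (B (L 15) (L 4))) (L 4)) (L 4)) (L 4))) (B (L 4) (L 4))) (L 4))
    (L 4))) O)) O))))) (C (C (C (C (B (L 4) O) (L 4)) (C (C (L 4) (C (L 4) (B (C (C (L 4) (C (L 4)
    (B (L 4) (C (L 4) (C (L 4) (B (L 4) O)))))) (C (C (B (C (C (B (C (L 4) (L 4)) (C (L 4) (B (B (L
    12) (L 12)) (B (L 12) (B (L 12) (L 12)))))) (B (C (B (C (L 4) (B (C (L 4) (B (L 4) (C (L 4) (B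
    (L 4) (L 12))))) (B (L 12) (L 12)))) (B (L 12) (L 12))) (B (C (B (C (B (B (L 13) (B (L 13) (B
    (L 13) (B (L 13) (L 25))))) (B (B (L 12) (L 12)) (L 12))) (L 3)) (L 3)) (L 3)) (L 3))) (C (B (B
    (L 12) (L 12)) (L 3)) (L 3)))) (L 3)) (C (C (B (B (B (C (L 4) (C (B (B (L 12) (B (B (L 12) (B
    (L 12) (B (L 33) (L 11)))) (L 11))) (B (L 11) (L 11))) (L 3))) (B (L 11) (L 11))) (B (L 11) O))
    O) (B (L 3) O)) (L 3))) (L 3)) (L 3))) O))) (C (L 3) (L 3)))) (C (L 3) (C (L 3) (C (B (L 3) O)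
    (B (C (B (C (B (B (B (L 10) (L 10)) (B (L 10) (B (L 10) (C (L 3) (B (L 10) (C (L 10) (L
    2))))))) (C (L 3) (B (B (B (C (C (L 3) (B (L 10) (B (L 19) (L 19)))) (L 2)) (B (C (C (L 3) (L
    9)) (L 9)) (L 9))) (B (L 9) (L 9))) (C (L 3) (B (L 9) (L 3)))))) (B (L 2) (C (B (L 2) (B (L 9)
    (L 9))) (L 2)))) (C (L 3) (B (B (L 9) (L 9)) O))) (B (L 2) (C (B (L 2) O) (L 2)))) O))))) (C (C
    (C (C (B (L 2) O) (L 2)) (L 2)) (L 2)) (C (L 2) (C (L 2) (B (B (B (C (L 7) (L 1)) (C (L 7) (L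
    7))) (C (L 2) (B (B (L 7) (L 7)) O))) O)))))) (C (C (C (C (C (B (L 1) O) (L 1)) (L 1)) (L 1))
    (L 1)) (L 1))) = true := by
  decide +kernel

theorem c2_23 : cf false 2 23 12 64 204 49
    (C (C (C O (C O (C O (C O (B (C (C O (B (L 5) O)) (C (B (C (L 5) (B (L 5) O)) O) (B (C (B (C (B
    (C (L 5) (B (L 5) (B (L 15) (L 15)))) (B (B (L 15) (B (L 15) (L 15))) (C (C (B (L 5) O) (B (B
    (L 15) (B (L 15) O)) O)) (L 4)))) (B (C (B (B (B (L 15) (L 15)) (L 15)) (C (B (L 15) (L 4)) (L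
    4))) (L 4)) (L 4))) (C O (L 4))) (L 4)) O))) O))))) (C (C (C (C (B (L 4) O) (L 4)) (C (C (L 4)
    (C (L 4) (C (C (L 4) (B (L 4) O)) (C (B (C (L 4) (C (B (C (L 4) (B (C (C (L 4) (B (C (L 4) (B
    (C (L 4) (B (C (L 4) (B (L 13) (C (L 4) (C (L 4) (B (L 13) (L 4)))))) (L 4))) (L 4))) (L 4)))
    (C (B (C (B (C (B (C (C (B (L 3) (B (L 13) (B (L 13) (B (L 13) (L 25))))) (L 3)) (L 3)) (B (B
    (L 12) (L 12)) (L 12))) (L 3)) (B (L 12) (L 12))) (L 3)) (B (L 12) (L 12))) (B (L 3) (L 3))))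
    (C (L 4) (C (B (B (L 12) (L 4)) (L 4)) (B (B (L 12) (L 12)) (B (L 12) (B (L 12) (L 12))))))))
    (C (L 4) (B (C (L 4) (B (L 4) O)) O))) (B (C (B (L 3) (C (C (B (L 3) (C (B (L 3) (B (L 3) (L
    12))) (L 3))) (L 3)) (L 3))) (L 3)) (C (B (C (B (C (B (C (B (L 12) (C (L 4) (B (B (L 12) (B (L
    12) (B (L 12) (B (L 33) (L 11))))) (B (L 11) (L 11))))) (L 3)) (B (L 11) (L 11))) (L 3)) O) (L
    3)) O) (B (L 3) O))))) O) (B (C (B (L 3) (L 3)) (L 3)) O))))) (C (C (C (L 3) (L 3)) (L 3)) (L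
    3)))) (C (L 3) (C (L 3) (C (L 3) (B (C (B (C (B (B (B (L 10) (L 10)) (B (L 10) (B (L 10) (L
    10)))) (C (L 3) (B (C (L 3) (B (C (L 3) (B (B (L 10) (B (L 10) (L 3))) (L 3))) (L 3))) (L 3))))
    (B (L 2) (C (B (C (B (C (B (C (B (L 2) (B (L 10) (L 19))) (L 2)) (B (B (L 19) (L 9)) (L 9))) (L
    2)) (B (L 9) (L 9))) (B (L 2) (L 9))) (B (L 9) (L 9))) (B (L 2) (B (L 2) (L 9)))))) (C (L 3) (B
    (B (L 9) O) O))) (B (L 2) (C (B (C (B (L 2) O) (L 2)) O) (L 2)))) O))))) (C (C (C (C (B (L 2)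
    O) (L 2)) (L 2)) (L 2)) (C (L 2) (C (L 2) (B (B (B (C (L 7) (L 1)) (C (L 7) (L 7))) (C (L 2) (B
    (L 7) O))) O)))))) (C (C (C (C (C (B (L 1) O) (L 1)) (L 1)) (L 1)) (L 1)) (L 1))) = true := by
  decide +kernel

theorem c2_24 : cf false 2 24 12 64 208 49
    (C (C (C O (C O (C O (C O (B (C (C O (L 5)) (C (B (C (L 5) (B (L 5) O)) O) (B (C (B (C (B (L 5)
    (C (L 5) (B (C (L 5) (B (L 5) (L 15))) (C (B (L 5) O) (B (B (L 15) (L 15)) O))))) (B (B (B (B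
    (L 15) (L 15)) (L 15)) (B (L 15) (L 15))) (C (B (B (L 15) (B (L 15) (L 15))) (L 4)) (L 4)))) O)
    (B (L 4) (L 4))) O))) O))))) (C (C (C (C (B (C (L 4) (L 4)) O) (L 4)) (C (C (L 4) (C (L 4) (C
    (L 4) (B (C (C (L 4) (B (L 4) (L 4))) (C (B (B (C (C (B (L 4) (L 4)) (B (C (B (C (C (B (B (L
    13) (C (L 4) (C (L 4) (B (L 13) (L 4))))) (L 4)) (B (C (B (L 3) (B (L 13) (B (L 13) (B (L 13)
    (L 25))))) (L 3)) (B (B (B (L 12) (L 12)) (L 12)) (L 12)))) (C (B (L 3) (C (B (L 3) (L 12)) (L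
    3))) (L 3))) (B (L 12) (L 12))) (C (B (L 3) (C (B (L 3) (L 12)) (L 3))) (L 3))) (B (L 12) (L
    12)))) (C (B (L 3) (L 3)) (L 3))) (B (B (L 12) (L 12)) (B (L 12) (L 12)))) (C (L 4) (B (C (B (C
    (L 4) (B (C (L 4) (B (L 12) (L 4))) (L 4))) O) (B (C (B (B (L 12) (B (L 12) (L 12))) (B (B (B
    (B (L 12) (B (L 12) (B (L 33) (L 33)))) (B (L 11) (L 11))) (L 11)) O)) (L 3)) O)) O))) (B (L 3)
    (C (B (C (B (L 3) O) (L 3)) O) (L 3))))) O)))) (C (C (C (B (L 3) O) (L 3)) (L 3)) (L 3)))) (C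
    (L 3) (C (L 3) (C (L 3) (B (C (B (C (B (C (L 3) (B (L 10) (C (L 3) (B (L 10) (L 3))))) (L 3))
    (B (C (B (L 2) (C (B (L 10) (L 10)) (L 2))) (L 2)) (B (C (C (B (C (L 3) (B (L 10) (L 3))) (L
    3)) (B (C (B (B (L 2) (L 10)) (B (B (L 19) (L 19)) (B (L 19) (L 9)))) (L 2)) (B (L 9) (L 9))))
    (C (B (L 2) (B (L 2) (L 9))) (L 2))) (B (B (L 9) (L 9)) (L 9))))) (C (L 3) (B (C (L 3) (B (L 9)
    O)) O))) (B (L 2) (C (B (B (L 9) O) O) (B (L 2) O)))) O))))) (C (C (C (C (B (L 2) O) (L 2)) (L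
    2)) (L 2)) (C (L 2) (C (L 2) (B (B (B (C (L 7) (L 7)) (C (L 2) (L 7))) (C (L 2) (B (L 7) O)))
    O)))))) (C (C (C (C (C (B (L 1) O) (L 1)) (L 1)) (L 1)) (L 1)) (L 1))) = true := by
  decide +kernel

theorem c2_25 : cf false 2 25 10 64 256 44
    (C (C (C O (C O (C O (C O (C (L 5) (C (B (L 5) O) (C (B (C (L 5) (B (C (L 5) (C (L 5) (B (L 5)
    O))) O)) O) (B (C (B (C (C (B (B (C (L 5) (C (B (B (L 15) (L 15)) (B (L 15) (L 15))) (C (B (L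
    4) (L 4)) (L 4)))) (B (B (L 15) (L 15)) (C (C (L 5) (B (B (L 15) (L 15)) (B (B (L 15) O) O)))
    (L 4)))) O) (B (L 4) O)) (L 4)) O) (L 4)) O)))))))) (C (C (C (C (C (C (L 4) (L 4)) (L 4)) (L
    4)) (C (C (L 4) (B (C (L 4) (B (C (L 4) (B (C (L 4) (B (C (L 4) (B (C (B (B (L 13) (B (L 13) (B
    (L 13) (C (L 4) (B (L 13) (L 25)))))) (C (L 4) (B (B (B (B (L 25) (L 12)) (L 12)) (L 12)) (L
    12)))) (B (L 3) (C (B (L 3) (L 12)) (L 3)))) (B (L 12) (L 12)))) (L 4))) (L 4))) (L 4))) O)) (C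
    (B (C (B (C (B (C (B (C (B (L 3) (C (B (L 3) (L 12)) (L 3))) (L 3)) (B (L 12) (L 12))) (L 3))
    (B (B (L 12) (L 12)) (B (L 12) (B (L 12) (L 12))))) (L 3)) (C (B (C (L 4) (B (C (L 4) (B (B (L
    12) (L 12)) O)) O)) O) (B (C (B (C (B (L 3) O) (L 3)) O) (L 3)) O))) (B (L 3) (L 3))) O) (B (L
    3) O)))) (C (L 3) (C (L 3) (B (C (L 3) (B (C (B (B (B (L 10) (L 10)) (B (C (L 3) (L 10)) (C (L
    3) (B (L 10) (L 10))))) (C (L 3) (B (C (L 3) (B (C (L 3) (B (L 10) (C (L 3) (B (L 10) (L 3)))))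
    (L 3))) (L 3)))) (B (L 2) (C (B (C (B (C (B (L 2) (C (B (L 10) (B (L 19) (L 19))) (B (L 2) (C
    (B (L 2) (L 9)) (L 2))))) (L 2)) (B (B (C (C (L 3) (L 9)) (L 2)) (L 9)) (L 9))) (L 2)) (B (B (L
    9) (L 9)) (L 9))) (L 2)))) (C (L 3) (B (B (B (L 9) O) O) O)))) O)))) (C (C (C (B (C (B (L 2) (C
    (B (C (B (L 2) O) (L 2)) O) (L 2))) (L 2)) O) (L 2)) (L 2)) (C (L 2) (C (L 2) (B (C (B (C (L 2)
    (L 7)) (L 2)) (B (B (L 7) (L 7)) (B (L 7) O))) O)))))) (C (C (C (C (C (B (C (B (L 1) (C (B (L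
    1) O) (L 1))) (L 1)) O) (L 1)) (L 1)) (L 1)) (L 1)) (L 1))) = true := by
  decide +kernel

theorem c2_26 : cf false 2 26 10 64 208 45
    (C (C (C O (C O (C O (C O (C (B (L 5) O) (B (C (B (L 5) O) (B (C (B (C (L 5) (B (L 5) (C (L 5)
    (B (B (L 15) (L 15)) (C (B (L 15) (B (L 15) (C O (L 4)))) (B (B (L 15) (L 4)) (L 4))))))) O) (B
    (C (B (C (B (B (L 15) (L 15)) (B (L 15) (L 15))) (B (C (B (L 15) (L 4)) (L 4)) (L 4))) (C (B (C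
    (B (L 15) (L 4)) (L 4)) (L 4)) (L 4))) (L 4)) (L 4))) O)) O)))))) (C (C (C (C (C (B (L 4) O) (L
    4)) (L 4)) (C (C (L 4) (C (L 4) (C (L 4) (B (C (L 4) (C (L 4) (B (C (L 4) (B (C (L 4) (B (C (C
    (L 4) (B (C (L 4) (B (B (L 13) (B (L 13) (L 13))) (L 4))) (L 4))) (C (B (C (B (C (B (L 3) (B (L
    3) (B (L 13) (L 13)))) (L 3)) (B (B (B (B (L 25) (L 12)) (L 12)) (L 12)) (L 12))) (B (L 3) (C
    (B (L 3) (L 12)) (L 3)))) (B (L 12) (L 12))) (B (L 3) (B (L 3) (L 12))))) (C (L 4) (C (L 4) (B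
    (L 12) (L 4)))))) (L 4))) (L 4)))) O)))) (C (C (C (B (C (C (B (C (B (C (B (L 3) (C (B (L 12) (L
    12)) (L 3))) (L 3)) (B (B (L 12) (L 12)) (B (L 12) (L 12)))) (L 3)) (C (B (C (L 4) (B (B (L 12)
    O) O)) O) (B (C (B (L 3) O) (L 3)) O))) (B (L 3) (L 3))) (L 3)) O) (L 3)) (L 3)) (L 3)))) (C (L
    3) (C (L 3) (C (L 3) (B (C (B (C (B (C (L 3) (B (L 10) (L 3))) (L 3)) (B (B (L 10) (B (L 10) (B
    (L 10) (L 10)))) (C (L 3) (B (C (B (B (L 10) (B (L 10) (B (L 10) (L 19)))) (C (L 3) (B (C (L 3)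
    (B (B (L 19) (L 9)) (L 9))) (L 3)))) (B (L 2) (B (C (C (B (L 2) (L 9)) (L 2)) (L 2)) (L 9))))
    (C (L 3) (B (L 9) (L 3))))))) (L 3)) (B (C (B (L 2) (C (B (L 2) (B (L 9) (L 9))) (L 2))) (L 2))
    (B (C (B (L 9) O) (L 2)) O))) O))))) (C (C (C (C (B (L 2) O) (L 2)) (L 2)) (L 2)) (C (L 2) (C
    (L 2) (B (C (B (C (L 2) (B (L 7) (L 2))) (L 2)) (B (B (L 7) (L 7)) (B (L 7) O))) O)))))) (C (C
    (C (C (C (B (L 1) O) (L 1)) (L 1)) (L 1)) (L 1)) (L 1))) = true := by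
  decide +kernel

theorem c2_27 : cf false 2 27 10 64 244 45
    (C (C (C O (C O (C O (C O (C (L 5) (C (B (L 5) O) (B (C (B (L 5) O) (C (B (C (B (L 5) O) (B (B
    (B (B (L 15) (L 15)) (B (L 15) (L 15))) (C (B (B (L 15) (L 15)) (B (L 15) (B (L 15) (B (L 15)
    (L 15))))) (L 4))) (C O (L 4)))) O) (B (L 4) O))) O))))))) (C (C (C (C (C (C (B (L 4) O) (L 4))
    (L 4)) (L 4)) (C (C (L 4) (C (L 4) (L 4))) (C (C (B (C (B (B (C (C (B (C (L 4) (B (B (B (L 13)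
    (B (L 13) (B (L 13) (C (L 13) (C (B (L 3) (L 13)) (L 3)))))) (B (B (B (C (L 4) (C (B (L 25) (L
    12)) (L 3))) (C (L 4) (L 12))) (L 12)) (L 12))) (C (L 4) (B (L 12) (L 4))))) (L 4)) (B (C (B (L
    3) (B (L 12) (L 12))) (L 3)) (B (L 12) (L 12)))) (C (B (L 3) (C (B (L 3) (L 12)) (L 3))) (L
    3))) (C (L 4) (B (B (L 12) (L 12)) (B (L 12) (L 12))))) (C (L 4) (B (C (L 4) (B (C (L 4) (B (L
    12) O)) O)) O))) (B (L 3) (C (B (C (B (C (B (L 12) O) (L 3)) O) (B (L 3) O)) O) (B (L 3) O))))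
    O) (B (L 3) O)) (L 3)))) (C (L 3) (C (L 3) (C (L 3) (B (C (B (C (L 3) (B (B (L 10) (B (L 10) (L
    10))) (L 3))) (L 3)) (B (C (B (C (B (L 2) (C (B (L 2) (L 10)) (L 2))) (L 2)) (B (C (B (B (L 10)
    (C (L 10) (C (L 10) (L 2)))) (C (L 3) (B (B (B (L 19) (L 19)) (B (L 19) (L 19))) (B (L 9) (L
    9))))) (C (B (L 2) (C (B (L 2) (L 9)) (L 2))) (L 2))) (B (B (C (L 3) (L 9)) (L 9)) (L 9)))) (L
    2)) (C (B (C (L 3) (B (L 9) O)) O) (B (B (L 9) O) O)))) O))))) (C (C (C (C (B (C (B (L 2) (C (B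
    (L 2) O) (L 2))) (L 2)) O) (B (L 2) O)) (L 2)) (L 2)) (C (L 2) (C (L 2) (B (C (B (C (L 2) (L
    7)) (L 2)) (B (B (L 7) (L 7)) (B (L 7) O))) O)))))) (C (C (C (C (C (B (C (B (L 1) (C (B (L 1)
    O) (L 1))) (L 1)) O) (L 1)) (L 1)) (L 1)) (L 1)) (L 1))) = true := by
  decide +kernel

theorem c2_28 : cf false 2 28 10 64 276 45
    (C (C (C O (C O (C O (C O (C (L 5) (C (L 5) (B (C (L 5) (C (B (L 5) O) (B (C (B (C (B (C (L 5)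
    (B (B (L 15) (L 15)) (L 15))) (L 5)) (B (C (B (L 4) (L 15)) (L 4)) (B (B (L 15) (L 15)) (B (L
    15) (B (L 15) (L 15)))))) O) (B (L 4) (C (B (C (B (C (B (L 4) O) (L 4)) O) (L 4)) O) (B (L 4)
    O)))) O))) O))))))) (C (C (C (C (C (C (B (C (C (B (L 4) O) (L 4)) (L 4)) O) (L 4)) (L 4)) (L
    4)) (C (C (L 4) (L 4)) (C (B (C (B (B (C (C (B (C (L 4) (B (C (B (B (L 13) (B (L 13) (L 13)))
    (L 4)) (B (C (B (L 3) (C (B (L 3) (L 13)) (L 3))) (L 3)) (B (B (C (B (B (L 25) (L 25)) (L 12))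
    (L 3)) (L 12)) (L 12)))) (C (L 4) (B (L 12) (L 4))))) (L 4)) (B (C (B (L 3) (B (L 12) (L 12)))
    (L 3)) (B (L 12) (L 12)))) (L 3)) (C (C (L 4) (B (C (L 4) (B (L 12) (L 4))) (L 4))) (B (B (L
    12) (L 12)) (B (L 12) (L 12))))) (C (L 4) (B (C (L 4) (B (B (L 12) O) O)) O))) (B (L 3) (C (B
    (C (B (L 3) O) (L 3)) O) (L 3)))) O) (B (L 3) O)))) (C (L 3) (C (L 3) (B (C (L 3) (B (C (B (C
    (L 3) (B (L 10) (B (L 10) (L 3)))) (L 3)) (B (C (B (L 2) (B (L 10) (L 10))) (L 2)) (B (C (C (B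
    (L 10) (L 3)) (B (B (L 10) (C (L 10) (L 10))) (C (L 3) (B (B (C (L 10) (L 2)) (B (L 19) (L
    19))) (C (L 3) (B (L 9) (L 9))))))) (C (B (L 2) (C (B (L 2) (L 9)) (L 2))) (L 2))) (C (L 3) (B
    (C (L 9) (L 2)) (L 9)))))) (C (L 3) (B (C (L 3) (B (B (L 9) O) O)) O)))) O)))) (C (C (C (B (C
    (B (L 2) (C (B (C (B (L 9) O) (L 2)) O) (L 2))) (L 2)) O) (L 2)) (L 2)) (C (L 2) (C (L 2) (B (C
    (B (C (L 2) (L 7)) (L 2)) (B (L 7) (L 7))) O)))))) (C (C (C (C (C (B (C (B (L 1) (B (L 7) O))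
    (L 1)) O) (B (L 1) O)) (L 1)) (L 1)) (L 1)) (L 1))) = true := by
  decide +kernel

theorem c2_29 : cf false 2 29 10 64 240 45
    (C (C (C O (C O (C O (C O (C (L 5) (C (B (L 5) O) (B (C (B (L 5) O) (B (C (C (L 5) (B (L 5) (C
    O (B (C O (B (L 5) O)) O)))) (C (B (B (C (L 5) (B (B (L 15) (L 15)) (L 15))) (B (B (L 15) (L
    15)) (B (L 15) (B (L 15) (L 15))))) (C (B (C (B (C (B (L 5) O) (B (B (L 15) O) O)) O) (L 4)) O)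
    (L 4))) (B (L 4) (L 4)))) O)) O))))))) (C (C (C (C (C (C (B (L 4) O) (L 4)) (L 4)) (L 4)) (C (C
    (L 4) (L 4)) (C (C (B (C (B (C (B (C (L 4) (B (C (L 4) (B (C (L 4) (B (B (L 13) (B (L 13) (L
    13))) (L 4))) (L 4))) (L 4))) (L 4)) (B (C (B (C (B (C (B (C (B (L 3) (C (B (L 3) (L 13)) (L
    3))) (L 3)) (B (B (C (C (B (B (L 13) (L 25)) (L 12)) (L 3)) (L 3)) (L 12)) (L 12))) (L 3)) (B
    (L 12) (L 12))) (B (L 3) (C (B (L 3) (L 12)) (L 3)))) (B (L 12) (L 12))) (B (L 3) (C (B (L 3)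
    (L 12)) (L 3)))) (C (L 4) (B (B (L 12) (L 12)) (L 12))))) O) (B (C (B (L 3) (C (B (L 3) (L 12))
    (L 3))) (L 3)) O)) O) (B (L 3) O)) (L 3)))) (C (L 3) (C (L 3) (C (L 3) (B (C (B (C (L 3) (B (B
    (L 10) (B (L 10) (L 3))) (L 3))) O) (B (C (B (C (B (L 2) (B (L 10) (L 10))) (L 2)) (C (B (C (L
    3) (B (L 10) (C (L 3) (B (L 10) (L 3))))) (L 3)) (B (C (B (L 2) (C (B (B (L 10) (L 10)) (C (L
    3) (B (L 19) (L 3)))) (B (L 2) (B (B (L 2) (L 9)) (L 9))))) (L 2)) (B (B (C (L 9) (L 9)) (L 9))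
    (L 9))))) (B (L 2) (C (B (L 2) (C (B (L 2) (L 9)) (L 2))) (L 2)))) O)) O))))) (C (C (C (C (B (C
    (B (L 2) O) (L 2)) O) (B (L 2) O)) (L 2)) (L 2)) (C (L 2) (C (L 2) (B (C (B (C (L 2) (L 7)) O)
    (B (B (L 7) (L 7)) O)) O)))))) (C (C (C (C (C (B (C (B (L 1) O) (L 1)) O) (L 1)) (L 1)) (L 1))
    (L 1)) (L 1))) = true := by
  decide +kernel

end Pool.Agent.BX
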