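import Mathlib
import Pool.Agent.BX.Real

set_option autoImplicit false
set_option maxRecDepth 100000

namespace Pool.Agent.BX

open Tr

theorem cg_2 : cg 2 30 12 64 64 208 49
    (C (C (C O (C O (C O (B (C O (C (B (L 5) O) (B (L 5) O))) O)))) (C (C (C (C (B (C (B (C (A (L
    5) (L 5)) (C (A (B (L 5) O) (B (L 5) (C (L 5) (B (L 5) O)))) (B (A (C (B (C (L 5) (A (L 5) (L
    5))) O) (B (C (A (B (L 5) O) (B (L 5) (C (L 5) (B (L 5) (C (L 5) (A O (L 5))))))) (A (A (B (C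
    (C (L 5) (B (L 5) O)) (A (B (A (B (L 15) O) (B (L 15) O)) O) (B (A (B (L 15) O) (B (L 15) O))
    O))) O) (B (C (C (L 5) (B (L 5) O)) (A (B (A (B (L 15) O) (B (L 15) (L 15))) O) (B (A (B (L 15)
    (L 15)) (B (L 15) (L 15))) O))) O)) (A (B (C (C (L 5) (B (L 5) (C (L 5) (B (L 5) (C (L 5) (A O
    (L 5))))))) (A (B (A (B (L 15) (L 15)) (B (L 15) (L 15))) (A (L 15) (L 15))) (B (A (B (L 15) (L
    15)) (B (L 15) (L 15))) (A (L 15) (L 15))))) (A O (B (A O (L 15)) O))) (B (C (C (L 5) (B (L 5)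
    (C (L 5) (B (L 5) (A (L 5) (L 5)))))) (A (B (A (B (L 15) (L 15)) (B (L 15) (L 15))) (A (L 15)
    (L 15))) (B (A (B (L 15) (L 15)) (B (L 15) (L 15))) (A (L 15) (L 15))))) (A (B (A (L 15) (L
    15)) O) (B (A (L 15) (L 15)) (A (L 15) (L 15)))))))) O)) (C (B (A (L 5) (L 5)) (A (C (L 5) (B
    (L 5) (L 5))) (L 5))) (B (C (A (B (L 5) (C (L 5) (A (L 5) (L 5)))) (B (L 5) (L 5))) (A (B (C (A
    (C (L 5) (B (L 5) (L 5))) (L 5)) (A (A (B (A (B (L 15) (L 15)) (B (L 15) (L 15))) (A (L 15) (L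
    15))) (B (A (B (L 15) (L 15)) (B (L 15) (L 15))) (A (L 15) (L 15)))) (C (B (L 5) (C (B (L 5) (L
    5)) (B (A (L 5) (L 5)) (A (L 15) (L 15))))) (A (B (A (B (L 15) (L 15)) (B (L 5) (L 15))) (A (L
    15) (L 15))) (B (C (L 5) (B (L 5) (L 15))) (A (L 15) (L 15))))))) (A (A (B (A (L 15) (L 15)) (A
    (L 15) (L 15))) (B (A (L 15) (L 15)) (L 15))) (A (B (A (L 15) (L 15)) (L 15)) (B (A (L 15) (L
    15)) (L 15))))) (B (C (L 5) (A (C (B (L 5) (C (L 5) (B (L 5) (L 5)))) (B (C (L 5) (B (L 5) (A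
    (L 15) (L 5)))) (A (A (L 15) (L 15)) (A (L 15) (L 15))))) (B (L 5) (C (L 5) (A (A (L 15) (L
    15)) (C (L 5) (B (L 5) (L 15)))))))) (C (A (C (L 5) (B (L 5) (A (L 15) (L 15)))) (B (L 5) (C (L
    5) (A (L 15) (L 5))))) (A (A (B (L 15) (L 15)) (B (L 15) (L 15))) (A (B (L 15) (L 15)) (B (L
    15) (L 15)))))))) (A (C (B (C (A (L 5) (L 5)) (A (C (B (L 5) (C (L 5) (B (L 5) (A O (L 5)))))
    (A (B (L 15) O) (B (L 15) (A (L 15) (L 15))))) (C (B (L 5) (L 5)) (B (C (L 5) (B (L 5) (L 15)))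
    (A (A (L 15) (L 15)) (A (L 15) (L 15))))))) (C (A O (C (L 5) (B (L 5) (C (B (L 5) (A O (L 5)))
    (B (A (L 5) (L 5)) (A O (A (L 15) (L 15)))))))) (A O (A (B (A (B (L 15) O) (B (L 15) (L 15)))
    (C (A O (B (L 15) O)) (L 4))) (B (A (B (L 15) (L 15)) (L 15)) (A (B (L 15) (L 15)) (B (L 15) (L
    15)))))))) (B (C (A (C (A (B (L 15) O) (B (L 15) (A (L 15) (L 15)))) (B (C (B (L 15) (L 4)) (L
    4)) (L 4))) (A (B (L 15) (A (L 15) (L 15))) (B (L 15) (A (L 15) (L 15))))) (A (L 4) (L 4))) (C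
    (A O (C (B (C (B (L 4) (L 4)) (L 4)) (L 4)) (L 4))) (L 4)))) (A (B (A (B (A (L 15) (L 15)) (A
    (B (L 15) (L 15)) (B (L 15) (L 15)))) (B (A (L 15) (L 15)) (A (B (L 15) (L 15)) (B (L 15) (L
    15))))) (C (C (C (L 5) (B (L 5) (C (L 5) (B (L 5) (A (L 5) (L 5)))))) (A (B (A (L 15) (L 15))
    (A (B (L 15) (L 15)) (B (L 15) (L 15)))) (B (A (L 15) (L 15)) (A (B (L 15) (L 15)) (B (L 15) (L
    15)))))) (C (C (B (C (B (A (L 15) (L 15)) (A (L 4) (L 4))) (B (L 4) (L 4))) (L 4)) (L 4)) (L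
    4)))) (B (A (B (A (L 15) (L 15)) (A (L 15) (L 15))) (B (A (L 15) (L 15)) (A (L 15) (L 15)))) (A
    (B (A (B (L 15) (L 15)) (B (L 15) (L 15))) (A (B (C (L 15) (L 4)) (C (B (L 15) (L 15)) (L 4)))
    (B (C (L 15) (L 4)) (C (B (L 15) (L 15)) (L 4))))) (B (A (B (L 15) (L 15)) (B (L 15) (L 15)))
    (A (B (C (L 15) (L 4)) (C (L 15) (L 4))) (B (C (L 15) (L 15)) (C (L 15) (L 4)))))))))))) (A O
    (C (B (C (A (L 5) (L 5)) (A (B (C (L 5) (A O (C (L 5) (B (L 5) O)))) O) (B (C (L 5) (A (C (L 5)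
    (B (L 5) (L 5))) (L 5))) (C (A O O) (A O O))))) (C (A O O) (A O O))) (B (C (A (B (C (A O (A O
    (C (B (C (L 5) (B (L 5) O)) O) (B (A O (B (B (L 15) (L 15)) O)) O)))) (A O (C (B (C (B (A O (C
    (B (A O (L 15)) (L 4)) (L 4))) O) (L 4)) O) (L 4)))) O) (B (C (A (C (B (C (L 5) (B (L 5) (L
    5))) (C (B (L 5) (A O O)) (B (A O O) (A O O)))) (B (C (B (A (L 5) (L 5)) (A (C (B (L 5) (A O
    O)) (B (A (L 15) (L 5)) (A O O))) (C (L 5) (B (L 5) (A O O))))) (B (A (A (B (L 15) (L 15)) (B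
    (L 15) (L 15))) (C (L 5) (B (L 5) (A (L 15) (L 15))))) (A (C (A (B (L 15) (C (B (L 15) O) (L
    4))) (B (L 15) (A O O))) (B (A (A (L 4) (L 15)) (L 15)) (L 4))) (A (B (L 15) (A O O)) (B (L 15)
    (A O O)))))) (C (B (A (C (A O O) (B (A O O) O)) (C O (A O O))) (A O O)) (B (A (C (B (A O O) O)
    (L 4)) (C (B (A O O) O) (B (A O O) O))) (L 4))))) (B (C (L 5) (C (B (L 5) (L 5)) (B (A (L 5) (L
    5)) (A (C (B (L 5) (A O O)) (B (A (L 15) (L 5)) (A O O))) (C (L 5) (B (L 5) (A O O))))))) (C (C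
    (L 5) (B (L 5) O)) (C (B (A O O) (A O O)) (B (A (C (B (A O O) O) (B (A O O) O)) (C O (B (A O O)
    O))) (A O O)))))) (A (C (B (C (B (A (A (B (L 15) (L 4)) (B (L 15) (L 15))) (A (B (L 15) (L 15))
    (B (L 15) (L 15)))) (A (L 4) (C (B (A (A (L 4) (L 15)) (L 15)) (L 4)) (L 4)))) (B (A (L 4) (C
    (B (A (L 4) (L 15)) (L 4)) (L 4))) (L 4))) (L 4)) (L 4)) (B (C (A (A (B (B (L 15) (L 15)) (C (C
    (B (L 15) (C (B (L 15) O) (L 4))) (B (L 15) (L 4))) (L 4))) (B (B (L 15) (L 15)) (C (B (L 15)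
    (A O O)) (L 4)))) (A (B (B (L 15) (L 15)) (B (A (L 15) (L 15)) (A O O))) (B (B (L 15) (L 15))
    (B (A (L 15) (L 15)) (A O O))))) (C (B (A (L 4) (C (B (A (L 15) (L 15)) (A (L 4) (L 4))) (L
    4))) (L 4)) (L 4))) (C (C (B (A (C (B (A O O) O) (L 4)) (C (B (A O O) O) (B (A O O) O))) (A O
    O)) (B (L 4) (L 4))) (L 4))))) (C (A O O) (A (L 4) O)))) (A (L 4) (B (C (A (L 4) (L 4)) (L 4))
    (L 4)))) (C (A O O) (L 4)))))))) O) (B (C (C (B (A (C (B (C (A (B (C (B (C (A (L 4) (L 4)) (L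
    4)) O) (L 4)) O) (B (C (B (C (A (C (B (C (L 4) (L 4)) (L 4)) (L 4)) (C (B (A (L 15) (L 15)) (L
    4)) (L 4))) (L 4)) (L 4)) (L 4)) (L 4))) (A (L 4) (L 4))) O) (L 4)) (C (B (C (A (B (C (A (C (B
    (C (B (A (L 15) (L 15)) (A (L 4) (L 15))) (B (A (L 4) (L 15)) (L 4))) (L 4)) (L 4)) (C (B (A (A
    (B (L 15) (L 15)) (B (L 15) (L 15))) (A (B (L 15) (L 15)) (B (L 15) (L 15)))) (C (B (A (L 4) (L
    15)) (L 4)) (L 4))) (B (C (B (A (L 4) (L 4)) (L 4)) (L 4)) (L 4)))) (L 4)) (C (A (L 4) (L 4))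
    (L 4))) (B (C (A (C (A (B (A (B (L 15) (L 15)) (B (L 15) (L 15))) (A (L 15) (L 15))) (B (A (B
    (L 15) (L 15)) (B (L 15) (L 15))) (A (L 15) (L 15)))) (B (C (B (A (L 15) (L 15)) (A (L 4) (L
    15))) (B (A (L 4) (L 15)) (L 4))) (L 4))) (A (B (A (B (L 15) (L 15)) (B (L 15) (L 15))) (A (L
    15) (L 15))) (B (A (B (L 15) (L 15)) (B (L 15) (L 15))) (A (L 15) (L 15))))) (A (L 4) (B (C (C
    (A (L 4) (B (L 15) (L 4))) (L 4)) (L 4)) (L 4)))) (C (A (C (B (L 4) (L 4)) (L 4)) (B (C (A (L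
    15) (L 15)) (L 4)) (L 4))) (L 4)))) (A (L 4) (L 4))) (C (A (L 4) (B (L 4) (L 4))) (L 4))) (B (L
    4) (L 4)))) (A O (C (B (L 4) (L 4)) (L 4)))) (B (A (L 4) (L 4)) (L 4))) (A (L 4) (L 4))) O)) O)
    (B (C (B (L 4) O) (L 4)) O)) (C (L 4) (C (B (C (L 4) (C (L 4) (B (A (L 4) (L 4)) O))) O) (B (C
    (C (B (A (C (B (L 4) O) (B (C (A (L 4) (L 4)) (A (C (B (L 4) O) (B (A (C (L 4) (A (C (L 4) (B
    (C (L 4) (A (L 4) (L 4))) O)) (C (L 4) (B (C (A (L 4) (B (C (L 4) (A (L 4) (B (L 13) O))) O))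
    (A (B (C (A (L 4) (B (L 4) O)) (A (B (L 13) O) (B (B (L 13) O) O))) O) (B (B (B (L 13) O) O)
    O))) O)))) (C (C (L 4) (B (A (L 4) (L 4)) O)) (C (B (A (C (L 4) (B (A (L 4) (C (L 4) (A (B (L
    13) O) (B (L 13) (C (L 4) (A O (B (L 13) O))))))) O)) (C (B (A (L 4) (C (B (L 4) (L 4)) (B (B
    (L 13) (L 13)) (A (L 4) (C (L 4) (B (B (L 13) (L 13)) (A (L 4) (C (L 4) (B (B (L 13) (L 4)) (L
    4)))))))))) O) (B (A (B (B (L 13) (L 13)) (C (A (L 4) (C (L 4) (B (B (L 13) (L 13)) O))) (B (A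
    (B (L 13) O) (B (L 13) (L 13))) O))) (C (B (B (L 13) (L 13)) (B (A (B (L 13) (L 13)) (B (L 13)
    (L 13))) (A (C (A (L 4) (C (L 4) (B (L 4) O))) (A (C (L 4) (B (B (L 13) O) O)) (B (B (L 13) (L
    13)) O))) (C (A (C (B (B (L 13) (L 4)) (L 4)) (B (B (L 13) (L 13)) (A O (C (B (A O (L 4)) O) (B
    (A O (L 25)) O))))) (B (B (L 13) (L 13)) (B (A (A (L 25) (L 25)) (A (L 25) (L 25))) O))) (A (C
    (B (B (L 13) (L 13)) (B (A O (A O (L 25))) O)) (B (L 3) (A O (L 3)))) (C (B (L 3) (A (C (B (L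
    3) O) (L 3)) (L 3))) (L 3))))))) (B (L 3) (A (C (B (B (L 3) (L 13)) (A (C (B (B (L 13) O) O) (B
    (L 3) O)) (C (B (L 3) O) (L 3)))) (L 3)) (L 3))))) O))) O) (B (A (C (B (A (C (A (L 4) (B (L 13)
    O)) (B (B (L 13) (A (L 13) (L 13))) O)) (C (B (B (L 13) (L 13)) (A O (B (B (L 13) O) O))) (A (B
    (B (L 3) (L 13)) O) (B (L 3) (C (A O (L 3)) (L 3)))))) O) (A (B (C (A (B (B (L 13) (L 13)) O)
    (B (L 3) O)) (A (L 3) (L 3))) O) (B (L 3) O))) (C (B (A (C (B (A (L 3) (L 3)) (A (C (A (B (L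
    13) O) (B (L 3) O)) (A (L 3) (L 3))) (L 3))) (L 3)) (L 3)) O) (B (L 3) O))) O)))) O)) (C (B (C
    (L 4) (A (L 4) (C (L 4) (B (L 4) (L 4))))) O) (B (A (C (C (B (A (L 4) (L 4)) (L 4)) (B (A (C (L
    4) (B (A (C (L 4) (B (L 4) (L 4))) (C (L 4) (B (B (L 13) (L 13)) (A (L 4) (C (L 4) (B (L 13) (A
    (L 4) (C (L 4) (B (L 13) (L 4)))))))))) (A (L 4) (L 4)))) (C (B (A (L 4) (C (L 4) (B (B (L 13)
    (L 13)) (C (L 4) (A (L 4) (B (L 13) (L 4))))))) (L 4)) (B (A (B (B (L 13) (L 13)) (C (A (L 4)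
    (C (L 4) (B (L 13) (L 4)))) (B (A (B (L 13) (L 13)) (B (L 13) (L 13))) (A (C (L 4) (C (A (L 4)
    (B (L 13) (C (L 4) (A (L 4) (B (A (L 25) (L 25)) (L 12)))))) (B (B (L 13) (A (L 13) (L 13))) (A
    (C (L 4) (A (L 4) (B (A (L 25) (L 25)) (L 12)))) (A (B (A (L 25) (L 25)) (L 12)) (C (B (A (L
    25) (L 25)) (L 12)) (B (L 3) (L 12)))))))) (B (B (L 13) (A (L 13) (L 13))) (A (A (B (A (L 25)
    (L 25)) (B (L 25) (L 12))) (B (A (L 25) (L 25)) (B (L 25) (L 12)))) (A (B (A (L 25) (L 25)) (B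
    (L 25) (L 12))) (B (A (L 25) (L 25)) (B (L 12) (L 12)))))))))) (C (B (B (L 13) (L 13)) (B (A (L
    13) (L 13)) (C (A (L 4) (C (A (L 4) (B (L 13) (L 4))) (A (B (L 13) (L 4)) (B (L 13) (C (A (L 4)
    (B (C (L 4) (A (L 4) (L 25))) (L 4))) (A (B (C (L 4) (A (L 4) (L 25))) (L 4)) (B (A (L 25) (L
    25)) (B (L 25) (L 12))))))))) (A (C (A (L 4) (B (L 13) (L 4))) (A (B (L 13) (C (L 4) (A (L 4)
    (L 4)))) (B (L 13) (C (A (L 4) (B (A (L 25) (L 25)) (B (L 12) (L 4)))) (A (B (A (L 25) (L 25))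
    (B (L 12) (L 12))) (B (A (L 25) (L 25)) (B (L 12) (L 12)))))))) (C (B (B (L 13) (A (L 13) (L
    13))) (A (C (A (L 4) (B (A (L 4) (L 25)) (L 4))) (A (B (A (L 25) (L 25)) (C (L 4) (A (L 4) (L
    12)))) (B (A (L 25) (L 25)) (B (L 12) (L 12))))) (C (A (B (A (L 25) (L 25)) (B (L 12) (L 12)))
    (B (A (L 25) (L 3)) (B (L 12) (L 12)))) (A (B (C (A (L 25) (L 3)) (L 3)) (B (L 12) (L 12))) (L
    3))))) (A (B (L 13) (C (A (B (A (L 25) (L 25)) (B (L 12) (L 12))) (B (C (A (L 25) (L 3)) (L 3))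
    (B (L 12) (L 12)))) (A (B (L 3) (B (L 12) (L 12))) (L 3)))) (L 3))))))) (B (L 3) (C (A (B (L
    13) (C (A (B (L 13) (A (C (B (C (L 4) (A (L 4) (L 25))) (L 4)) (B (A (L 25) (L 25)) (B (L 12)
    (L 12)))) (B (A (L 25) (L 25)) (B (L 12) (L 12))))) (B (L 13) (C (A (B (A (L 25) (L 25)) (B (L
    12) (L 12))) (B (L 3) (L 12))) (A (B (L 3) (L 12)) (L 3))))) (A (B (L 3) (C (A (B (A (L 25) (L
    3)) (L 12)) (L 3)) (L 3))) (L 3)))) (L 3)) (L 3))))) (A (C (L 4) (B (A (C (L 4) (B (B (B (L 12)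
    (L 12)) (L 12)) (L 4))) (B (B (B (L 12) (L 12)) (L 12)) (L 12))) (B (L 12) (L 4)))) (B (B (A (B
    (B (A (L 12) (L 12)) (L 12)) (L 12)) (B (B (A (L 12) (L 12)) (L 12)) (L 12))) (A (L 12) (L
    12))) (B (L 12) (L 12))))))) (A O (C (L 4) (B (A O (B (L 12) O)) O))))) (C (B (A (C (B (A (B (B
    (L 13) (L 13)) (C (A (L 4) (C (L 4) (B (B (L 13) (L 13)) (A (L 4) (C (L 4) (B (L 13) (L
    4))))))) (B (A (B (L 13) (L 13)) (B (L 13) (L 13))) (A (C (A (L 4) (C (L 4) (B (B (L 13) (L 4))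
    (L 4)))) (A (C (B (B (L 13) (L 4)) (L 4)) (B (B (L 13) (L 13)) (A (C (L 4) (B (A (L 4) (L 25))
    (L 4))) (C (B (A (L 4) (L 25)) (L 4)) (B (A (L 25) (L 25)) (L 12)))))) (B (B (L 13) (L 13)) (B
    (A (A (L 25) (L 25)) (A (L 25) (L 25))) (B (L 12) (L 12)))))) (C (A (C (B (B (L 13) (L 4)) (L
    4)) (B (B (L 13) (L 13)) (A (C (L 4) (B (A (L 4) (L 25)) (L 4))) (C (B (A (L 4) (L 25)) (L 4))
    (B (A (L 25) (L 25)) (L 12)))))) (B (B (L 13) (L 13)) (A (B (A (L 25) (L 25)) (L 12)) (B (A (L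
    25) (L 25)) (L 12))))) (A (C (B (B (L 13) (L 13)) (A (B (A (L 25) (L 25)) (L 12)) (C (B (A (L
    25) (L 3)) (L 12)) (L 3)))) (L 3)) (L 3))))))) (C (B (B (L 13) (L 13)) (B (A (B (L 13) (L 13))
    (B (L 13) (L 13))) (A (C (A (L 4) (C (L 4) (B (L 13) (L 4)))) (A (C (B (L 13) (L 4)) (B (B (L
    13) (L 13)) (A (C (L 4) (B (A (L 4) (L 25)) (L 4))) (C (B (C (L 4) (A (L 4) (L 25))) (L 4)) (B
    (A (L 25) (L 25)) (L 12)))))) (B (B (L 13) (L 13)) (A (B (A (L 25) (L 25)) (L 12)) (B (A (L 25)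
    (L 25)) (L 12)))))) (C (A (C (B (L 13) (L 4)) (B (L 13) (C (A (L 4) (B (C (L 4) (A (L 4) (L
    25))) (L 4))) (A (B (C (L 4) (A (L 4) (L 25))) (L 4)) (B (A (L 25) (L 25)) (L 12)))))) (B (B (L
    13) (L 13)) (A (C (C (L 4) (B (C (L 4) (A (L 4) (L 25))) (L 4))) (B (A (L 25) (L 25)) (L 12)))
    (B (A (L 25) (L 25)) (L 12))))) (A (C (B (B (L 13) (L 13)) (C (A (B (A (L 25) (L 25)) (L 12))
    (B (A (L 25) (L 3)) (L 12))) (A (B (A (L 25) (L 3)) (L 12)) (L 3)))) (L 3)) (C (B (L 3) (C (A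
    (B (L 3) (L 12)) (L 3)) (L 3))) (L 3))))))) (B (L 3) (A (C (B (L 3) (A (C (B (B (L 13) (L 13))
    (A (B (A (L 25) (L 25)) (L 12)) (C (B (C (A (L 25) (L 3)) (L 3)) (L 12)) (L 3)))) (L 3)) (L
    3))) (L 3)) (L 3))))) (A (C (L 4) (B (A (C (L 4) (B (B (B (L 12) O) O) O)) (B (B (B (L 12) (L
    12)) (L 12)) O)) O)) (B (B (A (B (B (A (L 12) (L 12)) (L 12)) (L 12)) (B (B (L 12) (L 12)) (L
    12))) (A (L 12) (L 12))) O))) (B (A (C (B (L 3) (A (C (B (A (L 3) (L 3)) (A (C (B (B (L 13) (L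
    13)) (A (B (A (L 25) (L 25)) (L 12)) (C (B (A (L 25) (L 3)) (L 12)) (L 3)))) (B (L 3) (A (C (B
    (L 3) (L 3)) (L 3)) (L 3)))) (L 3))) (L 3)) (L 3))) (L 3)) (L 3)) (A (C (B (A (B (B (B (L 12)
    O) O) O) (C (B (A (C (B (L 3) O) (L 3)) (L 3)) O) (L 3))) O) (B (L 3) O)) (C (B (L 3) O) (L
    3))))) (C (B (A (C (B (L 3) (A (C (B (B (L 3) (L 13)) (C (A (B (L 13) (A (B (A (L 25) (L 25))
    (L 12)) (C (B (A (L 25) (L 25)) (L 12)) (B (L 3) (L 12))))) (B (L 3) (C (A (B (L 3) (L 12)) (L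
    3)) (L 3)))) (A (B (L 3) (C (A (B (L 3) (L 12)) (L 3)) (L 3))) (L 3)))) (L 3)) (L 3))) (L 3))
    (L 3)) (A (C (B (B (A (B (B (L 12) (L 12)) (L 12)) (C (C (A (B (L 3) (L 12)) (L 3)) (L 3)) (L
    3))) (A (L 12) (L 12))) (B (L 12) (L 12))) (B (L 3) (B (L 12) (L 12)))) (C (B (L 3) (B (L 12)
    (L 12))) (L 3)))) (B (L 3) (L 3)))) (A O (B (A O (B (L 12) O)) O))) (B (A (C (B (L 3) (L 3)) (L
    3)) (L 3)) (A O (C (B (L 3) O) (L 3)))))) (C (C (B (A (C (L 4) (B (A (L 4) (C (L 4) (B (C (L 4)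
    (A (L 4) (L 13))) (L 4)))) (L 4))) (C (B (L 4) (L 4)) (B (C (A (L 4) (B (B (L 13) (L 13)) (L
    4))) (A (B (B (L 13) (L 13)) (C (L 4) (A (L 4) (B (L 13) (C (L 4) (A (L 4) (L 4))))))) (B (B (L
    13) (L 13)) (B (A (L 13) (L 13)) (C (A (L 4) (C (L 4) (A (L 4) (B (L 13) (L 4))))) (A (C (A (L
    4) (B (L 13) (L 4))) (B (B (L 13) (L 13)) (A (C (L 4) (A (L 4) (B (L 13) (L 4)))) (C (A (L 4)
    (B (L 13) (L 4))) (A (B (L 13) (A (L 4) (L 25))) (B (L 13) (A (L 25) (L 25)))))))) (B (B (L 13)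
    (L 13)) (A (A (B (L 13) (A (L 25) (L 25))) (B (L 13) (A (L 25) (L 25)))) (C (A (B (L 13) (A (L
    25) (L 25))) (B (L 13) (A (L 25) (L 25)))) (C (A (B (L 3) (A (L 25) (L 3))) (L 3)) (L
    3))))))))))) (C (L 4) (A (L 4) (B (C (L 4) (A (B (C (L 4) (A (L 4) (B (L 12) (L 4)))) (L 4)) (B
    (B (B (A (L 12) (L 12)) (L 12)) (L 12)) (L 12)))) (L 4))))))) (A (L 4) (C (L 4) (B (L 4) (L
    4))))) (B (A (C (B (A (C (B (B (L 13) (L 13)) (L 4)) (B (B (L 13) (L 13)) (C (A (L 4) (B (L 13)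
    (C (L 4) (A (L 4) (B (L 13) (L 4)))))) (B (A (L 13) (L 13)) (A (C (L 4) (A (L 4) (B (L 13) (C
    (L 4) (A (L 4) (B (C (L 4) (A (L 4) (L 25))) (L 4))))))) (B (B (L 13) (A (L 13) (L 13))) (C (A
    (L 4) (C (A (L 4) (B (A (L 25) (L 25)) (L 4))) (A (B (A (L 25) (L 25)) (C (L 4) (A (L 4) (L
    25)))) (B (A (L 25) (L 25)) (A (L 25) (L 25)))))) (A (A (C (B (C (L 4) (A (L 4) (L 25))) (L 4))
    (B (A (L 25) (L 25)) (A (L 25) (L 25)))) (B (A (L 25) (L 25)) (A (L 25) (L 25)))) (C (A (B (A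
    (L 25) (L 25)) (A (L 25) (L 25))) (B (L 3) (A (L 25) (L 25)))) (A (B (L 3) (A (L 25) (L 3))) (L
    3))))))))))) (B (B (L 13) (L 13)) (B (A (L 13) (L 13)) (A (C (L 4) (B (B (L 13) (A (L 13) (L
    13))) (A (A (B (A (L 25) (L 25)) (A (L 25) (L 25))) (B (A (L 25) (L 25)) (A (L 25) (L 25)))) (C
    (C (C (L 4) (A (L 4) (B (B (L 13) (L 25)) (L 4)))) (A (B (A (L 25) (L 25)) (A (L 25) (L 25)))
    (B (A (L 25) (L 25)) (A (L 25) (L 25))))) (C (C (A (B (L 3) (C (A (L 25) (L 3)) (L 3))) (L 3))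
    (L 3)) (L 3)))))) (B (B (L 13) (A (L 13) (L 13))) (A (A (B (A (B (L 13) (L 25)) (B (L 13) (L
    25))) (A (L 25) (L 25))) (B (A (B (L 13) (L 25)) (B (L 13) (L 25))) (A (L 25) (L 25)))) (A (B
    (A (B (L 13) (L 25)) (B (L 13) (L 25))) (A (L 25) (L 25))) (B (A (B (L 13) (L 25)) (B (L 13) (L
    25))) (A (L 25) (L 25)))))))))) (A (C (L 4) (B (C (L 4) (A (L 4) (B (B (B (L 12) (L 12)) (L
    12)) (L 12)))) (L 4))) (C (B (C (L 4) (A (L 4) (B (C (L 4) (A (L 4) (B (L 12) (L 4)))) (L 4))))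
    (L 4)) (B (B (A (B (B (A (L 12) (L 12)) (L 12)) (L 12)) (B (B (A (L 12) (L 12)) (L 12)) (L
    12))) (A (L 12) (L 12))) (B (L 12) (L 12)))))) (B (A (C (B (C (A (L 13) (L 3)) (L 3)) (C (A (B
    (L 13) (B (B (L 13) (A (L 13) (L 13))) (A (A (C (L 4) (B (A (L 25) (L 25)) (B (L 25) (L 12))))
    (B (A (L 25) (L 25)) (A (L 25) (L 25)))) (C (A (B (A (L 25) (L 25)) (A (L 25) (L 25))) (B (A (L
    25) (L 25)) (A (L 25) (L 25)))) (C (A (B (L 3) (B (L 12) (L 12))) (L 3)) (L 3)))))) (B (L 3) (C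
    (A (B (L 3) (C (A (B (C (A (L 25) (L 3)) (L 3)) (A (L 25) (L 25))) (L 3)) (L 3))) (L 3)) (L
    3)))) (A (B (L 3) (C (A (B (L 3) (C (A (B (L 3) (C (A (L 12) (L 3)) (L 3))) (L 3)) (L 3))) (L
    3)) (L 3))) (L 3)))) (L 3)) (L 3)) (A (B (C (B (A (B (B (L 12) (L 12)) (L 12)) (B (B (L 12) (L
    12)) (L 12))) (A (L 12) (L 12))) (C (A (B (L 3) (L 12)) (L 3)) (L 3))) (B (L 12) (L 12))) (C (B
    (C (A (B (L 3) (L 12)) (L 3)) (L 3)) (B (L 12) (L 12))) (L 3))))) (C (B (C (A (B (B (L 13) (L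
    13)) (B (A (L 13) (L 13)) (A (B (B (L 13) (L 13)) (C (C (L 4) (A (L 4) (C (L 4) (A (L 4) (B (B
    (L 13) (L 4)) (L 4)))))) (A (A (B (B (L 13) (L 25)) (A (L 25) (L 25))) (B (B (L 13) (L 25)) (A
    (L 25) (L 25)))) (C (A (B (B (L 13) (L 25)) (A (L 25) (L 25))) (B (B (L 13) (L 25)) (A (L 25)
    (L 25)))) (C (A (B (L 3) (A (L 25) (L 3))) (L 3)) (L 3)))))) (B (B (L 13) (L 13)) (C (C (A (L
    4) (C (L 4) (A (B (L 13) (L 4)) (B (B (L 13) (L 13)) (A (L 25) (L 25)))))) (A (C (A (L 4) (B (B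
    (L 13) (L 13)) (C (L 4) (A (L 4) (L 25))))) (A (B (B (L 13) (L 13)) (A (L 4) (L 25))) (B (B (L
    13) (L 13)) (A (L 25) (L 25))))) (C (A (B (B (L 13) (L 13)) (A (L 25) (L 25))) (B (B (L 13) (L
    13)) (A (L 25) (L 25)))) (A (B (L 3) (A (L 25) (L 25))) (L 3))))) (C (A (C (A (B (B (L 13) (L
    13)) (A (L 25) (L 25))) (B (L 3) (A (L 25) (L 3)))) (L 3)) (L 3)) (L 3))))))) (B (L 3) (C (A (B
    (L 13) (C (A (B (L 13) (A (B (B (L 13) (L 13)) (A (L 25) (L 25))) (B (B (L 13) (L 13)) (A (L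
    25) (L 25))))) (B (L 3) (C (A (B (L 13) (A (L 25) (L 25))) (B (L 3) (A (L 25) (L 3)))) (L 3))))
    (A (B (L 3) (C (A (B (L 3) (A (L 25) (L 3))) (L 3)) (L 3))) (L 3)))) (L 3)) (L 3)))) (A (B (L
    3) (C (A (B (L 3) (L 3)) (L 3)) (L 3))) (L 3))) (A (B (B (A (B (B (A (L 12) (L 12)) (L 12)) (L
    12)) (B (B (A (L 12) (L 12)) (L 12)) (L 12))) (A (L 12) (L 12))) (B (L 12) (L 12))) (B (C (B (C
    (A (B (B (A (L 12) (L 12)) (L 12)) (L 12)) (B (C (A (L 12) (L 3)) (L 3)) (L 12))) (A (C (A (B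
    (L 3) (L 12)) (L 3)) (L 3)) (L 3))) (A (L 12) (L 12))) (L 3)) (B (L 12) (L 12))))) (B (L 3) (C
    (A (B (L 3) (C (A (L 12) (L 3)) (L 3))) (L 3)) (L 3))))) (A (C (B (A (L 4) (C (L 4) (B (L 12)
    (L 4)))) O) (B (A (B (L 12) O) (B (L 12) (L 12))) O)) (B (A (B (L 12) (L 12)) (B (L 12) (L
    12))) (A (L 12) (L 12)))))) (C (B (A (C (B (L 3) (L 3)) (L 3)) (L 3)) (A (C (B (A (B (L 12) O)
    (L 3)) O) (B (L 3) O)) (C (B (L 3) (C (A (L 12) (L 3)) (L 3))) (L 3)))) (B (L 3) (L 3)))))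
    O)))) O)) (C (B (L 4) (L 4)) (B (C (A (L 4) (L 4)) (A (C (B (C (L 4) (A (C (L 4) (B (C (L 4) (A
    (L 4) (B (L 4) (L 4)))) (L 4))) (C (L 4) (B (C (B (L 4) (L 4)) (B (A (C (L 4) (B (A (L 4) (B (L
    13) (L 4))) (L 4))) (C (L 4) (B (A (B (L 13) (L 13)) (B (L 13) (L 13))) (C (L 4) (A (L 4) (B (A
    (L 4) (L 13)) (L 4))))))) (A (L 4) (C (L 4) (L 4))))) (C (L 4) (A (L 4) (L 4))))))) (C (L 4) (A
    (L 4) (L 4)))) (B (C (A (C (B (A (C (B (C (L 4) (A (B (C (L 4) (A (L 4) (L 4))) (L 4)) (B (B (L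
    13) (L 13)) (C (L 4) (A (L 4) (B (L 4) (L 4))))))) (L 4)) (B (C (B (A (B (L 13) (L 13)) (B (L
    13) (L 13))) (A (C (A (L 4) (L 4)) (A (B (L 13) (L 4)) (B (L 13) (C (L 4) (A (B (L 13) (L 4))
    (B (L 13) (C (L 4) (A (B (L 13) (L 4)) (B (L 13) (C (L 4) (A (L 4) (L 25)))))))))))) (B (A (L
    13) (L 13)) (A (C (L 4) (B (L 13) (C (A (L 4) (C (L 4) (A (C (L 4) (B (L 13) (L 4))) (C (B (L
    13) (L 4)) (B (L 13) (A (L 4) (L 25))))))) (B (A (L 13) (L 13)) (A (A (A (L 25) (L 25)) (A (L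
    25) (L 25))) (A (A (L 25) (L 25)) (A (L 25) (L 25)))))))) (B (L 13) (B (A (L 13) (L 13)) (A (A
    (A (L 25) (L 25)) (A (L 25) (L 25))) (A (A (L 25) (L 25)) (A (L 25) (L 25)))))))))) (A (B (B (L
    3) (L 13)) (C (B (A (L 13) (L 13)) (A (B (B (L 13) (L 13)) (C (A (L 4) (C (L 4) (A (L 4) (B (L
    13) (L 4))))) (B (A (B (L 13) (L 13)) (B (L 13) (L 13))) (A (C (L 4) (A (C (L 4) (A (L 4) (L
    25))) (A (L 25) (L 25)))) (A (A (L 25) (L 25)) (A (L 25) (L 25))))))) (C (B (B (L 13) (L 13))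
    (B (A (B (L 13) (L 13)) (B (L 13) (L 13))) (A (A (A (L 25) (L 25)) (A (L 25) (L 25))) (A (A (L
    25) (L 25)) (A (L 25) (L 25)))))) (A (B (L 3) (C (A (B (L 13) (A (L 25) (L 25))) (B (L 3) (A (L
    25) (L 3)))) (L 3))) (L 3))))) (A (B (L 3) (C (A (B (L 13) (C (A (B (L 13) (A (L 25) (L 25)))
    (B (L 3) (A (L 25) (L 25)))) (A (B (L 3) (C (A (L 25) (L 3)) (L 3))) (L 3)))) (L 3)) (L 3))) (L
    3)))) (B (L 3) (C (A (B (L 3) (C (A (B (L 3) (C (A (B (L 3) (A (L 25) (L 25))) (L 3)) (L 3)))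
    (L 3)) (L 3))) (L 3)) (L 3))))) (C (A (B (C (L 4) (A (L 4) (L 4))) (L 4)) (B (C (A (L 4) (B (C
    (L 4) (A (L 4) (L 4))) (L 4))) (B (A (B (B (A (L 12) (L 12)) (L 12)) (L 12)) (B (B (A (L 12) (L
    12)) (L 12)) (L 12))) (A (L 12) (L 12)))) (C (L 4) (B (L 12) (L 4))))) (A (B (B (A (B (B (A (L
    12) (L 12)) (L 12)) (L 12)) (B (B (A (L 12) (L 12)) (L 12)) (L 12))) (A (L 12) (L 12))) (B (L
    12) (L 12))) (B (C (B (A (B (B (A (L 12) (L 3)) (L 12)) (L 12)) (C (A (B (L 3) (L 12)) (L 3))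
    (L 3))) (A (L 12) (L 12))) (A (B (L 3) (L 12)) (L 3))) (B (L 12) (L 12))))))) (C (B (C (A (B (C
    (L 4) (A (L 4) (L 4))) (L 4)) (B (B (L 13) (L 13)) (L 4))) (B (A (B (L 13) (L 13)) (B (L 13) (L
    13))) (A (C (A (L 4) (L 4)) (A (B (L 13) (L 4)) (B (L 13) (C (L 4) (A (B (L 13) (L 4)) (B (L
    13) (C (L 4) (C (B (L 13) (L 4)) (B (L 13) (A (L 4) (A (L 4) (L 25)))))))))))) (B (A (L 13) (L
    13)) (A (C (L 4) (B (L 13) (B (A (L 13) (L 13)) (C (L 4) (A (A (A (L 25) (L 25)) (A (L 25) (L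
    25))) (A (A (L 25) (L 25)) (A (L 25) (L 25)))))))) (B (L 13) (B (A (L 13) (L 13)) (C (L 4) (A
    (A (A (L 25) (L 25)) (A (L 25) (L 25))) (A (A (L 25) (L 25)) (A (L 25) (L 25)))))))))))) (C (L
    4) (A (B (C (L 4) (A (L 4) (B (L 4) (L 4)))) (L 4)) (B (C (L 4) (B (A (C (L 4) (B (B (A (B (L
    12) (L 12)) (B (L 12) (L 12))) (L 12)) (L 12))) (B (B (A (B (L 12) (L 12)) (B (B (L 12) (L 12))
    (L 12))) (L 12)) (L 12))) (A (L 4) (L 12)))) (C (L 4) (B (L 4) (L 4))))))) (B (C (A (B (C (B (L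
    3) (L 13)) (L 3)) (C (B (A (L 13) (L 13)) (A (B (L 13) (B (A (L 13) (L 13)) (C (A (L 4) (C (L
    4) (A (L 4) (A (L 25) (L 25))))) (A (A (A (L 25) (L 25)) (A (L 25) (L 25))) (A (A (L 25) (L
    25)) (A (L 25) (L 25))))))) (C (B (L 13) (B (A (L 13) (L 13)) (A (A (A (L 25) (L 25)) (A (L 25)
    (L 25))) (A (A (L 25) (L 25)) (A (L 25) (L 25)))))) (A (B (L 3) (C (A (C (B (L 3) (A (L 25) (L
    3))) (L 3)) (L 3)) (L 3))) (L 3))))) (A (B (L 3) (C (A (B (L 3) (C (A (C (B (L 3) (A (L 25) (L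
    3))) (L 3)) (L 3)) (L 3))) (L 3)) (L 3))) (L 3)))) (B (L 3) (C (B (L 3) (A (C (B (L 3) (C (A (C
    (B (L 3) (A (A (L 25) (L 25)) (L 3))) (L 3)) (L 3)) (L 3))) (L 3)) (L 3))) (L 3)))) (L 3)) (C
    (B (A (B (A (B (B (A (L 12) (L 12)) (L 12)) (L 12)) (B (B (A (L 12) (L 12)) (L 12)) (L 12))) (A
    (L 12) (L 12))) (C (B (A (B (B (C (A (L 12) (L 3)) (L 3)) (L 12)) (L 12)) (C (B (L 3) (L 12))
    (L 3))) (A (L 12) (L 12))) (B (L 3) (A (L 12) (L 3))))) (A (B (L 12) (L 12)) (B (L 12) (L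
    12)))) (A (B (C (A (B (L 3) (L 12)) (L 3)) (L 3)) (B (L 12) (L 12))) (B (L 3) (B (L 3) (L
    12)))))))) (A (C (L 4) (B (C (L 4) (A (B (L 12) (L 4)) (B (L 12) (L 12)))) (C (L 4) (L 4)))) (C
    (B (L 4) (L 4)) (B (A (B (L 12) (L 12)) (B (L 12) (L 12))) (A (L 12) (L 12)))))) (B (A (C (B (C
    (A (L 3) (L 3)) (L 3)) (C (A (B (C (A (B (L 3) (L 12)) (L 3)) (L 3)) (B (L 12) (L 12))) (B (L
    3) (B (L 3) (L 12)))) (A (L 3) (L 3)))) (L 3)) (C (B (L 3) (L 3)) (L 3))) (A (B (A (B (L 12) (L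
    12)) (B (L 12) (L 12))) (A (L 12) (L 12))) (C (B (C (A (B (L 12) (L 12)) (B (L 3) (L 12))) (L
    3)) (A (L 12) (L 12))) (B (L 3) (L 3)))))) (C (B (C (A (B (B (A (B (L 13) (L 13)) (B (L 13) (L
    13))) (A (B (A (L 13) (L 13)) (A (B (L 13) (C (L 4) (B (A (L 13) (L 13)) (A (A (A (L 25) (L
    25)) (A (L 25) (L 25))) (A (A (L 25) (L 25)) (A (L 25) (L 25))))))) (B (L 13) (B (A (L 13) (L
    13)) (C (L 4) (C (A (A (A (L 25) (L 25)) (A (L 25) (L 25))) (A (A (L 25) (L 25)) (A (L 25) (L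
    25)))) (L 3))))))) (B (A (L 13) (L 13)) (A (B (L 13) (B (A (L 13) (L 13)) (A (A (A (L 25) (L
    25)) (A (L 25) (L 25))) (A (A (L 25) (L 25)) (A (L 25) (L 25)))))) (B (L 13) (B (A (L 13) (L
    13)) (A (B (L 13) (A (L 25) (L 25))) (B (L 13) (A (L 25) (L 25)))))))))) (C (B (A (L 4) (C (L
    4) (B (C (L 4) (A (L 4) (B (C (L 4) (A (L 4) (B (A (L 25) (L 25)) (L 12)))) (L 4)))) (L 4))))
    (L 4)) (B (A (B (A (B (B (A (B (A (L 12) (L 25)) (L 12)) (B (A (L 25) (L 25)) (L 12))) (L 12))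
    (L 12)) (B (B (A (B (A (L 25) (L 25)) (L 12)) (B (A (L 25) (L 25)) (L 12))) (L 12)) (L 12))) (A
    (L 12) (L 12))) (B (C (A (B (B (A (B (A (L 25) (L 25)) (L 12)) (B (A (L 25) (L 25)) (L 12))) (L
    12)) (L 12)) (B (C (B (A (B (A (L 25) (L 25)) (L 12)) (C (A (L 25) (L 25)) (L 3))) (L 12)) (L
    3)) (L 12))) (C (A (B (L 3) (L 12)) (L 3)) (L 3))) (A (L 12) (L 12)))) (A (B (L 12) (L 12)) (B
    (L 12) (L 12)))))) (B (C (B (A (B (L 13) (L 13)) (B (L 13) (L 13))) (A (B (A (L 13) (L 13)) (A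
    (B (L 13) (B (L 13) (C (L 4) (A (B (L 13) (A (L 25) (L 25))) (B (L 13) (A (L 25) (L 25)))))))
    (B (L 13) (B (L 13) (A (B (L 13) (A (L 25) (L 13))) (B (L 13) (A (L 13) (L 13)))))))) (B (A (L
    13) (L 13)) (A (B (L 13) (B (L 13) (A (B (L 13) (B (L 13) (L 25))) (B (L 13) (B (L 13) (L
    13)))))) (B (L 13) (B (L 13) (A (B (L 13) (B (L 13) (L 13))) (B (L 13) (L 13))))))))) (B (L 3)
    (C (A (B (L 3) (L 3)) (L 3)) (L 3)))) (B (A (B (A (B (B (A (A (A (L 25) (L 25)) (A (L 25) (L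
    25))) (A (A (L 25) (L 25)) (A (L 25) (L 25)))) (A (L 12) (L 12))) (L 12)) (B (B (A (A (A (L 25)
    (L 25)) (A (L 25) (L 25))) (A (A (L 25) (L 25)) (A (L 25) (L 25)))) (A (L 12) (L 12))) (L 12)))
    (A (L 12) (L 12))) (B (C (A (B (B (A (A (A (L 25) (L 25)) (A (L 25) (L 25))) (A (A (L 25) (L
    25)) (A (L 25) (L 25)))) (A (L 12) (L 12))) (L 12)) (B (B (A (A (A (L 25) (L 25)) (A (L 25) (L
    25))) (A (A (L 25) (L 25)) (A (L 25) (L 25)))) (A (L 12) (L 12))) (L 12))) (L 3)) (A (L 12) (L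
    12)))) (A (B (L 12) (L 12)) (B (L 12) (L 12)))))) (A (B (C (B (L 3) (L 3)) (L 3)) (C (B (A (C
    (B (L 3) (A (L 12) (L 3))) (L 3)) (L 3)) (A (B (L 12) (L 12)) (B (L 12) (L 12)))) (L 3))) (B (L
    3) (C (B (L 3) (C (A (L 3) (L 3)) (L 3))) (L 3))))) (A (B (A (B (L 12) (L 12)) (B (L 12) (L
    12))) (A (L 12) (L 12))) (B (B (A (L 12) (L 12)) (L 12)) (A (L 12) (L 12))))) (B (C (A (L 3) (L
    3)) (L 3)) (C (A (B (L 3) (A (L 12) (L 12))) (B (L 3) (C (B (L 3) (L 3)) (L 3)))) (A (L 3) (L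
    3)))))) (A (C (B (L 3) (A (L 3) (L 3))) (L 3)) (L 3))) (A (B (A (B (A (L 12) (L 12)) O) (B (L
    12) (L 12))) O) (B (A (B (L 12) (L 12)) (B (L 12) (L 12))) (A (B (L 12) (L 12)) (B (L 12) (L
    12))))))) (C (B (C (L 4) (B (C (A (L 4) (L 4)) (A (C (B (L 4) (L 4)) (B (C (A (B (C (L 4) (L
    4)) (L 4)) (B (C (L 4) (B (L 4) (L 4))) (L 4))) (A (B (A (B (L 13) (L 13)) (B (L 13) (L 13)))
    (C (A (L 4) (L 4)) (A (B (A (L 13) (L 13)) (C (L 4) (A (L 4) (L 4)))) (B (A (L 13) (L 13)) (C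
    (L 4) (B (A (L 13) (L 13)) (L 4))))))) (B (A (B (L 13) (L 13)) (L 13)) (C (B (C (L 4) (A (L 4)
    (L 4))) (L 4)) (A (B (L 13) (C (L 4) (B (A (L 13) (L 13)) (C (L 4) (A (L 4) (C (L 4) (B (L 13)
    (L 4)))))))) (B (L 13) (C (L 4) (A (B (L 13) (B (L 13) (L 4))) (B (L 13) (B (L 13) (L
    4))))))))))) (C (A (L 4) (L 4)) (A (B (C (L 4) (A (L 4) (L 4))) (L 4)) (B (C (L 4) (B (C (L 4)
    (A (L 4) (L 4))) (L 4))) (L 4)))))) (C (B (L 4) (L 4)) (B (A (C (B (C (L 4) (B (L 4) (L 4))) (L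
    4)) (B (A (L 13) (L 13)) (C (B (C (L 4) (A (L 4) (L 4))) (L 4)) (A (B (L 13) (C (L 4) (A (B (L
    13) (B (L 13) (L 4))) (B (L 13) (L 13))))) (B (L 13) (C (L 4) (C (B (L 13) (L 4)) (A (B (L 13)
    (L 4)) (B (L 13) (L 4)))))))))) (C (B (L 4) (L 4)) (B (A (L 13) (L 13)) (C (L 4) (A (C (B (L
    13) (L 4)) (B (L 13) (C (L 4) (A (B (L 4) (L 4)) (L 4))))) (C (L 4) (B (L 13) (L 4)))))))) (A
    (C (L 4) (B (C (L 4) (B (C (L 4) (A (L 4) (L 4))) (L 4))) (L 4))) (C (L 4) (B (C (L 4) (A (L 4)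
    (L 4))) (L 4)))))))) (C (L 4) (A (C (L 4) (B (A (L 4) (L 4)) (L 4))) (C (L 4) (B (A (L 4) (L
    4)) (L 4))))))) (C (L 4) (B (C (L 4) (A (L 4) (L 4))) (C (L 4) (A (L 4) (L 4)))))) (B (C (B (C
    (A (C (B (C (A (B (C (A (B (L 3) (L 13)) (L 3)) (L 3)) (C (A (B (A (L 13) (L 13)) (A (B (L 13)
    (B (L 13) (A (L 13) (L 13)))) (B (L 13) (B (L 13) (A (L 13) (L 13)))))) (B (A (L 13) (L 13)) (A
    (B (L 13) (B (L 13) (A (L 13) (L 13)))) (B (L 13) (B (L 13) (A (L 13) (L 13))))))) (A (B (L 3)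
    (C (A (L 3) (L 3)) (L 3))) (L 3)))) (B (L 3) (C (B (C (A (A (L 3) (L 3)) (L 3)) (L 3)) (C (A (A
    (B (L 13) (B (L 13) (A (L 13) (L 13)))) (B (L 13) (B (L 13) (L 13)))) (A (B (L 13) (B (L 13) (L
    13))) (B (L 13) (B (L 13) (L 13))))) (A (L 3) (L 3)))) (L 3)))) (A (L 3) (L 3))) (A (B (C (A (B
    (A (B (B (A (A (A (L 25) (L 25)) (A (L 25) (L 25))) (A (A (L 25) (L 25)) (A (L 25) (L 25)))) (A
    (L 12) (L 12))) (L 12)) (B (B (A (A (A (L 25) (L 25)) (A (L 25) (L 25))) (A (A (L 25) (L 25))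
    (A (L 25) (L 25)))) (A (L 12) (L 12))) (L 12))) (A (L 12) (L 12))) (B (C (A (B (B (A (A (L 25)
    (L 25)) (A (L 25) (L 25))) (A (L 12) (L 12))) (L 12)) (B (A (A (B (L 25) (L 12)) (B (L 25) (L
    12))) (A (B (L 25) (L 12)) (B (L 25) (L 12)))) (L 12))) (C (B (L 3) (C (A (L 12) (L 3)) (L 3)))
    (L 3))) (A (L 12) (L 12)))) (C (A (L 3) (L 3)) (L 3))) (A (B (L 12) (L 12)) (B (L 12) (L 12))))
    (C (B (C (A (B (A (B (A (A (B (L 25) (L 12)) (B (L 25) (L 12))) (A (B (L 25) (L 12)) (B (L 25)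
    (L 12)))) (B (L 12) (L 12))) (B (C (C (C (L 4) (B (C (L 4) (B (A (L 13) (L 13)) (L 4))) (L 4)))
    (A (A (B (L 25) (L 12)) (B (L 25) (L 12))) (A (B (L 25) (L 25)) (B (L 25) (L 25))))) (C (C (B
    (L 3) (C (B (L 3) (L 12)) (L 3))) (L 3)) (L 3))) (B (L 12) (L 12)))) (A (L 12) (L 12))) (B (A
    (B (C (C (C (L 4) (B (C (B (A (L 4) (L 4)) (L 4)) (B (A (L 13) (L 13)) (A (L 4) (L 25)))) (L
    4))) (C (A (A (B (L 25) (L 25)) (B (L 25) (L 25))) (A (B (L 25) (L 25)) (B (L 25) (L 25)))) (B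
    (L 3) (A (B (L 25) (L 12)) (B (L 25) (L 12)))))) (L 3)) (B (L 12) (L 12))) (B (C (A (A (B (L
    25) (L 25)) (B (L 25) (L 25))) (A (B (L 25) (L 25)) (B (L 25) (L 25)))) (L 3)) (B (L 12) (L
    12)))) (A (L 12) (L 12)))) (B (C (A (L 3) (L 3)) (L 3)) (C (A (A (L 12) (L 12)) (A (L 12) (L
    12))) (A (L 3) (L 3))))) (A (B (L 12) (L 12)) (B (L 12) (L 12)))) (B (L 3) (C (B (C (A (L 3) (L
    3)) (L 3)) (A (L 12) (L 12))) (L 3)))))) (B (L 3) (A (L 3) (L 3)))) (C (B (A (C (B (C (B (L 3)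
    (L 3)) (L 3)) (C (B (C (A (L 3) (L 13)) (L 3)) (C (A (A (B (L 13) (B (L 13) (L 13))) (B (L 13)
    (L 13))) (A (B (L 13) (L 13)) (B (L 13) (L 13)))) (A (L 3) (C (B (L 3) (A (L 3) (L 3))) (L
    3))))) (L 3))) (L 3)) (C (B (C (A (L 13) (L 13)) (L 3)) (C (A (B (L 13) (A (B (L 13) (L 13)) (B
    (L 13) (L 13)))) (B (L 13) (A (B (L 13) (L 13)) (B (L 13) (L 13))))) (A (L 3) (C (B (L 3) (A (L
    3) (B (L 3) (L 13)))) (L 3))))) (L 3))) (A (C (B (C (B (A (A (B (C (C (C (L 4) (B (C (B (L 13)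
    (L 4)) (A (B (L 13) (L 25)) (B (L 13) (L 4)))) (L 4))) (C (A (A (B (L 25) (L 25)) (B (L 25) (L
    25))) (A (B (L 25) (L 25)) (B (L 13) (L 25)))) (B (L 3) (C (A (A (L 25) (L 25)) (A (L 25) (L
    25))) (B (L 3) (A (L 3) (L 12))))))) (L 3)) (B (L 12) (L 12))) (B (C (C (C (L 4) (B (C (L 4) (B
    (L 13) (L 4))) (L 4))) (A (A (B (L 13) (L 25)) (B (L 13) (L 25))) (A (B (L 13) (L 25)) (B (L
    13) (L 25))))) (C (C (B (L 3) (C (B (L 3) (A (L 3) (L 3))) (L 3))) (L 3)) (L 3))) (B (A (L 12)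
    (L 12)) (L 12)))) (A (B (A (A (B (L 13) (L 25)) (B (L 13) (L 25))) (A (B (L 13) (L 25)) (B (L
    13) (L 25)))) (B (A (L 12) (L 12)) (L 12))) (C (C (L 4) (B (C (B (A (L 13) (L 4)) (L 4)) (B (A
    (L 13) (L 13)) (A (A (L 25) (L 25)) (C (L 4) (B (L 4) (L 4)))))) (L 4))) (C (B (C (B (A (L 13)
    (L 13)) (A (A (L 25) (L 25)) (A (L 25) (L 25)))) (B (L 3) (A (L 3) (C (A (L 25) (L 25)) (L
    3))))) (B (A (L 12) (L 12)) (L 12))) (B (L 3) (B (A (L 3) (L 12)) (L 12))))))) (A (A (L 12) (L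
    12)) (A (L 12) (L 12)))) (B (C (A (L 3) (L 3)) (L 3)) (C (A (A (L 12) (L 12)) (A (L 12) (L
    12))) (A (L 3) (L 3))))) (A (B (L 12) (L 12)) (B (L 12) (L 12)))) (B (L 3) (C (B (C (A (L 3) (L
    3)) (L 3)) (A (L 12) (L 12))) (L 3)))) (B (C (A (B (C (C (C (L 4) (B (A (C (L 4) (B (A (L 13)
    (L 4)) (L 4))) (L 4)) (L 4))) (A (B (C (B (A (L 13) (L 13)) (A (A (L 25) (L 25)) (A (L 25) (L
    25)))) (C (B (L 3) (A (L 3) (C (A (L 25) (L 25)) (L 3)))) (L 3))) (B (A (L 12) (L 12)) (L 12)))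
    (C (B (C (B (A (L 13) (L 4)) (L 4)) (B (A (L 13) (L 13)) (A (A (L 25) (L 25)) (C (L 4) (B (L 4)
    (L 4)))))) (L 4)) (B (C (B (A (L 13) (L 13)) (A (A (L 25) (L 25)) (A (L 25) (L 25)))) (B (L 3)
    (A (L 3) (A (L 25) (L 25))))) (B (A (L 12) (L 12)) (L 12)))))) (C (C (B (A (L 3) (L 3)) (A (C
    (B (L 3) (L 12)) (L 3)) (B (C (A (L 3) (L 12)) (L 3)) (L 12)))) (B (L 3) (L 3))) (L 3))) (A (L
    12) (L 12))) (B (C (C (L 4) (A (C (B (C (L 4) (A (B (L 13) (L 4)) (L 4))) (L 4)) (B (B (A (L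
    13) (L 13)) (C (A (C (L 4) (A (L 25) (L 25))) (L 4)) (A (A (L 25) (L 25)) (A (L 25) (L 25)))))
    (C (L 4) (A (B (B (L 12) (L 12)) (L 4)) (L 4))))) (C (L 4) (B (C (A (L 4) (L 4)) (A (B (L 13)
    (L 4)) (B (L 13) (L 4)))) (L 4))))) (C (A (C (B (C (A (B (L 3) (C (B (L 3) (L 25)) (L 3))) (B
    (L 13) (A (L 25) (L 25)))) (A (L 3) (L 3))) (B (A (L 12) (B (L 12) (L 12))) (L 12))) (B (L 3)
    (C (A (L 3) (B (L 3) (L 12))) (L 3)))) (A (C (B (B (L 13) (A (L 25) (L 25))) (B (B (L 25) (L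
    12)) (L 12))) (B (L 3) (B (B (L 12) (L 12)) (L 12)))) (B (B (L 13) (A (L 25) (L 25))) (B (B (L
    25) (L 12)) (L 12))))) (A (L 3) (C (B (L 3) (C (A (L 3) (B (L 3) (L 12))) (L 3))) (L 3))))) (A
    (B (L 12) (L 12)) (B (L 12) (L 12))))) (C (A (L 3) (C (B (L 3) (A (L 3) (L 3))) (L 3))) (L 3)))
    (A (B (L 12) (L 12)) (B (L 12) (L 12)))))) (B (L 3) (A (L 3) (L 3))))) (A (L 3) (L 3))) (C (A
    (A (B (B (A (L 12) (L 12)) (L 12)) (B (L 12) (L 12))) (B (B (A (L 12) (L 12)) (L 12)) (B (L 12)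
    (L 12)))) (A (B (B (A (L 12) (L 12)) (L 12)) (B (L 12) (L 12))) (B (B (A (L 12) (L 12)) (L 12))
    (B (L 12) (L 12))))) (A (C (B (L 3) (A (L 3) (L 3))) (L 3)) (C (B (L 3) (L 3)) (L 3))))) (B (L
    3) (L 3))) (C (A (B (A (B (L 12) (L 12)) (B (L 12) (L 12))) (A (B (L 12) (L 12)) (B (L 12) (L
    12)))) (B (A (B (L 12) (L 12)) (B (L 12) (L 12))) (A (B (L 12) (L 12)) (B (L 12) (L 12))))) (B
    (C (A (L 3) (L 3)) (L 3)) (C (A (C (B (L 3) (L 3)) (L 3)) (L 3)) (L 3)))))))) (C (A (L 4) (L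
    4)) (A (C (B (C (L 4) (A O (L 4))) O) (B (A O (B (A O (L 12)) O)) O)) (C (B (C (L 4) (B (L 4)
    (L 4))) (L 4)) (B (A (B (A (L 12) (L 12)) (A O (L 12))) (B (A (L 12) (L 12)) (A (L 12) (L
    12)))) (A O (B (A (L 12) (L 12)) (A O (L 12))))))))))) O) (B (A (C (B (C (A (C (B (A (C (A (B
    (C (C (A (B (C (L 4) (A (L 4) (B (B (L 13) O) O))) O) (B (C (A (L 4) (B (B (L 13) O) O)) (B (B
    (L 13) O) O)) O)) (B (A (B (B (L 13) O) O) (C (A (B (B (L 13) O) O) (B (L 3) O)) (A (B (L 3) O)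
    (L 3)))) O)) (C (A (B (C (A (B (L 3) O) (L 3)) (L 3)) O) (B (L 3) O)) (A (L 3) (L 3)))) O) (C
    (B (C (A (B (C (B (B (L 13) O) O) (A (B (C (B (L 3) O) (L 3)) O) (L 3))) O) (B (C (A (B (L 3)
    O) (L 3)) (L 3)) O)) (A (B (L 3) O) (L 3))) O) (B (L 3) O))) (A (C (B (L 3) O) (L 3)) (L 3)))
    (C (C (B (A (C (A (B (L 3) O) (L 3)) (L 3)) (L 3)) O) (B (L 3) O)) (L 3))) O) (B (L 3) O)) (C
    (B (C (A (C (B (L 3) (L 3)) (L 3)) (L 3)) (L 3)) O) (L 3))) (A (L 3) (L 3))) O) (B (L 3) O)) (C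
    (B (C (A (C (B (L 3) (C (A (L 3) (L 3)) (L 3))) (L 3)) (C (B (L 3) (L 3)) (L 3))) (L 3)) (C (A
    (C (B (C (A O (L 3)) (L 3)) O) (L 3)) (C (B (C (A (L 3) (L 3)) (L 3)) (C (A O (C (B (L 3) (L
    3)) (L 3))) (L 3))) (L 3))) (L 3))) (L 3))) O)) (B (C (A (L 3) (L 3)) (L 3)) O)) O)))) (C (C (C
    (B (L 3) O) (L 3)) (L 3)) (C (L 3) (L 3)))) (C (C (C (C (B (C (B (C (L 3) (B (C (L 3) (A (B (C
    (L 3) (A (L 3) (B (C (L 3) (B (L 10) (L 3))) (L 3)))) O) (B (C (L 3) (B (C (A (L 3) (L 3)) (A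
    (A (L 10) (L 10)) (A (L 10) (L 10)))) (C (L 3) (A (L 3) (L 3))))) (L 3)))) (L 3))) O) (B (C (B
    (C (A (B (A (A (B (L 10) O) (B (L 10) O)) (A (B (L 10) (A O (L 10))) (B (L 10) (A (L 10) (L
    10))))) O) (A (B (A (B (L 10) (A (L 10) (L 10))) (B (L 10) (A (L 10) (L 10)))) (C (B (C (L 3)
    (B (A (L 10) (L 10)) (L 3))) (L 3)) (A (B (A (L 10) (L 10)) O) (B (A (L 10) (L 10)) (A (L 10)
    (L 10)))))) (B (C (A (B (L 10) (L 10)) (B (L 10) (L 10))) (L 2)) (A (B (A (L 10) (L 10)) (A (B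
    (L 10) (L 10)) (B (L 10) (L 10)))) (B (A (L 10) (L 10)) (A (B (L 10) (L 10)) (B (L 10) (L
    10)))))))) (A (B (C (A (B (L 2) O) (L 2)) (L 2)) O) (B (L 2) (C (B (L 2) (C (A (B (L 2) (C (A O
    (B (L 2) (L 2))) (L 2))) (L 2)) (L 2))) (L 2))))) (C (A O (B (C (L 3) (B (C (A (L 3) (L 3)) (A
    (B (C (L 3) (A O (A O (L 10)))) O) (B (A (A (L 10) (L 10)) (A (L 10) (L 10))) (C (L 3) (B (A (C
    (L 3) (B (L 3) (L 3))) (A (L 10) (L 10))) (L 3)))))) (C (L 3) (A O (L 3))))) (L 3))) (A O (B (C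
    (B (C (A (A O (A O (B (L 10) O))) (B (C (A (A (L 10) (L 10)) (B (L 2) (L 10))) (L 2)) (C (A (A
    (L 10) (L 10)) (A (L 10) (L 10))) (A (B (C (B (L 2) (A (L 10) (L 2))) (L 2)) (A (L 10) (L 10)))
    (B (L 2) (C (B (L 2) (A (L 10) (L 2))) (L 2))))))) (A (B (L 2) O) (L 2))) (C (A O (B (C (B (A
    (L 3) (C (L 3) (B (A (L 10) (L 10)) (C (L 3) (A (L 3) (L 3)))))) (L 3)) (A (A O (B (L 10) (A (L
    10) (L 10)))) (A (B (L 10) (A (L 10) (L 10))) (B (L 10) (A (L 10) (L 10)))))) (C (L 3) (B (A (L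
    3) (C (L 3) (B (C (A (L 3) (L 3)) (A (B (A (L 3) (L 10)) (L 3)) (A (L 10) (L 10)))) (C (L 3) (A
    (L 3) (L 3)))))) (L 3))))) (A O (B (C (A (B (C (B (L 2) (A O (L 2))) (L 2)) (C (A O (A (L 10)
    (L 10))) (B (L 2) (A O (L 2))))) (B (L 2) (C (B (L 2) (C (A (A (L 10) (L 10)) (L 2)) (L 2))) (L
    2)))) (L 2)) (C (A (B (A O (A O (B (A (L 10) (L 10)) (A O (A O (L 19)))))) O) (A (A (B (B (A (L
    10) (L 10)) (A (A (L 19) (L 19)) (A (L 19) (L 19)))) (C (L 3) (B (A (A (L 19) (L 19)) (A (L 19)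
    (L 19))) (A (L 9) (L 9))))) (B (B (A (L 10) (L 10)) (A (A (L 19) (L 19)) (A (L 19) (L 19)))) (C
    (B (C (L 3) (B (C (L 3) (B (A (L 3) (L 19)) (L 3))) (L 3))) (L 3)) (B (A (A (L 19) (L 19)) (L
    19)) (B (A (L 9) (L 9)) (L 9)))))) (B (C (A (B (L 10) (B (L 10) (A (L 19) (L 19)))) (B (L 10)
    (B (L 10) (A (L 10) (L 10))))) (L 2)) (C (B (C (L 3) (B (C (A (L 3) (A (L 19) (L 19))) (A (A (L
    19) (L 19)) (A (L 19) (L 19)))) (C (L 3) (A (L 3) (A (L 19) (L 19)))))) (L 3)) (B (C (B (C (A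
    (A (L 19) (L 19)) (B (L 2) (L 19))) (L 2)) (A (A (L 19) (L 19)) (A (L 19) (L 19)))) (L 2)) (A
    (B (A (L 9) (L 9)) (L 9)) (B (A (L 9) (L 9)) (L 9)))))))) (A (B (C (B (L 2) (A O (L 2))) (L 2))
    O) (B (L 2) (C (B (L 2) (C (A (B (C (A (L 9) (L 2)) (L 2)) (A (L 9) (L 9))) (L 2)) (L 2))) (L
    2))))))))) (B (L 2) (C (A O (L 2)) (L 2)))) (C (B (C (A O (L 3)) (A O (B (C (A O (B (C (L 3) (B
    (C (L 3) (A (B (C (L 3) (A (L 3) (L 9))) (L 3)) (A (L 9) (L 9)))) (L 3))) (L 3))) (A O (A (B (A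
    (L 9) (L 9)) (A O (L 9))) (B (A (L 9) (L 9)) (A (L 9) (L 9)))))) (C (L 3) (A O (B (C (L 3) (B
    (A (L 9) (L 9)) (L 3))) (L 3))))))) (C (L 3) (A O (L 3)))) (B (C (A O (B (C (A O (B (L 2) (C (B
    (L 2) (A (L 9) (L 9))) (L 2)))) (L 2)) (A O (A (B (L 9) O) (B (L 9) (L 9)))))) (A O (L 2))) (C
    (A O (B (C (A O (B (A O (L 9)) (L 3))) (A O (A O (L 9)))) O)) (A O (B (C (A O (B (L 2) (L 9)))
    (L 2)) O))))))))) (B (C (A (L 2) (L 2)) (L 2)) (C (A O (B (L 2) (C (B (L 2) (C (A O (L 2)) (L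
    2))) (L 2)))) (A O (L 2))))) O)) O) (B (C (B (L 2) O) (L 2)) O)) (C (B (L 2) O) (L 2))) (L 2))
    (C (L 2) (C (L 2) (C (L 2) (B (C (L 2) (B (C (L 2) (B (C (L 2) (B (C (L 2) (B (A (C (L 2) (B (A
    (L 7) (L 2)) (L 2))) (L 2)) (L 2))) (L 2))) (L 2))) O)) O))))))) (C (C (C (C (C (C (B (B (C (A
    (B (C (A (B (L 7) O) (B (L 7) O)) (L 1)) O) (B (A (B (L 7) (L 7)) (B (L 7) (L 7))) (A (B (L 7)
    O) (B (L 7) (L 7))))) (C (B (L 1) (C (B (L 1) (C (B (L 1) (C (B (L 1) O) (L 1))) (L 1))) (L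
    1))) (L 1))) O) O) (B (C (L 1) (L 1)) O)) (B (L 1) O)) (L 1)) (L 1)) (L 1)) (L 1))) = true := by
  decide +kernel

end Pool.Agent.BX
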