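import Mathlib
import Pool.Agent.BX.Real

set_option autoImplicit false
set_option maxRecDepth 100000

namespace Pool.Agent.BX

open Tr

theorem c3_3 : cf false 3 3 10 64 172 38
    (C (C O (C (B (C (B (C O (L 3)) O) (C (C (L 3) (B (C (L 3) (C (L 3) (B (C (L 3) (B (B (B (B (B
    (B (L 21) (L 9)) (L 9)) (L 9)) (L 9)) (B (L 9) (L 9))) (C (L 3) (B (C (L 3) (B (B (L 9) (B (L
    9) (L 17))) (C (L 3) (B (L 8) (L 3))))) (L 3))))) O))) O)) (C (B (C (B (C (C (B (L 2) (C (B (C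
    (B (L 2) (B (L 8) (L 8))) (L 2)) (B (L 8) (L 8))) (L 2))) (L 2)) (L 2)) (C (C O (B (C O (L 2))
    O)) (C (B (L 2) O) (L 2)))) (L 2)) O) (B (L 2) O)))) O) (B (C (L 2) (C (L 2) (B (B (C (C (B (C
    (L 2) (B (L 7) (L 2))) (L 2)) (B (C (B (L 7) (B (L 7) (B (L 7) (L 14)))) (L 1)) (B (B (C (C (L
    2) (C (L 2) (B (L 14) (L 2)))) (B (L 6) (L 6))) (L 6)) (L 6)))) (C (B (L 1) (C (B (L 1) (L 6))
    (L 1))) (L 1))) (B (C (L 2) (L 6)) (C (L 2) (B (L 6) (L 6))))) (C (L 2) (B (C (L 2) (B (B (B (L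
    6) (C (L 6) (B (L 1) (C (L 6) (L 1))))) (C (L 2) (B (C (B (B (L 6) (C (L 6) (C (B (L 1) (L 6))
    (L 1)))) (B (L 10) (L 10))) (L 1)) (L 5)))) (C (L 2) (B (L 5) (L 2))))) (L 2)))))) O))) (C (C
    (C (B (C (B (L 1) (C (B (C (B (L 1) (B (L 5) (L 5))) (L 1)) (B (L 5) O)) (L 1))) (L 1)) O) (B
    (L 1) O)) (L 1)) (L 1))) = true := by
  decide +kernel

theorem c3_4 : cf false 3 4 10 64 140 38
    (C (C O (C (B (C O (C (L 3) (C (C (B (L 3) O) (B (C (C (L 3) (B (L 3) (L 3))) (C (B (C (L 3) (B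
    (L 3) (C (L 3) (B (C (L 3) (C (L 3) (B (L 3) (B (C (L 3) (C (L 3) (B (L 3) (L 8)))) (L 8)))))
    (B (L 8) (L 8)))))) (C (B (L 3) O) (B (B (L 8) O) O))) (B (C (B (B (B (L 9) (L 9)) (B (L 9) (L
    9))) (C (B (C (C (B (B (L 9) (L 9)) (C (B (C (B (B (L 9) (L 16)) (L 8)) (L 2)) (L 2)) (L 2)))
    (B (C (B (L 9) (L 2)) (L 2)) (L 2))) (L 2)) (L 2)) (L 2))) (L 2)) (L 2)))) O)) (C (B (L 2) O)
    (L 2))))) O) (C (B (L 2) O) (C (L 2) (B (C (L 2) (B (C (B (C (L 2) (B (C (B (L 7) (L 2)) (B (B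
    (L 7) (L 7)) (C (B (C (L 2) (B (L 7) (L 2))) (L 2)) (B (C (B (L 7) (L 14)) (L 1)) (B (B (L 6)
    (L 6)) (L 6)))))) (C (L 2) (B (L 6) (L 2))))) (L 2)) (B (C (B (L 1) (B (L 6) (L 6))) (L 1)) (B
    (L 6) (L 6)))) (C (L 2) (B (C (L 2) (B (L 6) (L 2))) (L 2))))) O))))) (C (C (C (C (B (C (B (L
    1) (C (B (C (B (B (L 1) (L 6)) (B (B (L 6) (L 6)) (B (B (L 10) (L 10)) (L 10)))) (L 1)) (B (B
    (B (L 5) (L 5)) (L 5)) (L 5))) (L 1))) (L 1)) O) (L 1)) (L 1)) (L 1)) (L 1))) = true := by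
  decide +kernel

theorem c3_5 : cf false 3 5 10 64 116 39
    (C (C O (C (B (C O (C (L 3) (C (B (L 3) O) (C (B (C (B (L 3) (L 3)) (B (C (L 3) (B (L 3) (C (L
    3) (B (C (L 3) (B (L 3) (C (L 3) (B (B (L 3) (L 9)) (B (L 16) (L 8)))))) (B (B (L 8) (L 8)) (L
    8)))))) (B (B (B (L 8) (L 8)) (L 8)) O))) O) (B (C (B (C (B (B (B (L 9) (L 9)) (B (L 9) (L 9)))
    (C (B (C (B (L 9) (C (B (B (L 9) (L 9)) (L 2)) (L 2))) (L 2)) (L 2)) (L 2))) (L 2)) (L 2)) (L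
    2)) O))))) O) (C (C (B (L 2) O) (L 2)) (C (L 2) (C (L 2) (C (L 2) (B (C (L 2) (B (C (L 2) (B (C
    (L 2) (B (C (L 2) (B (C (L 2) (B (L 7) (L 2))) (L 2))) (L 2))) (L 2))) (L 2))) (L 2)))))))) (C
    (C (C (C (C (B (C (C (B (B (C (B (C (C (B (B (L 7) (B (L 7) (B (L 7) (L 14)))) (C (L 2) (B (B
    (B (L 14) (L 6)) (L 2)) (L 2)))) (B (L 1) (B (B (L 6) (L 6)) (L 6)))) (L 1)) (B (L 6) (L 6)))
    (L 1)) (B (L 6) (L 6))) (C (L 2) (B (B (L 6) (L 2)) (L 2)))) (B (L 1) (C (B (B (L 6) (L 6)) (C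
    (L 2) (B (B (L 6) (C (L 2) (B (L 6) (L 10)))) (L 2)))) (B (L 1) (C (B (C (B (L 1) (C (B (L 1)
    (L 10)) (L 1))) (L 1)) (B (L 5) (L 5))) (L 1)))))) (L 1)) (C (B (C (L 2) (C (L 2) (B (B (L 5)
    O) O))) O) (B (C (B (B (L 1) O) O) (L 1)) O))) (B (L 1) (L 1))) (L 1)) (L 1)) (L 1)) (L 1))) = true := by
  decide +kernel

theorem c3_6 : cf false 3 6 10 64 128 39
    (C (C O (C (C O (B (C (L 3) (C (L 3) (C (L 3) (C (B (L 3) O) (B (C (L 3) (B (L 3) (C (L 3) (B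
    (L 3) (B (L 8) O))))) O))))) O)) (C (C (C (B (C (C (B (C (B (C (B (L 3) (C (L 3) (B (C (L 3) (B
    (L 3) (B (L 9) (B (L 9) (L 9))))) (B (B (B (L 16) (L 8)) (L 8)) (L 8))))) (B (B (L 9) (L 9)) (C
    (B (C (B (L 9) (C (B (L 9) (L 2)) (L 2))) (L 2)) (L 2)) (L 2)))) (C (B (B (B (L 8) (L 8)) (L
    8)) (C (B (L 8) O) (L 2))) (L 2))) (L 2)) O) (L 2)) (L 2)) O) (L 2)) (L 2)) (L 2)))) (C (C (C
    (C (C (B (C (B (C (L 2) (B (C (L 2) (B (C (L 2) (B (C (B (B (L 7) (L 7)) (L 2)) (B (B (L 1) (B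
    (L 7) (L 14))) (B (B (L 14) (L 6)) (L 6)))) (B (L 6) (L 2)))) (L 2))) (L 2))) (L 2)) (B (C (B
    (C (B (C (B (L 1) (L 6)) (L 1)) (B (L 6) (L 6))) (L 1)) (B (L 6) (L 6))) (L 1)) (C (B (L 6) (L
    2)) (B (L 6) (C (L 2) (B (L 6) (C (L 2) (B (L 6) (L 2))))))))) (L 2)) (B (C (B (L 1) (C (B (L
    1) (C (B (L 1) (C (B (L 6) (B (L 6) (L 10))) (L 1))) (L 1))) (L 1))) (L 1)) (C (B (B (C (B (B
    (B (L 10) (L 5)) (L 5)) (L 5)) (L 1)) O) O) (B (L 1) O)))) (L 1)) (L 1)) (L 1)) (L 1))) = true := by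
  decide +kernel

theorem c3_7 : cf false 3 7 10 64 144 40
    (C (C O (C (C O (B (C O (L 3)) O)) (C (C (C (C (B (C (L 3) (C (L 3) (B (C (L 3) (C (L 3) (B (C
    (L 3) (B (B (L 9) (L 9)) (B (B (L 9) (L 9)) (C (L 3) (C (B (C (C (B (L 9) (L 3)) (B (B (L 2) (L
    9)) (B (L 16) (L 8)))) (L 2)) (L 8)) (L 2)))))) (C (L 3) (B (C (L 3) (B (B (L 8) (L 8)) (L 8)))
    (C (L 3) (C (L 3) (B (L 8) (L 3))))))))) O))) O) (B (C (C (B (C (C (B (L 2) (C (B (C (C (B (L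
    2) (L 2)) (L 2)) (L 2)) (B (L 8) (L 8))) (L 2))) (L 2)) (L 2)) O) (L 2)) (L 2)) O)) (C (L 2) (L
    2))) (L 2)) (L 2)))) (C (C (C (C (C (B (C (L 2) (B (C (L 2) (B (B (B (B (C (B (B (C (L 7) (L
    14)) (C (L 2) (C (B (L 14) (L 6)) (L 1)))) (C (L 2) (L 6))) (L 1)) (C (B (L 6) (L 6)) (L 1)))
    (B (L 6) (L 6))) (B (L 6) (L 6))) (C (L 2) (B (L 6) (L 2))))) (L 2))) (L 2)) (B (C (B (C (B (L
    1) (B (L 6) (L 6))) (L 1)) (B (B (L 6) (L 6)) (B (L 6) (L 6)))) (B (L 1) (C (B (L 1) (C (B (L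
    1) (L 6)) (L 1))) (L 1)))) (C (L 2) (B (B (C (B (B (L 6) (B (L 6) (C (L 6) (L 10)))) (C (L 2)
    (B (B (L 10) (L 10)) (L 5)))) (L 1)) (B (B (L 5) O) O)) O)))) (C (B (L 1) (C (B (L 1) O) (L
    1))) (L 1))) (L 1)) (L 1)) (L 1))) = true := by
  decide +kernel

theorem c3_8 : cf false 3 8 10 64 140 40
    (C (C O (C (C O (B (C O (L 3)) O)) (C (C (C (C (L 3) (C (B (C (L 3) (C (L 3) (L 3))) O) (B (C
    (C (B (C (C (L 3) (B (L 3) (L 3))) (C (B (B (B (L 9) (L 9)) (B (B (L 9) (L 9)) (C (C (L 3) (C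
    (L 3) (C (L 3) (B (B (L 9) (L 9)) (B (B (L 16) (L 8)) (L 8)))))) (L 2)))) (B (B (B (L 8) (L 8))
    (L 8)) (B (L 8) (L 8)))) (B (L 2) (L 2)))) O) (B (L 2) (L 2))) (L 2)) O))) (C (C (B (L 2) O) (L
    2)) (L 2))) (L 2)) (L 2)))) (C (C (C (C (C (L 2) (B (C (B (B (C (B (B (B (C (B (C (L 2) (L 6))
    (L 6)) (L 1)) (L 6)) (L 6)) (L 6)) (L 1)) (B (L 6) (L 6))) (C (L 2) (B (L 6) (L 2)))) (B (L 1)
    (C (B (L 6) (L 6)) (L 1)))) (C (L 2) (B (C (B (C (L 2) (B (L 6) (L 2))) (L 2)) (B (C (B (L 6)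
    (B (L 6) (L 6))) (L 1)) (C (B (C (L 2) (B (B (L 6) (L 10)) (C (L 2) (B (L 5) O)))) O) (B (C (B
    (L 1) (L 5)) (L 1)) O)))) O)))) (C (B (L 1) (C (B (L 1) O) (L 1))) (L 1))) (L 1)) (L 1)) (L
    1))) = true := by
  decide +kernel

theorem c3_9 : cf false 3 9 10 64 192 40
    (C (C O (C (C O (C O (L 3))) (C (C (C (B (L 3) O) (B (C (B (C (B (B (B (L 9) (L 9)) (B (B (L 9)
    (C (L 3) (L 9))) (C (L 3) (C (B (L 9) (C (L 3) (B (B (L 9) (L 9)) (B (L 16) (L 16))))) (L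
    2))))) (C (L 3) (B (C (B (C (L 3) (B (C (L 3) (B (L 8) (L 3))) (L 3))) (L 3)) (B (B (B (L 8) (L
    8)) (L 8)) (L 8))) (L 3)))) (B (L 2) (C (B (C (B (L 2) (L 8)) (L 2)) (B (L 8) (L 8))) (L 2))))
    (C (L 3) (B (B (B (L 8) (L 8)) O) O))) (B (L 2) (C (B (L 2) O) (L 2)))) O)) (C (B (L 2) O) (L
    2))) (L 2)))) (C (C (C (C (B (C (L 2) (B (B (B (C (C (L 2) (B (C (L 6) (L 1)) (L 6))) (L 1)) (C
    (C (L 2) (L 6)) (L 6))) (B (C (L 2) (L 6)) (C (L 2) (L 6)))) (C (L 2) (B (L 6) (L 2))))) (L 2))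
    (B (C (B (L 1) (C (B (L 6) (L 6)) (L 1))) (L 1)) (B (C (C (B (L 6) (L 2)) (B (B (L 6) (L 6)) (B
    (C (L 6) (B (L 6) (L 6))) O))) (L 1)) O))) (L 1)) (L 1)) (L 1))) = true := by
  decide +kernel

theorem c3_10 : cf false 3 10 10 64 136 41
    (C (C O (C (C O (C O (L 3))) (C (C (C (C (L 3) (L 3)) (C (C (C (B (L 3) O) (B (C (L 3) (B (C (C
    (L 3) (L 3)) (C (B (C (L 3) (B (L 3) (C (L 3) (B (L 9) (B (L 9) (B (L 9) (L 9))))))) (C (B (L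
    3) (C (L 3) (B (L 3) (L 8)))) (B (B (B (C (L 3) (C (B (B (L 9) (L 16)) (L 8)) (L 2))) (L 8)) (L
    8)) (B (L 8) (L 8))))) (B (C (B (B (L 9) (L 9)) (C (B (L 9) (L 2)) (L 2))) (L 2)) (L 2)))) (B
    (B (L 8) O) O))) O)) (C (B (C (B (L 2) (L 2)) (L 2)) O) (L 2))) (L 2))) (L 2)) (L 2)))) (C (C
    (C (C (C (L 2) (C (B (C (L 2) (B (C (L 2) (B (C (L 2) (B (B (L 6) (L 2)) (L 2))) (L 2))) (L
    2))) (L 2)) (B (B (C (B (C (B (B (L 6) (L 6)) (L 6)) (L 1)) (B (L 6) (L 6))) (L 1)) (B (L 6) (L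
    6))) (C (L 2) (B (C (L 2) (B (L 6) (L 2))) O))))) (C (C (B (L 1) (C (B (B (L 6) (B (L 6) (B (L
    6) O))) O) (B (L 1) O))) (L 1)) (L 1))) (L 1)) (L 1)) (L 1))) = true := by
  decide +kernel

theorem c3_11 : cf false 3 11 10 64 140 41
    (C (C O (C (C O (C O (L 3))) (C (C (C (L 3) (C (C (L 3) (C (B (L 3) O) (B (C (C (B (L 3) (L 3))
    (B (C (B (B (B (L 9) (L 9)) (B (L 9) (B (L 9) (L 9)))) (C (C (L 3) (B (C (L 3) (B (L 3) (L 3)))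
    (L 3))) (C (B (C (B (C (B (B (L 9) (B (L 9) (L 16))) (B (L 8) (L 8))) (B (L 2) (B (L 2) (L
    8)))) (B (L 8) (L 8))) (B (L 2) (B (L 2) (L 8)))) (B (L 8) (L 8))) (B (L 2) (C (B (L 2) (L 8))
    (L 2)))))) (B (L 2) (L 2))) (B (B (L 8) (L 8)) O))) (C (B (L 2) (L 2)) (L 2))) O))) (C (C (B (L
    2) O) (L 2)) (L 2)))) (L 2)) (L 2)))) (C (C (C (C (C (L 2) (C (L 2) (B (C (B (C (L 2) (B (B (B
    (L 6) (L 6)) (L 6)) (L 6))) (L 2)) (B (C (B (L 1) (L 6)) (L 1)) (B (L 6) (L 6)))) (L 2)))) (C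
    (C (B (C (B (L 1) (C (B (L 1) (L 6)) (L 1))) (L 1)) (C (B (B (L 6) (L 6)) O) (B (C (B (L 1) (L
    6)) (L 1)) O))) (B (L 1) (C (B (L 1) O) (L 1)))) (L 1))) (L 1)) (L 1)) (L 1))) = true := by
  decide +kernel

theorem c3_12 : cf false 3 12 10 64 168 41
    (C (C O (C (C O (C O (L 3))) (C (C (C (L 3) (C (L 3) (B (C (B (C (B (C (B (L 9) (L 3)) (B (L 9)
    (B (L 9) (B (L 9) (L 9))))) (C (L 3) (B (C (L 3) (B (C (L 3) (B (L 9) (L 3))) (L 3))) (L 3))))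
    (B (L 2) (C (B (C (B (C (B (L 9) (B (B (L 9) (L 16)) (B (L 16) (L 8)))) (L 2)) (B (B (L 8) (L
    8)) (L 8))) (L 2)) (B (L 8) (L 8))) (L 2)))) (C (L 3) (B (B (B (L 8) (L 8)) (L 8)) O))) (B (L
    2) (C (B (L 2) O) (L 2)))) O))) (C (C (B (L 2) O) (L 2)) (L 2))) (L 2)))) (C (C (C (C (C (L 2)
    (B (C (L 2) (B (C (L 2) (B (B (B (L 6) (L 6)) (L 6)) (B (L 6) (L 2)))) (L 2))) (L 2))) (C (B (C
    (B (C (B (L 1) (L 6)) (L 1)) (B (L 6) (L 6))) (L 1)) (C (B (C (L 2) (B (L 6) (L 2))) O) (B (B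
    (L 6) (L 6)) O))) (B (L 1) (C (B (L 1) O) (L 1))))) (L 1)) (L 1)) (L 1))) = true := by
  decide +kernel

theorem c3_13 : cf false 3 13 10 64 136 41
    (C (C O (C (C O (C O (L 3))) (C (C (C (L 3) (C (L 3) (C (C (C (L 3) (B (L 3) O)) (C (B (C (L 3)
    (B (C (L 3) (B (B (L 9) (B (L 9) (L 9))) (C (C (L 3) (B (C (L 3) (C (B (L 3) (B (B (B (L 3) (L
    8)) (L 8)) (L 8))) (B (B (L 9) (B (L 9) (L 9))) (B (B (B (L 16) (L 8)) (L 2)) (L 2))))) (B (L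
    8) (L 8)))) (C (C (B (C (B (L 2) (L 2)) (L 2)) (L 2)) (L 2)) (L 2))))) (C (C (L 3) (B (L 3) (L
    3))) (C (B (B (L 8) (L 8)) (B (L 8) O)) (L 2))))) O) (B (C (C (B (L 2) (L 2)) (L 2)) (L 2))
    O))) (L 2)))) (L 2)) (L 2)))) (C (C (C (C (C (L 2) (C (L 2) (B (C (L 2) (B (C (L 2) (B (B (L 6)
    (L 6)) (L 6))) (L 2))) (L 2)))) (C (C (B (C (B (C (B (L 1) (L 6)) (L 1)) (B (L 6) (L 6))) (L
    1)) (C (B (C (L 2) (B (L 6) (L 2))) O) (B (B (L 6) (L 6)) O))) (B (L 1) (C (B (L 1) O) (L 1))))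
    (L 1))) (L 1)) (L 1)) (L 1))) = true := by
  decide +kernel

theorem c3_14 : cf false 3 14 10 64 176 42
    (C (C O (C (C O (C O (L 3))) (C (C (C (L 3) (C (L 3) (B (C (L 3) (B (C (B (B (L 9) (B (L 9) (L
    9))) (C (L 3) (B (C (L 3) (B (B (L 9) (L 9)) (L 3))) (L 3)))) (B (L 2) (C (B (C (B (C (B (L 2)
    (L 9)) (L 2)) (C (B (B (L 9) (B (L 16) (L 16))) (C (L 3) (B (L 8) (L 3)))) (B (L 2) (B (L 8) (L
    8))))) (L 2)) (B (B (L 8) (L 8)) (L 8))) (L 2)))) (C (L 3) (B (B (B (L 8) (L 8)) (L 8)) (L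
    3))))) O))) (C (C (B (C (B (L 2) (C (B (C (B (L 2) (L 8)) (L 2)) (B (L 8) O)) (L 2))) (L 2)) O)
    (L 2)) (L 2))) (L 2)))) (C (C (C (C (C (L 2) (B (C (L 2) (B (C (L 2) (B (C (L 2) (B (L 6) (L
    2))) (L 2))) (L 2))) (L 2))) (C (B (C (B (C (B (B (L 6) (L 6)) (L 6)) (B (L 1) (L 6))) (B (L 6)
    (L 6))) (B (L 1) (C (B (L 1) (L 6)) (L 1)))) (C (L 2) (B (B (L 6) (L 6)) O))) (B (L 1) (C (B (L
    1) O) (L 1))))) (L 1)) (L 1)) (L 1))) = true := by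
  decide +kernel

theorem c3_15 : cf false 3 15 10 64 136 42
    (C (C O (C (C O (C O (L 3))) (C (C (C (L 3) (C (L 3) (C (L 3) (C (C (L 3) (B (C (L 3) (L 3))
    O)) (C (B (C (C (B (C (L 3) (C (B (L 3) (C (L 3) (B (L 3) (C (L 3) (B (B (L 3) (L 8)) (L
    8)))))) (B (B (L 9) (B (L 9) (L 9))) (C (B (C (B (L 9) (B (L 9) (B (B (L 9) (L 16)) (L 8)))) (L
    2)) (C (B (B (L 8) (L 8)) (L 2)) (L 2))) (L 2))))) (C (L 3) (B (B (B (L 8) (L 8)) (L 8)) (B (L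
    8) O)))) (B (C (C (B (L 2) (L 2)) (L 2)) (L 2)) (L 2))) (L 2)) O) (L 2)))))) (C (C (L 2) (L 2))
    (L 2))) (L 2)))) (C (C (C (C (L 2) (C (C (B (B (C (B (B (L 6) (L 6)) (L 6)) (L 1)) (B (L 6) (L
    6))) (C (L 2) (B (B (L 6) O) O))) (B (L 1) (C (B (B (L 1) O) O) (L 1)))) (L 1))) (L 1)) (L 1))
    (L 1))) = true := by
  decide +kernel

theorem c3_16 : cf false 3 16 10 64 112 42
    (C (C O (C O (C (C (C (L 3) (C (L 3) (C (B (L 3) O) (B (C (B (L 3) (C (L 3) (B (C (L 3) (B (L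
    3) (L 8))) (B (L 8) (L 8))))) (B (B (B (L 9) (B (L 9) (L 9))) (C (C (B (L 3) (C (L 3) (B (L 3)
    (L 8)))) (B (B (L 9) (B (L 9) (B (L 9) (B (L 9) (L 16))))) (C (B (B (B (B (L 16) (L 8)) (L 8))
    (L 8)) (L 8)) (L 2)))) (L 2))) (C (B (C (B (B (L 8) (L 8)) (L 8)) (L 2)) (L 2)) (L 2)))) (C O
    (L 2)))))) (C (C (C (B (L 2) (L 2)) (L 2)) (L 2)) (L 2))) (L 2)))) (C (C (C (C (L 2) (C (C (B
    (C (C (L 2) (B (B (B (L 6) (L 6)) (L 6)) (B (L 6) (L 6)))) (C (B (L 1) (C (B (L 1) (L 6)) (L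
    1))) (L 1))) (C (L 2) (B (B (L 6) O) O))) (L 1)) (L 1))) (L 1)) (L 1)) (L 1))) = true := by
  decide +kernel

theorem c3_17 : cf false 3 17 10 64 112 42
    (C (C O (C O (C (C (C (L 3) (C (L 3) (C (B (L 3) O) (B (C (L 3) (B (C (L 3) (B (L 3) (C (L 3)
    (B (C (L 3) (B (L 3) (C (L 3) (B (L 3) (L 9))))) (C (B (L 3) (B (L 8) (L 8))) (B (B (C (L 3) (B
    (L 9) (B (L 16) (L 16)))) (B (L 8) (L 8))) (B (L 8) (L 2)))))))) (B (C (L 3) (B (B (L 8) (L 8))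
    (L 8))) (B (L 8) (L 8))))) (C O (B (C O (L 2)) O)))))) (C (C (C (B (C (B (C (B (B (L 9) (B (L
    9) (L 9))) (C (B (C (B (L 9) (B (L 9) (L 9))) (L 2)) (L 2)) (L 2))) (L 2)) (L 2)) (L 2)) (L 2))
    (L 2)) (L 2)) (L 2))) (L 2)))) (C (C (C (C (L 2) (C (C (C (B (C (L 2) (B (C (L 2) (B (B (L 6)
    (L 6)) (L 6))) (L 2))) (L 2)) (B (C (B (C (B (L 1) (L 6)) (L 1)) (B (L 6) (L 6))) (L 1)) (B (B
    (L 6) O) O))) (L 1)) (L 1))) (L 1)) (L 1)) (L 1))) = true := by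
  decide +kernel

theorem c3_18 : cf false 3 18 10 64 136 42
    (C (C O (C O (C (C (C (L 3) (L 3)) (C (C (C (C (C (L 3) (C (B (L 3) (L 3)) (B (C (L 3) (C (B (L
    3) (L 3)) (B (C (C (B (L 3) (L 3)) (B (B (L 9) (L 9)) (C (C (B (B (L 3) (L 3)) (B (L 3) (L 3)))
    (B (B (L 9) (L 9)) (B (B (L 9) (B (B (L 9) (L 16)) (L 8))) (B (L 8) (L 8))))) (L 2)))) (C (B (L
    2) (L 2)) (L 2))) (B (B (B (L 8) (L 8)) (L 8)) (B (L 8) (L 8)))))) (C (L 3) (B (C (L 3) (C (B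
    (C (L 3) (B (L 3) O)) O) (B (B (L 8) O) O))) O))))) (C (B (C (C (C (B (L 2) (L 2)) (L 2)) (L
    2)) (L 2)) (C (C (B (C (C (B (L 2) O) (L 2)) (L 2)) O) (L 2)) (L 2))) (L 2))) (L 2)) (L 2)) (L
    2))) (L 2)))) (C (C (C (C (L 2) (C (B (C (C (L 2) (B (B (B (L 6) (L 6)) (L 6)) (B (L 6) (L
    6)))) (C (B (L 1) (C (B (L 1) (L 6)) (L 1))) (L 1))) (C (L 2) (B (B (L 6) O) O))) (L 1))) (L
    1)) (L 1)) (L 1))) = true := by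
  decide +kernel

theorem c3_19 : cf false 3 19 10 64 192 43
    (C (C O (C O (C (C (L 3) (C (C (B (C (B (C (L 3) (B (B (L 9) (L 9)) (L 3))) (L 3)) (B (C (B (C
    (B (L 2) (L 9)) (L 2)) (C (B (B (L 9) (L 9)) (C (L 3) (B (B (L 9) (B (L 9) (B (L 9) (L 16))))
    (C (L 3) (B (C (L 3) (B (B (L 16) (L 3)) (L 3))) (L 3)))))) (B (L 2) (C (B (L 2) (B (B (C (B (L
    16) (L 8)) (L 2)) (L 8)) (L 8))) (L 2))))) (L 2)) (C (B (C (L 3) (B (B (L 8) (L 8)) (L 8))) (L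
    3)) (B (C (B (L 2) (L 8)) (L 2)) (B (L 8) (L 8)))))) O) (B (L 2) O)) (L 2))) (L 2)))) (C (C (C
    (C (L 2) (C (B (B (B (C (C (L 2) (B (L 6) (L 6))) (L 1)) (C (C (L 2) (L 6)) (L 6))) (B (C (L 2)
    (L 6)) (C (L 2) (L 6)))) O) (B (L 1) O))) (L 1)) (L 1)) (L 1))) = true := by
  decide +kernel

theorem c3_20 : cf false 3 20 10 64 136 43
    (C (C O (C O (C (C (L 3) (C (C (C (C (L 3) (C (L 3) (C (B (L 3) O) (B (C (C (L 3) (B (L 3) (L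
    3))) (C (B (B (B (L 9) (L 9)) (B (B (L 9) (L 9)) (C (L 3) (C (C (C (L 3) (B (B (L 9) (L 9)) (B
    (B (L 9) (L 16)) (L 8)))) (L 2)) (L 2))))) (C (B (L 3) (L 3)) (B (C (B (B (L 8) (L 8)) (L 8))
    (C (B (L 2) (L 2)) (L 2))) (B (L 8) (L 8))))) (B (L 2) (C (B (L 2) (L 2)) (L 2))))) O)))) (C (C
    (C (B (L 2) O) (L 2)) (L 2)) (L 2))) (L 2)) (L 2))) (L 2)))) (C (C (C (C (L 2) (C (C (C (L 2)
    (B (C (B (C (L 2) (B (L 6) (L 2))) (L 2)) (B (B (L 6) (L 6)) (B (L 6) (L 2)))) O)) (C (B (C (B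
    (L 1) (B (L 6) (L 6))) (L 1)) O) (B (L 1) O))) (L 1))) (L 1)) (L 1)) (L 1))) = true := by
  decide +kernel

theorem c3_21 : cf false 3 21 10 64 136 43
    (C (C O (C O (C (C (L 3) (C (C (C (L 3) (C (C (C (B (L 3) O) (B (C (C (B (C (L 3) (C (L 3) (B
    (L 3) (L 3)))) (L 3)) (B (C (C (B (B (L 9) (L 9)) (C (B (L 3) (L 3)) (B (B (L 9) (L 9)) (B (L
    9) (B (L 9) (B (L 16) (L 8))))))) (B (L 2) (C (B (L 2) (L 2)) (L 2)))) (L 2)) (C (B (B (B (B (L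
    8) (L 8)) (L 8)) (L 8)) (B (L 8) O)) (B (L 2) (C (C (B (L 2) O) (L 2)) (L 2)))))) (C (L 2) (L
    2))) O)) (C (B (L 2) O) (L 2))) (L 2))) (L 2)) (L 2))) (L 2)))) (C (C (C (C (L 2) (C (C (C (L
    2) (B (C (L 2) (B (B (L 6) (L 6)) (L 2))) O)) (C (B (C (B (C (B (L 1) (L 6)) (L 1)) (B (L 6) (L
    6))) (B (L 1) (L 6))) O) (B (L 1) O))) (L 1))) (L 1)) (L 1)) (L 1))) = true := by
  decide +kernel

theorem c3_22 : cf false 3 22 10 64 136 43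
    (C (C O (C O (C (C (L 3) (C (C (C (L 3) (C (C (L 3) (C (B (C (L 3) (C (B (L 3) (L 3)) (B (C (B
    (B (L 9) (L 9)) (B (L 9) (B (L 9) (B (L 9) (B (L 9) (B (L 9) (L 9))))))) (L 2)) (B (C (C (L 3)
    (B (C (B (B (B (L 16) (L 8)) (L 8)) (L 8)) (L 2)) (L 8))) (L 2)) (B (L 8) O))))) O) (B (C (C (B
    (L 2) (L 2)) (L 2)) (L 2)) O))) (L 2))) (L 2)) (L 2))) (L 2)))) (C (C (C (C (L 2) (C (C (C (L
    2) (B (C (L 2) (B (C (L 2) (B (L 6) (L 2))) (L 2))) O)) (C (B (C (B (B (L 6) (L 6)) (B (L 6) (L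
    6))) (B (L 1) (L 6))) O) (B (L 1) O))) (L 1))) (L 1)) (L 1)) (L 1))) = true := by
  decide +kernel

theorem c3_23 : cf false 3 23 10 64 144 43
    (C (C O (C O (C (C (L 3) (C (C (C (L 3) (C (C (L 3) (B (L 3) O)) (C (B (C (B (B (B (L 9) (L 9))
    (B (L 9) (B (L 9) (B (L 9) (L 9))))) (C (L 3) (B (C (L 3) (B (B (C (B (B (L 9) (L 16)) (B (L 8)
    (L 8))) (L 2)) (L 8)) (B (L 8) (L 3)))) (L 3)))) (B (L 2) (C (B (C (B (L 2) (B (L 8) (L 8))) (L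
    2)) (B (L 8) O)) (L 2)))) O) (B (L 2) O)))) (L 2)) (L 2))) (L 2)))) (C (C (C (C (L 2) (C (C (C
    (L 2) (B (C (L 2) (B (C (L 2) (B (L 6) (L 2))) (L 2))) O)) (B (C (B (B (B (L 6) (L 6)) (L 6))
    (B (L 6) (L 6))) (L 1)) O)) (L 1))) (L 1)) (L 1)) (L 1))) = true := by
  decide +kernel

theorem c3_24 : cf false 3 24 10 64 168 43
    (C (C O (C O (C (C (L 3) (C (C (C (L 3) (B (C (L 3) (B (C (B (B (L 9) (L 9)) (L 3)) (B (B (L 2)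
    (L 9)) (B (L 9) (B (L 9) (B (L 9) (L 9)))))) (C (L 3) (B (C (L 3) (B (C (L 3) (B (B (L 9) (B (B
    (L 9) (L 16)) (B (L 16) (L 8)))) (C (L 3) (B (L 8) (L 3))))) (L 3))) (L 3))))) O)) (C (B (C (B
    (L 2) (C (B (C (B (C (B (L 2) (B (L 8) (L 8))) (L 2)) (B (L 8) (L 8))) (L 2)) (B (L 8) O)) (L
    2))) (L 2)) O) (L 2))) (L 2))) (L 2)))) (C (C (C (C (L 2) (C (C (L 2) (B (B (C (B (L 6) (L 6))
    (L 1)) (B (L 6) (L 6))) O)) (C (B (L 1) O) (L 1)))) (L 1)) (L 1)) (L 1))) = true := by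
  decide +kernel

theorem c3_25 : cf false 3 25 10 64 176 43
    (C (C O (C O (C (C (L 3) (C (C (C (L 3) (B (C (L 3) (B (C (L 3) (B (B (L 9) (L 9)) (C (L 3) (B
    (L 9) (L 3))))) (L 3))) O)) (C (B (C (B (C (B (L 2) (B (L 9) (B (L 9) (L 9)))) (L 2)) (C (B (C
    (L 3) (B (C (B (B (L 9) (B (L 9) (L 9))) (L 3)) (B (C (B (L 2) (B (L 2) (L 16))) (L 2)) (B (B
    (L 16) (L 8)) (L 8)))) (C (L 3) (B (L 8) (L 3))))) O) (B (C (B (L 2) (B (L 8) (L 8))) (L 2))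
    O))) (L 2)) O) (B (L 2) O))) (L 2))) (L 2)))) (C (C (C (C (L 2) (C (C (L 2) (B (B (B (C (L 6)
    (L 1)) (C (L 6) (L 1))) (B (L 6) O)) O)) (C (B (L 1) O) (L 1)))) (L 1)) (L 1)) (L 1))) = true := by
  decide +kernel

theorem c3_26 : cf false 3 26 10 64 168 43
    (C (C O (C O (C (C (L 3) (C (C (C (L 3) (B (C (L 3) (B (C (L 3) (B (B (L 9) (L 3)) (L 3))) (L
    3))) O)) (C (B (C (B (C (B (B (L 9) (L 9)) (B (L 9) (B (L 9) (L 9)))) (L 2)) (C (B (C (L 3) (B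
    (C (L 3) (B (B (L 9) (L 9)) (L 3))) (L 3))) O) (B (C (B (C (B (C (B (L 2) (L 9)) (L 2)) (C (B
    (B (L 9) (L 16)) (B (L 8) (L 8))) (B (L 2) (L 8)))) (L 2)) (B (B (L 8) (L 8)) (L 8))) (L 2))
    O))) (L 2)) O) (B (L 2) O))) (L 2))) (L 2)))) (C (C (C (C (L 2) (C (C (L 2) (B (B (B (C (B (L
    6) (L 6)) (L 1)) (C (L 6) (L 1))) (B (L 6) O)) O)) (C (B (L 1) O) (L 1)))) (L 1)) (L 1)) (L
    1))) = true := by
  decide +kernel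

theorem c3_27 : cf false 3 27 10 64 176 44
    (C (C O (C O (C (C (L 3) (C (C (L 3) (C (B (C (B (B (B (L 9) (L 9)) (B (L 9) (B (L 9) (L 9))))
    (C (L 3) (B (C (L 3) (B (B (L 9) (B (B (L 9) (L 9)) (C (L 3) (B (L 16) (L 16))))) (C (L 3) (B
    (B (L 8) (L 8)) O)))) O))) (B (L 2) (C (B (C (B (L 2) (C (B (B (L 2) (L 8)) O) (L 2))) (L 2))
    O) (L 2)))) O) (B (L 2) O))) (L 2))) (L 2)))) (C (C (C (C (L 2) (B (C (C (L 2) (B (B (C (B (L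
    6) (L 6)) (L 1)) (C (L 6) (L 6))) (B (L 6) O))) (L 1)) O)) (L 1)) (L 1)) (L 1))) = true := by
  decide +kernel

theorem c3_28 : cf false 3 28 10 64 152 44
    (C (C O (C O (C (C (L 3) (C (C (L 3) (C (C (B (C (B (C (L 3) (B (L 9) (L 3))) (L 3)) (B (C (B
    (B (L 2) (L 9)) (B (L 9) (L 9))) (L 2)) (C (B (C (L 3) (B (B (L 9) (B (L 9) (B (L 9) (L 9))))
    (C (L 3) (B (C (L 3) (B (B (L 16) (L 8)) O)) O)))) O) (B (C (B (L 2) (C (B (C (B (L 2) O) (L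
    2)) O) (L 2))) (L 2)) O)))) O) (B (L 2) O)) (L 2))) (L 2))) (L 2)))) (C (C (C (C (L 2) (C (C (L
    2) (C (B (C (L 2) (B (B (L 6) (L 6)) (L 2))) O) (B (C (B (C (B (L 1) (L 6)) (L 1)) (L 6)) (L
    1)) O))) (C (C (B (L 1) O) (L 1)) (L 1)))) (L 1)) (L 1)) (L 1))) = true := by
  decide +kernel

theorem c3_29 : cf false 3 29 10 64 136 42
    (C (C O (C O (C (C (L 3) (C (C (L 3) (C (C (C (L 3) (C (C (B (L 3) O) (B (C (B (B (L 9) (B (L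
    9) (L 9))) (C (L 3) (B (C (C (B (B (L 9) (L 3)) O) (B (B (L 9) (L 9)) O)) (C (B (L 2) O) (L
    2))) O))) (B (L 2) (C (B (L 2) O) (L 2)))) O)) (B (L 2) O))) (L 2)) (L 2))) (L 2))) (L 2)))) (C
    (C (C (C (L 2) (C (C (L 2) (C (B (C (L 2) (B (B (L 6) (L 6)) (L 6))) O) (B (C (B (L 1) (L 6))
    (L 1)) O))) (L 1))) (L 1)) (L 1)) (L 1))) = true := by
  decide +kernel

theorem cg_3 : cg 3 30 12 64 80 208 46
    (C (C O (C O (C (C (C (L 3) (L 3)) (C (C (L 3) (B (L 3) O)) (C (B (C (B (A (C (L 3) (A (L 3) (B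
    (L 3) O))) (C (B (A (L 3) (L 3)) (L 3)) (B (A (C (L 3) (B (A (B (L 9) (L 9)) (B (L 9) (L 9)))
    (A (L 3) (B (L 9) (L 9))))) (B (A (B (L 9) (L 9)) (B (L 9) (L 9))) (A (B (L 9) (C (L 3) (L 9)))
    (B (L 9) (C (L 9) (L 9)))))) (A (L 3) (C (L 3) (B (C (A (L 3) (B (L 9) (L 9))) (A (B (L 9) (A
    (L 3) (L 9))) (B (L 9) (A (L 9) (L 9))))) (C (L 3) (A (L 3) (B (A (L 9) (L 9)) (C (L 3) (A (L
    3) (L 9)))))))))))) (A O (C (L 3) (B (A O (L 3)) O)))) (B (A (C (A (B (C (L 3) (A (B (C (L 3)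
    (A (L 3) (L 9))) O) (B (B (L 9) O) O))) O) (B (B (A (B (L 9) (A O (L 9))) (B (L 9) (C (L 9) (L
    9)))) (A O (B (A O (L 9)) O))) O)) (A (B (C (B (A (B (L 9) O) (B (L 9) O)) O) (A (B (C (A (L 9)
    (L 2)) (L 2)) O) (L 2))) O) (B (C (A (B (L 2) O) (L 2)) (L 2)) O))) (C (B (A (C (B (A (B (L 9)
    (L 9)) (B (L 2) (L 9))) (A (B (L 9) (L 9)) (B (L 9) (L 9)))) (A (B (L 2) (C (A (L 9) (L 2)) (L
    2))) (L 2))) (C (B (L 2) (A (C (B (L 2) (L 9)) (L 2)) (L 2))) (L 2))) (A (B (A O (B (C (A (L 9)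
    (L 9)) (L 2)) (A O (C (L 9) (L 2))))) O) (C (B (A (B (A (L 9) (L 9)) (A (L 9) (L 9))) (C (B (L
    2) (A (L 9) (L 2))) (L 2))) (A (B (A (L 9) (L 9)) (A O (B (L 9) O))) (B (A (L 9) (L 9)) (A (B
    (L 9) (L 9)) (B (L 9) (L 9)))))) (B (L 2) (A (C (B (L 2) (A O (L 2))) (L 2)) (L 2)))))) (B (L
    2) (A (C (A O (L 2)) (L 2)) (L 2))))) (A O (C (B (A O (C (B (A O (C (B (C (A (L 3) (B (L 9) (L
    3))) (A (B (L 9) O) (B (L 9) (L 9)))) (C (L 3) (A O (B (L 9) (L 3))))) (B (A (B (L 9) O) (B (L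
    9) (A (L 9) (L 9)))) (A O (B (A (L 9) (L 9)) (A O (B (L 9) O))))))) O) (B (A O (C (B (L 2) (C
    (A O (L 2)) (L 2))) (L 2))) O))) O) (B (A O (C (B (L 2) O) (L 2))) O))))) O) (B (C (A (B (C (A
    (B (L 2) O) (L 2)) (L 2)) O) (B (L 2) (C (B (L 2) O) (L 2)))) (A (L 2) (L 2))) O)))) (C (C (C
    (B (L 2) O) (L 2)) (L 2)) (L 2))))) (C (C (C (C (L 2) (C (L 2) (C (B (C (B (C (L 2) (B (A (L 2)
    (C (L 2) (B (A (L 2) (C (B (A (L 2) (L 2)) (L 2)) (A (L 6) (L 6)))) (L 2)))) (L 2))) (L 2)) (B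
    (A (C (B (C (B (A (L 2) (C (L 2) (B (A (L 6) (L 6)) (L 2)))) (L 2)) (B (A (C (B (A (L 2) (L 6))
    O) (A (L 6) (L 6))) (A (L 6) (L 6))) (A O (A O (L 6))))) O) (B (C (B (A (A (B (L 6) O) (L 6))
    (C (B (L 1) (A (L 6) (L 1))) (L 1))) (A O (A O (L 6)))) (B (L 1) (A O (L 1)))) O)) (B (C (A (B
    (A (B (L 6) (L 6)) (B (L 6) (L 6))) (A (L 6) (L 6))) (B (A (L 6) (L 6)) (A (L 6) (L 6)))) (C (B
    (L 1) (A (C (A (L 6) (L 1)) (L 1)) (L 1))) (L 1))) (A (B (A O (C (L 6) (L 6))) O) (B (A (L 6)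
    (L 6)) (A (L 6) (L 6)))))) (C (L 2) (B (A O (C (B (A O (L 6)) O) (A O (B (L 6) O)))) O)))) O)
    (B (C (B (C (B (L 1) (A O (L 1))) (L 1)) (C (B (A O (C (A O (B (L 6) O)) (B (L 1) O))) O) (B (A
    O (L 1)) O))) (B (L 1) (C (B (L 1) O) (L 1)))) O)))) (C (C (C (B (L 1) O) (L 1)) (L 1)) (L 1)))
    (L 1)) (L 1))) = true := by
  decide +kernel

end Pool.Agent.BX
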