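import Mathlib
import Pool.Agent.BX.Real

set_option autoImplicit false
set_option maxRecDepth 100000

namespace Pool.Agent.BX

open Tr

theorem c4_3 : cf true 4 3 10 64 96 29
    (C (C O (C (B (C O (C O (B (C O (C O (L 2))) O))) O) (B (C (L 2) (L 2)) O))) (C (C (B (L 2) O)
    (L 1)) (L 1))) = true := by
  decide +kernel

theorem c4_4 : cf false 4 4 10 64 88 37
    (C (C O (C O (C (B (C (C O (L 2)) (L 2)) O) (L 2)))) (C (C (C (C (C (C (L 2) (C (L 2) (C (L 2)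
    (B (L 2) O)))) (C (C (C (B (C (B (C (L 2) (B (C (L 2) (B (L 2) (L 6))) (B (L 6) (L 6)))) (C (L
    2) (B (B (B (L 6) (B (B (L 6) (L 10)) (B (L 5) (L 5)))) (B (L 5) (L 5))) (B (L 5) (L 5))))) (C
    (B (B (B (L 6) (L 6)) (L 1)) (L 1)) (L 1))) O) (B (L 1) O)) (L 1)) (L 1))) (L 1)) (L 1)) (L 1))
    (L 1))) = true := by
  decide +kernel

theorem c4_5 : cf false 4 5 10 64 104 37
    (C (C O (C O (C (C O (L 2)) (L 2)))) (C (C (C (C (C (L 2) (C (L 2) (B (C (L 2) (B (B (B (L 6)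
    (L 6)) (B (L 6) (L 6))) (C (L 2) (B (C (L 2) (B (B (L 6) (L 6)) (C (L 2) (B (B (L 6) (B (L 6)
    (L 10))) (B (L 5) (L 2)))))) (L 2))))) (L 2)))) (C (C (B (C (B (L 1) (C (B (C (B (L 1) (C (B (L
    1) (B (L 5) (L 5))) (L 1))) (L 1)) (B (B (L 5) (L 5)) (L 5))) (L 1))) (L 1)) (B (B (B (L 5) O)
    O) O)) (L 1)) (L 1))) (L 1)) (L 1)) (L 1))) = true := by
  decide +kernel

theorem c4_6 : cf false 4 6 10 64 92 38
    (C (C O (C O (C (C O (C O (L 2))) (L 2)))) (C (C (C (C (L 2) (C (C (C (L 2) (B (B (B (B (L 6)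
    (L 6)) (B (L 6) (L 6))) (C (L 2) (C (C (B (B (L 6) (B (L 6) (L 6))) (C (L 2) (B (C (L 2) (B (B
    (L 10) (L 5)) (L 5))) (L 2)))) (B (L 1) (C (B (C (B (L 1) (L 5)) (L 1)) (L 5)) (B (L 1) (L
    5))))) (L 1)))) (C (L 2) (B (B (B (L 5) (L 5)) O) O)))) (C (B (L 1) (C (B (L 1) O) (L 1))) (L
    1))) (L 1))) (L 1)) (L 1)) (L 1))) = true := by
  decide +kernel

theorem c4_7 : cf false 4 7 10 64 108 38
    (C (C O (C O (C (C O (C O (L 2))) (L 2)))) (C (C (C (C (L 2) (C (C (L 2) (B (C (L 2) (B (B (B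
    (L 6) (L 6)) (L 6)) (C (L 2) (B (B (L 6) (L 6)) (C (L 2) (B (B (L 6) (B (L 6) (L 10))) (C (L 2)
    (B (B (L 5) (L 5)) (L 2))))))))) (L 2))) (C (B (C (B (L 1) (C (B (L 1) (C (B (L 1) (B (B (L 1)
    (L 5)) (L 5))) (L 1))) (L 1))) (L 1)) (C (B (B (B (L 5) (L 5)) (L 5)) O) (B (L 1) O))) (L 1))))
    (L 1)) (L 1)) (L 1))) = true := by
  decide +kernel

theorem c4_8 : cf false 4 8 10 64 84 39
    (C (C O (C O (C O (L 2)))) (C (C (C (C (L 2) (C (L 2) (C (C (C (C (C (L 2) (B (C (L 2) (B (L 2)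
    (L 2))) (C (L 2) (B (L 2) O)))) (C (B (C (B (B (L 6) (L 6)) (C (B (L 6) (B (L 6) (B (L 6) (B (L
    10) (L 5))))) (L 1))) (L 1)) (C (B (B (B (B (L 5) (L 5)) (L 5)) (L 5)) O) (B (L 1) O))) (L 1)))
    (L 1)) (L 1)) (L 1)))) (L 1)) (L 1)) (L 1))) = true := by
  decide +kernel

theorem c4_9 : cf false 4 9 10 64 112 39
    (C (C O (C O (C O (L 2)))) (C (C (C (C (L 2) (C (L 2) (C (B (C (L 2) (B (B (L 6) (L 6)) (C (L
    2) (B (L 6) (L 2))))) (L 2)) (B (C (B (L 1) (C (B (L 6) (B (L 6) (B (L 6) (L 6)))) (L 1))) (L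
    1)) (B (C (C (B (C (L 2) (B (C (B (C (L 2) (B (L 6) (L 2))) (L 2)) (B (B (L 6) (L 10)) (B (L
    10) (L 5)))) (L 2))) (L 2)) (B (C (B (C (B (L 1) (C (B (L 1) (L 5)) (L 1))) (L 1)) (L 5)) (L
    1)) (B (L 5) O))) (L 1)) O))))) (L 1)) (L 1)) (L 1))) = true := by
  decide +kernel

theorem c4_10 : cf false 4 10 10 64 84 39
    (C (C O (C O (C O (L 2)))) (C (C (C (C (L 2) (C (L 2) (C (L 2) (C (C (C (C (L 2) (C (B (L 2) (L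
    2)) (B (C (C (B (L 2) (L 2)) (B (B (L 6) (L 6)) (B (L 6) (B (L 6) (L 6))))) (C (B (B (L 6) (L
    1)) (L 1)) (L 1))) (B (B (C (C (L 2) (C (B (C (L 2) (B (L 6) (L 2))) (L 2)) (B (B (L 6) (L 6))
    (B (B (L 6) (L 10)) (L 5))))) (L 1)) (B (L 5) (L 5))) O)))) (C (C (B (L 1) (B (L 1) O)) (L 1))
    (L 1))) (L 1)) (L 1))))) (L 1)) (L 1)) (L 1))) = true := by
  decide +kernel

theorem c4_11 : cf false 4 11 10 64 80 40
    (C (C O (C O (C O (L 2)))) (C (C (C (C (L 2) (C (L 2) (C (L 2) (C (C (L 2) (C (B (L 2) (C (L 2)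
    (C (L 2) (B (L 2) O)))) (B (B (B (L 6) (L 6)) (B (L 6) (L 6))) (C (C (B (C (L 2) (B (C (L 2) (B
    (L 2) (B (L 6) (B (L 6) (L 6))))) (B (B (B (L 10) (L 5)) (L 5)) (L 5)))) O) (B (C (B (C (B (L
    6) (C (B (L 6) (L 1)) (L 1))) (L 1)) (L 1)) (L 1)) O)) (L 1))))) (L 1))))) (L 1)) (L 1)) (L
    1))) = true := by
  decide +kernel

theorem c4_12 : cf false 4 12 10 64 92 40
    (C (C O (C O (C O (L 2)))) (C (C (C (C (L 2) (C (L 2) (C (L 2) (C (L 2) (C (L 2) (B (B (B (L 6)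
    (L 6)) (B (L 6) (L 6))) (C (L 2) (B (B (B (L 6) (L 6)) (C (C (L 2) (B (C (L 2) (B (L 6) (L 2)))
    (L 2))) (C (B (C (B (L 6) (B (L 6) (L 10))) (L 1)) (B (B (L 5) (L 5)) (L 5))) (L 1))))
    O)))))))) (C (C (C (C (C (B (L 1) (C (B (L 1) O) (L 1))) (L 1)) (L 1)) (L 1)) (L 1)) (L 1))) (L
    1)) (L 1))) = true := by
  decide +kernel

theorem c4_13 : cf false 4 13 10 64 92 40
    (C (C O (C O (C O (C (L 2) (L 2))))) (C (C (C (C (L 2) (C (L 2) (L 2))) (C (C (C (C (C (B (B (B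
    (L 6) (L 6)) (B (L 6) (L 6))) (C (L 2) (B (B (L 6) (B (L 6) (C (L 2) (B (L 6) (B (L 10) (L
    10)))))) (C (L 2) (B (B (B (L 5) O) O) O))))) (B (L 1) (C (B (L 1) (C (B (C (B (L 1) O) (L 1))
    O) (L 1))) (L 1)))) (L 1)) (L 1)) (L 1)) (L 1))) (L 1)) (L 1))) = true := by
  decide +kernel

theorem cg_4 : cg 4 14 12 64 44 124 44
    (C (C O (C O (C O (C (C O (A O O)) (A (C (B (A O O) O) (L 2)) (C (L 2) (L 2))))))) (C (C (C (C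
    (A (L 2) (L 2)) (L 2)) (C (C (A (L 2) (C (L 2) (B (A (C (L 2) (A (L 2) (B (C (L 2) (A (B (C (L
    2) (B (L 6) (L 2))) (L 2)) (B (B (L 6) (L 6)) (L 6)))) (L 2)))) (C (B (A (L 2) (C (L 2) (A (C
    (L 2) (B (L 6) (L 2))) (B (L 6) (L 6))))) (L 2)) (B (B (B (A (B (L 6) (L 6)) (L 6)) (A (B (L 6)
    (L 6)) (L 6))) (B (A (L 6) (L 6)) (A (L 6) (L 6)))) (A (C (L 2) (A (B (L 6) (L 2)) (B (L 6) (L
    6)))) (B (B (L 6) (L 6)) (B (L 6) (B (L 6) (L 6)))))))) (A O (C (L 2) (B (A (L 2) (C (L 2) (B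
    (B (B (L 6) (L 6)) (B (L 6) (A (L 2) (L 6)))) (A (L 2) (C (L 2) (A (L 2) (B (L 6) (L 2))))))))
    (L 2))))))) (A (C (B (A (L 2) (C (A (L 2) (B (C (L 2) (A (L 2) (B (B (L 6) (L 6)) (L 2)))) O))
    (A (B (C (A (L 2) (B (C (L 2) (A (L 2) (L 6))) O)) (A (B (B (L 6) (L 6)) O) (B (B (L 6) (L 6))
    O))) O) (B (B (B (B (L 6) (L 6)) (B (L 6) (L 6))) (B (B (L 6) (L 6)) (B (L 6) O))) O)))) O) (B
    (A (C (A (B (C (L 2) (A (L 2) (B (C (L 2) (B (L 6) O)) O))) O) (B (C (A (B (C (L 2) (A (L 2) (L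
    6))) O) (B (B (L 6) O) O)) (B (B (B (L 6) (L 6)) O) O)) O)) (A (B (B (B (B (A (L 6) (L 6)) O)
    O) O) O) (B (C (A (B (C (A (L 6) (L 1)) (L 1)) O) (L 1)) (L 1)) O))) (C (A (B (C (A (B (B (L 6)
    (L 6)) O) (B (C (A (L 6) (L 1)) (L 1)) O)) (A (B (L 1) O) (L 1))) O) (B (C (A (L 1) (L 1)) (L
    1)) O)) (A (B (L 1) O) (L 1)))) O)) (C (B (A (C (A (B (C (A (L 2) (B (B (L 6) (L 6)) (L 2))) (B
    (B (B (L 6) (L 6)) (B (L 6) (L 6))) (B (L 6) (L 6)))) (C (L 2) (A O (B (L 6) O)))) (B (B (B (B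
    (L 6) (L 6)) (B (L 6) (L 6))) (B (B (L 6) (L 6)) (B (L 6) (L 6)))) (B (B (L 6) (L 6)) (B (B (L
    6) (L 6)) (B (L 6) O))))) (A (B (C (A (B (B (L 1) (L 6)) (B (L 6) (L 6))) (B (L 1) (L 6))) (L
    1)) (B (B (B (L 6) (L 6)) O) O)) (B (L 1) (C (A (B (L 6) O) (L 1)) (L 1))))) (C (B (A (C (A (B
    (L 1) (L 6)) (L 1)) (L 1)) (L 1)) (A (C (B (B (L 6) (L 6)) (B (L 6) (B (L 6) (L 6)))) (A (B (L
    1) (B (L 6) (L 6))) (L 1))) (C (A (B (L 1) (B (L 6) (L 6))) (L 1)) (L 1)))) (L 1))) (A O (C (B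
    (A (C (A (B (C (L 2) (A O (B (L 6) O))) O) (B (B (L 6) (L 6)) O)) (B (B (B (L 6) (A O (L 6)))
    (B (A O (L 6)) (A O (L 6)))) O)) (C (B (B (B (L 6) (L 6)) (B (A (L 6) (L 6)) (A (L 6) (L 6))))
    (B (B (A (L 6) (L 6)) (A (B (L 6) (L 6)) (B (L 6) (L 6)))) (B (A (B (L 6) O) (B (C (L 6) (L 6))
    (C (L 6) (A (L 6) (L 1))))) (A O (B (C (A (L 6) (L 6)) (A (L 6) (L 1))) (C (A (L 6) (L 6)) (A
    (B (L 6) O) (C (L 6) (L 1))))))))) (B (L 1) (A (C (A (B (B (L 1) O) O) (B (L 1) (C (A O (L 1))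
    (L 1)))) (L 1)) (L 1))))) (A O (C (B (A O (C (A O (B (C (L 2) (A (B (B (L 6) O) O) (B (B (L 6)
    (B (L 6) (B (L 10) (L 10)))) O))) O)) (B (A O (C (A (B (C (B (L 6) O) (A O (L 1))) O) (B (C (A
    (B (L 1) (C (B (L 1) O) (L 1))) (L 1)) (L 1)) O)) (A (B (L 1) O) (L 1)))) O))) O) (B (A O (C (A
    O (B (L 1) O)) (L 1))) O)))) (B (A (C (A (B (L 1) O) (L 1)) (L 1)) (L 1)) (A O (C (B (L 1) O)
    (L 1))))))) (B (A (C (L 1) (L 1)) (L 1)) (A O (L 1)))))) (C (A (C (A (B (C (A (B (C (A (B (L 1)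
    O) (L 1)) (L 1)) O) (L 1)) (L 1)) O) (B (L 1) O)) (A (L 1) (L 1))) (L 1)) (L 1)))) (L 1)) (L
    1))) = true := by
  decide +kernel

theorem c5_3 : cf false 5 3 10 64 160 36
    (C (C O (C O (B (C (C O (L 2)) (L 2)) O))) (C (C (C (C (B (C (L 2) (B (B (B (B (L 6) (L 6)) (L
    6)) (C (L 2) (B (B (L 6) (L 6)) (C (L 2) (C (B (B (L 6) (L 11)) (L 2)) (B (C (B (L 1) (L 11))
    (L 1)) (B (L 5) (L 5)))))))) (C (L 2) (L 2)))) O) (B (C (B (C (B (L 1) (C (B (L 1) (C (B (L 1)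
    (L 5)) (L 1))) (L 1))) (L 1)) (B (B (B (L 5) (L 5)) (L 5)) (B (L 5) O))) (L 1)) O)) (B (L 1)
    O)) (L 1)) (L 1))) = true := by
  decide +kernel

theorem c5_4 : cf false 5 4 10 64 92 38
    (C (C O (C O (C O (B (L 2) O)))) (C (C (C (C (L 2) (C (B (C (C (L 2) (C (B (C (L 2) (B (B (L 6)
    (L 6)) (C (L 2) (B (L 6) (L 2))))) (L 2)) (B (C (B (L 1) (C (B (L 6) (B (L 6) (C (L 2) (C (B (B
    (L 6) (L 17)) (B (L 5) (L 2))) (B (L 1) (B (L 5) (L 5))))))) (L 1))) (L 1)) (B (B (B (L 5) (L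
    5)) (L 5)) (B (L 5) (L 5)))))) (C (C (B (L 1) (L 1)) (L 1)) (L 1))) O) (L 1))) (L 1)) (L 1)) (L
    1))) = true := by
  decide +kernel

theorem c5_5 : cf false 5 5 10 64 80 37
    (C (C O (C O (C O (L 2)))) (C (C (C (C (L 2) (C (L 2) (C (C (C (C (L 2) (B (C (L 2) (B (L 2) (L
    2))) (B (L 2) O))) (B (C (C (B (B (B (L 6) (L 6)) (B (L 6) (B (L 6) (B (L 6) (B (L 6) (B (L 6)
    (L 6))))))) (C (B (B (B (B (B (L 10) (L 5)) (L 5)) (L 5)) (L 5)) (B (L 5) (L 5))) (L 1))) (L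
    1)) (L 1)) (C (B (B (L 5) O) O) (B (L 1) O)))) (L 1)) (L 1)))) (L 1)) (L 1)) (L 1))) = true := by
  decide +kernel

theorem c5_6 : cf false 5 6 10 64 68 38
    (C (C O (C O (C O (L 2)))) (C (C (C (C (L 2) (C (L 2) (C (C (L 2) (B (L 2) (C (L 2) (C (L 2) (B
    (L 2) O))))) (C (B (C (B (L 2) (C (L 2) (B (L 2) (B (L 5) (L 5))))) (B (B (L 6) (B (L 6) (B (L
    6) (L 6)))) (C (B (B (C (C (L 2) (B (L 2) (B (L 2) (L 5)))) (C (B (B (L 6) (B (L 10) (L 10)))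
    (B (L 5) (L 5))) (L 1))) (B (L 5) (L 5))) (B (L 5) (L 1))) (L 1)))) (C (B (B (L 5) O) O) (L
    1))) (L 1))))) (L 1)) (L 1)) (L 1))) = true := by
  decide +kernel

theorem c5_7 : cf false 5 7 10 64 80 39
    (C (C O (C O (C O (C O (L 2))))) (C (C (C (C (L 2) (L 2)) (C (C (C (C (C (L 2) (C (B (L 2) (L
    2)) (B (C (C (B (L 2) (L 2)) (B (C (B (L 6) (B (L 6) (L 6))) (L 1)) (B (C (C (C (L 2) (B (L 2)
    (L 2))) (B (C (B (L 6) (C (L 2) (B (B (L 6) (L 10)) (L 5)))) (L 1)) (B (L 5) (L 5)))) (L 1)) (B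
    (L 5) (L 5))))) (L 1)) (C (B (C (L 2) (B (L 5) (L 2))) O) (B (B (L 5) (L 5)) O))))) (C (C (B (L
    1) (C (B (L 1) O) (L 1))) (L 1)) (L 1))) (L 1)) (L 1)) (L 1))) (L 1)) (L 1))) = true := by
  decide +kernel

theorem c5_8 : cf false 5 8 10 64 80 39
    (C O (C (C (C (L 2) (C (C (C (L 2) (C (C (C (B (L 2) (L 2)) (B (C (C (B (B (L 6) (B (L 6) (L
    6))) (C (L 2) (B (C (L 2) (B (B (L 6) (B (L 6) (L 6))) (B (B (B (L 10) (L 5)) (L 5)) (L 5))))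
    (L 2)))) (B (L 1) (C (B (C (B (L 1) (C (B (L 1) (L 5)) (L 1))) (L 1)) (B (L 5) (L 5))) (L 1))))
    (L 1)) (B (B (L 5) (L 5)) O))) (C (B (L 1) (C (B (L 1) O) (L 1))) (L 1))) (L 1))) (L 1)) (L
    1))) (L 1)) (L 1))) = true := by
  decide +kernel

theorem c5_9 : cf false 5 9 10 64 60 39
    (C O (C (C (C (L 2) (C (C (C (L 2) (C (B (C (L 2) (B (L 2) (C (L 2) (B (L 2) (B (B (L 5) (L 5))
    (L 5)))))) (C (B (L 2) O) (B (B (B (L 5) (L 5)) (L 5)) O))) (B (C (B (B (L 6) (B (L 6) (L 6)))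
    (C (B (B (B (L 6) (L 6)) (C (B (B (L 6) (B (L 6) (L 10))) (B (B (L 5) (L 5)) (L 5))) (L 1))) (C
    (B (L 5) (L 1)) (L 1))) (L 1))) (L 1)) (L 1)))) (L 1)) (L 1))) (L 1)) (L 1))) = true := by
  decide +kernel

theorem c5_10 : cf false 5 10 10 64 80 40
    (C O (C (C (C (L 2) (C (C (L 2) (C (C (C (C (L 2) (B (C (L 2) (C (L 2) (B (B (L 6) (L 6)) (C (L
    2) (B (B (L 6) (B (L 6) (C (L 2) (B (L 6) (B (L 10) (L 5)))))) (C (L 2) (B (B (L 5) (L 2)) (L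
    2)))))))) (L 2))) (C (B (C (C (B (L 1) (C (B (L 1) (B (B (L 5) (L 5)) (L 5))) (L 1))) (L 1)) (L
    1)) (C (B (B (L 5) (L 5)) O) (B (L 1) O))) (L 1))) (L 1)) (L 1))) (L 1))) (L 1)) (L 1))) = true := by
  decide +kernel

theorem c5_11 : cf false 5 11 10 64 96 40
    (C O (C (C (C (L 2) (C (C (L 2) (C (C (L 2) (B (B (B (L 6) (B (L 6) (L 6))) (C (L 2) (C (B (B
    (L 6) (B (L 6) (B (L 6) (L 6)))) (C (L 2) (B (B (C (B (B (L 6) (L 10)) (L 10)) (L 1)) (L 5)) (L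
    5)))) (B (L 1) (C (B (L 1) (L 5)) (L 1)))))) (C (L 2) (B (B (B (L 5) (L 5)) (L 5)) O)))) (C (B
    (L 1) (C (B (C (B (L 1) (L 5)) (L 1)) O) (L 1))) (L 1)))) (L 1))) (L 1)) (L 1))) = true := by
  decide +kernel

theorem c5_12 : cf false 5 12 10 64 76 40
    (C O (C (C (C (L 2) (C (C (L 2) (C (C (L 2) (C (L 2) (C (L 2) (C (L 2) (C (B (L 2) (L 2)) (B (C
    (B (L 2) (C (L 2) (C (L 2) (B (C (L 2) (B (L 2) (L 6))) (B (C (L 2) (B (B (L 6) (L 6)) (B (L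
    10) (L 5)))) (L 5)))))) (B (B (L 6) (L 6)) (C (C (B (B (L 6) (L 6)) (L 1)) (L 1)) (L 1)))) (B
    (B (B (L 5) (L 5)) (L 5)) O))))))) (C (C (L 1) (L 1)) (L 1)))) (L 1))) (L 1)) (L 1))) = true := by
  decide +kernel

theorem c5_13 : cf false 5 13 10 64 76 40
    (C O (C (C (C (L 2) (C (C (L 2) (C (L 2) (C (C (L 2) (C (C (C (C (L 2) (B (L 2) (L 2))) (C (B
    (B (C (L 2) (B (L 2) (L 6))) (C (L 2) (C (B (L 2) (C (L 2) (B (L 2) (B (L 2) (L 5))))) (B (B (L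
    6) (L 6)) (C (B (B (L 6) (B (L 6) (L 10))) (B (B (L 10) (L 5)) (L 5))) (L 1)))))) (C (B (L 2)
    (L 2)) (B (B (B (L 5) (L 5)) (L 5)) (B (L 5) O)))) (B (B (B (L 6) (L 6)) (L 1)) (C (B (L 1) (B
    (L 1) O)) (L 1))))) (L 1)) (L 1))) (L 1)))) (L 1))) (L 1)) (L 1))) = true := by
  decide +kernel

theorem c5_14 : cf false 5 14 10 64 84 41
    (C O (C (C (C (L 2) (C (C (L 2) (C (L 2) (C (L 2) (C (C (B (C (L 2) (B (B (L 6) (L 6)) (C (L 2)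
    (B (B (L 6) (L 6)) (L 2))))) (L 2)) (B (C (B (L 1) (C (B (B (L 1) (L 6)) (C (B (L 6) (C (L 2)
    (B (B (L 6) (L 10)) (L 2)))) (B (L 1) (C (B (C (B (L 1) (L 10)) (L 1)) (L 5)) (L 1))))) (L 1)))
    (L 1)) (B (B (B (L 5) (L 5)) (L 5)) (B (L 5) O)))) (L 1))))) (L 1))) (L 1)) (L 1))) = true := by
  decide +kernel

theorem c5_15 : cf false 5 15 10 64 96 41
    (C O (C (C (C (L 2) (C (C (L 2) (C (L 2) (C (L 2) (C (L 2) (B (B (B (L 6) (L 6)) (C (L 2) (B (L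
    6) (C (L 2) (B (L 6) (B (L 6) (C (L 2) (B (L 10) (L 10))))))))) (C (L 2) (B (C (L 2) (B (C (L
    2) (B (C (L 2) (B (L 5) (L 2))) (L 2))) (L 2))) (L 2)))))))) (C (C (C (C (B (L 1) (C (B (B (C
    (B (B (L 5) (L 5)) (L 5)) (L 1)) (L 5)) (B (L 5) O)) (B (L 1) (B (L 5) O)))) (L 1)) (L 1)) (L
    1)) (L 1)))) (L 1)) (L 1))) = true := by
  decide +kernel

theorem c5_16 : cf false 5 16 10 64 80 41
    (C O (C (C (C (L 2) (C (C (L 2) (C (L 2) (L 2))) (C (C (C (C (C (C (B (B (B (L 6) (L 6)) (B (L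
    6) (B (L 6) (B (L 6) (L 6))))) (C (L 2) (B (C (L 2) (B (B (B (B (L 10) (L 10)) (L 5)) (L 5)) (L
    5))) (L 2)))) (B (L 1) (C (B (C (B (L 1) (L 5)) (L 1)) (B (L 5) O)) (L 1)))) (L 1)) (L 1)) (L
    1)) (L 1)) (L 1)))) (L 1)) (L 1))) = true := by
  decide +kernel

theorem c5_17 : cf false 5 17 10 64 76 41
    (C O (C (C (C (L 2) (C (L 2) (C (C (C (C (C (L 2) (C (L 2) (C (C (C (L 2) (B (B (L 2) (L 2)) (B
    (L 2) (L 2)))) (C (B (B (B (L 6) (L 6)) (C (B (L 6) (B (L 6) (L 6))) (L 1))) (B (C (B (B (B (L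
    6) (B (L 10) (L 5))) (L 5)) (L 5)) (L 1)) (B (L 5) O))) (L 1))) (L 1)))) (L 1)) (L 1)) (L 1))
    (L 1)))) (L 1)) (L 1))) = true := by
  decide +kernel

theorem c5_18 : cf false 5 18 10 64 96 41
    (C O (C (C (C (L 2) (C (L 2) (C (C (C (C (L 2) (B (C (L 2) (B (L 6) (C (L 2) (B (L 6) (B (L 6)
    (L 2)))))) (L 2))) (C (B (C (B (L 1) (C (B (L 1) (B (L 6) (L 6))) (L 1))) (L 1)) (B (C (B (C (C
    (L 2) (B (B (L 6) (B (L 6) (L 6))) (C (L 2) (B (B (L 10) (L 5)) (L 2))))) (C (B (L 1) (B (C (C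
    (B (L 1) (L 5)) (L 1)) (L 1)) (L 5))) (L 1))) (B (L 5) (L 5))) (L 1)) O)) (L 1))) (L 1)) (L
    1)))) (L 1)) (L 1))) = true := by
  decide +kernel

theorem c5_19 : cf false 5 19 10 64 92 41
    (C O (C (C (C (L 2) (C (L 2) (C (C (C (L 2) (C (C (B (B (L 6) (C (L 2) (B (L 6) (L 6)))) (L 2))
    (B (C (B (L 1) (C (B (L 1) (L 6)) (L 1))) (L 1)) (B (B (C (B (L 6) (C (L 2) (B (B (L 6) (L 10))
    (B (L 10) (L 5))))) (L 1)) (B (B (L 5) (L 5)) O)) O))) (B (L 1) (C (B (L 1) O) (L 1))))) (L 1))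
    (L 1)))) (L 1)) (L 1))) = true := by
  decide +kernel

theorem cg_5 : cg 5 20 12 64 112 128 46
    (C O (C (C (C (C O (L 2)) (C (L 2) (C (C (L 2) (L 2)) (C (A (C (L 2) (B (A (L 2) (C (L 2) (B (A
    (L 2) (C (B (A (L 2) (L 6)) (L 2)) (B (B (L 6) (L 6)) (A O (B (L 6) O))))) O))) O)) (C (B (A (L
    2) (C (B (L 2) (L 2)) (B (A (C (L 2) (B (B (L 6) (L 6)) (A (L 2) (L 6)))) (B (B (L 6) (L 6)) (B
    (L 6) (L 6)))) (A (L 2) (C (L 2) (B (A (L 2) (B (L 6) (L 2))) (L 2))))))) (L 2)) (B (B (A (B (B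
    (A (C (L 6) (L 6)) (C (L 6) (L 6))) (A (C (L 2) (L 6)) (C (L 6) (L 6)))) (B (A (C (L 2) (B (L
    6) (L 6))) (C (L 6) (B (L 6) (L 6)))) (A (C (L 2) (B (L 6) (L 6))) (C (B (L 6) (L 6)) (B (L 6)
    (L 6)))))) (C (A (B (B (L 6) (L 6)) (B (L 6) (B (L 6) (L 6)))) (C (B (A (L 6) (L 1)) (B (L 6)
    (L 6))) (L 1))) (A (L 1) (L 1)))) (A (C (A (L 2) (C (L 2) (B (A (L 2) (C (L 2) (B (L 6) (L
    2)))) O))) (A (C (L 2) (B (A O (B (L 6) O)) O)) (B (B (B (A (L 6) (L 6)) (A (L 6) (L 6))) (B (A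
    O (L 6)) (A O (L 6)))) O))) (C (A (C (B (A (L 2) (B (L 6) (L 2))) (L 2)) (B (B (B (L 6) (L 6))
    (B (L 6) (L 6))) (A (L 2) (C (B (L 6) (L 2)) (B (L 6) (B (L 6) (L 2))))))) (B (B (B (L 6) (L
    6)) (B (C (L 6) (L 6)) (A (L 6) (L 6)))) (B (B (A (L 6) (L 6)) (A (L 6) (L 6))) (B (A (L 6) (L
    6)) (A (C (L 2) (L 6)) (C (L 6) (L 6))))))) (A (C (B (A (B (L 6) (L 6)) (C (B (L 1) (L 6)) (L
    1))) (B (B (A (L 6) (L 6)) (A (L 6) (L 6))) (B (A O (L 6)) (A O (B (L 6) (L 6)))))) (B (L 1) (A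
    (C (B (A (L 6) (L 1)) O) (L 1)) (L 1)))) (C (B (L 1) (A (C (B (L 1) (B (L 6) (L 6))) (L 1)) (L
    1))) (L 1)))))) (A O (C (B (A O (C (L 2) (B (A (C (L 2) (B (A (C (L 2) (B (L 6) (L 2))) (B (L
    6) (L 6))) (L 2))) (C (B (B (L 6) (B (L 6) (L 6))) (A (L 2) (L 2))) (B (B (B (L 6) (L 6)) (B (L
    6) (A (L 6) (L 6)))) (A (C (L 2) (B (B (L 6) (L 6)) (A O (C (L 2) (B (L 6) (L 2)))))) (B (B (L
    6) (B (L 6) (L 6))) (C (A (L 2) (C (L 2) (B (L 6) (L 2)))) (B (B (A (L 6) (L 6)) (A (L 6) (B (L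
    6) (C (L 6) (L 6))))) (A (C (L 2) (A (C (L 2) (B (L 10) (L 2))) (B (L 10) (L 10)))) (B (B (A (L
    6) (L 10)) (A (L 10) (L 10))) (B (A (L 10) (L 10)) (L 10))))))))))) (A O (C (L 2) (B (A O (C (L
    2) (B (A (L 2) (C (L 2) (B (B (B (L 10) (L 5)) (L 5)) (L 5)))) O))) O)))))) O) (B (B (A O (C (A
    (C (B (B (B (L 6) (L 6)) (B (A (L 6) (L 6)) (A O (L 6)))) (A O (C (B (B (L 6) O) O) (B (B (L 6)
    O) O)))) (B (A (C (B (L 1) (L 6)) (L 1)) (L 1)) (A O (C (B (A O (L 1)) O) (L 1))))) (C (B (A (C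
    (B (L 1) (L 6)) (L 1)) (L 1)) (A (C (B (B (L 6) (B (L 6) (L 6))) (A O (B (B (L 6) (B (L 6) (A O
    (L 10)))) (B (B (A O (L 10)) O) O)))) (B (L 1) (A O (C (B (L 1) (A O (L 1))) (L 1))))) (C (B (L
    1) (A (C (B (A (B (L 6) (L 6)) (L 1)) (B (B (L 10) (L 10)) (B (L 10) (L 10)))) (B (L 1) (A (C
    (B (L 1) (L 10)) (L 1)) (L 1)))) (C (B (L 1) (A (C (B (L 1) (L 10)) (L 1)) (L 1))) (L 1)))) (L
    1)))) (L 1))) (A (C (B (L 1) (L 1)) (L 1)) (L 1)))) (A O (B (C (B (A O (C (B (A O (B (C (A (B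
    (L 10) (L 5)) (L 5)) (L 1)) (C (A O (L 5)) (L 1)))) (A O (B (C (L 5) (L 5)) (L 5)))) (A O (L
    1)))) O) (A O (L 1))) O))) O)))))) (A (C (B (A (C (B (A (L 2) (C (L 2) (B (A (L 2) (L 6)) O)))
    O) (B (A (C (L 2) (A (L 2) (B (L 6) O))) (B (B (B (L 6) (L 6)) O) O)) O)) (B (C (B (B (A (L 6)
    (L 6)) (A (B (L 6) O) (B (L 6) (L 6)))) (B (A O (B (L 6) (L 6))) O)) (A (C (B (A (L 6) (L 1))
    O) (B (L 1) O)) (L 1))) O)) O) (B (A (C (B (A (B (B (B (L 6) O) O) O) (C (B (A (B (L 1) O) (L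
    1)) O) (L 1))) O) (B (A (C (A (B (L 1) O) (L 1)) (L 1)) (L 1)) O)) (C (B (L 1) O) (L 1))) O))
    (C (B (A (C (B (A (C (B (L 1) (A (B (L 6) (L 6)) (L 1))) (L 1)) (L 1)) (A (C (B (B (B (L 6) O)
    O) O) (B (A O (L 1)) O)) (C (B (L 1) O) (L 1)))) (B (L 1) (A (C (B (L 1) O) (L 1)) (L 1)))) (L
    1)) (A O (C (B (A O (L 1)) O) (B (L 1) O)))) (B (L 1) (A O (L 1))))))))) (C (C (C (C (A (C (B
    (A (C (B (L 1) O) (L 1)) (L 1)) O) (B (L 1) O)) (L 1)) (L 1)) (L 1)) (L 1)) (L 1))) (L 1))) = true := by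
  decide +kernel

theorem c7_3 : cf false 7 3 10 64 80 36
    (C (C O (C O (C O (B (L 2) O)))) (C (C (C (C (L 2) (C (C (L 2) (B (B (C (C (L 2) (C (L 2) (C (B
    (L 2) (L 2)) (B (C (B (L 6) (B (L 6) (L 6))) (L 1)) (B (B (B (L 6) (L 11)) (B (L 5) (L 5))) (L
    5)))))) (C (L 1) (L 1))) (B (B (L 5) O) O)) O)) (C (B (L 1) O) (L 1)))) (L 1)) (L 1)) (L 1))) = true := by
  decide +kernel

theorem c7_4 : cf false 7 4 10 64 116 37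
    (C O (C (C (C (C O (L 2)) (C (C (B (C (B (C (B (B (L 6) (B (L 6) (C (L 2) (B (L 6) (B (L 11) (L
    11)))))) (C (L 2) (B (C (L 2) (B (B (L 5) (L 5)) (L 5))) (L 2)))) (B (L 1) (C (B (C (B (L 1) (L
    5)) (L 1)) (L 5)) (L 1)))) (C O (B (B (L 5) O) O))) (B (L 1) (C (B (C (B (L 1) O) (L 1)) O) (L
    1)))) O) (B (L 1) O)) (L 1))) (L 1)) (L 1))) = true := by
  decide +kernel

theorem c7_5 : cf false 7 5 10 64 124 38
    (C O (C (C (C (L 2) (C (C (B (C (L 2) (B (C (L 2) (L 2)) O)) O) (B (C (B (C (B (C (B (B (L 6)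
    (L 6)) (C (L 2) (B (B (L 6) (B (L 6) (L 11))) (C (L 2) (B (B (L 5) (L 5)) (L 2)))))) (B (L 1)
    (C (B (L 1) (B (L 5) (L 5))) (L 1)))) (C (L 2) (B (B (L 5) (L 5)) (L 5)))) (B (L 1) (C (B (L 1)
    (L 5)) (L 1)))) (C O (B (B (L 5) O) O))) (B (L 1) (C (B (L 1) O) (L 1)))) O)) (C (B (L 1) O) (L
    1)))) (L 1)) (L 1))) = true := by
  decide +kernel

theorem c7_6 : cf false 7 6 10 64 84 39
    (C O (C (C (C O (C (C (L 2) (C (L 2) (C (B (C (L 2) (B (C (L 2) (B (C (B (B (L 6) (B (L 6) (B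
    (L 6) (L 11)))) (C (L 2) (B (B (B (L 5) (L 5)) (L 5)) (L 2)))) (B (L 1) (C (B (C (B (L 1) (L
    5)) (L 1)) (L 5)) (L 1)))) (B (L 5) (L 5)))) O)) O) (B (C (B (C (B (L 1) (C (B (L 1) (L 5)) (L
    1))) (L 1)) (B (L 5) O)) (L 1)) O)))) (C (C (C (B (L 1) O) (L 1)) (L 1)) (L 1)))) (L 1)) (L
    1))) = true := by
  decide +kernel

theorem c7_7 : cf false 7 7 10 64 48 39
    (C O (C (C (C O (C (C O (C (L 2) (C (L 2) (B (L 2) O)))) (C (C (C (B (C (B (L 2) O) (B (B (C (L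
    2) (B (C (C (L 2) (B (L 2) (B (C (L 2) (C (L 2) (B (L 2) (L 5)))) (L 5)))) (C (B (B (L 6) (B (L
    6) (L 11))) (B (B (L 5) (L 5)) (L 1))) (L 1))) (B (L 5) (L 5)))) (B (L 5) (L 5))) O)) O) (L 1))
    (L 1)) (L 1)))) (L 1)) (L 1))) = true := by
  decide +kernel

theorem c7_8 : cf false 7 8 10 64 68 39
    (C O (C (C (C O (C (L 2) (C (C (L 2) (C (C (L 2) (C (B (C (L 2) (C (B (B (B (B (B (B (B (L 11)
    (L 5)) (L 5)) (L 5)) (L 5)) (L 5)) (B (L 5) (L 5))) O) (B (L 1) O))) O) (B (L 1) O))) (L 1)))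
    (L 1)))) (L 1)) (L 1))) = true := by
  decide +kernel

theorem c7_9 : cf false 7 9 10 64 80 37
    (C O (C (C (C O (C O (C (C (L 2) (C (L 2) (L 2))) (C (C (C (B (B (C (B (B (B (L 5) (L 5)) (L
    5)) (L 5)) (L 1)) O) O) (B (L 1) O)) (L 1)) (L 1))))) (L 1)) (L 1))) = true := by
  decide +kernel

theorem c7_10 : cf false 7 10 10 64 48 37
    (C O (C (C (C O (C O (C (L 2) (C (C (C (B (L 2) O) (B (C (L 2) (B (L 2) O)) O)) (C (B (C (B (B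
    (B (L 5) (L 5)) (L 5)) O) (L 1)) O) (L 1))) (L 1))))) (L 1)) (L 1))) = true := by
  decide +kernel

theorem c7_11 : cf false 7 11 10 64 88 38
    (C O (C (C (C O (C O (C O (C (L 2) (C (B (B (B (B (C (L 5) (L 1)) (L 5)) (B (L 5) (L 5))) O) O)
    (B (L 1) O)))))) (L 1)) (L 1))) = true := by
  decide +kernel

theorem c7_12 : cf false 7 12 10 64 80 38
    (C O (C (C (C O (C O (C O (C (L 2) (C (L 2) (C (B (B (B (B (L 5) (L 5)) (L 5)) O) O) (B (L 1)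
    O))))))) (C (C (L 1) (L 1)) (L 1))) (L 1))) = true := by
  decide +kernel

theorem c7_13 : cf false 7 13 10 64 32 38
    (C O (C (C (C O (C O (C O (C O (C (B (L 2) O) (B (B (C (L 2) (B (B (L 5) (L 5)) (L 5))) O)
    O)))))) (L 1)) (L 1))) = true := by
  decide +kernel

theorem cg_7 : cg 7 14 12 64 0 96 42
    (C O (C (C (C O (C O (A O (C O (L 2))))) (C (C (A (C O (A (C O (A O (C O (A O (B (C O (A O (B
    (C (L 2) (A (B (C (L 2) (B (L 5) O)) O) (B (B (L 5) O) O))) O))) O))))) (C (A O (C (L 2) (B (A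
    (C (L 2) (A (L 2) (B (C (L 2) (A (B (B (L 5) O) O) (B (B (L 5) O) O))) O))) (C (A (B (C (L 2)
    (A (L 2) (B (C (L 2) (B (L 5) O)) O))) O) (B (C (A (L 2) (B (B (L 5) O) O)) (B (B (L 5) (L 5))
    O)) O)) (B (A (B (B (B (L 5) (L 5)) (L 5)) O) (C (A (B (B (L 5) (L 5)) O) (B (L 1) O)) (L 1)))
    O))) O))) (B (A (C (A (L 2) (C (A O (B (C (L 2) (A (L 2) (B (B (L 5) O) O))) O)) (A (B (C (A O
    (L 2)) (A (B (B (L 5) O) O) (B (B (L 5) O) O))) O) (B (B (B (B (L 5) (L 5)) (L 5)) O) O)))) (A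
    (C (A (B (C O (A (L 2) (B (B (L 5) O) O))) O) (B (C (A (L 2) (B (B (L 5) O) O)) (B (B (L 5) O)
    O)) O)) (B (A (B (B (B (L 5) (L 5)) (B (L 5) O)) O) (C (A (B (B (L 1) (L 5)) O) (B (L 1) O)) (L
    1))) O)) (C (A (B (C (B (B (L 5) (L 5)) O) (A (B (L 1) O) (L 1))) O) (B (C (A (B (L 1) O) (L
    1)) (L 1)) O)) (A (B (L 1) O) (L 1))))) (C (A (C (A (B (B (B (B (L 5) (L 5)) (L 5)) O) O) (B (C
    (B (B (L 5) (L 5)) O) (A (B (L 1) O) (L 1))) O)) (A (B (C (A (B (B (L 1) (L 5)) O) (B (L 1) O))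
    (L 1)) O) (B (L 1) O))) (C (A (B (C (A (B (L 1) O) (L 1)) (L 1)) O) (L 1)) (L 1))) (A (L 1) (L
    1)))) O)))) (C (A (C (L 2) (A (C O (B (A O (C (L 2) (A (L 2) (B (C (L 2) (A (L 2) (B (B (L 5)
    (L 5)) O))) O)))) O)) (C (B (A (L 2) (C (L 2) (A (B (L 2) O) (B (C (A (L 2) (B (C (L 2) (B (L
    5) (L 2))) O)) (B (B (L 5) (L 5)) O)) O)))) O) (B (B (B (B (C (B (A (C (L 2) (L 5)) (L 5)) (A
    (C (L 2) (L 5)) (L 5))) (A (B (C (L 5) (L 5)) (L 5)) (L 1))) (C (B (A (C (L 2) (L 5)) (L 5)) (A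
    O (L 5))) (B (A (L 5) (L 1)) (A (L 5) (L 1))))) (B (C (B (A O (L 5)) (A O (L 5))) (B (A (L 5)
    (L 1)) (A O (L 5)))) (C O (B (A O (L 5)) (A O (L 5)))))) O) O)))) (B (C (A (C (L 2) (A (L 2) (C
    (L 2) (A (B (C (L 2) (A (L 2) (B (B (L 5) (L 5)) O))) O) (B (B (B (L 5) (L 5)) (B (L 5) O))
    O))))) (C (A (L 2) (C (B (A (L 2) (C (L 2) (A (L 2) (B (C (L 2) (A (L 2) (L 5))) (L 2))))) O)
    (B (B (B (B (C (L 5) (L 5)) (L 5)) (B (L 5) (L 5))) (B (B (L 5) (L 5)) O)) O))) (A (B (B (B (C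
    (B (C (L 5) (L 5)) (L 5)) (B (L 5) (L 5))) (C (B (L 5) (L 5)) (B (L 5) (L 5)))) (B (C (B (L 5)
    (L 5)) (L 5)) (C O (L 5)))) O) (C (B (A (C (B (B (L 5) (L 5)) (B (L 5) O)) (A (B (L 1) (L 5))
    (L 1))) (C (A (B (L 1) (L 5)) (L 1)) (L 1))) O) (B (L 1) (A (C O (L 1)) (L 1))))))) (A (C (B (A
    (B (B (C (B (C (L 5) (L 5)) (C (L 5) (L 5))) (B (L 5) (L 5))) (C (B (L 5) (L 5)) (B (L 5) (L
    5)))) (B (C (B (L 5) O) (B (L 5) (L 5))) O)) (C (A (B (B (L 5) (L 5)) (B (L 5) O)) (C (A (B (L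
    1) (L 5)) (L 1)) (L 1))) (L 1))) (B (B (C O (B (A O (L 1)) O)) O) O)) (A (C (A (B (L 1) O) (L
    1)) (L 1)) (L 1))) (C (A (C (B (L 1) (A O (L 1))) (L 1)) (L 1)) (L 1)))) (C O (A O (C O (L
    1)))))) (A (C (A (B (C (A (C (A (L 2) (B (L 2) O)) (A (B (C (L 2) (A (B (C (L 2) (A (L 2) (L
    5))) O) (B (B (L 5) (L 5)) O))) O) (B (B (B (L 5) (L 5)) O) O))) (B (B (B (C (B (C (L 5) (L 5))
    (L 5)) (A (L 5) (L 1))) (C (B (L 5) (L 5)) (B (L 5) (L 5)))) (B (C O (B (L 5) (L 5))) O)) O))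
    (A (C (A (B (B (B (L 5) (L 5)) O) O) (B (C (A (B (L 1) O) (L 1)) (L 1)) O)) (A (B (L 1) O) (L
    1))) (C (A (B (L 1) O) (L 1)) (L 1)))) O) (C (B (A (C (A (B (C (A (B (B (L 1) (L 5)) O) (B (L
    1) (L 5))) (L 1)) O) (B (L 1) O)) (L 1)) (L 1)) O) (B (L 1) O))) (A (C (B (L 1) O) (L 1)) (L
    1))) (C (A (L 1) (L 1)) (L 1))))) (A (C (A (C (A (C O (A (B (C O (A O (B (C O (A O (B (C O (B
    (L 5) O)) O))) O))) O) (B (C (A O (B (C (A O (B (C O (B (L 5) O)) O)) (A (B (B (L 5) O) O) (B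
    (B (L 5) O) O))) O)) (B (B (B (B (C (A (L 5) (L 5)) (A (L 5) (L 1))) O) O) O) O)) O))) (B (C (A
    (C (A O (B (C O (A O (B (C O (A O (L 5))) O))) O)) (A (B (C O (A (B (C O (A O (L 2))) O) (B (B
    (L 5) O) O))) O) (B (B (B (B (L 5) (L 5)) O) O) O))) (C (A (B (C (A (L 2) (B (B (L 5) O) O)) (B
    (B (B (L 5) (L 5)) O) O)) O) (B (C (B (B (L 5) (L 5)) O) (A (B (L 1) O) (L 1))) O)) (A (B (C (A
    (B (B (L 5) O) O) (B (L 1) O)) (L 1)) O) (B (L 1) O)))) (A (C (A (B (B (B (B (L 5) O) O) O) O)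
    (B (C (A (B (L 1) O) (L 1)) (L 1)) O)) (A (B (L 1) O) (L 1))) (C (A (B (L 1) O) (L 1)) (L 1))))
    O)) (A (C (A (B (B (B (B (C (B (C (A O (L 5)) (A (L 5) (L 5))) O) (A (B (L 5) O) (L 1))) O) O)
    O) O) (B (C (A (B (C (A (B (C (A (B (L 1) O) (L 1)) (L 1)) O) (L 1)) (L 1)) O) (B (L 1) O)) (L
    1)) O)) (A (B (C (A (B (L 1) O) (L 1)) (L 1)) O) (B (L 1) O))) (C (A (B (L 1) O) (L 1)) (L
    1)))) (C (A (C (A (B (C (A (B (C (A (B (L 1) O) (L 1)) (L 1)) O) (L 1)) (L 1)) O) (B (L 1) O))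
    (B (L 1) O)) (L 1)) (L 1))) (A (C (A (L 1) (L 1)) (L 1)) (L 1))) (L 1))) (L 1))) (L 1))) = true := by
  decide +kernel

theorem c8_3 : cf false 8 3 10 64 104 37
    (C O (C (C (C (C (L 2) (C (L 2) (B (C (B (C (L 2) (B (B (L 6) (B (L 6) (B (L 11) (L 11)))) (C
    (L 2) (B (B (B (L 5) (L 5)) (L 5)) (L 5))))) O) (B (C (B (L 1) (C (B (L 1) (L 5)) (L 1))) (L
    1)) O)) O))) (C (C (B (L 1) O) (L 1)) (L 1))) (L 1)) (L 1))) = true := by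
  decide +kernel

theorem c8_4 : cf false 8 4 10 64 112 37
    (C O (C (C (C (L 2) (C (C (B (C (L 2) (B (C (B (C (L 2) (B (B (L 6) (B (L 6) (L 6))) (L 2))) O)
    (B (C (B (C (B (L 1) (C (B (L 1) (L 6)) (L 1))) (L 1)) (B (C (B (L 11) (L 5)) (L 1)) (L 5))) (L
    1)) (B (L 5) O))) O)) O) (B (C (B (L 1) O) (L 1)) O)) (C (B (L 1) O) (L 1)))) (L 1)) (L 1))) = true := by
  decide +kernel

theorem c8_5 : cf false 8 5 10 64 52 38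
    (C O (C (C (C O (C (C O (C (C O (B (L 2) O)) (C (C (B (B (C (L 2) (B (L 2) O)) O) O) (B (B (C
    (B (B (B (B (B (L 6) (L 11)) (B (L 11) (L 5))) (L 5)) (L 5)) O) (L 1)) O) O)) (L 1)))) (L 1)))
    (L 1)) (L 1))) = true := by
  decide +kernel

theorem c9_3 : cf false 9 3 10 64 64 37
    (C O (C (C (C (C O (C (L 2) (C (L 2) (B (C (C (L 2) (C (L 2) (C (B (B (L 2) O) O) (B (B (B (B
    (L 6) (L 6)) (B (B (L 6) (L 11)) (B (L 5) O))) O) O)))) (C (C (B (L 1) O) (L 1)) (L 1))) O))))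
    (C (C (C (B (L 1) O) (L 1)) (L 1)) (L 1))) (L 1)) (L 1))) = true := by
  decide +kernel

theorem c10_3 : cf false 10 3 10 64 112 35
    (C O (C (C (C (B (L 2) O) (C (C (B (B (C (C (B (C (L 2) (B (B (L 6) O) O)) O) (B (C (B (L 1) O)
    (L 1)) O)) (L 1)) O) O) (B (L 1) O)) (B (L 1) O))) (L 1)) (L 1))) = true := by
  decide +kernel

theorem c11_3 : cf false 11 3 10 64 0 27
    (C O (C (C (C O (C (C (B (C O (L 1)) O) (L 1)) (L 1))) (L 1)) (L 1))) = true := by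
  decide +kernel

theorem c12_3 : cf false 12 3 10 64 0 27
    (C O (C (C (C O (C (C O (L 1)) (L 1))) (L 1)) (L 1))) = true := by
  decide +kernel

end Pool.Agent.BX
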