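import Mathlib
import Pool.Agent.BX.Real

set_option autoImplicit false
set_option maxRecDepth 100000

namespace Pool.Agent.BX

open Tr

theorem c6_3 : cf false 6 3 10 64 108 36
    (C (C O (C O (B (C O (L 2)) O))) (C (C (C (C (C (L 2) (B (L 2) O)) (C (B (C (B (C (B (B (L 6)
    (L 6)) (C (L 2) (B (B (L 6) (B (L 6) (L 11))) (C (L 2) (B (B (L 5) (L 5)) (L 2)))))) (B (L 1)
    (C (B (L 1) (B (L 5) (L 5))) (L 1)))) (C (L 2) (B (B (L 5) (L 5)) O))) (B (L 1) (C (B (L 1) (L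
    5)) (L 1)))) O) (B (L 1) O))) (L 1)) (L 1)) (L 1))) = true := by
  decide +kernel

theorem c6_4 : cf false 6 4 10 64 116 37
    (C (C O (C O (C O (B (L 2) O)))) (C (C (C (C (L 2) (C (L 2) (B (C (B (C (L 2) (B (B (L 6) (L
    6)) (C (L 2) (B (C (L 2) (B (L 6) (C (L 2) (B (L 6) (C (L 2) (B (L 11) (L 2))))))) (L 2))))) (L
    2)) (B (C (B (L 1) (C (B (C (B (L 1) (C (B (L 1) (B (L 11) (L 5))) (L 1))) (L 1)) (B (L 5) (L
    5))) (L 1))) (L 1)) (B (B (L 5) (L 5)) (B (L 5) O)))) O))) (C (C (B (L 1) O) (L 1)) (L 1))) (L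
    1)) (L 1))) = true := by
  decide +kernel

theorem c6_5 : cf false 6 5 10 64 96 39
    (C O (C (C (C (L 2) (C (C (C (B (C (B (C (L 2) (B (B (L 6) (L 6)) (C (L 2) (B (C (L 2) (B (L 6)
    (L 2))) (L 2))))) (L 2)) (B (C (B (L 1) (C (B (C (B (L 6) (B (B (L 6) (B (L 11) (L 17))) (B (B
    (L 5) (L 5)) (L 5)))) (L 1)) (B (L 5) (L 5))) (L 1))) (L 1)) (B (B (L 5) (L 5)) (L 5)))) O) (B
    (L 1) (C O (B (L 1) O)))) (L 1)) (L 1))) (L 1)) (L 1))) = true := by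
  decide +kernel

theorem c6_6 : cf false 6 6 10 64 76 38
    (C O (C (C (C (L 2) (C (C (C (L 2) (C (L 2) (C (B (C (L 2) (C (B (C (L 2) (C (B (B (L 6) (L 6))
    (C (L 2) (B (C (B (L 6) (L 2)) (B (B (L 6) (L 6)) (B (B (B (L 6) (L 6)) (B (L 10) (L 5))) (L
    5)))) (C (L 2) (B (L 5) (L 2)))))) (B (L 1) (C (B (L 1) (B (L 5) (L 5))) (L 1))))) (C (L 2) (B
    (B (L 5) (L 5)) (L 2)))) (B (L 1) (C (B (C (B (L 1) (L 5)) (L 1)) (L 5)) (L 1))))) O) (B (L 1)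
    O)))) (L 1)) (L 1))) (L 1)) (L 1))) = true := by
  decide +kernel

theorem c6_7 : cf false 6 7 10 64 68 39
    (C O (C (C (C (L 2) (C (C (L 2) (C (C (C (L 2) (C (L 2) (B (L 2) O))) (C (C (B (C (B (L 2) (L
    2)) (B (C (L 2) (B (L 2) (C (L 2) (B (L 2) (B (L 5) (L 5)))))) (B (B (L 5) (L 5)) (L 5)))) O)
    (B (C (B (C (B (B (L 6) (L 6)) (C (B (B (B (L 6) (L 6)) (B (B (B (L 10) (L 10)) (L 5)) (L 5)))
    (B (L 5) (L 1))) (L 1))) (B (C (B (L 6) (L 1)) (L 1)) (L 1))) (L 1)) (L 1)) (L 1))) (L 1))) (L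
    1))) (L 1))) (L 1)) (L 1))) = true := by
  decide +kernel

theorem c6_8 : cf false 6 8 10 64 36 39
    (C O (C (C (C (L 2) (C (C (L 2) (C (B (C (L 2) (B (L 2) (C (L 2) (B (L 2) (L 5))))) (C O (B (B
    (L 5) O) O))) (B (C (B (C (B (L 2) (C (L 2) (B (C (L 2) (B (L 2) (C (L 2) (B (L 2) (L 5))))) (B
    (L 5) (L 5))))) (B (B (L 6) (B (L 6) (B (L 6) (L 6)))) (C (B (C (B (B (L 6) (B (L 6) (B (L 6)
    (L 10)))) (B (B (B (L 10) (L 5)) (L 5)) (L 5))) (B (C (B (L 6) (L 1)) (L 1)) (L 1))) (L 1)) (L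
    1)))) (C (B (B (L 5) (L 5)) (L 5)) (L 1))) (L 1)) (L 1)))) (L 1))) (L 1)) (L 1))) = true := by
  decide +kernel

theorem c6_9 : cf false 6 9 10 64 80 39
    (C O (C (C (C (L 2) (C (L 2) (C (C (C (C (B (C (C (L 2) (B (C (L 2) (B (C (L 2) (B (L 6) (L
    2))) (L 2))) (L 2))) (B (C (C (B (B (L 6) (B (L 6) (L 6))) (C (L 2) (B (B (B (L 6) (B (L 6) (B
    (L 10) (L 10)))) (B (L 5) (L 5))) (L 5)))) (B (L 1) (C (B (L 1) (L 5)) (L 1)))) (L 1)) (B (B (L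
    5) (L 5)) (L 5)))) (C (L 2) (B (C (L 2) (B (L 5) O)) O))) (B (L 1) (C (B (B (L 5) O) O) (B (L
    1) O)))) (L 1)) (L 1)) (L 1)))) (L 1)) (L 1))) = true := by
  decide +kernel

theorem c6_10 : cf false 6 10 10 64 92 40
    (C O (C (C (C O (C (L 2) (C (C (C (L 2) (B (C (B (C (L 2) (B (B (L 6) (B (L 6) (L 6))) (C (L 2)
    (B (C (L 2) (B (B (L 6) (B (B (L 6) (L 10)) (B (L 10) (L 5)))) (B (L 5) (L 5)))) (L 2))))) (L
    2)) (B (C (B (L 1) (C (B (C (B (L 1) (L 5)) (L 1)) (L 5)) (L 1))) (L 1)) (B (B (L 5) (L 5)) (L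
    5)))) (C (L 2) (B (B (L 5) O) O)))) (C (B (L 1) (C (B (B (L 1) (L 5)) O) (L 1))) (L 1))) (L
    1)))) (L 1)) (L 1))) = true := by
  decide +kernel

theorem c6_11 : cf false 6 11 10 64 48 40
    (C O (C (C (C O (C (L 2) (C (C (C (L 2) (B (C (L 2) (B (C (L 2) (B (L 2) (C (L 2) (B (L 2) (B
    (L 2) (L 5)))))) (B (B (L 5) (L 5)) (L 5)))) (B (B (L 5) (L 5)) O))) (C (B (C (B (C (B (B (L 6)
    (B (L 6) (B (L 6) (L 6)))) (C (B (B (C (L 2) (B (L 6) (C (B (B (L 6) (L 10)) (L 5)) (L 1)))) (B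
    (L 5) (L 5))) (L 5)) (L 1))) (L 1)) (L 1)) (L 1)) (L 1)) (L 1))) (L 1)))) (L 1)) (L 1))) = true := by
  decide +kernel

theorem c6_12 : cf false 6 12 10 64 80 40
    (C O (C (C (C O (C (L 2) (C (C (L 2) (C (C (L 2) (C (L 2) (B (L 2) (L 2)))) (C (C (B (B (C (C
    (B (B (L 6) (B (L 6) (L 2))) (L 2)) (B (C (B (L 1) (B (L 6) (L 6))) (L 1)) (B (B (C (B (L 6) (B
    (L 10) (L 5))) (L 1)) (L 5)) (L 5)))) (L 1)) (B (B (L 5) (L 5)) (L 5))) (C (L 2) (B (B (L 5) (L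
    2)) O))) (B (L 1) (B (B (L 5) (L 5)) O))) (L 1)))) (L 1)))) (L 1)) (L 1))) = true := by
  decide +kernel

theorem c6_13 : cf false 6 13 10 64 72 41
    (C O (C (C (C O (C (L 2) (C (C (L 2) (C (L 2) (C (L 2) (B (C (C (L 2) (C (L 2) (C (B (C (L 2)
    (C (L 2) (B (B (L 6) (B (L 6) (L 6))) (C (L 2) (B (C (L 2) (B (B (L 6) (B (L 10) (L 5))) (L
    5))) (L 2)))))) (L 2)) (B (C (C (B (L 1) (C (B (C (B (L 1) (L 5)) (L 1)) (L 5)) (L 1))) (L 1))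
    (L 1)) (B (L 5) (L 5)))))) (L 1)) (B (B (L 5) (L 5)) O))))) (L 1)))) (L 1)) (L 1))) = true := by
  decide +kernel

theorem c6_14 : cf false 6 14 10 64 80 41
    (C O (C (C (C O (C (L 2) (C (L 2) (C (C (B (C (C (L 2) (C (B (C (B (L 2) (L 2)) (B (B (L 6) (B
    (L 6) (L 6))) (C (L 2) (B (B (B (B (L 6) (L 10)) (B (L 10) (L 5))) (L 5)) (L 5))))) (L 2)) (B
    (C (B (L 1) (C (B (L 1) (L 5)) (L 1))) (L 1)) (B (L 5) (L 5))))) (L 1)) (B (B (L 5) (L 5)) (B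
    (L 5) O))) (L 1)) (L 1))))) (L 1)) (L 1))) = true := by
  decide +kernel

theorem c6_15 : cf false 6 15 10 64 104 41
    (C O (C (C (C O (C (L 2) (C (L 2) (C (C (B (C (L 2) (B (C (L 2) (B (B (L 6) (B (L 6) (L 6))) (C
    (L 2) (B (C (L 2) (B (C (L 2) (B (B (L 6) (L 10)) (C (L 2) (B (L 10) (L 2))))) (L 2))) (L
    2))))) (L 2))) (L 2)) (B (C (B (C (B (L 1) (C (B (C (B (C (B (L 1) (B (L 5) (L 5))) (L 1)) (L
    5)) (L 1)) (L 5)) (L 1))) (L 1)) (B (B (L 5) (L 5)) (L 5))) (L 1)) (B (B (L 5) (L 5)) (B (L 5)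
    O)))) (C (B (L 1) (L 1)) (L 1)))))) (L 1)) (L 1))) = true := by
  decide +kernel

theorem c6_16 : cf false 6 16 10 64 120 41
    (C O (C (C (C O (C (L 2) (C (L 2) (B (C (C (L 2) (C (B (C (L 2) (B (B (L 6) (B (L 6) (L 6))) (L
    2))) (L 2)) (B (C (B (C (B (L 1) (C (B (L 1) (L 6)) (L 1))) (L 1)) (B (C (B (C (B (B (L 6) (L
    10)) (B (L 10) (L 5))) (L 1)) (L 5)) (L 1)) (L 5))) (L 1)) (B (B (L 5) (L 5)) (L 5))))) (C (C
    (B (L 1) (C (B (L 1) (L 5)) (L 1))) (L 1)) (L 1))) (C (L 2) (C (B (B (L 5) (L 5)) (B (L 5) O))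
    (L 1))))))) (L 1)) (L 1))) = true := by
  decide +kernel

theorem c6_17 : cf false 6 17 10 64 72 41
    (C O (C (C (C O (C (L 2) (C (L 2) (C (C (L 2) (C (L 2) (B (B (C (C (L 2) (C (L 2) (C (L 2) (C
    (L 2) (C (B (B (L 6) (B (L 6) (L 6))) (C (L 2) (B (C (L 2) (B (C (L 2) (B (B (L 6) (L 10)) (L
    5))) (L 2))) (L 2)))) (B (L 1) (B (C (C (B (C (B (L 1) (L 5)) (L 1)) (L 5)) (L 1)) (L 1)) (L
    5)))))))) (L 1)) (B (B (L 5) (L 5)) (L 5))) (B (B (L 5) (L 5)) (L 5))))) (L 1))))) (L 1)) (L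
    1))) = true := by
  decide +kernel

theorem c6_18 : cf false 6 18 10 64 96 41
    (C O (C (C (C O (C (L 2) (C (L 2) (C (L 2) (C (B (C (C (B (C (B (C (L 2) (B (L 6) (L 2))) (L
    2)) (B (B (L 6) (B (L 6) (L 6))) (C (L 2) (B (B (B (B (L 6) (L 10)) (B (L 10) (L 5))) (L 5)) (L
    5))))) (L 2)) (B (C (B (L 1) (C (B (L 1) (L 5)) (L 1))) (L 1)) (B (L 5) (L 5)))) (L 1)) (B (B
    (L 5) (L 5)) (B (L 5) O))) (L 1)))))) (L 1)) (L 1))) = true := by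
  decide +kernel

theorem c6_19 : cf false 6 19 10 64 68 42
    (C O (C (C (C O (C (L 2) (C (L 2) (C (L 2) (C (C (C (L 2) (C (L 2) (B (C (C (L 2) (B (L 2) (C
    (L 2) (C (L 2) (B (L 2) (L 5)))))) (C (B (B (B (L 6) (B (L 6) (L 6))) (B (B (B (B (L 6) (L 10))
    (B (L 10) (L 5))) (L 5)) (L 5))) (C (B (L 5) (L 5)) (L 1))) (L 1))) (B (B (L 5) (L 5)) (L
    5))))) (L 1)) (L 1)))))) (L 1)) (L 1))) = true := by
  decide +kernel

theorem c6_20 : cf false 6 20 10 64 76 42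
    (C O (C (C (C O (C O (C (L 2) (C (L 2) (C (C (L 2) (C (L 2) (C (B (B (C (C (B (C (L 2) (B (L 6)
    (L 2))) (L 2)) (B (B (L 6) (B (L 6) (L 6))) (B (B (B (B (L 6) (L 10)) (B (L 10) (L 5))) (L 5))
    (L 5)))) (L 1)) (B (L 5) (L 5))) (C (L 2) (B (L 5) (L 2)))) (B (L 1) (C (B (L 5) (L 5)) (B (L
    1) (L 1))))))) (L 1)))))) (L 1)) (L 1))) = true := by
  decide +kernel

theorem c6_21 : cf false 6 21 10 64 84 42
    (C O (C (C (C O (C O (C (L 2) (C (L 2) (C (L 2) (C (B (C (C (B (C (B (L 2) (L 2)) (B (B (L 6)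
    (B (L 6) (L 6))) (C (L 2) (B (B (B (B (L 6) (L 10)) (B (L 10) (L 5))) (L 5)) (L 5))))) (L 2))
    (B (C (B (L 1) (C (B (L 1) (L 5)) (L 1))) (L 1)) (B (L 5) (L 5)))) (L 1)) (B (B (L 5) (L 5))
    O)) (L 1))))))) (L 1)) (L 1))) = true := by
  decide +kernel

theorem c6_22 : cf false 6 22 10 64 64 42
    (C O (C (C (C O (C O (C (L 2) (C (L 2) (C (L 2) (C (B (C (L 2) (C (C (B (C (L 2) (B (C (L 2) (B
    (L 2) (B (L 6) (L 6)))) (B (C (L 2) (B (B (B (L 6) (L 10)) (B (L 10) (L 5))) (L 5))) (L 5))))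
    (B (L 5) (L 5))) (B (C (B (B (L 6) (B (L 6) (L 1))) (L 1)) (L 1)) (L 1))) (L 1))) (B (B (L 5)
    (L 5)) O)) (L 1))))))) (L 1)) (L 1))) = true := by
  decide +kernel

theorem c6_23 : cf false 6 23 10 64 72 42
    (C O (C (C (C O (C O (C (L 2) (C (L 2) (C (L 2) (C (L 2) (C (C (C (B (L 2) (L 2)) (B (C (B (C
    (C (B (C (L 2) (B (L 6) (L 2))) (L 2)) (B (C (B (L 6) (B (L 6) (L 6))) (L 1)) (B (B (C (C (L 2)
    (B (B (L 6) (L 6)) (B (L 10) (L 5)))) (L 1)) (L 5)) (L 5)))) (L 1)) (B (L 5) (L 5))) (L 1)) (B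
    (L 5) O))) (L 1)) (L 1)))))))) (L 1)) (L 1))) = true := by
  decide +kernel

theorem c6_24 : cf false 6 24 10 64 64 42
    (C O (C (C (C O (C O (C (L 2) (C (L 2) (C (L 2) (C (L 2) (C (C (L 2) (B (C (L 2) (B (L 2) (C (L
    2) (B (L 5) (L 5))))) (B (L 5) O))) (C (B (C (B (C (B (C (L 2) (B (L 2) (B (L 6) (L 6)))) (B (C
    (L 2) (B (B (B (L 6) (L 10)) (B (L 10) (L 5))) (L 5))) (L 5))) (B (B (L 6) (C (B (L 6) (L 1))
    (L 1))) (L 1))) (C (C (B (L 5) (L 1)) (L 1)) (L 1))) (L 1)) (L 1)) (L 1))))))))) (C (L 1) (L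
    1))) (L 1))) = true := by
  decide +kernel

theorem c6_25 : cf false 6 25 10 64 76 42
    (C O (C (C (C O (C O (C (L 2) (C (L 2) (C (L 2) (C (L 2) (C (L 2) (C (L 2) (B (C (L 2) (C (L 2)
    (B (C (L 2) (B (C (L 2) (B (L 6) (L 2))) (L 2))) (L 2)))) (L 2)))))))))) (C (C (C (C (C (C (C
    (C (B (C (B (C (B (B (L 6) (B (L 6) (L 6))) (B (B (B (B (L 6) (L 10)) (B (L 10) (L 5))) (L 5))
    (L 5))) (L 1)) (B (L 5) (L 5))) (L 1)) (B (L 5) O)) (B (L 1) (C (B (L 1) O) (L 1)))) (L 1)) (L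
    1)) (L 1)) (L 1)) (L 1)) (L 1)) (L 1))) (L 1))) = true := by
  decide +kernel

theorem c6_26 : cf false 6 26 10 64 84 43
    (C O (C (C (C O (C O (L 2))) (C (C (C (C (C (C (C (B (C (L 2) (B (C (L 2) (B (B (L 6) (B (L 6)
    (L 6))) (C (L 2) (B (B (C (C (B (L 6) (L 2)) (B (L 6) (B (L 10) (L 5)))) (L 1)) (L 5)) (L
    5))))) (L 2))) (L 2)) (B (C (B (C (B (L 1) (C (B (L 1) (L 5)) (L 1))) (L 1)) (B (L 5) (L 5)))
    (L 1)) (B (L 5) O))) (L 1)) (L 1)) (L 1)) (L 1)) (L 1)) (L 1))) (L 1))) = true := by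
  decide +kernel

theorem c6_27 : cf false 6 27 10 64 64 43
    (C O (C (C (C O (C O (L 2))) (C (C (C (C (C (C (C (L 2) (C (B (C (L 2) (B (C (L 2) (B (B (L 6)
    (B (L 6) (L 6))) (C (B (C (C (L 2) (B (L 2) (L 5))) (B (B (L 6) (B (L 10) (L 5))) (L 5))) (L
    5)) (L 1)))) (B (L 5) (L 5)))) (B (L 5) O)) (L 1))) (L 1)) (L 1)) (L 1)) (L 1)) (L 1)) (L 1)))
    (L 1))) = true := by
  decide +kernel

theorem c6_28 : cf false 6 28 10 64 68 43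
    (C O (C (C (C O (C O (L 2))) (C (C (C (C (C (B (C (L 2) (C (C (C (B (C (C (L 2) (C (L 2) (B (L
    2) (L 2)))) (C (C (B (B (L 6) (L 6)) (B (B (B (L 6) (B (L 10) (L 5))) (L 5)) (L 5))) (B (C (B
    (L 6) (L 1)) (L 1)) (L 1))) (L 1))) (B (L 5) (L 5))) (L 1)) (L 1)) (L 1))) (B (B (C (L 2) (L
    5)) O) O)) (L 1)) (L 1)) (L 1)) (L 1)) (L 1))) (L 1))) = true := by
  decide +kernel

theorem c6_29 : cf false 6 29 10 64 68 43
    (C O (C (C (C O (C O (L 2))) (C (C (C (C (C (C (L 2) (C (C (L 2) (B (B (C (L 2) (C (C (C (B (B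
    (L 2) (L 6)) (B (C (C (L 2) (B (L 2) (L 5))) (C (B (B (L 6) (B (L 10) (L 10))) (L 5)) (L 1)))
    (L 5))) (B (B (L 6) (L 6)) (L 1))) (L 1)) (L 1))) (B (L 5) (L 5))) (B (L 5) O))) (L 1))) (L 1))
    (L 1)) (L 1)) (L 1)) (L 1))) (L 1))) = true := by
  decide +kernel

end Pool.Agent.BX
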