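import Mathlib
import Pool.Agent.BX.Real

set_option autoImplicit false
set_option maxRecDepth 100000

namespace Pool.Agent.BX

open Tr

theorem cg_6 : cg 6 30 12 64 132 132 47
    (C O (C (C (C O (L 2)) (C (C (C (C (L 2) (A (L 2) (C (B (A (L 2) (L 2)) (L 2)) (B (A (C (L 2)
    (A (B (C (L 2) (A (L 2) (B (C (A (L 2) (B (L 2) (L 2))) (A (B (B (L 6) (L 6)) (L 2)) (B (B (L
    6) (B (L 6) (L 6))) (C (L 2) (A (B (L 6) (L 2)) (B (B (L 6) (L 6)) (C (L 2) (A (B (L 6) (L 2))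
    (B (L 6) (C (L 2) (A (B (L 6) (L 2)) (B (B (L 6) (L 10)) (B (L 10) (L 2)))))))))))))) (L 2))))
    O) (B (C (A (B (C (L 2) (A (L 2) (B (B (L 6) (L 2)) (L 2)))) (L 2)) (B (C (A (L 2) (B (B (L 6)
    (L 6)) (L 2))) (A (B (B (L 6) (L 6)) (C (L 2) (A (L 2) (B (L 6) (L 2))))) (B (B (L 6) (B (L 6)
    (L 6))) (B (B (L 6) (C (L 6) (B (L 6) (L 6)))) (C (A (L 2) (C (L 2) (A (L 2) (B (L 6) (L 2)))))
    (B (B (A (L 6) (L 6)) (A (L 6) (C (L 6) (L 6)))) (A (C (L 2) (A (L 2) (B (L 6) (B (L 6) (C (L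
    2) (L 6)))))) (B (C (L 6) (B (A (L 6) (L 6)) (A (L 6) (C (L 6) (L 1))))) (C (A (L 2) (B (L 6)
    (L 6))) (B (A (C (L 6) (B (L 6) (L 6))) (B (L 10) (L 10))) (A (B (L 10) (L 10)) (B (L 10) (L
    10))))))))))))) (C (L 2) (A (L 2) (B (C (L 2) (A (L 2) (B (C (A (L 2) (B (C (L 2) (A (L 2) (B
    (B (L 10) (L 2)) (L 2)))) (L 2))) (A (B (C (L 2) (A (B (B (L 10) (L 10)) (L 2)) (B (B (L 10) (L
    10)) (L 5)))) (L 2)) (B (B (B (B (L 10) (L 10)) (B (L 10) (L 10))) (B (B (L 10) (L 5)) (L 5)))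
    (L 5)))) (C (L 2) (A (L 2) (L 2)))))) (L 2)))))) (A (B (B (B (C (B (L 6) (A (L 6) (L 6))) (A (L
    6) (L 1))) (C (B (A (L 6) (L 6)) (A (L 6) (L 6))) (A (B (L 6) (C (L 6) (L 6))) (L 1)))) (B (C
    (A (C (L 2) (A (L 2) (L 6))) (B (C (L 6) (L 6)) (C (L 6) (B (L 6) (L 6))))) (A (B (C (L 6) (B
    (L 6) (A (L 6) (L 1)))) (C (B (L 6) (A (L 6) (L 6))) (A (B (L 6) (L 6)) (L 1)))) (C (A (B (L 6)
    (B (L 6) (L 6))) (L 1)) (L 1)))) (C (A (L 2) (C (L 2) (A (C (L 2) (A (L 2) (B (L 6) (L 2)))) (B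
    (B (L 6) (C (L 6) (B (L 6) (L 6)))) (C (L 2) (B (B (A (L 6) (L 6)) (A (L 6) (C (L 6) (B (L 6)
    (L 10))))) (A (C (L 2) (A (L 2) (B (L 10) (L 10)))) (B (B (L 10) (L 10)) (B (L 10) (L
    10)))))))))) (A (B (C (B (A (L 6) (L 6)) (A (L 2) (C (L 2) (B (L 6) (L 6))))) (A (B (C (L 6) (B
    (L 6) (L 6))) (C (B (L 6) (L 6)) (B (A (L 6) (L 1)) (A (L 6) (C (L 6) (L 1)))))) (C (A (B (L 6)
    (B (L 6) (L 6))) (L 1)) (L 1)))) (C (A (L 2) (C (L 2) (A (C (L 2) (A (L 2) (B (L 6) (L 2)))) (C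
    (A (L 2) (B (L 6) (L 2))) (B (B (L 6) (B (L 6) (L 10))) (B (B (L 10) (L 10)) (B (L 10) (L
    10)))))))) (A (C (A (L 2) (C (A (L 2) (B (L 6) (L 2))) (A (B (L 6) (L 2)) (B (B (L 6) (L 10))
    (B (L 10) (L 10)))))) (A (B (B (C (L 6) (B (L 10) (L 10))) (B (L 10) (L 10))) (B (B (L 10) (L
    10)) (B (L 10) (L 10)))) (C (A (B (B (L 6) (L 10)) (B (L 10) (L 10))) (B (C (A (L 10) (L 1)) (L
    1)) (B (L 10) (L 5)))) (A (B (L 1) (B (L 1) (L 5))) (L 1))))) (C (A (B (B (C (L 6) (A (L 6) (L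
    1))) (B (L 10) (L 10))) (B (B (L 10) (L 10)) (B (L 10) (L 10)))) (C (A (B (B (L 6) (L 10)) (B
    (L 10) (L 10))) (B (L 1) (B (L 1) (L 5)))) (L 1))) (L 1))))) (C (A (B (B (C (L 6) (A (L 6) (L
    1))) (C (B (L 6) (L 6)) (A (B (L 6) (L 6)) (L 1)))) (B (C (B (A (L 6) (L 6)) (A (L 6) (C (L 6)
    (B (L 6) (L 10))))) (A (B (C (L 6) (L 1)) (B (L 10) (L 10))) (L 1))) (B (C (A (C (L 2) (A (L 2)
    (L 10))) (B (L 10) (L 10))) (A (B (L 10) (L 10)) (C (B (L 10) (L 10)) (L 1)))) (C (A (L 2) (B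
    (L 10) (L 10))) (A (B (L 10) (L 10)) (B (L 10) (L 10))))))) (C (A (B (C (L 6) (L 1)) (C (B (B
    (L 6) (B (L 6) (L 10))) (B (B (L 10) (L 10)) (B (L 10) (L 10)))) (A (B (L 1) (B (L 10) (L 10)))
    (L 1)))) (B (L 1) (C (A (B (L 1) (B (L 1) (L 10))) (L 1)) (L 1)))) (L 1))) (L 1)))))) (C (A (L
    2) (B (C (L 2) (A (L 2) (B (C (L 2) (A (L 2) (B (C (L 2) (B (B (B (L 10) (L 10)) (L 5)) (L 5)))
    (L 2)))) (L 2)))) (L 2))) (A (B (C (A (L 2) (B (C (L 2) (A (L 2) (B (C (L 2) (A (L 2) (B (B (L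
    5) (L 5)) (L 2)))) (L 2)))) (L 2))) (A (B (C (A (L 2) (B (C (L 2) (A (L 2) (B (C (L 2) (L 5))
    (L 2)))) (L 2))) (B (B (B (A (B (L 10) (L 10)) (L 5)) (A (L 5) (L 5))) (B (L 5) (L 5))) (B (L
    5) (L 5)))) (L 2)) (B (B (B (C (B (A (B (L 10) (L 10)) (L 5)) (A (L 5) (L 5))) (B (L 5) (L 5)))
    (C (B (L 5) (L 5)) (L 5))) (B (L 5) (L 5))) (B (L 5) (L 5))))) (C (L 2) (A (L 2) (B (L 5) O))))
    (B (B (B (C (B (A (C (A (L 2) (C (L 2) (B (B (L 10) (L 10)) (L 5)))) (B (A (B (L 10) (L 10)) (L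
    5)) (A (L 5) (L 5)))) (C (B (A (B (L 10) (L 10)) (L 5)) (A (L 5) (L 5))) (L 1))) (A (C (A (L 2)
    (C (L 2) (L 5))) (B (L 5) (L 5))) (C (B (L 5) (L 5)) (L 5)))) (A (C (B (B (L 1) (L 5)) (L 5))
    (L 1)) (L 1))) (C (B (A (C (L 2) (L 5)) (L 5)) (A (L 5) (L 5))) (B (A (L 5) (L 1)) (L 5)))) (B
    (C (B (A (L 5) (L 5)) (L 5)) (L 5)) (C (L 5) (L 5)))) (B (B (L 5) (L 5)) (L 5)))))) (B (C (A (B
    (C (B (L 6) (L 6)) (L 1)) (B (B (C (L 6) (L 1)) (C (B (L 6) (L 6)) (A (B (L 6) (L 6)) (L 1))))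
    (B (C (B (A (L 6) (L 6)) (A (L 6) (C (L 6) (L 6)))) (A (B (C (L 6) (L 1)) (C (B (L 6) (L 6)) (A
    (C (L 6) (L 1)) (L 1)))) (L 1))) (C (A (C (L 2) (A (L 2) (C (L 2) (A (L 2) (B (L 6) (L 2))))))
    (B (C (L 6) (B (A (L 6) (L 6)) (A (L 6) (C (L 6) (A (L 6) (L 1)))))) (C (A (L 2) (C (L 2) (A (L
    2) (L 6)))) (B (A (C (L 2) (B (L 6) (L 10))) (B (L 10) (L 10))) (A (B (L 10) (L 10)) (B (L 10)
    (L 10))))))) (A (C (B (B (A (L 6) (L 6)) (A (L 6) (C (L 6) (B (L 6) (L 10))))) (A (C (L 2) (A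
    (C (L 2) (B (L 6) (L 2))) (B (L 10) (L 10)))) (B (B (L 10) (L 10)) (B (L 10) (L 10))))) (A (C
    (A (B (L 6) (B (L 10) (L 10))) (B (L 1) (B (L 10) (L 10)))) (A (B (L 1) (C (B (L 1) (L 10)) (L
    1))) (L 1))) (L 1))) (C (A (C (A (B (L 6) (B (L 10) (L 10))) (B (L 1) (B (L 1) (L 10)))) (L 1))
    (L 1)) (L 1))))))) (B (L 1) (C (A (B (C (B (L 1) (L 6)) (L 1)) (C (B (B (L 6) (L 6)) (B (B (A
    (L 6) (L 6)) (A (L 6) (C (L 6) (L 1)))) (B (A (C (L 6) (B (L 6) (L 6))) (B (L 10) (L 10))) (A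
    (B (L 10) (L 10)) (B (L 10) (L 10)))))) (A (B (L 1) (C (A (B (L 1) (B (L 10) (L 10))) (L 1)) (L
    1))) (L 1)))) (B (L 1) (C (A (B (L 1) (C (A (B (L 1) (B (L 1) (L 10))) (L 1)) (L 1))) (L 1)) (L
    1)))) (L 1)))) (L 1)) (B (C (B (B (A (C (A (L 2) (C (L 2) (A (C (L 2) (A (L 2) (B (B (L 10) (L
    10)) (L 2)))) (B (B (B (L 10) (L 10)) (B (L 10) (L 10))) (B (C (L 10) (L 5)) (L 5)))))) (B (A
    (C (A (C (L 2) (A (L 2) (B (L 10) (L 2)))) (B (B (L 10) (L 10)) (B (L 10) (L 10)))) (B (A (B (L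
    10) (L 10)) (L 5)) (A (L 5) (L 5)))) (C (B (A (B (L 10) (L 10)) (L 1)) (A (C (L 5) (L 5)) (L
    5))) (L 1))) (A (C (A (L 2) (B (C (L 2) (L 5)) (L 5))) (B (L 5) (L 5))) (C (B (L 5) (L 5)) (L
    1))))) (C (A (B (C (B (A (B (L 10) (L 10)) (B (L 10) (L 10))) (A (B (L 10) (L 10)) (B (L 10) (L
    10)))) (A (B (B (L 10) (L 10)) (C (L 10) (L 1))) (L 1))) (C (A (C (L 2) (A (L 2) (L 5))) (B (B
    (L 10) (L 5)) (L 5))) (B (L 5) (L 5)))) (C (A (B (C (B (B (L 10) (L 10)) (L 10)) (L 1)) (L 5))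
    (C (A (B (L 1) (L 5)) (L 1)) (L 1))) (L 1))) (L 1))) (A (C (A (L 2) (C (L 2) (A (L 2) (L 5))))
    (B (A (C (A (L 2) (L 5)) (L 5)) (L 5)) (A (L 5) (L 5)))) (C (B (A (C (B (A (L 2) (L 5)) (L 5))
    (L 5)) (L 5)) (A (L 5) (L 5))) (A (L 5) (L 1))))) (B (A (C (L 2) (B (A (L 5) (L 5)) (L 5))) (C
    (B (A (L 5) (L 5)) (L 5)) (L 5))) (A (C (L 2) (L 5)) (C (L 5) (L 5))))) (A (C (A (B (C (A (B (L
    5) (L 5)) (L 1)) (L 1)) (L 5)) (B (L 1) (L 5))) (L 1)) (L 1))) (B (C (B (A (C (L 2) (L 5)) (L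
    5)) (A (L 5) (L 5))) (B (A (L 5) (L 1)) (A (L 5) (L 5)))) (C (B (A (L 2) (L 5)) (A (L 2) (L
    5))) (B (L 5) (L 5)))))))) (C (L 2) (A O (B (C (A (L 2) (B (B (L 5) (L 2)) O)) (B (B (B (L 5)
    (L 5)) (L 5)) O)) O)))))) (C (B (A (C (L 2) (A (B (C (L 2) (A (L 2) (B (B (L 6) (L 6)) (L 2))))
    (L 2)) (B (C (A (L 2) (B (B (L 6) (L 6)) (L 2))) (B (B (B (L 6) (L 6)) (B (A (L 6) (L 6)) (A (L
    6) (L 6)))) (B (B (A (L 6) (L 6)) (A (L 6) (C (L 6) (L 6)))) (A (C (L 2) (A (L 2) (B (L 6) (L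
    6)))) (B (C (L 6) (B (L 6) (A (L 6) (L 6)))) (C (A (L 2) (L 6)) (B (A (L 6) (C (L 6) (L 1))) (A
    (C (L 6) (L 6)) (C (L 6) (A (L 6) (L 1))))))))))) (C (L 2) (A (L 2) (B (C (L 2) (A (B (C (L 2)
    (A (B (C (L 2) (A (L 2) (B (L 6) (L 2)))) (L 2)) (B (B (B (L 6) (B (L 6) (L 10))) (B (B (L 10)
    (L 10)) (B (L 10) (L 10)))) (C (L 2) (A (B (L 10) (L 2)) (B (L 10) (L 5))))))) (L 2)) (B (C (A
    (B (C (L 2) (A (B (L 6) (L 2)) (B (L 6) (L 10)))) (L 2)) (B (B (B (L 6) (C (L 6) (L 10))) (B (B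
    (L 10) (L 10)) (B (L 10) (L 10)))) (C (L 2) (B (B (L 10) (L 5)) (L 5))))) (A (B (C (B (B (L 6)
    (L 10)) (B (L 10) (L 10))) (A (B (L 1) (L 10)) (L 1))) (B (B (L 10) (L 5)) (L 5))) (B (C (A (B
    (L 1) (L 10)) (L 1)) (L 1)) (B (B (L 5) (L 5)) (L 5))))) (B (B (C (L 2) (L 5)) (L 5)) (L 5)))))
    (L 2))))))) (C (B (A (C (L 2) (A (B (L 6) (L 2)) (B (L 6) (C (L 2) (A (L 2) (B (L 6) (L
    2))))))) (B (B (C (L 6) (B (L 6) (L 6))) (C (B (L 6) (L 6)) (B (L 6) (A (L 6) (L 6))))) (C (A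
    (L 2) (C (L 2) (A (L 2) (B (L 6) (L 2))))) (B (B (A (L 6) (L 6)) (A (L 6) (L 6))) (B (A (L 6)
    (C (L 6) (B (L 6) (L 6)))) (A (C (L 2) (B (L 6) (L 6))) (C (L 6) (B (L 6) (A (L 6) (L
    6)))))))))) (A (L 2) (C (L 2) (B (A (C (L 2) (A (L 2) (B (C (L 2) (A (L 2) (B (L 6) (L 2)))) (L
    2)))) (C (A (L 2) (B (C (L 2) (A (L 2) (B (L 6) (L 2)))) (L 2))) (A (B (C (A (L 2) (B (L 6) (L
    2))) (B (B (L 6) (B (L 6) (C (L 6) (A (L 6) (L 6))))) (A (C (L 2) (A (B (L 10) (L 2)) (B (L 10)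
    (L 10)))) (B (B (B (L 10) (L 10)) (L 10)) (B (L 10) (L 10)))))) (C (L 2) (A (L 2) (B (B (B (L
    10) (L 5)) (L 5)) (L 2))))) (B (C (B (B (L 6) (B (L 6) (C (L 6) (L 6)))) (A (C (L 2) (A (B (L
    6) (L 2)) (B (L 10) (L 10)))) (B (B (B (L 6) (L 10)) (L 10)) (B (L 10) (L 10))))) (A (B (C (B
    (L 1) (L 6)) (L 1)) (C (B (B (L 10) (L 10)) (B (L 10) (L 10))) (A (B (L 1) (L 10)) (L 1)))) (B
    (L 1) (C (A (B (L 1) (L 10)) (L 1)) (L 1))))) (B (B (C (A (L 2) (B (L 10) (L 5))) (B (A (L 5)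
    (L 5)) (L 5))) (C (A (L 2) (L 5)) (L 5))) (B (L 5) (L 5))))))) (A (L 2) (C (L 2) (A (L 2) (B (L
    5) (L 2))))))))) (B (A (C (B (B (B (L 6) (L 6)) (B (L 6) (A (L 6) (L 6)))) (B (B (A (L 6) (L
    6)) (A (L 6) (L 6))) (B (A (L 6) (C (L 6) (B (L 6) (L 6)))) (A (C (L 2) (B (L 6) (A (L 2) (L
    6)))) (C (B (L 6) (L 6)) (B (A (L 6) (L 6)) (A (L 6) (C (L 6) (L 1))))))))) (A (B (C (A (L 6)
    (L 1)) (L 1)) (C (B (B (L 6) (L 6)) (B (B (L 6) (A (L 6) (L 6))) (B (A (L 6) (L 6)) (A (L 6) (C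
    (L 6) (A (L 6) (L 1))))))) (A (B (L 1) (C (A (B (L 1) (B (L 1) (L 6))) (L 1)) (L 1))) (L 1))))
    (L 1))) (C (A (B (L 1) (C (A (B (L 6) (B (L 6) (L 6))) (B (L 1) (B (L 6) (B (L 6) (C (L 6) (L
    1)))))) (L 1))) (L 1)) (L 1))) (B (A (C (A (C (L 2) (A (L 2) (B (C (L 2) (A (L 2) (B (C (L 2)
    (B (L 6) (L 2))) (L 2)))) (L 2)))) (C (A (L 2) (B (C (L 2) (A (L 2) (B (L 6) (L 2)))) (L 2)))
    (A (B (C (A (L 2) (B (B (L 6) (L 2)) (L 2))) (A (B (B (L 6) (B (L 6) (B (L 6) (L 10)))) (C (L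
    2) (A (L 2) (B (L 10) (L 2))))) (B (B (L 6) (B (B (L 6) (L 10)) (B (L 10) (L 10)))) (C (A (L 2)
    (B (L 10) (L 2))) (B (B (L 10) (L 10)) (B (L 5) (L 5))))))) (C (L 2) (A (L 2) (B (B (L 5) (L
    2)) (L 2))))) (B (B (B (C (B (L 6) (L 6)) (A (C (L 6) (L 1)) (L 1))) (C (B (A (L 6) (L 6)) (A
    (L 6) (B (L 10) (L 10)))) (A (B (B (L 10) (L 10)) (B (L 10) (L 10))) (L 1)))) (B (B (C (A (B (L
    10) (L 10)) (L 10)) (A (L 10) (L 1))) (C (A (L 10) (L 10)) (A (L 10) (L 10)))) (C (A (L 2) (B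
    (L 10) (L 10))) (B (A (L 10) (L 5)) (L 5))))) (B (B (C (A (L 2) (L 5)) (L 5)) (C (L 2) (L 5)))
    (L 5)))))) (A (B (C (A (C (L 2) (A (B (B (L 6) (C (L 2) (A (L 2) (L 10)))) (L 2)) (B (B (B (L
    6) (L 6)) (B (B (L 10) (L 10)) (B (L 10) (L 10)))) (C (L 2) (B (B (L 10) (L 10)) (L 5)))))) (B
    (B (C (B (L 6) (A (L 6) (L 6))) (A (C (L 6) (L 1)) (L 1))) (B (C (A (L 6) (B (L 6) (L 10))) (A
    (B (L 10) (L 10)) (L 1))) (C (A (B (L 6) (L 10)) (B (L 10) (L 10))) (A (B (L 10) (L 10)) (B (L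
    1) (L 10)))))) (B (B (C (A (L 2) (L 10)) (A (L 10) (L 10))) (C (A (L 2) (L 10)) (A (L 10) (L
    5)))) (C (A (L 2) (C (L 2) (L 5))) (B (A (L 5) (L 5)) (L 5)))))) (A (C (A (B (C (B (B (L 6) (L
    6)) (B (L 10) (L 10))) (A (B (L 1) (L 10)) (L 1))) (B (B (L 10) (L 10)) (L 5))) (B (C (A (B (L
    1) (L 10)) (L 1)) (L 1)) (B (B (L 10) (L 5)) (L 5)))) (A (B (L 1) (B (L 1) (L 5))) (L 1))) (C
    (A (B (L 1) (C (B (L 1) (L 5)) (L 1))) (L 1)) (L 1)))) (B (C (A (L 2) (B (C (A (L 2) (L 5)) (L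
    5)) (L 5))) (B (A (L 5) (L 5)) (A (L 5) (L 5)))) (C (A (L 2) (L 5)) (B (L 5) (L 5))))) (C (A (B
    (C (A (B (C (B (L 6) (B (L 10) (L 10))) (L 1)) (B (B (L 10) (L 10)) (B (L 5) (L 5)))) (B (L 1)
    (B (C (A (L 10) (L 1)) (L 1)) (L 5)))) (L 1)) (B (B (L 5) (L 5)) (L 5))) (B (L 1) (B (L 5) (L
    5)))) (A (B (L 1) (L 5)) (L 1))))) (C (A (B (C (B (B (A (C (L 6) (L 6)) (C (L 6) (A (L 6) (L
    1)))) (A (C (L 6) (B (A (L 6) (L 6)) (A (L 6) (B (L 6) (L 10))))) (C (B (L 6) (A (L 6) (B (L 6)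
    (L 10)))) (A (C (B (L 6) (L 10)) (L 1)) (L 1))))) (A (C (L 2) (A (C (L 2) (A (L 2) (B (L 10) (L
    2)))) (B (B (B (L 10) (L 10)) (L 10)) (B (L 10) (L 10))))) (B (B (C (A (B (L 6) (L 10)) (B (L
    10) (L 10))) (A (L 10) (L 1))) (C (A (L 10) (L 10)) (A (L 10) (L 1)))) (B (C (A (L 10) (L 10))
    (A (L 10) (L 5))) (C (A (L 2) (L 10)) (A (L 5) (L 5))))))) (A (C (A (B (C (B (L 6) (B (L 6) (L
    10))) (L 1)) (B (B (L 10) (L 10)) (B (L 10) (L 5)))) (B (L 1) (C (A (B (L 10) (L 5)) (B (L 1)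
    (L 5))) (L 1)))) (L 1)) (L 1))) (B (C (A (C (L 2) (A (L 2) (B (B (L 5) (L 5)) (L 2)))) (B (C (A
    (L 2) (B (L 10) (L 5))) (B (L 5) (L 5))) (C (A (L 2) (L 5)) (L 5)))) (B (A (C (L 5) (L 5)) (L
    5)) (A (L 5) (L 5)))) (C (A (L 2) (B (L 5) (L 5))) (B (L 5) (L 5))))) (C (A (B (C (A (B (C (B
    (L 1) (B (L 6) (L 6))) (L 1)) (B (B (L 10) (L 10)) (B (L 10) (L 10)))) (B (L 1) (C (A (B (L 1)
    (L 10)) (L 1)) (L 1)))) (L 1)) (B (B (C (B (L 5) (L 5)) (L 1)) (L 5)) (L 5))) (B (L 1) (B (B (L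
    1) (L 5)) (L 5)))) (L 1))) (L 1))) (B (A (C (A (L 2) (C (L 2) (A (L 2) (L 5)))) (B (A (C (L 2)
    (L 5)) (L 5)) (A (L 5) (L 5)))) (C (B (A (C (A (L 2) (L 5)) (L 5)) (L 5)) (A (L 5) (L 5))) (A
    (L 5) (L 1)))) (A (C (L 2) (B (A (L 5) (L 5)) (A (L 5) (L 5)))) (C (B (A (L 5) (L 5)) (A (L 5)
    (L 5))) (B (L 5) (L 5))))))))) (A (L 2) (C (L 2) (B (A (C (L 2) (A (L 2) (B (B (L 5) (L 5)) (L
    2)))) (B (B (C (B (L 5) (L 5)) (B (L 5) (L 5))) (C (B (L 5) (L 5)) (L 5))) (B (C (L 5) (L 5))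
    (L 5)))) (A (L 2) (C (L 2) (B (L 5) (L 5)))))))) (B (A (C (A (B (C (B (B (B (L 6) (L 6)) (B (A
    (L 6) (L 6)) (A (L 6) (L 6)))) (A (C (L 2) (A (B (L 6) (L 2)) (B (L 6) (C (L 2) (A (L 2) (B (L
    6) (L 2))))))) (B (B (L 6) (C (L 6) (B (L 6) (L 6)))) (B (C (B (L 6) (L 6)) (B (A (L 6) (L 6))
    (A (L 6) (L 6)))) (C (A (L 2) (C (L 2) (L 6))) (B (A (L 6) (C (L 6) (B (L 6) (A (L 6) (L 1)))))
    (A (C (L 2) (B (L 6) (A (L 2) (L 6)))) (C (B (L 6) (A (L 6) (L 6))) (A (B (L 6) (C (L 6) (B (L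
    6) (L 10)))) (C (A (L 6) (L 1)) (L 1))))))))))) (A (B (C (B (L 1) (L 6)) (L 1)) (C (B (B (L 6)
    (B (L 6) (L 6))) (B (B (A (L 6) (L 6)) (A (L 6) (L 6))) (B (A (L 6) (C (L 6) (B (L 6) (A (L 6)
    (L 6))))) (A (C (L 2) (B (L 6) (A (L 2) (L 6)))) (C (B (L 6) (A (L 2) (L 6))) (B (A (L 6) (C (L
    6) (L 1))) (A (B (L 10) (L 10)) (B (L 10) (L 10))))))))) (A (B (L 1) (C (A (B (L 6) (B (L 6) (B
    (L 6) (B (L 10) (L 10))))) (B (L 1) (C (B (L 6) (B (L 6) (B (L 10) (L 10)))) (L 1)))) (L 1)))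
    (L 1)))) (B (L 1) (C (A (B (L 1) (C (A (B (L 6) (B (L 6) (B (L 6) (B (L 6) (L 10))))) (B (L 1)
    (C (A (B (L 1) (L 6)) (L 1)) (L 1)))) (L 1))) (L 1)) (L 1))))) (C (A (L 2) (B (C (L 2) (A (B (C
    (L 2) (A (L 2) (B (C (L 2) (A (B (B (L 6) (L 2)) (L 2)) (B (B (L 10) (L 10)) (L 10)))) (L 2))))
    (L 2)) (B (C (A (L 2) (B (C (A (L 2) (B (L 6) (L 2))) (A (B (B (L 6) (L 10)) (L 2)) (B (B (L 6)
    (L 10)) (L 10)))) (L 2))) (B (B (A (B (B (L 10) (L 10)) (B (L 10) (L 10))) (C (B (B (L 10) (L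
    10)) (L 10)) (L 1))) (B (A (B (L 10) (L 10)) (B (L 10) (L 10))) (A (B (L 10) (L 10)) (B (L 5)
    (L 5))))) (B (B (A (L 10) (L 5)) (L 5)) (L 5)))) (C (L 2) (B (L 5) (L 2)))))) (L 2))) (B (B (A
    (B (C (A (C (L 2) (A (L 2) (C (L 2) (A (L 2) (B (B (L 10) (L 10)) (L 2)))))) (C (A (L 2) (C (L
    2) (A (B (C (L 2) (L 10)) (L 2)) (B (B (L 10) (L 10)) (L 10))))) (B (B (A (B (L 10) (L 10)) (B
    (L 10) (L 10))) (A (B (L 10) (L 10)) (B (L 10) (L 10)))) (B (A (B (L 10) (L 10)) (B (L 10) (L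
    10))) (A (B (L 10) (L 10)) (L 5)))))) (A (B (C (B (A (B (L 10) (L 10)) (B (L 10) (L 10))) (A (B
    (L 10) (L 10)) (B (L 10) (L 10)))) (A (C (A (L 10) (L 1)) (L 1)) (L 1))) (C (B (A (B (L 10) (L
    10)) (B (L 10) (L 5))) (A (B (L 10) (L 5)) (L 5))) (B (A (L 5) (L 1)) (L 5)))) (C (A (C (A (B
    (L 10) (L 5)) (B (L 1) (L 5))) (L 1)) (L 1)) (L 1)))) (C (A (L 2) (C (L 2) (B (B (A (L 5) (L
    5)) (L 5)) (L 5)))) (B (A (C (B (A (L 5) (L 5)) (L 5)) (L 5)) (L 5)) (A (L 5) (L 5))))) (C (A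
    (B (C (B (B (A (B (L 10) (L 10)) (B (L 10) (L 10))) (A (B (L 10) (L 10)) (B (L 10) (L 10)))) (B
    (A (B (L 10) (L 10)) (B (L 10) (L 10))) (A (B (L 10) (L 10)) (L 5)))) (A (C (A (B (L 1) (L 5))
    (L 1)) (L 1)) (L 1))) (B (C (B (A (L 5) (L 5)) (L 5)) (L 5)) (L 5))) (C (A (B (C (A (B (L 1) (L
    5)) (L 1)) (L 1)) (L 5)) (B (L 1) (L 5))) (L 1))) (L 1))) (B (A (C (A (L 2) (C (L 2) (L 5))) (B
    (A (L 5) (L 5)) (L 5))) (C (B (A (L 5) (L 5)) (L 5)) (L 5))) (A (C (L 2) (L 5)) (C (L 5) (L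
    5))))) (B (B (A (C (L 2) (L 5)) (L 5)) (A (L 5) (L 5))) (B (A (L 5) (L 5)) (A (L 2) (L 5)))))))
    (B (C (A (B (C (A (L 6) (L 1)) (L 1)) (C (B (B (L 6) (B (L 6) (L 6))) (B (B (L 6) (A (L 6) (L
    6))) (B (A (L 6) (C (L 6) (B (L 6) (L 6)))) (A (C (L 2) (B (L 6) (L 6))) (C (B (L 6) (L 6)) (A
    (B (L 6) (C (L 6) (L 1))) (L 1))))))) (A (B (L 1) (C (A (B (L 1) (B (L 6) (B (L 6) (C (L 6) (L
    1))))) (L 1)) (L 1))) (L 1)))) (B (L 1) (C (A (B (L 1) (C (A (B (L 1) (B (L 6) (B (L 6) (L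
    6)))) (L 1)) (L 1))) (L 1)) (L 1)))) (L 1)) (C (B (A (B (B (C (A (C (L 2) (A (C (L 2) (A (L 2)
    (B (L 6) (L 2)))) (C (A (L 2) (B (L 6) (L 2))) (B (B (L 6) (L 10)) (B (L 10) (L 10)))))) (B (C
    (B (A (L 6) (L 6)) (A (L 6) (B (L 10) (L 10)))) (A (B (B (L 10) (L 10)) (B (L 10) (L 10))) (C
    (A (B (L 1) (L 10)) (L 1)) (L 1)))) (B (C (A (L 2) (B (L 10) (L 10))) (A (B (L 10) (L 10)) (B
    (L 10) (L 10)))) (C (A (L 2) (B (L 10) (L 10))) (A (B (L 10) (L 10)) (B (L 10) (L 5))))))) (A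
    (C (A (B (B (B (L 10) (L 10)) (B (L 10) (L 10))) (B (B (L 10) (L 10)) (B (L 10) (L 10)))) (C (A
    (B (B (L 10) (L 10)) (L 10)) (B (L 1) (L 10))) (L 1))) (A (C (A (B (L 1) (L 5)) (L 1)) (L 1))
    (L 1))) (L 1))) (C (A (C (L 2) (A (L 2) (C (L 2) (A (L 2) (B (L 5) (L 2)))))) (B (C (A (L 2) (C
    (L 2) (B (L 10) (L 5)))) (B (A (L 10) (L 5)) (A (L 5) (L 5)))) (C (L 2) (L 5)))) (B (A (C (B (A
    (L 10) (L 5)) (A (L 5) (L 5))) (L 5)) (C (L 5) (L 1))) (A (C (L 5) (L 5)) (L 5))))) (B (C (A (L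
    2) (B (C (L 2) (L 5)) (L 5))) (B (A (L 5) (L 5)) (L 5))) (C (A (L 2) (L 5)) (L 5)))) (C (A (B
    (C (B (A (B (B (B (L 10) (L 10)) (B (L 10) (L 10))) (B (B (L 10) (L 10)) (B (L 10) (L 10)))) (C
    (A (B (B (L 1) (L 10)) (L 10)) (L 1)) (L 1))) (B (B (A (L 10) (L 5)) (A (L 5) (L 5))) (B (L 5)
    (L 5)))) (A (B (L 1) (L 5)) (L 1))) (B (L 5) (L 5))) (B (C (A (B (L 1) (L 5)) (L 1)) (L 1)) (B
    (L 5) (L 5)))) (A (B (L 1) (L 5)) (L 1)))) (B (B (A (C (L 2) (L 5)) (L 5)) (A (L 5) (L 5))) (B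
    (A (L 5) (L 5)) (A (L 5) (L 5))))) (A (B (C (A (B (L 1) (L 5)) (L 1)) (L 1)) (B (L 5) (L 5)))
    (B (L 1) (C (B (L 1) (L 5)) (L 1))))))) (A (B (L 1) (C (A (B (C (A (B (C (A (B (L 1) (L 5)) (L
    1)) (L 1)) (L 5)) (L 1)) (L 1)) (B (L 5) (L 5))) (B (L 1) (B (L 1) (L 5)))) (L 1))) (L 1))) (C
    (A (B (L 1) (C (A (B (C (A (B (L 1) (L 5)) (L 1)) (L 1)) (B (L 5) (L 5))) (B (L 1) (C (A (L 5)
    (L 1)) (L 1)))) (L 1))) (L 1)) (L 1))) (B (A (B (C (A (C (L 2) (A (L 2) (B (L 5) (L 5)))) (B (C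
    (B (L 5) (L 5)) (B (L 5) (L 5))) (C (B (L 5) (L 5)) (L 5)))) (A (B (C (B (L 5) (L 5)) (L 5)) (C
    (L 5) (L 5))) (C (A (L 5) (L 1)) (L 1)))) (C (A (L 2) (B (C (L 2) (L 5)) (L 5))) (B (A (L 5) (L
    5)) (A O (L 5))))) (C (A (B (B (C (B (L 5) (L 5)) (L 1)) (L 5)) (B (L 5) (L 5))) (C (A (B (L 5)
    (L 5)) (B (L 1) (L 1))) (L 1))) (L 1))) (B (A (C (A O (B (L 5) O)) (B (A O (L 5)) O)) (C (B (A
    (L 5) (L 5)) (A (L 5) (L 5))) (A (L 5) (L 1)))) (A O (C (B (A (L 5) (L 5)) (A O (L 5))) (B (L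
    5) (L 5))))))))) (A O (C (L 2) (B (A O (B (B (C (B (A O (L 5)) O) (B (L 5) O)) O) O)) O)))))))
    (C (A (C (A (B (C (L 2) (A (L 2) (B (C (L 2) (A (B (C (L 2) (A (L 2) (B (C (L 2) (A (L 2) (B (L
    6) O))) O))) O) (B (C (A (L 2) (B (B (B (L 6) (L 6)) (B (L 6) O)) O)) (A (B (B (B (L 6) (L 6))
    O) O) (B (C (B (B (L 6) (L 6)) (B (B (L 6) O) O)) (A (B (L 1) O) (L 1))) O))) O))) O))) O) (B
    (C (A (B (C (L 2) (A (L 2) (B (C (L 2) (A (L 2) (B (C (L 2) (A (L 2) (B (L 6) (L 2)))) (L 2))))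
    O))) O) (B (C (A (L 2) (B (C (L 2) (A (B (L 2) (L 2)) (B (B (L 6) (B (L 6) (L 6))) (C (L 2) (A
    (L 2) (B (B (L 6) (L 2)) (L 2))))))) (L 2))) (A (B (C (A (L 2) (B (C (L 2) (B (L 6) (B (L 6) (L
    2)))) (L 2))) (A (B (B (L 6) (B (L 6) (C (L 2) (L 6)))) (C (L 2) (A (L 2) (B (B (L 6) (B (L 6)
    O)) O)))) (B (B (B (L 6) (L 6)) (B (C (L 6) (L 6)) (C (L 6) (B (L 6) (A (L 6) (L 1)))))) (C (A
    (B (C (L 2) (A (L 2) (L 6))) O) (B (B (L 6) (B (L 6) (L 6))) (C (L 2) (A O (B (C (L 2) (A (B (L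
    6) O) (B (L 6) O))) O))))) (B (B (B (A (L 6) (L 6)) (A (L 6) (C (L 6) (L 1)))) (B (A (L 6) (C
    (L 6) (L 1))) (A (C (L 6) (A O (B (L 6) O))) (C (A (L 6) (B (L 6) (L 6))) (L 1))))) (A O (C (A
    O (B (C (B (B (L 6) O) O) (A (B (L 1) O) (L 1))) O)) (A O (B (L 1) O))))))))) O) (B (C (B (B (B
    (A (L 6) (L 6)) (A (L 6) (L 6))) (B (A (L 6) (C (L 6) (L 1))) (A (C (L 6) (L 6)) (C (L 6) (A (L
    6) (L 1)))))) (A (C (L 2) (A (B (B (L 6) (L 6)) (L 2)) (B (B (L 6) (B (L 6) (C (L 6) (L 6))))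
    (C (L 2) (A (B (C (L 2) (A (L 2) (B (L 6) (L 2)))) O) (B (B (B (L 6) (C (L 6) (L 6))) (B (C (L
    6) (B (L 10) (L 10))) (B (C (L 2) (L 10)) (C (L 2) (L 10))))) (C (L 2) (A O (B (B (L 10) O)
    O))))))))) (B (B (C (B (L 6) (A (L 6) (L 6))) (A (B (L 6) (L 6)) (L 1))) (C (B (A (L 6) (L 6))
    (A (L 6) (C (L 6) (B (L 6) (L 6))))) (A (B (C (L 6) (L 1)) (C (L 6) (A (L 6) (L 1)))) (L 1))))
    (C (A (C (L 2) (A (L 2) (B (C (L 2) (A (L 2) (B (L 6) (L 2)))) (L 2)))) (C (A (L 2) (B (B (L 6)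
    (C (L 2) (A (L 2) (L 6)))) (L 2))) (A (B (B (L 6) (B (C (L 2) (A (L 6) (L 6))) (C (L 2) (B (L
    10) (L 10))))) (C (L 2) (A (L 2) (B (B (L 10) (L 10)) (L 2))))) (B (B (B (L 6) (C (L 6) (A (L
    6) (L 1)))) (B (B (C (L 6) (L 10)) (C (L 10) (L 10))) (B (C (L 10) (L 10)) (C (L 10) (L 10)))))
    (B (B (B (C (L 10) (L 10)) (C (L 10) (L 10))) (B (C (L 10) (L 10)) (C (L 10) (L 5)))) (B (C (A
    (L 2) (L 5)) (L 5)) (L 5))))))) (A (B (B (C (A (L 6) (B (L 6) (C (L 6) (A (L 6) (L 1))))) (A (C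
    (B (L 6) (A (L 6) (L 6))) (L 1)) (L 1))) (B (C (A (C (L 2) (L 6)) (B (C (L 6) (L 10)) (C (L 6)
    (L 10)))) (A (B (C (L 10) (L 1)) (C (L 10) (L 10))) (L 1))) (C (A (C (L 2) (A (L 2) (L 10))) (B
    (C (L 10) (L 10)) (C (L 10) (L 10)))) (A (B (C (L 10) (L 10)) (C (L 10) (L 10))) (C (A (L 10)
    (L 1)) (L 1)))))) (B (B (C (A (L 2) (B (C (L 10) (L 10)) (C (L 10) (L 10)))) (A (B (C (L 10) (L
    10)) (C (L 10) (L 5))) (C (A (L 10) (L 1)) (L 1)))) (C (A (L 2) (B (C (L 2) (L 10)) (C (L 2) (L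
    5)))) (A (C (B (L 10) O) (L 5)) (L 5)))) (C (A O (B (C (L 2) (L 5)) O)) (A O (L 5))))) (C (A (B
    (C (A (B (L 6) (B (L 10) (L 10))) (B (L 1) (C (B (L 1) (L 10)) (L 1)))) (L 1)) (B (B (B (C (L
    10) (L 1)) (C (L 10) (L 5))) (C (A (L 10) (L 5)) (L 5))) (L 5))) (B (L 1) (B (C (A (B (L 1) (L
    5)) (L 1)) (L 1)) (L 5)))) (L 1))))))) (A (B (C (A (B (L 1) (L 6)) (L 1)) (L 1)) (C (A (B (B (B
    (L 6) (L 6)) (B (C (L 6) (L 6)) (C (L 6) (A (L 6) (L 1))))) (C (A (B (C (L 2) (A (L 2) (B (L 6)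
    O))) O) (B (B (B (L 6) (L 6)) (C (L 2) (A O (B (L 10) O)))) O)) (B (A (B (B (L 6) (C (L 6) (A O
    (L 10)))) O) (C (A (B (B (L 6) (L 6)) O) (B (L 1) (B (L 10) O))) (A (B (L 1) O) (L 1)))) O)))
    (B (C (A (B (L 1) (B (L 6) (L 6))) (L 1)) (L 1)) (C (A (B (B (B (C (L 6) (L 1)) (C (L 6) (A (L
    10) (L 1)))) (B (B (C (L 10) (L 10)) (C (L 10) (L 10))) (B (C (L 10) (L 10)) O))) O) (B (C (A
    (B (C (L 6) (L 1)) (B (L 10) (L 10))) (L 1)) (L 1)) (B (B (C (B (L 10) O) (L 1)) O) O))) (A (B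
    (L 1) O) (L 1))))) (A (B (L 1) (C (A (B (C (A (B (L 1) O) (L 1)) (L 1)) O) (B (L 1) O)) (L 1)))
    (L 1)))) (B (L 1) (C (A (B (L 1) (C (A (B (L 1) (B (L 1) O)) (L 1)) (L 1))) (L 1)) (L 1))))) (C
    (A O (B (C (A O (B (C (L 2) (A O (B (L 5) O))) O)) (B (B (B (A O (L 5)) O) O) O)) O)) (B (B (A
    O (C (B (B (A O (L 1)) O) O) (L 1))) O) O))))) O)) (B (A (C (A (B (C (L 2) (A (B (C (L 2) (A (L
    2) (B (L 6) (L 2)))) O) (B (B (B (L 6) (L 6)) (B (L 6) (C (L 2) (B (L 6) O)))) O))) O) (B (B (B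
    (C (B (A (L 6) (L 6)) (A (L 6) (L 6))) (A (B (L 6) (C (L 6) (L 1))) (L 1))) (C (B (A (L 6) (C
    (L 6) (L 6))) (A (L 6) (C (L 6) (B (L 6) (L 6))))) (A (B (C (L 6) (A (L 6) (L 1))) (C (B (L 6)
    (L 6)) (A (L 6) (L 1)))) (C (A (C (L 6) (L 1)) (L 1)) (L 1))))) (C (A O (C (A (L 2) (B (C (L 2)
    (B (L 6) O)) O)) (A (B (B (L 6) O) O) (B (B (B (L 6) (L 6)) O) O)))) (A O (C (A (B (C (B (B (L
    6) O) O) (A O (L 1))) O) (B (L 1) O)) (A (B (L 1) O) (L 1)))))) O)) (A (B (C (A (B (B (B (L 6)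
    (L 6)) (B (C (L 6) (B (L 6) (L 6))) O)) O) (B (C (A (B (L 6) (B (L 6) O)) (L 1)) (L 1)) O)) (A
    (B (L 1) O) (L 1))) O) (B (C (A (B (L 1) O) (L 1)) (L 1)) O))) (C (A (B (C (A (B (C (A (B (L 6)
    (L 6)) (B (L 1) (B (L 1) (L 6)))) (L 1)) (C (A (B (B (L 6) O) O) (B (B (B (L 6) (L 6)) (B (C (L
    6) (A (L 6) (L 1))) O)) O)) (A (B (C (A (B (L 6) O) (L 1)) (L 1)) O) (B (L 1) O)))) (B (L 1) (C
    (A (B (C (A (B (L 1) (C (A (L 6) (L 1)) (L 1))) (L 1)) (L 1)) O) (L 1)) (L 1)))) (L 1)) O) (B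
    (L 1) (C (A O (B (L 1) O)) (L 1)))) (A (L 1) (L 1)))) O)) O)) (A (B (C (A (B (C (A (L 2) (B (C
    (L 2) (A (B (C (L 2) (A (L 2) (B (L 6) O))) O) (B (B (B (L 6) O) O) O))) O)) (A (B (C (A (L 2)
    (B (C (L 2) (B (B (L 6) O) O)) O)) (A (B (B (B (L 6) O) O) O) (B (C (B (B (L 6) O) O) (A (B (L
    1) O) (L 1))) O))) O) (B (C (A (B (B (B (L 6) O) O) O) (B (C (A (B (L 6) O) (B (L 1) O)) (L 1))
    O)) (A (B (C (A (B (L 1) O) (L 1)) (L 1)) O) (L 1))) O))) O) (B (C (A (B (B (B (C (B (A (L 6)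
    (L 6)) (A O (C (L 6) (L 6)))) (A (B (C (L 6) (L 1)) O) (L 1))) O) O) O) (B (C (A (B (C (A (B (L
    6) O) (L 1)) (L 1)) O) (B (L 1) O)) (L 1)) O)) (A (B (C (A (B (L 1) O) (L 1)) (L 1)) O) (L 1)))
    O)) (A (B (C (A (B (C (A (B (C (A (B (L 6) O) (B (L 1) O)) (L 1)) O) (B (L 1) O)) (L 1)) O) (B
    (L 1) O)) (A (B (L 1) O) (L 1))) O) (B (L 1) O))) O) (B (C (A (B (C (A (B (L 1) O) (L 1)) (L
    1)) O) (B (L 1) O)) (L 1)) O))) (C (B (A (C (A (B (C (A (B (C (A (B (C (L 2) (B (L 6) (L 2)))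
    (L 2)) (B (B (L 6) (B (L 6) (L 6))) (C (L 2) (A (L 2) (B (B (L 6) (L 6)) (C (L 2) (A (L 2) (B
    (L 6) (L 2))))))))) (A (B (B (L 6) (B (L 6) (C (L 6) (L 6)))) (C (A (L 2) (B (B (L 6) (L 6)) (L
    2))) (B (B (B (L 6) (A (L 6) (L 6))) (B (A (L 6) (L 6)) (A (L 6) (C (L 6) (B (L 6) (L 6))))))
    (A (C (L 2) (A (L 2) (B (B (L 6) (B (L 6) (C (L 2) (A (L 2) (L 6))))) (C (L 2) (A (L 2) (B (C
    (L 2) (A (L 2) (L 10))) (L 2))))))) (C (A (B (B (L 6) (L 2)) (L 2)) (B (B (L 6) (B (L 6) (C (L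
    2) (A (L 6) (L 10))))) (C (L 2) (A (L 2) (B (B (L 10) (L 10)) (L 2)))))) (A (B (B (B (L 6) (L
    6)) (B (C (L 6) (A (L 6) (L 10))) (B (C (L 6) (L 10)) (C (L 10) (L 10))))) (C (A (L 2) (B (B (L
    10) (L 2)) (L 2))) (B (B (B (L 10) (L 10)) (B (L 10) (L 10))) (B (A (L 5) (L 5)) (L 5))))) (B
    (C (A (B (L 6) (B (L 6) (L 10))) (B (L 1) (C (B (L 1) (L 10)) (L 1)))) (L 1)) (B (B (B (C (L
    10) (L 1)) (C (L 10) (L 10))) (B (L 10) (L 10))) (B (C (A (L 5) (L 5)) (L 5)) (L 5)))))))))) (B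
    (C (A (B (L 6) (L 6)) (B (L 1) (L 6))) (L 1)) (C (B (B (B (L 6) (A (L 6) (L 6))) (B (A (L 6) (L
    6)) (A (L 6) (C (L 6) (A (L 6) (L 1)))))) (A (C (L 2) (A (B (B (L 6) (L 6)) (L 2)) (B (B (L 6)
    (B (L 6) (C (L 6) (A (L 6) (L 10))))) (C (L 2) (A (B (B (L 10) (L 2)) (L 2)) (B (B (L 10) (L
    10)) (B (L 10) (L 5)))))))) (B (B (C (B (L 6) (L 6)) (A (B (L 6) (L 6)) (L 1))) (C (B (A (L 6)
    (L 6)) (A (L 6) (C (L 6) (B (L 6) (L 10))))) (A (B (C (L 6) (L 1)) (B (C (L 6) (L 10)) (C (L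
    10) (L 10)))) (L 1)))) (C (A (C (L 2) (A (L 2) (B (C (L 2) (A (L 2) (L 10))) (L 2)))) (C (A (L
    2) (B (B (L 10) (L 2)) (L 2))) (B (B (B (L 10) (L 10)) (B (L 10) (L 10))) (B (B (L 10) (L 10))
    (L 5))))) (B (A (B (B (C (L 10) (L 10)) (C (L 10) (L 10))) (B (L 10) (L 10))) (C (A (B (L 10)
    (L 10)) (L 1)) (L 1))) (B (A (B (L 10) (L 10)) (L 5)) (A (C (L 5) (L 5)) (L 5)))))))) (A (B (C
    (A (B (L 1) (L 6)) (L 1)) (L 1)) (C (A (B (B (B (L 6) (L 6)) (B (C (L 6) (A (L 6) (L 1))) (B (C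
    (L 6) (L 10)) (C (L 10) (L 10))))) (C (A (B (C (L 2) (A (L 2) (L 10))) (L 2)) (B (B (L 10) (L
    10)) (C (L 2) (L 5)))) (B (B (B (L 10) (L 10)) (B (L 10) (L 10))) (B (L 5) (L 5))))) (B (C (A
    (B (L 1) (B (L 6) (L 10))) (L 1)) (L 1)) (B (C (B (B (L 10) (L 10)) (B (L 10) (L 10))) (L 1))
    (B (C (L 5) (L 5)) (L 5))))) (A (B (L 1) (C (A (B (C (A (L 10) (L 1)) (L 1)) (L 5)) (B (L 1) (L
    1))) (L 1))) (L 1)))) (B (L 1) (C (A (B (L 1) (C (A (B (L 1) (L 5)) (L 1)) (L 1))) (L 1)) (L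
    1)))))))) (C (L 2) (A (B (C (L 2) (A (L 2) (B (C (L 2) (A (B (C (L 2) (L 5)) O) (B (L 5) (L
    5)))) O))) O) (B (C (A (L 2) (B (C (A (L 2) (B (C (L 2) (B (L 5) (L 2))) (L 2))) (B (B (B (A (L
    5) (L 5)) (L 5)) (L 5)) (L 5))) (C (L 2) (L 5)))) (B (B (B (A (C (B (A (L 5) (L 5)) (L 5)) (L
    5)) (L 5)) (A (L 5) (L 5))) (B (A (L 5) (L 5)) (L 5))) (B (B (L 5) O) O))) O)))) (B (C (A (B (B
    (L 6) (B (L 6) (C (L 6) (L 6)))) (B (B (C (L 6) (B (L 6) (A (L 6) (L 6)))) (C (B (L 6) (A (L 2)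
    (L 6))) (B (A (L 6) (L 6)) (A (L 6) (C (L 6) (L 1)))))) (C (A (L 2) (C (L 2) (A (L 2) (B (L 6)
    (L 2))))) (B (B (A (C (L 6) (B (L 6) (L 6))) (C (B (L 6) (L 6)) (L 1))) (A (C (B (L 6) (L 2))
    (B (A (L 6) (L 6)) (A (L 6) (C (L 6) (B (L 10) (L 10)))))) (C (B (A (L 6) (L 6)) (A (L 6) (C (L
    6) (A (L 6) (L 1))))) (A (C (A (B (L 6) (L 6)) (L 1)) (L 1)) (L 1))))) (A (C (L 2) (A (C (L 2)
    (A (L 2) (B (B (L 10) (L 10)) (L 2)))) (C (A (B (C (L 2) (A (L 2) (L 10))) (L 2)) (B (B (L 10)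
    (L 10)) (C (L 2) (B (L 10) (L 2))))) (B (B (B (L 10) (L 10)) (B (L 10) (L 10))) (B (B (L 10) (L
    10)) (L 5)))))) (B (B (C (A (C (L 2) (B (L 6) (L 10))) (B (C (L 6) (L 10)) (C (L 10) (L 10))))
    (A (B (C (L 10) (L 1)) (L 10)) (L 1))) (C (A (B (C (L 2) (L 10)) (L 10)) (B (L 10) (L 10))) (A
    (B (L 10) (L 10)) (L 1)))) (C (A (C (L 2) (A (L 2) (B (L 10) (L 5)))) (B (B (L 10) (L 10)) (B
    (L 10) (L 10)))) (B (A (B (L 10) (L 10)) (L 1)) (A (L 5) (L 5)))))))))) (B (C (A (B (L 1) (L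
    6)) (L 1)) (L 1)) (C (A (B (B (L 6) (B (L 6) (L 6))) (B (B (C (L 6) (B (L 6) (L 6))) (C (B (L
    6) (L 6)) (B (A (L 6) (L 6)) (A (L 6) (B (C (L 6) (L 1)) (C (L 6) (L 1))))))) (C (A (L 2) (C (L
    2) (A (L 2) (B (B (L 6) (L 10)) (L 2))))) (A (C (A (L 2) (B (C (L 2) (B (L 6) (L 2))) (L 2)))
    (A (B (B (L 6) (L 10)) (C (L 2) (B (L 10) (L 2)))) (B (B (L 10) (L 10)) (B (L 10) (L 5))))) (B
    (B (B (C (L 10) (L 1)) (L 10)) (B (L 10) (L 10))) (B (B (L 10) (L 10)) (B (L 10) (L 10))))))))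
    (B (C (A (L 6) (L 1)) (L 1)) (C (A (B (B (L 6) (B (L 6) (L 6))) (C (A (L 2) (B (B (L 6) (L 10))
    (C (L 2) (A (L 2) (L 10))))) (B (B (B (L 10) (L 10)) (B (L 10) (L 10))) (B (B (L 10) (L 10)) (B
    (L 10) (L 10)))))) (B (C (B (L 1) (B (L 6) (L 6))) (L 1)) (C (B (B (B (L 10) (L 10)) (B (L 10)
    (L 10))) (B (B (L 10) (L 10)) (B (L 10) (L 10)))) (A (B (L 1) (B (L 10) (L 5))) (L 1))))) (A (B
    (L 1) (C (A (B (C (B (L 1) (L 10)) (L 1)) (B (L 10) (L 5))) (B (L 1) (L 5))) (L 1))) (L 1)))))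
    (A (B (L 1) (C (A (B (C (A (B (L 1) (C (L 6) (L 1))) (L 1)) (L 1)) (C (A (B (B (L 10) (L 10))
    (B (L 10) (L 5))) (B (L 1) (L 5))) (A (B (L 1) (L 5)) (L 1)))) (L 1)) (L 1))) (L 1))))) (A (B
    (L 1) (C (A (B (L 1) (C (A (B (C (B (L 6) (B (L 6) (B (L 10) (L 10)))) (L 1)) (B (B (B (C (L
    10) (L 1)) (L 10)) (B (L 10) (L 10))) (B (B (L 10) (L 10)) (L 5)))) (B (L 1) (C (A (B (C (B (L
    1) (L 10)) (L 1)) (L 5)) (B (L 1) (L 5))) (L 1)))) (L 1))) (L 1)) (L 1))) (L 1))) (B (B (C (A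
    (C (L 2) (A (C (L 2) (A (L 2) (B (B (B (C (L 2) (L 5)) (L 5)) (L 5)) (L 2)))) (B (B (C (A (L 2)
    (B (L 5) (L 5))) (B (L 5) (L 5))) (C (B (A (L 2) (L 5)) (L 5)) (L 5))) (B (L 5) (L 5))))) (B (C
    (B (A (C (L 2) (B (A (C (L 2) (L 5)) (L 5)) (A (L 2) (L 5)))) (C (B (A (B (L 10) (L 10)) (L 5))
    (A (C (L 2) (L 5)) (L 5))) (B (L 5) (L 5)))) (A (C (L 2) (B (A (L 2) (L 5)) (L 5))) (C (B (L 5)
    (L 5)) (L 5)))) (A (B (C (B (L 5) (L 5)) (L 1)) (L 5)) (L 1))) (C (B (A (C (L 2) (L 5)) (L 5))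
    (A (L 2) (L 5))) (B (A (L 5) (L 5)) (L 5))))) (A (C (B (B (A (C (B (L 5) (L 5)) (L 5)) (L 1))
    (A (L 5) (L 5))) (B (A (L 5) (L 5)) (L 5))) (L 1)) (L 1))) (C (A (C (L 2) (A (L 2) (B (L 5) (L
    2)))) (B (C (B (A (L 2) (L 5)) (L 5)) (L 5)) (C (B (L 5) (L 5)) (L 5)))) (B (A (C (L 5) (L 5))
    (L 5)) (A (L 5) (L 5))))) (B (C (A O (B (L 5) O)) (B (A O (L 5)) O)) O)))) (A (B (C (A (B (L 1)
    (C (A (B (C (B (L 6) (B (L 6) (B (L 6) (L 6)))) (L 1)) (C (A (B (B (L 6) (B (C (L 6) (A (L 6)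
    (L 6))) (B (C (L 6) (L 10)) (C (L 2) (L 10))))) (C (L 2) (A (B (C (L 2) (B (L 10) (L 2))) (L
    2)) (B (B (L 10) (L 10)) (L 5))))) (B (C (B (L 6) (B (A (L 6) (L 10)) (B (L 10) (L 10)))) (A (B
    (L 1) (C (B (L 1) (L 10)) (L 1))) (L 1))) (B (B (B (C (L 10) (L 10)) (C (L 10) (L 10))) (B (C
    (L 10) (L 5)) (L 10))) (B (C (A (L 2) (L 5)) (L 5)) (L 5))))) (A (B (C (A (B (L 1) (B (L 10) (L
    10))) (L 1)) (L 1)) (B (B (B (C (L 10) (L 1)) (C (L 10) (L 1))) (C (A (L 5) (L 5)) (L 1))) (L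
    5))) (B (L 1) (C (A (B (L 1) (L 5)) (L 1)) (L 1)))))) (B (L 1) (C (A (B (L 1) (B (C (A (B (L
    10) (L 5)) (L 1)) (L 1)) (L 5))) (L 1)) (L 1)))) (L 1))) (L 1)) (L 1)) (C (B (A (B (B (C (B (A
    (C (A (L 2) (L 5)) (L 5)) (L 5)) (A (L 5) (L 5))) (A (L 5) (L 1))) (C (B (A O (L 5)) O) (B (L
    5) O))) O) (C (A (B (B (L 1) (L 5)) O) (B (L 1) (L 5))) (L 1))) O) (A (B (L 1) O) (L 1)))) (B
    (L 1) (C (A (B (L 1) O) (L 1)) (L 1))))) O) (B (C (A (B (C (A (B (L 1) (C (A (B (L 1) (C (A (B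
    (L 1) (C (A (B (L 1) (B (L 10) (L 5))) (L 1)) (L 1))) (L 1)) (L 1))) (L 1)) (L 1))) (L 1)) (L
    1)) (C (A (B (C (B (A (B (B (C (B (L 5) (L 5)) (L 1)) (L 5)) (L 5)) (C (A (L 5) (L 1)) (L 1)))
    (B (L 5) (L 5))) (A (B (L 1) (L 5)) (L 1))) (B (L 5) O)) (B (L 1) (B (L 5) (L 5)))) (A (B (L 1)
    (C (B (L 1) O) (L 1))) (L 1)))) (L 1)) (L 1)) (C (B (B (B (A O (C (L 5) (L 1))) (A O (L 5))) O)
    O) (A O (B (L 1) O))))) (A (B (L 1) O) (L 1))) (C (B (L 1) (A (C (A (B (L 1) O) (L 1)) (L 1))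
    (L 1))) (L 1))) (A O (C (B (A O (C (B (L 1) O) (L 1))) O) (B (L 1) O)))) (B (L 1) (A O (L
    1))))) (A (C (A (B (C (A (B (L 1) O) (L 1)) (L 1)) O) (L 1)) (L 1)) (L 1)))) (L 1)) (L 1))) (L
    1))) = true := by
  decide +kernel

end Pool.Agent.BX
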