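import Mathlib
import Pool.Agent.BX.C2a
import Pool.Agent.BX.C2b
import Pool.Agent.BX.C2c
import Pool.Agent.BX.C2g
import Pool.Agent.BX.C3
import Pool.Agent.BX.C4
import Pool.Agent.BX.C6
import Pool.Agent.BX.C6g

set_option autoImplicit false

namespace Pool.Agent.BX

theorem all_2 {n : ℕ} (hn : 3 ≤ n) {N L : ℝ}
    (h : Reg 2 n N L)
    (hs : ∀ T : ℕ, 1 ≤ T → (T : ℝ) < N →
      ¬ (Psi 2 T (1 / n) (n / N) (n * L / N) * Psi 2 (T + 1) (1 / n) (n / N) (n * L / N) < 0))
    (h1 : 0 < Psi 2 1 (1 / n) (n / N) (n * L / N)) : False := by
  rcases Nat.lt_or_ge n 30 with hlt | hge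
  · interval_cases n
    · exact cf_false c2_3 (by norm_num) (by norm_num) (by norm_num) h hs h1
        (fun h => Bool.noConfusion h)
    · exact cf_false c2_4 (by norm_num) (by norm_num) (by norm_num) h hs h1
        (fun h => Bool.noConfusion h)
    · exact cf_false c2_5 (by norm_num) (by norm_num) (by norm_num) h hs h1
        (fun h => Bool.noConfusion h)
    · exact cf_false c2_6 (by norm_num) (by norm_num) (by norm_num) h hs h1
        (fun h => Bool.noConfusion h)
    · exact cf_false c2_7 (by norm_num) (by norm_num) (by norm_num) h hs h1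
        (fun h => Bool.noConfusion h)
    · exact cf_false c2_8 (by norm_num) (by norm_num) (by norm_num) h hs h1
        (fun h => Bool.noConfusion h)
    · exact cf_false c2_9 (by norm_num) (by norm_num) (by norm_num) h hs h1
        (fun h => Bool.noConfusion h)
    · exact cf_false c2_10 (by norm_num) (by norm_num) (by norm_num) h hs h1
        (fun h => Bool.noConfusion h)
    · exact cf_false c2_11 (by norm_num) (by norm_num) (by norm_num) h hs h1
        (fun h => Bool.noConfusion h)
    · exact cf_false c2_12 (by norm_num) (by norm_num) (by norm_num) h hs h1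
        (fun h => Bool.noConfusion h)
    · exact cf_false c2_13 (by norm_num) (by norm_num) (by norm_num) h hs h1
        (fun h => Bool.noConfusion h)
    · exact cf_false c2_14 (by norm_num) (by norm_num) (by norm_num) h hs h1
        (fun h => Bool.noConfusion h)
    · exact cf_false c2_15 (by norm_num) (by norm_num) (by norm_num) h hs h1
        (fun h => Bool.noConfusion h)
    · exact cf_false c2_16 (by norm_num) (by norm_num) (by norm_num) h hs h1
        (fun h => Bool.noConfusion h)
    · exact cf_false c2_17 (by norm_num) (by norm_num) (by norm_num) h hs h1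
        (fun h => Bool.noConfusion h)
    · exact cf_false c2_18 (by norm_num) (by norm_num) (by norm_num) h hs h1
        (fun h => Bool.noConfusion h)
    · exact cf_false c2_19 (by norm_num) (by norm_num) (by norm_num) h hs h1
        (fun h => Bool.noConfusion h)
    · exact cf_false c2_20 (by norm_num) (by norm_num) (by norm_num) h hs h1
        (fun h => Bool.noConfusion h)
    · exact cf_false c2_21 (by norm_num) (by norm_num) (by norm_num) h hs h1
        (fun h => Bool.noConfusion h)
    · exact cf_false c2_22 (by norm_num) (by norm_num) (by norm_num) h hs h1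
        (fun h => Bool.noConfusion h)
    · exact cf_false c2_23 (by norm_num) (by norm_num) (by norm_num) h hs h1
        (fun h => Bool.noConfusion h)
    · exact cf_false c2_24 (by norm_num) (by norm_num) (by norm_num) h hs h1
        (fun h => Bool.noConfusion h)
    · exact cf_false c2_25 (by norm_num) (by norm_num) (by norm_num) h hs h1
        (fun h => Bool.noConfusion h)
    · exact cf_false c2_26 (by norm_num) (by norm_num) (by norm_num) h hs h1
        (fun h => Bool.noConfusion h)
    · exact cf_false c2_27 (by norm_num) (by norm_num) (by norm_num) h hs h1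
        (fun h => Bool.noConfusion h)
    · exact cf_false c2_28 (by norm_num) (by norm_num) (by norm_num) h hs h1
        (fun h => Bool.noConfusion h)
    · exact cf_false c2_29 (by norm_num) (by norm_num) (by norm_num) h hs h1
        (fun h => Bool.noConfusion h)
  · exact cg_false cg_2 (by norm_num) hge (by norm_num) (by norm_num) (by norm_num) h hs h1

theorem all_3 {n : ℕ} (hn : 3 ≤ n) {N L : ℝ}
    (h : Reg 3 n N L)
    (hs : ∀ T : ℕ, 1 ≤ T → (T : ℝ) < N →
      ¬ (Psi 3 T (1 / n) (n / N) (n * L / N) * Psi 3 (T + 1) (1 / n) (n / N) (n * L / N) < 0))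
    (h1 : 0 < Psi 3 1 (1 / n) (n / N) (n * L / N)) : False := by
  rcases Nat.lt_or_ge n 30 with hlt | hge
  · interval_cases n
    · exact cf_false c3_3 (by norm_num) (by norm_num) (by norm_num) h hs h1
        (fun h => Bool.noConfusion h)
    · exact cf_false c3_4 (by norm_num) (by norm_num) (by norm_num) h hs h1
        (fun h => Bool.noConfusion h)
    · exact cf_false c3_5 (by norm_num) (by norm_num) (by norm_num) h hs h1
        (fun h => Bool.noConfusion h)
    · exact cf_false c3_6 (by norm_num) (by norm_num) (by norm_num) h hs h1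
        (fun h => Bool.noConfusion h)
    · exact cf_false c3_7 (by norm_num) (by norm_num) (by norm_num) h hs h1
        (fun h => Bool.noConfusion h)
    · exact cf_false c3_8 (by norm_num) (by norm_num) (by norm_num) h hs h1
        (fun h => Bool.noConfusion h)
    · exact cf_false c3_9 (by norm_num) (by norm_num) (by norm_num) h hs h1
        (fun h => Bool.noConfusion h)
    · exact cf_false c3_10 (by norm_num) (by norm_num) (by norm_num) h hs h1
        (fun h => Bool.noConfusion h)
    · exact cf_false c3_11 (by norm_num) (by norm_num) (by norm_num) h hs h1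
        (fun h => Bool.noConfusion h)
    · exact cf_false c3_12 (by norm_num) (by norm_num) (by norm_num) h hs h1
        (fun h => Bool.noConfusion h)
    · exact cf_false c3_13 (by norm_num) (by norm_num) (by norm_num) h hs h1
        (fun h => Bool.noConfusion h)
    · exact cf_false c3_14 (by norm_num) (by norm_num) (by norm_num) h hs h1
        (fun h => Bool.noConfusion h)
    · exact cf_false c3_15 (by norm_num) (by norm_num) (by norm_num) h hs h1
        (fun h => Bool.noConfusion h)
    · exact cf_false c3_16 (by norm_num) (by norm_num) (by norm_num) h hs h1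
        (fun h => Bool.noConfusion h)
    · exact cf_false c3_17 (by norm_num) (by norm_num) (by norm_num) h hs h1
        (fun h => Bool.noConfusion h)
    · exact cf_false c3_18 (by norm_num) (by norm_num) (by norm_num) h hs h1
        (fun h => Bool.noConfusion h)
    · exact cf_false c3_19 (by norm_num) (by norm_num) (by norm_num) h hs h1
        (fun h => Bool.noConfusion h)
    · exact cf_false c3_20 (by norm_num) (by norm_num) (by norm_num) h hs h1
        (fun h => Bool.noConfusion h)
    · exact cf_false c3_21 (by norm_num) (by norm_num) (by norm_num) h hs h1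
        (fun h => Bool.noConfusion h)
    · exact cf_false c3_22 (by norm_num) (by norm_num) (by norm_num) h hs h1
        (fun h => Bool.noConfusion h)
    · exact cf_false c3_23 (by norm_num) (by norm_num) (by norm_num) h hs h1
        (fun h => Bool.noConfusion h)
    · exact cf_false c3_24 (by norm_num) (by norm_num) (by norm_num) h hs h1
        (fun h => Bool.noConfusion h)
    · exact cf_false c3_25 (by norm_num) (by norm_num) (by norm_num) h hs h1
        (fun h => Bool.noConfusion h)
    · exact cf_false c3_26 (by norm_num) (by norm_num) (by norm_num) h hs h1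
        (fun h => Bool.noConfusion h)
    · exact cf_false c3_27 (by norm_num) (by norm_num) (by norm_num) h hs h1
        (fun h => Bool.noConfusion h)
    · exact cf_false c3_28 (by norm_num) (by norm_num) (by norm_num) h hs h1
        (fun h => Bool.noConfusion h)
    · exact cf_false c3_29 (by norm_num) (by norm_num) (by norm_num) h hs h1
        (fun h => Bool.noConfusion h)
  · exact cg_false cg_3 (by norm_num) hge (by norm_num) (by norm_num) (by norm_num) h hs h1

theorem all_4 {n : ℕ} (hn : 3 ≤ n) {N L : ℝ}
    (h : Reg 4 n N L)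
    (hs : ∀ T : ℕ, 1 ≤ T → (T : ℝ) < N →
      ¬ (Psi 4 T (1 / n) (n / N) (n * L / N) * Psi 4 (T + 1) (1 / n) (n / N) (n * L / N) < 0))
    (h1 : 0 < Psi 4 1 (1 / n) (n / N) (n * L / N))
    (h2 : n = 3 → Psi 4 2 (1 / n) (n / N) (n * L / N) ≠ 0) : False := by
  rcases Nat.lt_or_ge n 14 with hlt | hge
  · interval_cases n
    · exact cf_false c4_3 (by norm_num) (by norm_num) (by norm_num) h hs h1
        (fun _ => h2 rfl)
    · exact cf_false c4_4 (by norm_num) (by norm_num) (by norm_num) h hs h1
        (fun h => Bool.noConfusion h)
    · exact cf_false c4_5 (by norm_num) (by norm_num) (by norm_num) h hs h1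
        (fun h => Bool.noConfusion h)
    · exact cf_false c4_6 (by norm_num) (by norm_num) (by norm_num) h hs h1
        (fun h => Bool.noConfusion h)
    · exact cf_false c4_7 (by norm_num) (by norm_num) (by norm_num) h hs h1
        (fun h => Bool.noConfusion h)
    · exact cf_false c4_8 (by norm_num) (by norm_num) (by norm_num) h hs h1
        (fun h => Bool.noConfusion h)
    · exact cf_false c4_9 (by norm_num) (by norm_num) (by norm_num) h hs h1
        (fun h => Bool.noConfusion h)
    · exact cf_false c4_10 (by norm_num) (by norm_num) (by norm_num) h hs h1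
        (fun h => Bool.noConfusion h)
    · exact cf_false c4_11 (by norm_num) (by norm_num) (by norm_num) h hs h1
        (fun h => Bool.noConfusion h)
    · exact cf_false c4_12 (by norm_num) (by norm_num) (by norm_num) h hs h1
        (fun h => Bool.noConfusion h)
    · exact cf_false c4_13 (by norm_num) (by norm_num) (by norm_num) h hs h1
        (fun h => Bool.noConfusion h)
  · exact cg_false cg_4 (by norm_num) hge (by norm_num) (by norm_num) (by norm_num) h hs h1

theorem all_5 {n : ℕ} (hn : 3 ≤ n) {N L : ℝ}
    (h : Reg 5 n N L)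
    (hs : ∀ T : ℕ, 1 ≤ T → (T : ℝ) < N →
      ¬ (Psi 5 T (1 / n) (n / N) (n * L / N) * Psi 5 (T + 1) (1 / n) (n / N) (n * L / N) < 0))
    (h1 : 0 < Psi 5 1 (1 / n) (n / N) (n * L / N)) : False := by
  rcases Nat.lt_or_ge n 20 with hlt | hge
  · interval_cases n
    · exact cf_false c5_3 (by norm_num) (by norm_num) (by norm_num) h hs h1
        (fun h => Bool.noConfusion h)
    · exact cf_false c5_4 (by norm_num) (by norm_num) (by norm_num) h hs h1
        (fun h => Bool.noConfusion h)
    · exact cf_false c5_5 (by norm_num) (by norm_num) (by norm_num) h hs h1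
        (fun h => Bool.noConfusion h)
    · exact cf_false c5_6 (by norm_num) (by norm_num) (by norm_num) h hs h1
        (fun h => Bool.noConfusion h)
    · exact cf_false c5_7 (by norm_num) (by norm_num) (by norm_num) h hs h1
        (fun h => Bool.noConfusion h)
    · exact cf_false c5_8 (by norm_num) (by norm_num) (by norm_num) h hs h1
        (fun h => Bool.noConfusion h)
    · exact cf_false c5_9 (by norm_num) (by norm_num) (by norm_num) h hs h1
        (fun h => Bool.noConfusion h)
    · exact cf_false c5_10 (by norm_num) (by norm_num) (by norm_num) h hs h1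
        (fun h => Bool.noConfusion h)
    · exact cf_false c5_11 (by norm_num) (by norm_num) (by norm_num) h hs h1
        (fun h => Bool.noConfusion h)
    · exact cf_false c5_12 (by norm_num) (by norm_num) (by norm_num) h hs h1
        (fun h => Bool.noConfusion h)
    · exact cf_false c5_13 (by norm_num) (by norm_num) (by norm_num) h hs h1
        (fun h => Bool.noConfusion h)
    · exact cf_false c5_14 (by norm_num) (by norm_num) (by norm_num) h hs h1
        (fun h => Bool.noConfusion h)
    · exact cf_false c5_15 (by norm_num) (by norm_num) (by norm_num) h hs h1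
        (fun h => Bool.noConfusion h)
    · exact cf_false c5_16 (by norm_num) (by norm_num) (by norm_num) h hs h1
        (fun h => Bool.noConfusion h)
    · exact cf_false c5_17 (by norm_num) (by norm_num) (by norm_num) h hs h1
        (fun h => Bool.noConfusion h)
    · exact cf_false c5_18 (by norm_num) (by norm_num) (by norm_num) h hs h1
        (fun h => Bool.noConfusion h)
    · exact cf_false c5_19 (by norm_num) (by norm_num) (by norm_num) h hs h1
        (fun h => Bool.noConfusion h)
  · exact cg_false cg_5 (by norm_num) hge (by norm_num) (by norm_num) (by norm_num) h hs h1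

theorem all_6 {n : ℕ} (hn : 3 ≤ n) {N L : ℝ}
    (h : Reg 6 n N L)
    (hs : ∀ T : ℕ, 1 ≤ T → (T : ℝ) < N →
      ¬ (Psi 6 T (1 / n) (n / N) (n * L / N) * Psi 6 (T + 1) (1 / n) (n / N) (n * L / N) < 0))
    (h1 : 0 < Psi 6 1 (1 / n) (n / N) (n * L / N)) : False := by
  rcases Nat.lt_or_ge n 30 with hlt | hge
  · interval_cases n
    · exact cf_false c6_3 (by norm_num) (by norm_num) (by norm_num) h hs h1
        (fun h => Bool.noConfusion h)
    · exact cf_false c6_4 (by norm_num) (by norm_num) (by norm_num) h hs h1
        (fun h => Bool.noConfusion h)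
    · exact cf_false c6_5 (by norm_num) (by norm_num) (by norm_num) h hs h1
        (fun h => Bool.noConfusion h)
    · exact cf_false c6_6 (by norm_num) (by norm_num) (by norm_num) h hs h1
        (fun h => Bool.noConfusion h)
    · exact cf_false c6_7 (by norm_num) (by norm_num) (by norm_num) h hs h1
        (fun h => Bool.noConfusion h)
    · exact cf_false c6_8 (by norm_num) (by norm_num) (by norm_num) h hs h1
        (fun h => Bool.noConfusion h)
    · exact cf_false c6_9 (by norm_num) (by norm_num) (by norm_num) h hs h1
        (fun h => Bool.noConfusion h)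
    · exact cf_false c6_10 (by norm_num) (by norm_num) (by norm_num) h hs h1
        (fun h => Bool.noConfusion h)
    · exact cf_false c6_11 (by norm_num) (by norm_num) (by norm_num) h hs h1
        (fun h => Bool.noConfusion h)
    · exact cf_false c6_12 (by norm_num) (by norm_num) (by norm_num) h hs h1
        (fun h => Bool.noConfusion h)
    · exact cf_false c6_13 (by norm_num) (by norm_num) (by norm_num) h hs h1
        (fun h => Bool.noConfusion h)
    · exact cf_false c6_14 (by norm_num) (by norm_num) (by norm_num) h hs h1
        (fun h => Bool.noConfusion h)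
    · exact cf_false c6_15 (by norm_num) (by norm_num) (by norm_num) h hs h1
        (fun h => Bool.noConfusion h)
    · exact cf_false c6_16 (by norm_num) (by norm_num) (by norm_num) h hs h1
        (fun h => Bool.noConfusion h)
    · exact cf_false c6_17 (by norm_num) (by norm_num) (by norm_num) h hs h1
        (fun h => Bool.noConfusion h)
    · exact cf_false c6_18 (by norm_num) (by norm_num) (by norm_num) h hs h1
        (fun h => Bool.noConfusion h)
    · exact cf_false c6_19 (by norm_num) (by norm_num) (by norm_num) h hs h1
        (fun h => Bool.noConfusion h)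
    · exact cf_false c6_20 (by norm_num) (by norm_num) (by norm_num) h hs h1
        (fun h => Bool.noConfusion h)
    · exact cf_false c6_21 (by norm_num) (by norm_num) (by norm_num) h hs h1
        (fun h => Bool.noConfusion h)
    · exact cf_false c6_22 (by norm_num) (by norm_num) (by norm_num) h hs h1
        (fun h => Bool.noConfusion h)
    · exact cf_false c6_23 (by norm_num) (by norm_num) (by norm_num) h hs h1
        (fun h => Bool.noConfusion h)
    · exact cf_false c6_24 (by norm_num) (by norm_num) (by norm_num) h hs h1
        (fun h => Bool.noConfusion h)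
    · exact cf_false c6_25 (by norm_num) (by norm_num) (by norm_num) h hs h1
        (fun h => Bool.noConfusion h)
    · exact cf_false c6_26 (by norm_num) (by norm_num) (by norm_num) h hs h1
        (fun h => Bool.noConfusion h)
    · exact cf_false c6_27 (by norm_num) (by norm_num) (by norm_num) h hs h1
        (fun h => Bool.noConfusion h)
    · exact cf_false c6_28 (by norm_num) (by norm_num) (by norm_num) h hs h1
        (fun h => Bool.noConfusion h)
    · exact cf_false c6_29 (by norm_num) (by norm_num) (by norm_num) h hs h1
        (fun h => Bool.noConfusion h)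
  · exact cg_false cg_6 (by norm_num) hge (by norm_num) (by norm_num) (by norm_num) h hs h1

theorem all_7 {n : ℕ} (hn : 3 ≤ n) {N L : ℝ}
    (h : Reg 7 n N L)
    (hs : ∀ T : ℕ, 1 ≤ T → (T : ℝ) < N →
      ¬ (Psi 7 T (1 / n) (n / N) (n * L / N) * Psi 7 (T + 1) (1 / n) (n / N) (n * L / N) < 0))
    (h1 : 0 < Psi 7 1 (1 / n) (n / N) (n * L / N)) : False := by
  rcases Nat.lt_or_ge n 14 with hlt | hge
  · interval_cases n
    · exact cf_false c7_3 (by norm_num) (by norm_num) (by norm_num) h hs h1
        (fun h => Bool.noConfusion h)
    · exact cf_false c7_4 (by norm_num) (by norm_num) (by norm_num) h hs h1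
        (fun h => Bool.noConfusion h)
    · exact cf_false c7_5 (by norm_num) (by norm_num) (by norm_num) h hs h1
        (fun h => Bool.noConfusion h)
    · exact cf_false c7_6 (by norm_num) (by norm_num) (by norm_num) h hs h1
        (fun h => Bool.noConfusion h)
    · exact cf_false c7_7 (by norm_num) (by norm_num) (by norm_num) h hs h1
        (fun h => Bool.noConfusion h)
    · exact cf_false c7_8 (by norm_num) (by norm_num) (by norm_num) h hs h1
        (fun h => Bool.noConfusion h)
    · exact cf_false c7_9 (by norm_num) (by norm_num) (by norm_num) h hs h1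
        (fun h => Bool.noConfusion h)
    · exact cf_false c7_10 (by norm_num) (by norm_num) (by norm_num) h hs h1
        (fun h => Bool.noConfusion h)
    · exact cf_false c7_11 (by norm_num) (by norm_num) (by norm_num) h hs h1
        (fun h => Bool.noConfusion h)
    · exact cf_false c7_12 (by norm_num) (by norm_num) (by norm_num) h hs h1
        (fun h => Bool.noConfusion h)
    · exact cf_false c7_13 (by norm_num) (by norm_num) (by norm_num) h hs h1
        (fun h => Bool.noConfusion h)
  · exact cg_false cg_7 (by norm_num) hge (by norm_num) (by norm_num) (by norm_num) h hs h1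

theorem all_8 {n : ℕ} (hn : 3 ≤ n) (hn' : n ≤ 5) {N L : ℝ}
    (h : Reg 8 n N L)
    (hs : ∀ T : ℕ, 1 ≤ T → (T : ℝ) < N →
      ¬ (Psi 8 T (1 / n) (n / N) (n * L / N) * Psi 8 (T + 1) (1 / n) (n / N) (n * L / N) < 0))
    (h1 : 0 < Psi 8 1 (1 / n) (n / N) (n * L / N)) : False := by
  interval_cases n
  · exact cf_false c8_3 (by norm_num) (by norm_num) (by norm_num) h hs h1
      (fun h => Bool.noConfusion h)
  · exact cf_false c8_4 (by norm_num) (by norm_num) (by norm_num) h hs h1
      (fun h => Bool.noConfusion h)
  · exact cf_false c8_5 (by norm_num) (by norm_num) (by norm_num) h hs h1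
      (fun h => Bool.noConfusion h)

theorem all_9 {n : ℕ} (hn : 3 ≤ n) (hn' : n ≤ 3) {N L : ℝ}
    (h : Reg 9 n N L)
    (hs : ∀ T : ℕ, 1 ≤ T → (T : ℝ) < N →
      ¬ (Psi 9 T (1 / n) (n / N) (n * L / N) * Psi 9 (T + 1) (1 / n) (n / N) (n * L / N) < 0))
    (h1 : 0 < Psi 9 1 (1 / n) (n / N) (n * L / N)) : False := by
  interval_cases n
  · exact cf_false c9_3 (by norm_num) (by norm_num) (by norm_num) h hs h1
      (fun h => Bool.noConfusion h)

theorem all_10 {n : ℕ} (hn : 3 ≤ n) (hn' : n ≤ 3) {N L : ℝ}
    (h : Reg 10 n N L)
    (hs : ∀ T : ℕ, 1 ≤ T → (T : ℝ) < N →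
      ¬ (Psi 10 T (1 / n) (n / N) (n * L / N) * Psi 10 (T + 1) (1 / n) (n / N) (n * L / N) < 0))
    (h1 : 0 < Psi 10 1 (1 / n) (n / N) (n * L / N)) : False := by
  interval_cases n
  · exact cf_false c10_3 (by norm_num) (by norm_num) (by norm_num) h hs h1
      (fun h => Bool.noConfusion h)

theorem all_11 {n : ℕ} (hn : 3 ≤ n) (hn' : n ≤ 3) {N L : ℝ}
    (h : Reg 11 n N L)
    (hs : ∀ T : ℕ, 1 ≤ T → (T : ℝ) < N →
      ¬ (Psi 11 T (1 / n) (n / N) (n * L / N) * Psi 11 (T + 1) (1 / n) (n / N) (n * L / N) < 0))
    (h1 : 0 < Psi 11 1 (1 / n) (n / N) (n * L / N)) : False := by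
  interval_cases n
  · exact cf_false c11_3 (by norm_num) (by norm_num) (by norm_num) h hs h1
      (fun h => Bool.noConfusion h)

theorem all_12 {n : ℕ} (hn : 3 ≤ n) (hn' : n ≤ 3) {N L : ℝ}
    (h : Reg 12 n N L)
    (hs : ∀ T : ℕ, 1 ≤ T → (T : ℝ) < N →
      ¬ (Psi 12 T (1 / n) (n / N) (n * L / N) * Psi 12 (T + 1) (1 / n) (n / N) (n * L / N) < 0))
    (h1 : 0 < Psi 12 1 (1 / n) (n / N) (n * L / N)) : False := by
  interval_cases n
  · exact cf_false c12_3 (by norm_num) (by norm_num) (by norm_num) h hs h1
      (fun h => Bool.noConfusion h)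

theorem cert_all {a n : ℕ} (ha : 2 ≤ a)
    (hr : (n = 3 ∧ a ≤ 12) ∨ (4 ≤ n ∧ n ≤ 5 ∧ a ≤ 8) ∨ (6 ≤ n ∧ a ≤ 7)) {N L : ℝ}
    (h : Reg a n N L)
    (hs : ∀ T : ℕ, 1 ≤ T → (T : ℝ) < N →
      ¬ (Psi a T (1 / n) (n / N) (n * L / N) * Psi a (T + 1) (1 / n) (n / N) (n * L / N) < 0))
    (h1 : 0 < Psi a 1 (1 / n) (n / N) (n * L / N))
    (h2 : n = 3 → a = 4 → Psi a 2 (1 / n) (n / N) (n * L / N) ≠ 0) : False := by
  have hn : 3 ≤ n := h.hn
  have ha12 : a ≤ 12 := by omega
  interval_cases a
  · exact all_2 hn h hs h1
  · exact all_3 hn h hs h1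
  · exact all_4 hn h hs h1 (fun hn3 => h2 hn3 rfl)
  · exact all_5 hn h hs h1
  · exact all_6 hn h hs h1
  · exact all_7 hn h hs h1
  · exact all_8 hn (by omega) h hs h1
  · exact all_9 hn (by omega) h hs h1
  · exact all_10 hn (by omega) h hs h1
  · exact all_11 hn (by omega) h hs h1
  · exact all_12 hn (by omega) h hs h1

end Pool.Agent.BX
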