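import Mathlib

set_option autoImplicit false

namespace Pool.Agent.BX

open Finset

/-- `d + n + 2 = (n+1)(X-1) + 1`, `d + n + 1 = (n+1)(X-1)`, `d + 2n + 3 = (n+1) X + 1`,
`d + 2n + 2 = (n+1) X`.  Cancel `n + 1`: `n+2 ∣ (X-1)((n+1)(X-1)+1)` and `n+2 ∣ X((n+1)X+1)`.  Modulo
`n + 2` (`n + 1 ≡ -1`): `(X-1)(2-X) ≡ 0`, `X(1-X) ≡ 0`; the difference is `2 (X-1)`. -/
theorem two_dvd {n d X : ℕ} (hX : d + 2 * n + 2 = (n + 1) * X)
    (h1 : (n + 1) * (n + 2) ∣ (d + n + 2) * (d + n + 1))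
    (h2 : (n + 1) * (n + 2) ∣ (d + 2 * n + 3) * (d + 2 * n + 2)) : n + 2 ∣ 2 * (X - 1) := by
  have hX2 : 2 ≤ X := by
    by_contra h
    have : X ≤ 1 := by omega
    have : (n + 1) * X ≤ (n + 1) * 1 := Nat.mul_le_mul_left _ this
    omega
  obtain ⟨Y, rfl⟩ : ∃ Y, X = Y + 1 := ⟨X - 1, by omega⟩
  have e1 : d + n + 1 = (n + 1) * Y := by
    have : (n + 1) * (Y + 1) = (n + 1) * Y + (n + 1) := by ring
    omega
  have e2 : d + n + 2 = (n + 1) * Y + 1 := by omega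
  have e3 : d + 2 * n + 3 = (n + 1) * (Y + 1) + 1 := by omega
  rw [e1, e2] at h1
  rw [e3, hX] at h2
  have g1 : n + 2 ∣ ((n + 1) * Y + 1) * Y := by
    have : (n + 1) * (n + 2) ∣ (n + 1) * (((n + 1) * Y + 1) * Y) := by
      convert h1 using 1; ring
    exact Nat.dvd_of_mul_dvd_mul_left (by omega) this
  have g2 : n + 2 ∣ ((n + 1) * (Y + 1) + 1) * (Y + 1) := by
    have : (n + 1) * (n + 2) ∣ (n + 1) * (((n + 1) * (Y + 1) + 1) * (Y + 1)) := by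
      convert h2 using 1; ring
    exact Nat.dvd_of_mul_dvd_mul_left (by omega) this
  simp only [Nat.add_sub_cancel]
  zify at g1 g2 ⊢
  have k1 : ((n : ℤ) + 2) ∣ ((n : ℤ) + 2) * (Y * Y - (Y + 1) * (Y + 1)) := dvd_mul_right _ _
  have k2 := dvd_add (dvd_sub g1 g2) (dvd_neg.mpr k1)
  have e : (((n : ℤ) + 1) * Y + 1) * Y - ((n + 1) * (Y + 1) + 1) * (Y + 1) +
      -(((n : ℤ) + 2) * (Y * Y - (Y + 1) * (Y + 1))) = 2 * Y := by ring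
  rwa [e] at k2

/-- Case A of the cubic bound. -/
private theorem cube_A {n a X Z P Q : ℤ} (hn : 2 ≤ n) (ha : 2 ≤ a) (hQ0 : 0 ≤ Q)
    (u1 : (n + a) * (X + 1) + 2 ≤ (n + a + 1) * (Z + 1))
    (u2 : n * (Z + 1) + 2 ≤ (n + 1) * (X + 1))
    (hQ : 2 * Z = (n + a + 2) * Q) (hP : 2 * X = (n + 2) * P) :
    n ^ 3 ≤ (2 * a + 3) * ((n + 1) * (X + 1) - 2) := by
  have a1 : n * (n + a + 2) * Q + 2 ≤ (n + 1) * (n + 2) * P := by
    have e1 : n * (2 * Z) = n * ((n + a + 2) * Q) := by rw [hQ]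
    have e2 : (n + 1) * (2 * X) = (n + 1) * ((n + 2) * P) := by rw [hP]
    linarith
  have a2 : (n + a) * (n + 2) * P + 2 ≤ (n + a + 1) * (n + a + 2) * Q := by
    have e1 : (n + a + 1) * (2 * Z) = (n + a + 1) * ((n + a + 2) * Q) := by rw [hQ]
    have e2 : (n + a) * (2 * X) = (n + a) * ((n + 2) * P) := by rw [hP]
    linarith
  have b1 : (n + 1) * (n + 2) ≤ n * (n + a + 2) := by nlinarith
  have b2 : (n + 1) * (n + 2) * Q < (n + 1) * (n + 2) * P := by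
    have := mul_le_mul_of_nonneg_right b1 hQ0
    linarith
  have hn1 : 0 ≤ (n + 1) * (n + 2) := by positivity
  have hQP : Q < P := lt_of_mul_lt_mul_left b2 hn1
  have hna : 0 ≤ (n + a) * (n + 2) := by positivity
  have a3 : (n + a) * (n + 2) + 2 ≤ Q * ((n + a) * (a + 1) + 2) := by
    have : (n + a) * (n + 2) * (Q + 1) ≤ (n + a) * (n + 2) * P :=
      mul_le_mul_of_nonneg_left (by linarith) hna
    linarith
  have a4 : 2 * ((n + a) * (n + 2) + 2) ≤ (n + a) * (Q * (2 * a + 3)) := by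
    have h5 : Q * 4 ≤ Q * (n + a) := mul_le_mul_of_nonneg_left (by linarith) hQ0
    linarith
  have a5 : 2 * (n + 2) < Q * (2 * a + 3) := by
    have h6 : (n + a) * (2 * (n + 2)) < (n + a) * (Q * (2 * a + 3)) := by linarith
    exact lt_of_mul_lt_mul_left h6 (by positivity)
  have a6 : (n + 1) * (n + 2) * (2 * (n + 2)) ≤ (n + 1) * (n + 2) * (Q * (2 * a + 3)) :=
    mul_le_mul_of_nonneg_left a5.le hn1
  have a7 : n ^ 3 ≤ (n + 1) * (n + 2) * (n + 2) := by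
    have : (n + 1) * (n + 2) * (n + 2) - n ^ 3 = 5 * n ^ 2 + 8 * n + 4 := by ring
    have : 0 ≤ 5 * n ^ 2 + 8 * n + 4 := by positivity
    linarith
  have a8 : (n + 1) * (n + 2) * (Q + 1) ≤ (n + 1) * (n + 2) * P :=
    mul_le_mul_of_nonneg_left (by linarith) hn1
  have a9 : 2 * ((n + 1) * (X + 1)) = 2 * (n + 1) + (n + 1) * (n + 2) * P := by
    have e2 : (n + 1) * (2 * X) = (n + 1) * ((n + 2) * P) := by rw [hP]
    linarith
  have a10 : (2 * a + 3) * ((n + 1) * (n + 2) * Q) ≤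
      (2 * a + 3) * (2 * ((n + 1) * (X + 1)) - 4) := by
    apply mul_le_mul_of_nonneg_left _ (by positivity)
    rw [a9]
    have : 0 ≤ (n + 1) * (n + 2) - 2 + 2 * (n + 1) - 2 := by nlinarith
    linarith
  linarith

/-- Case B of the cubic bound. -/
private theorem cube_B {n a X Z Q : ℤ} (hn : 2 ≤ n) (ha : 2 ≤ a) (hZ : 3 ≤ Z + 1)
    (hQ : 2 * Z = (n + a + 2) * Q)
    (hP : (n + a) * (X + 1) + 2 = (n + a + 1) * (Z + 1)) :
    n ^ 3 ≤ (2 * a + 3) * ((n + 1) * (X + 1) - 2) := by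
  obtain ⟨R, hRd⟩ : ∃ R, X = Z + R := ⟨X - Z, by ring⟩
  subst hRd
  have hR : Z - 1 = (n + a) * R := by linarith
  have hR1 : 1 ≤ R := by
    by_contra hlt
    have h1 : R ≤ 0 := by linarith [not_le.mp hlt]
    have : (n + a) * R ≤ 0 := mul_nonpos_of_nonneg_of_nonpos (by positivity) h1
    linarith
  have hX' : Z + R + 1 = 2 + (n + a + 1) * R := by linarith
  have hdvd : (n + a + 2) ∣ 4 * R - 2 := by
    have h1 : (n + a + 2) ∣ 2 * Z := ⟨Q, hQ⟩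
    have h2 : 2 * Z = 2 + 2 * ((n + a) * R) := by linarith
    have h3 : (n + a + 2) ∣ (n + a + 2) * (2 * R) := dvd_mul_right _ _
    have h4 := dvd_sub h3 h1
    rw [h2] at h4
    have e : (n + a + 2) * (2 * R) - (2 + 2 * ((n + a) * R)) = 4 * R - 2 := by ring
    rwa [e] at h4
  have h5 := Int.le_of_dvd (by linarith) hdvd
  have h6 : (n + a + 1) * (n + a + 4) ≤ (n + a + 1) * (4 * R) :=
    mul_le_mul_of_nonneg_left (by linarith) (by positivity)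
  have h7 : (n + 3) * (n + 6) ≤ (n + a + 1) * (n + a + 4) :=
    mul_le_mul (by linarith) (by linarith) (by positivity) (by positivity)
  have h8 : (n + 1) * (8 + (n + 3) * (n + 6)) ≤ (n + 1) * (4 * (Z + R + 1)) := by
    apply mul_le_mul_of_nonneg_left _ (by positivity)
    rw [hX']
    linarith
  have h9 : n ^ 3 ≤ 4 * ((n + 1) * (Z + R + 1) - 2) := by
    have e1 : (n + 1) * (8 + (n + 3) * (n + 6)) - 8 - n ^ 3 = 10 * n ^ 2 + 35 * n + 18 := by ring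
    have e2 : 0 ≤ 10 * n ^ 2 + 35 * n + 18 := by positivity
    linarith
  have hn3 : 0 ≤ n ^ 3 := by positivity
  have h10 : 0 ≤ (n + 1) * (Z + R + 1) - 2 := by linarith
  have h11 : 4 * ((n + 1) * (Z + R + 1) - 2) ≤ (2 * a + 3) * ((n + 1) * (Z + R + 1) - 2) :=
    mul_le_mul_of_nonneg_right (by linarith) h10
  linarith

/-- **Arithmetic of the cubic bound.**  `p = n + a` (`= n'`).  `X, Z ≥ 3`.
`u1`, `u2` are Noda's bounds (`u2` strict: `u2 : n Z + 2 ≤ (n+1) X`; `u1 : p X + 2 ≤ (p+1) Z`).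
Always `p + 2 ∣ 2 (Z - 1)`, say `2 (Z-1) = (p+2) Q`, `Q ≥ 1`.
Case A, `2 (X - 1) = (n+2) P`: then `n (p+2) Q + 2 ≤ (n+1)(n+2) P` and
`p (n+2) P + 2 ≤ (p+1)(p+2) Q`.  Since `a ≥ 2`, `n ≥ 2`: `n (p + 2) ≥ n (n + 4) ≥ (n+1)(n+2)` (for `n ≥ 2`),
so `Q < P`, `P ≥ Q + 1`, and the second inequality gives
`p (n+2) + 2 ≤ Q (p (a+1) + 2)`.  Now `(n+1) X = (n+1) (1 + (n+2) P / 2)`, so
`2 (n+1) X ≥ (n+1) (2 + (n+2) (Q+1))`, and `(2a+3) * 2 * ((n+1) X - 2) ≥ 2 n³` follows from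
`Q (2a+3) p ≥ 2 Q (p (a+1) + 2) ≥ 2 (p (n+2) + 2)` (`p ≥ 4`), i.e. `Q (2a+3) ≥ 2 (n+2)`, so
`(2a+3) * 2 * (n+1) X ≥ (n+1)(n+2) * 2 (n+2) + (2a+3)(n+1)(n+4)`.
Case B, equality in `u1`: `p X + 2 = (p+1) Z`; so `Z = 2 + p R`, `X = 2 + (p+1) R` with `R ≥ 1`
(`p ∣ Z - 2`, and `X ≥ 3`); `p + 2 ∣ 2 (Z-1) = 2 + 2 p R ≡ 2 - 4 R`, so `p + 2 ∣ 4 R - 2`,
`4 R ≥ p + 4`, `4 (n+1) X ≥ (n+1) (8 + (p+1)(p+4)) ≥ 4 n³/4 …`: `(n+1)((n+3)(n+6) + 8) ≥ n³ + 8`, and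
`2 a + 3 ≥ 4`. -/
theorem cube_arith {n a X Z : ℕ} (hn : 2 ≤ n) (ha : 2 ≤ a) (hX : 3 ≤ X) (hZ : 3 ≤ Z)
    (u1 : (n + a) * X + 2 ≤ (n + a + 1) * Z) (u2 : n * Z + 2 ≤ (n + 1) * X)
    (hQ : n + a + 2 ∣ 2 * (Z - 1))
    (hP : n + 2 ∣ 2 * (X - 1) ∨ (n + a) * X + 2 = (n + a + 1) * Z) :
    n ^ 3 ≤ (2 * a + 3) * ((n + 1) * X - 2) := by
  obtain ⟨Q, hQ⟩ := hQ
  obtain ⟨X', rfl⟩ : ∃ X', X = X' + 1 := ⟨X - 1, by omega⟩
  obtain ⟨Z', rfl⟩ : ∃ Z', Z = Z' + 1 := ⟨Z - 1, by omega⟩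
  simp only [Nat.add_sub_cancel] at hQ hP
  have hsub : 2 ≤ (n + 1) * (X' + 1) := by nlinarith
  zify [hsub] at *
  rcases hP with ⟨P, hP⟩ | hP
  · exact cube_A hn ha (Nat.cast_nonneg Q) u1 u2 hQ hP
  · exact cube_B hn ha hZ hQ hP

end Pool.Agent.BX
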