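import Mathlib
import Pool.Agent.BX.D1
import Pool.Agent.BetaL.Noda

set_option autoImplicit false

namespace Pool.Agent.BX

open Finset Pool.Agent.MP_1e96f1_co Pool.Agent.BetaL

variable {Ω : Type*} [Fintype Ω] [DecidableEq Ω]

/-- **Lines in a deep set.**  If the design is not `β(n+2)` then there is a set `W` with
`x + 2 = d + 2n + 3` points such that `|W \ B| ≥ n + 2` for all blocks (`β(n+2)`: every `(d+2n+3)`-set
meets exactly one block in at least `d + n + 2` points, i.e. `|W \ B| ≤ n + 1`; there is at most one such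
block since two of them would satisfy `|B ∩ C| ≥ d + 2n + 3 - 2 (n+1) = d + 1` (`inter_ge`); so some `W`
has none).  Lines: `W \ B` with `n + 2` points.  For `p ≠ q ∈ W`, `X = W \ {p, q}`, `|X \ B| ≤ n`:
`n + 2 ≤ |W \ B| ≤ n + 2`, so `p, q ∈ W \ B`, a line; unique as in `div_block`.  `lin_space` with `T = W`,
`t = n + 1`. -/
theorem div_deep {Bs : Finset (Finset Ω)} {v k d n : ℕ} (hD : IsDesign Bs v k d)
    (hB : IsBeta Bs v d (n + 1)) (hv : d + 2 * n + 3 ≤ v) (hnot : ¬ IsBeta Bs v d (n + 2)) :
    (n + 1) * (n + 2) ∣ (d + 2 * n + 3) * (d + 2 * n + 2) := by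
  obtain ⟨W, hWc, hW⟩ : ∃ W : Finset Ω, W.card = d + 2 * n + 3 ∧
      ∀ B ∈ Bs, n + 2 ≤ (W \ B).card := by
    by_contra hcon
    push Not at hcon
    apply hnot
    refine ⟨by omega, by omega, fun X hX => ?_⟩
    obtain ⟨B, hBs, hBn⟩ := hcon X (by omega)
    have e1 := Finset.card_sdiff_add_card_inter X B
    refine ⟨B, ⟨hBs, by omega⟩, ?_⟩
    rintro C ⟨hCs, hC⟩
    by_contra hne
    have e2 := Finset.card_sdiff_add_card_inter X C
    have h3 := inter_ge (Y := X) (B := C) (C := B) (b := n + 1) (c := n + 1) (by omega) (by omega)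
    have h4 := hD.inter_le C hCs B hBs hne
    omega
  -- removing two points
  have hrem : ∀ p ∈ W, ∀ q ∈ W, p ≠ q → ((W.erase p).erase q).card = d + 2 * n + 1 := by
    intro p hp q hq hpq
    rw [Finset.card_erase_of_mem, Finset.card_erase_of_mem hp, hWc]
    · rfl
    · exact Finset.mem_erase.mpr ⟨Ne.symm hpq, hq⟩
  have hline : ∀ p ∈ W, ∀ q ∈ W, p ≠ q → ∀ B, p ∉ B → q ∉ B →
      (((W.erase p).erase q) \ B).card + 2 = (W \ B).card := by
    intro p hp q hq hpq B hpB hqB
    have h1 : ((W.erase p).erase q) \ B = ((W \ B).erase p).erase q := by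
      ext z
      simp only [Finset.mem_sdiff, Finset.mem_erase]
      tauto
    have hp' : p ∈ W \ B := Finset.mem_sdiff.mpr ⟨hp, hpB⟩
    have hq' : q ∈ (W \ B).erase p :=
      Finset.mem_erase.mpr ⟨Ne.symm hpq, Finset.mem_sdiff.mpr ⟨hq, hqB⟩⟩
    have h2 := Finset.card_erase_add_one hq'
    have h3 := Finset.card_erase_add_one hp'
    rw [h1]
    omega
  have hlin := lin_space W ((Bs.filter (fun B => (W \ B).card = n + 2)).image (fun B => W \ B))
    (n + 1) (by
      intro l hl
      rw [Finset.mem_image] at hl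
      obtain ⟨B, hB', rfl⟩ := hl
      rw [Finset.mem_filter] at hB'
      exact ⟨Finset.sdiff_subset, hB'.2⟩) (by
      intro p hp q hq hpq
      have hX := hrem p hp q hq hpq
      obtain ⟨B, hBs, hBn⟩ := beta_exists hB hX
      have hWB := hW B hBs
      have hsub : W \ B ⊆ (((W.erase p).erase q) \ B) ∪ (({p, q} : Finset Ω) \ B) := by
        intro z hz
        simp only [Finset.mem_union, Finset.mem_sdiff, Finset.mem_erase, Finset.mem_insert,
          Finset.mem_singleton] at hz ⊢
        tauto
      have h3 := Finset.card_le_card hsub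
      have h4 := Finset.card_union_le (((W.erase p).erase q) \ B) (({p, q} : Finset Ω) \ B)
      have hpq2 : ({p, q} : Finset Ω).card = 2 := Finset.card_pair hpq
      have h5 : (({p, q} : Finset Ω) \ B).card = 2 := by
        have h6 : (({p, q} : Finset Ω) \ B).card ≤ 2 :=
          hpq2 ▸ Finset.card_le_card Finset.sdiff_subset
        omega
      have h7 : ({p, q} : Finset Ω) \ B = {p, q} :=
        Finset.eq_of_subset_of_card_le Finset.sdiff_subset (by omega)
      have hpB : p ∉ B := by
        have : p ∈ ({p, q} : Finset Ω) \ B := by rw [h7]; simp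
        exact (Finset.mem_sdiff.mp this).2
      have hqB : q ∉ B := by
        have : q ∈ ({p, q} : Finset Ω) \ B := by rw [h7]; simp
        exact (Finset.mem_sdiff.mp this).2
      have h8 := hline p hp q hq hpq B hpB hqB
      refine ⟨W \ B, ⟨?_, ?_, ?_⟩, ?_⟩
      · rw [Finset.mem_image]
        exact ⟨B, Finset.mem_filter.mpr ⟨hBs, by omega⟩, rfl⟩
      · exact Finset.mem_sdiff.mpr ⟨hp, hpB⟩
      · exact Finset.mem_sdiff.mpr ⟨hq, hqB⟩
      · rintro l ⟨hl, hpl, hql⟩
        rw [Finset.mem_image] at hl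
        obtain ⟨C, hC, rfl⟩ := hl
        rw [Finset.mem_filter] at hC
        rw [Finset.mem_sdiff] at hpl hql
        have h9 := hline p hp q hq hpq C hpl.2 hql.2
        have h10 := beta_unique hB hX hC.1 hBs (by omega) hBn
        rw [h10])
  have h := hlin.2
  rw [hWc] at h
  exact h

end Pool.Agent.BX
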