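import Mathlib
import Pool.Agent.BX.D2
import Pool.Agent.BX.D3
import Pool.Agent.BX.D4

set_option autoImplicit false

namespace Pool.Agent.BX

open Finset Pool.Agent.MP_1e96f1_co Pool.Agent.BetaL

variable {Ω : Type*} [Fintype Ω] [DecidableEq Ω]

/-- **Divisibility in the complement.**  `k = d + 2n + 1 + a`.  The complement is a `β(n + a + 1)`
design with parameter `(v, v - k, v + d - 2k)` (`design_co`, `beta_co`: index
`k - d - (n+1) + 1 = n + a + 1`), so `div_block` gives `n + a + 1 ∣ v + d - 2k`; and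
`(v + d - 2 k) + 2 (n + a) + 2 = v - (d + 2n)`. (`v ≥ 2k - d` etc. from `design_facts`.) -/
theorem div_co {Bs : Finset (Finset Ω)} {v d n a : ℕ}
    (hD : IsDesign Bs v (d + 2 * n + 1 + a) d) (hB : IsBeta Bs v d (n + 1)) (hn : 1 ≤ n)
    (ha : 1 ≤ a) (hv : 2 * (d + 2 * n + 1) ≤ v + 1) : n + a + 1 ∣ v - (d + 2 * n) := by
  obtain ⟨hdk, hkv⟩ := design_facts hD
  have hB' := beta_co hD (i := n + 1) (by omega) hB
  have e1 : d + 2 * n + 1 + a - d - (n + 1) + 1 = (n + a) + 1 := by omega
  rw [e1] at hB'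
  have h1 := (div_block (n := n + a) (design_co hD) hB' (by omega) (by omega)).1
  have e2 : v - (d + 2 * n) = (v + d - 2 * (d + 2 * n + 1 + a)) + 2 * (n + a + 1) := by omega
  rw [e2]
  exact dvd_add h1 (Dvd.intro_left _ rfl)

/-- **The cubic bound.**  `(n+1) X = d + 2n + 2`, `(n+a+1) Z = v - (d + 2n)` (`div_block`, `div_co`),
`v = (n+1) X + (n+a+1) Z - 2`, `k - d = (n+1) + (n+a)`.  `u1` is `noda_lower`, `u2` is `noda_upper` (both
in `Pool/Agent/BetaL/Noda.lean`; `(d + 2n + 2)(k-d) ≤ (n+1) v` is `X (k-d) ≤ v`; similarly the upper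
bound is, after the exchange `n ↔ n + a`, `X ↔ Z`, `Z (k - d) ≤ v`: this is `noda_lower` for the complement, or
compute).
`hQ`: `two_dvd` for the complement; its hypothesis `h2` is `div_deep` for the complement, which is not
`β(n+a+2)` because otherwise (complement of the complement, `beta_co`, `co_co`) the design were `β(n)` and
`eq_of_beta_pred` would contradict `hne`.
`hP`: if the design is not `β(n+2)`, `div_block` and `div_deep` and `two_dvd`.  If it is `β(n+2)`,
`eq_of_beta_pred` (with `n + 1` for `n`) gives `(n+1) v = (d + 2n + 2)(k - d)`, i.e. `v = X (k-d)`.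
`X ≥ 3` since `d > 0` and `n + 1 ∣ d`, and `Z ≥ 3` from `u1` (`p X + 2 ≤ (p+1) Z`). -/
theorem cube_bound {Bs : Finset (Finset Ω)} {v d n a : ℕ}
    (hD : IsDesign Bs v (d + 2 * n + 1 + a) d) (hd : 0 < d) (hB : IsBeta Bs v d (n + 1))
    (hn : 2 ≤ n) (ha : 2 ≤ a) (hv : 2 * (d + 2 * n + 1) ≤ v + 1)
    (hne : n * v ≠ (d + 2 * n) * (2 * n + 1 + a)) :
    n ^ 3 ≤ (2 * a + 3) * (d + 2 * n) := by
  obtain ⟨hdk, hkv⟩ := design_facts hD
  have hB' := beta_co hD (i := n + 1) (by omega) hB
  have e1 : d + 2 * n + 1 + a - d - (n + 1) + 1 = (n + a) + 1 := by omega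
  rw [e1] at hB'
  have hD' := design_co hD
  obtain ⟨hb1, hb2⟩ := div_block hD hB (by omega) (by omega)
  obtain ⟨hc1, hc2⟩ := div_block (n := n + a) hD' hB' (by omega) (by omega)
  obtain ⟨x, hx⟩ := hb1
  have hX : d + 2 * n + 2 = (n + 1) * (x + 2) := by rw [hx]; ring
  have hx1 : 1 ≤ x := by
    rcases Nat.eq_zero_or_pos x with h | h
    · rw [h, mul_zero] at hx
      omega
    · exact h
  obtain ⟨z, hz⟩ := hc1
  have hZ : v + d - 2 * (d + 2 * n + 1 + a) + 2 * (n + a) + 2 = (n + a + 1) * (z + 2) := by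
    rw [hz]; ring
  have hvX : v = (d + 2 * n) + (n + a + 1) * (z + 2) := by
    rw [← hZ]; omega
  have ekd : d + 2 * n + 1 + a - d = 2 * n + 1 + a := by omega
  -- Noda's bounds
  have u1 : (n + a) * (x + 2) + 2 ≤ (n + a + 1) * (z + 2) := by
    have h1 := noda_lower hD hB (by omega)
    rw [ekd, hX, mul_assoc] at h1
    have h2 := Nat.le_of_mul_le_mul_left h1 (by omega)
    have h3 : (x + 2) * (2 * n + 1 + a) = (n + 1) * (x + 2) + (n + a) * (x + 2) := by ring
    rw [h3, ← hX] at h2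
    omega
  have u2 : n * (z + 2) + 2 ≤ (n + 1) * (x + 2) := by
    have h1 := noda_upper hD hB (by omega) (by omega)
    rw [ekd] at h1
    have h2 : n * v = n * (d + 2 * n) + (n + a + 1) * (n * (z + 2)) := by
      conv_lhs => rw [hvX]
      ring
    have h3 : (d + 2 * n) * (2 * n + 1 + a) = n * (d + 2 * n) + (n + a + 1) * (d + 2 * n) := by
      ring
    rw [h2, h3] at h1
    have h4 : (n + a + 1) * (n * (z + 2)) ≤ (n + a + 1) * (d + 2 * n) := by omega
    have h5 := Nat.le_of_mul_le_mul_left h4 (by omega)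
    rw [← hX]
    omega
  have hz1 : 1 ≤ z := by
    rcases Nat.eq_zero_or_pos z with h | h
    · exfalso
      rw [h] at u1
      have h2 : (n + a) * (x + 2) = (n + a) * x + 2 * (n + a) := by ring
      have h3 : 1 * 1 ≤ (n + a) * x := Nat.mul_le_mul (by omega) hx1
      rw [h2] at u1
      have h4 : (n + a + 1) * (0 + 2) = 2 * (n + a) + 2 := by ring
      rw [h4] at u1
      omega
    · exact h
  -- the complement is not `β(n + a + 2)`
  have hnotc : ¬ IsBeta (co Bs) v (v + d - 2 * (d + 2 * n + 1 + a)) (n + a + 2) := by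
    intro hcon
    have h1 := beta_co hD' (i := n + a + 2) (by omega) hcon
    rw [co_co] at h1
    have e3 : v + (v + d - 2 * (d + 2 * n + 1 + a)) - 2 * (v - (d + 2 * n + 1 + a)) = d := by
      omega
    have e4 : v - (d + 2 * n + 1 + a) - (v + d - 2 * (d + 2 * n + 1 + a)) - (n + a + 2) + 1 = n := by
      omega
    rw [e3, e4] at h1
    have h2 := eq_of_beta_pred hD hB h1 (by omega) (by omega)
    rw [ekd] at h2
    exact hne h2
  have hQ : n + a + 2 ∣ 2 * ((z + 2) - 1) := by
    have h2 := div_deep (n := n + a) hD' hB' (by omega) hnotc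
    have h1 := hc2
    exact two_dvd (n := n + a) (d := v + d - 2 * (d + 2 * n + 1 + a)) (X := z + 2) hZ h1 h2
  have hP : n + 2 ∣ 2 * ((x + 2) - 1) ∨ (n + a) * (x + 2) + 2 = (n + a + 1) * (z + 2) := by
    by_cases hcase : IsBeta Bs v d (n + 2)
    · right
      have h1 := eq_of_beta_pred (n := n + 1) hD hcase hB (by omega) (by omega)
      have e3 : d + 2 * (n + 1) = d + 2 * n + 2 := by ring
      rw [ekd, e3, hX, mul_assoc] at h1
      have h2 := Nat.eq_of_mul_eq_mul_left (by omega) h1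
      have h3 : (x + 2) * (2 * n + 1 + a) = (n + 1) * (x + 2) + (n + a) * (x + 2) := by ring
      rw [h3, ← hX] at h2
      omega
    · left
      exact two_dvd hX hb2 (div_deep hD hB (by omega) hcase)
  have hfin := cube_arith hn ha (by omega : 3 ≤ x + 2) (by omega : 3 ≤ z + 2) u1 u2 hQ hP
  rw [← hX] at hfin
  exact hfin

end Pool.Agent.BX
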