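import Mathlib
import Pool.Agent.MP_1e96f1_co.Final

set_option autoImplicit false

namespace Pool.Agent.BX

open Finset Pool.Agent.MP_1e96f1_co

variable {Ω : Type*} [Fintype Ω] [DecidableEq Ω]

/-- **Divisibility in Steiner systems.**  `Bs` is `β(1)`: every `(d+1)`-subset lies in exactly one block.
Choose a set `Z` of `d - s` points (`d - s ≤ v`).  Count the pairs `(Y, B)`, `Z ⊆ Y ⊆ B ∈ Bs`,
`|Y| = d + 1`.  The number of `(d+1)`-sets `Y ⊇ Z` is `C(v - (d-s), s+1)` (`sup_all` in `Count.lean`, or
`card_supersets`), each in exactly one block; each block `B ⊇ Z` contains `C(k - (d-s), s+1)` of them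
(`card_supersets`).  So `λ(Z) * C(k-d+s, s+1) = C(v-d+s, s+1)`.  (`design_facts hD : d < k ∧ …`,
`swap_sum` in `Strength.lean` for the double count; see `beta_two_count` for the same kind of proof.) -/
theorem steiner_dvd {Bs : Finset (Finset Ω)} {v k d : ℕ} (hD : IsDesign Bs v k d)
    (hB : IsBeta Bs v d 1) {s : ℕ} (hs : s ≤ d) :
    (k - d + s).choose (s + 1) ∣ (v - d + s).choose (s + 1) := by
  have hdk : d ≤ k := by
    obtain ⟨B, hBs, C, -, -, hc⟩ := hD.inter_eq
    have h1 := Finset.card_le_card (Finset.inter_subset_left (s₁ := B) (s₂ := C))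
    rw [hc, hD.card_block B hBs] at h1
    exact h1
  have hdv : d + 1 ≤ v := by
    have := hB.2.1
    omega
  obtain ⟨Z, -, hZ⟩ := Finset.exists_subset_card_eq (s := (Finset.univ : Finset Ω)) (n := d - s) (by
    rw [Finset.card_univ, hD.card_points]
    omega)
  set S := ((Finset.univ : Finset Ω).powersetCard (d + 1)).filter (fun Y => Z ⊆ Y) with hS
  have hScard : S.card = (v - d + s).choose (s + 1) := by
    rw [hS, card_supersets (Finset.subset_univ Z) (d + 1) (by omega), Finset.card_univ,
      hD.card_points, hZ]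
    congr 1 <;> omega
  have hswap := swap_sum S Bs (fun Y B => Y ⊆ B)
  have h1 : ∑ Y ∈ S, (Bs.filter (fun B => Y ⊆ B)).card = S.card := by
    rw [Finset.card_eq_sum_ones]
    refine Finset.sum_congr rfl fun Y hY => ?_
    rw [hS, Finset.mem_filter, Finset.mem_powersetCard] at hY
    obtain ⟨B, ⟨hBs, hBY⟩, huniq⟩ := hB.2.2 Y (by omega)
    have hsub : ∀ C : Finset Ω, Y ⊆ C ↔ d + 1 ≤ (Y ∩ C).card := by
      intro C
      constructor
      · intro h
        rw [Finset.inter_eq_left.mpr h]
        omega
      · intro h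
        rw [← Finset.inter_eq_left]
        exact Finset.eq_of_subset_of_card_le Finset.inter_subset_left (by omega)
    rw [Finset.card_eq_one]
    refine ⟨B, ?_⟩
    ext C
    rw [Finset.mem_filter, Finset.mem_singleton]
    constructor
    · rintro ⟨hC, hYC⟩
      exact huniq C ⟨hC, (hsub C).mp hYC⟩
    · rintro rfl
      exact ⟨hBs, (hsub C).mpr hBY⟩
  rw [h1, hScard] at hswap
  rw [hswap]
  refine Finset.dvd_sum fun B hBs => ?_
  by_cases hZB : Z ⊆ B
  · have h2 : S.filter (fun Y => Y ⊆ B) = (B.powersetCard (d + 1)).filter (fun Y => Z ⊆ Y) := by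
      ext Y
      simp only [hS, Finset.mem_filter, Finset.mem_powersetCard, Finset.subset_univ, true_and]
      tauto
    rw [h2, card_supersets hZB (d + 1) (by omega), hD.card_block B hBs, hZ]
    have e1 : k - (d - s) = k - d + s := by omega
    have e2 : d + 1 - (d - s) = s + 1 := by omega
    rw [e1, e2]
  · have h2 : S.filter (fun Y => Y ⊆ B) = ∅ := by
      rw [Finset.filter_eq_empty_iff]
      intro Y hY hYB
      rw [hS, Finset.mem_filter] at hY
      exact hZB (hY.2.trans hYB)
    rw [h2, Finset.card_empty]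
    exact dvd_zero _

end Pool.Agent.BX
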