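import Mathlib

set_option autoImplicit false

namespace Pool.Agent.BX

open Finset

/-- Kummer (`padicValNat_choose` or `Nat.Prime.multiplicity_choose` / `Nat.factorization_choose…`).  Put
`q = p^e ≥ 3`.  In `C(u+q-3, q-2)`: `k = q-2`, `n - k = u - 1 ≡ 1 (mod q)`.  For `i ≤ e`:
`k % p^i = p^i - 2`, `(n-k) % p^i = 1` (`p^i ≥ 2`, `i ≥ 1`), the sum is `p^i - 1 < p^i`.  For `i > e`:
`k % p^i = q - 2` and `(n-k) % p^i ≡ 1 (mod q)` is `≤ p^i - q + 1`, the sum is `≤ p^i - 1`.  So there is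
no carry and `p ∤ C(u+q-3, q-2)`; hence `p ∤ C(m+q-3, q-2)`, so there is no carry at `i = e`:
`(q - 2) + (m - 1) % q < q`, i.e. `(m-1) % q ≤ 1`, so `q ∣ m - 1` or `q ∣ m - 2`. -/
theorem pp_dvd {p e m u : ℕ} (hp : p.Prime) (hq : 3 ≤ p ^ e) (hm : 2 ≤ m) (hu2 : 2 ≤ u)
    (hu : p ^ e ∣ u - 2)
    (h : (m + p ^ e - 3).choose (p ^ e - 2) ∣ (u + p ^ e - 3).choose (p ^ e - 2)) :
    p ^ e ∣ (m - 1) * (m - 2) := by
  have : Fact p.Prime := ⟨hp⟩
  have he : 1 ≤ e := by
    by_contra h0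
    have : e = 0 := by omega
    rw [this, pow_zero] at hq
    omega
  obtain ⟨w, hw⟩ := hu
  have hp2 : 2 ≤ p := hp.two_le
  -- no carry in the second binomial coefficient
  have hval0 : padicValNat p ((u + p ^ e - 3).choose (p ^ e - 2)) = 0 := by
    rw [padicValNat_choose (b := Nat.log p (u + p ^ e - 3) + 1) (by omega) (Nat.lt_succ_self _),
      Finset.card_eq_zero, Finset.filter_eq_empty_iff]
    intro i hi
    rw [Finset.mem_Ico] at hi
    have hnk : u + p ^ e - 3 - (p ^ e - 2) = u - 1 := by omega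
    have hu1 : u - 1 = p ^ e * w + 1 := by omega
    rw [hnk, hu1, not_le]
    have hpi : 2 ≤ p ^ i := hp2.trans (Nat.le_self_pow (by omega) p)
    rcases le_or_gt i e with hie | hie
    · obtain ⟨c, hc⟩ : ∃ c, e = i + c := ⟨e - i, by omega⟩
      have hpe : p ^ e = p ^ i * p ^ c := by rw [hc, pow_add]
      have hpc : 1 ≤ p ^ c := Nat.one_le_pow _ _ (by omega)
      obtain ⟨c', hc'⟩ : ∃ c', p ^ c = c' + 1 := ⟨p ^ c - 1, by omega⟩
      have e1 : (p ^ e - 2) % p ^ i = p ^ i - 2 := by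
        have : p ^ e - 2 = (p ^ i - 2) + p ^ i * c' := by
          rw [hpe, hc', mul_add, mul_one]
          omega
        rw [this, Nat.add_mul_mod_self_left, Nat.mod_eq_of_lt (by omega)]
      have e2 : (p ^ e * w + 1) % p ^ i = 1 := by
        have : p ^ e * w + 1 = 1 + p ^ i * (p ^ c * w) := by
          rw [hpe]
          ring
        rw [this, Nat.add_mul_mod_self_left, Nat.mod_eq_of_lt (by omega)]
      rw [e1, e2]
      omega
    · obtain ⟨c, hc⟩ : ∃ c, i = e + c := ⟨i - e, by omega⟩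
      have hpi' : p ^ i = p ^ e * p ^ c := by rw [hc, pow_add]
      have hle : p ^ e ≤ p ^ i := Nat.pow_le_pow_right (by omega) hie.le
      have e1 : (p ^ e - 2) % p ^ i = p ^ e - 2 := Nat.mod_eq_of_lt (by omega)
      have hlt : (p ^ e * w + 1) % p ^ i < p ^ i := Nat.mod_lt _ (by omega)
      have e2 : ((p ^ e * w + 1) % p ^ i) % p ^ e = 1 := by
        rw [hpi', Nat.mod_mul_right_mod, Nat.mul_add_mod, Nat.mod_eq_of_lt (by omega)]
      have e3 := Nat.div_add_mod ((p ^ e * w + 1) % p ^ i) (p ^ e)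
      rw [e2] at e3
      set r := (p ^ e * w + 1) % p ^ i with hr
      set a := r / p ^ e with ha
      have e4 : a + 1 ≤ p ^ c := by
        by_contra hcon
        have h5 : p ^ c ≤ a := by omega
        have h6 : p ^ e * p ^ c ≤ p ^ e * a := Nat.mul_le_mul_left _ h5
        omega
      have e5 : p ^ e * (a + 1) ≤ p ^ e * p ^ c := Nat.mul_le_mul_left _ e4
      rw [mul_add, mul_one] at e5
      rw [e1]
      omega
  have hne : (u + p ^ e - 3).choose (p ^ e - 2) ≠ 0 := (Nat.choose_pos (by omega)).ne'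
  have hne' : (m + p ^ e - 3).choose (p ^ e - 2) ≠ 0 := (Nat.choose_pos (by omega)).ne'
  have hval1 : padicValNat p ((m + p ^ e - 3).choose (p ^ e - 2)) = 0 := by
    have h1 : ¬ p ∣ (u + p ^ e - 3).choose (p ^ e - 2) := by
      intro h2
      have h3 := one_le_padicValNat_of_dvd hne h2
      omega
    exact padicValNat.eq_zero_of_not_dvd fun h2 => h1 (h2.trans h)
  rw [padicValNat_choose (b := Nat.log p (m + p ^ e - 3) + e + 1) (by omega) (by omega),
    Finset.card_eq_zero, Finset.filter_eq_empty_iff] at hval1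
  have h4 := hval1 (x := e) (Finset.mem_Ico.mpr ⟨he, by omega⟩)
  have hnk : m + p ^ e - 3 - (p ^ e - 2) = m - 1 := by omega
  rw [hnk, not_le, Nat.mod_eq_of_lt (by omega : p ^ e - 2 < p ^ e)] at h4
  have h5 : (m - 1) % p ^ e ≤ 1 := by omega
  rcases Nat.le_one_iff_eq_zero_or_eq_one.mp h5 with h6 | h6
  · exact Dvd.dvd.mul_right (Nat.dvd_of_mod_eq_zero h6) _
  · have h7 : p ^ e ∣ m - 2 := by
      have h8 := Nat.dvd_sub_mod (n := p ^ e) (m - 1)
      rw [h6] at h8
      have h9 : m - 1 - 1 = m - 2 := by omega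
      rwa [h9] at h8
    exact Dvd.dvd.mul_left h7 _

end Pool.Agent.BX
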