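import Mathlib
import Pool.Agent.BX.H2

set_option autoImplicit false

namespace Pool.Agent.BX

open Finset

private theorem choose_three (n : ℕ) : (n + 2).choose (2 + 1) * 6 = (n + 2) * (n + 1) * n := by
  have h1 := Nat.add_one_mul_choose_eq (n + 1) 2
  have h2 := Nat.add_one_mul_choose_eq n 1
  simp only [Nat.choose_one_right] at h2
  have e : n + 1 + 1 = n + 2 := by ring
  rw [e] at h1
  have h3 : (n + 2).choose (2 + 1) * 6 = 2 * ((n + 2).choose (2 + 1) * (2 + 1)) := by ring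
  rw [h3, ← h1]
  have h4 : 2 * ((n + 2) * (n + 1).choose 2) = (n + 2) * ((n + 1).choose (1 + 1) * (1 + 1)) := by ring
  rw [h4, ← h2]
  ring

/-- **Arithmetic of Hauck's theorem.**  Put `D = d + 2`, `u = D * m - d`, so `u - 2 = D * (m - 1)`.
`s = 0`: `m ∣ u`, so `m ∣ d`; `d > 0`, so `d ≥ m`, `D ≥ m + 2`, `D ≡ 2 (mod m)`.
`D ∣ (m-1)(m-2)`: for a prime power `p^e ∣ D` (`Nat.dvd_iff_prime_pow_dvd_dvd`) with `p^e ≥ 3` use `pp_dvd`
with `s = p^e - 3 ≤ d`; for `p^e ≤ 2` it is clear (`(m-1)(m-2)` is even).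
Write `(m-1)(m-2) = D * E`.  Modulo `m`: `2 ≡ 2 E`, so `m ∣ 2 (E - 1)`; `E ≥ 1`; and
`(m-1)(m-2) = (m+2)(m-5) + 12`, `D ≥ m + 2` give `E < m - 3 + …`, in any case `2 (E - 1) < 2 m`; so `E = 1` or
`2 (E - 1) = m`.
* `2 (E-1) = m`, `m = 2 μ`, `E = μ + 1`: `(2μ-1)(2μ-2) = D (μ+1)` and `(2μ-1)(2μ-2) ≡ 12 (mod μ+1)`, so
  `μ + 1 ∣ 12`, `m ∈ {6, 10, 22}` (`m ≥ 5`), `D = 5, 12, 35`; only `m = 10`, `D = 12` satisfies
  `m ∣ D - 2`, `D ≥ m + 2`; it is excluded by `s = 6`: `C(16,7) ∤ C(116,7)`.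
* `E = 1`: `D = (m-1)(m-2)`, `d = m (m-3)`, `u = m (m² - 4 m + 5)`; `s = 1`: `(m+1) m ∣ (u+1) u`, so
  `m + 1 ∣ (m² - 4m + 5)(u + 1) ≡ 10 * (-9) (mod m+1)`, so `m + 1 ∣ 90`, `m ∈ {5,8,9,14,17,29,44,89}`
  and each is excluded by `h` for some small `s ≥ 2` (`m = 5`: `s = 2`, `C(7,3) = 35 ∤ C(52,3)`; the others
  similarly, find `s` by computer; `Nat.choose` by `decide`/`norm_num [Nat.choose]`, or a product
  formula/one prime). -/
theorem hauck_arith {d m : ℕ} (hd : 0 < d) (hm : 5 ≤ m)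
    (h : ∀ s ≤ d, (m + s).choose (s + 1) ∣ ((d + 2) * m - d + s).choose (s + 1)) : False := by
  have hu0 : d ≤ (d + 2) * m := by nlinarith
  obtain ⟨u, hu⟩ : ∃ u, u = (d + 2) * m - d := ⟨_, rfl⟩
  have hu1 : u + d = (d + 2) * m := by omega
  rw [← hu] at h
  -- `m ∣ d`
  have hmd : m ∣ d := by
    have h0 := h 0 (Nat.zero_le _)
    simp only [add_zero, zero_add, Nat.choose_one_right] at h0
    have h1 : m ∣ u + d := by rw [hu1]; exact Dvd.intro_left _ rfl
    exact (Nat.dvd_add_right h0).mp h1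
  have hdm : m ≤ d := Nat.le_of_dvd hd hmd
  have hu2 : 2 ≤ u := by nlinarith
  have hu3 : u - 2 = (d + 2) * (m - 1) := by
    obtain ⟨m', rfl⟩ : ∃ m', m = m' + 1 := ⟨m - 1, by omega⟩
    have : (d + 2) * (m' + 1) = (d + 2) * m' + (d + 2) := by ring
    simp only [Nat.add_sub_cancel]
    omega
  -- `D ∣ (m-1)(m-2)`
  have hD : d + 2 ∣ (m - 1) * (m - 2) := by
    rw [Nat.dvd_iff_prime_pow_dvd_dvd]
    intro p k hp hk
    rcases Nat.lt_or_ge (p ^ k) 3 with h3 | h3
    · have hpos : 0 < p ^ k := pow_pos hp.pos k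
      have h12 : p ^ k = 1 ∨ p ^ k = 2 := by omega
      rcases h12 with h12 | h12
      · rw [h12]; exact one_dvd _
      · rw [h12]
        obtain ⟨m', rfl⟩ : ∃ m', m = m' + 2 := ⟨m - 2, by omega⟩
        have : m' + 2 - 1 = m' + 1 := by omega
        rw [this, Nat.add_sub_cancel, mul_comm]
        exact (Nat.even_mul_succ_self m').two_dvd
    · have hle : p ^ k ≤ d + 2 := Nat.le_of_dvd (by omega) hk
      apply pp_dvd hp h3 (by omega) hu2 (by rw [hu3]; exact Dvd.dvd.mul_right hk _)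
      have h4 := h (p ^ k - 3) (by omega)
      have e1 : m + (p ^ k - 3) = m + p ^ k - 3 := by omega
      have e2 : u + (p ^ k - 3) = u + p ^ k - 3 := by omega
      have e3 : p ^ k - 3 + 1 = p ^ k - 2 := by omega
      rwa [e1, e2, e3] at h4
  obtain ⟨E, hE⟩ := hD
  obtain ⟨d', hd'⟩ := hmd
  obtain ⟨m', rfl⟩ : ∃ m', m = m' + 5 := ⟨m - 5, by omega⟩
  have s1 : m' + 5 - 1 = m' + 4 := by omega
  have s2 : m' + 5 - 2 = m' + 3 := by omega
  rw [s1, s2] at hE
  have hEpos : 1 ≤ E := by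
    rcases Nat.eq_zero_or_pos E with h0 | h0
    · rw [h0, mul_zero] at hE
      have : 0 < (m' + 4) * (m' + 3) := by positivity
      omega
    · exact h0
  have hElt : E < m' + 5 := by
    by_contra hlt
    push Not at hlt
    have h1 : (m' + 7) * (m' + 5) ≤ (d + 2) * E := Nat.mul_le_mul (by omega) hlt
    nlinarith
  obtain ⟨F, rfl⟩ : ∃ F, E = F + 1 := ⟨E - 1, by omega⟩
  have hF : m' + 5 ∣ 2 * F := by
    have h1 : (m' + 5) * (m' + 2) + 2 = ((m' + 5) * d' + 2) * (F + 1) := by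
      rw [← hd', ← hE]; ring
    have h2 : (m' + 5) * (m' + 2) = (m' + 5) * (d' * (F + 1)) + 2 * F := by
      have : ((m' + 5) * d' + 2) * (F + 1) = (m' + 5) * (d' * (F + 1)) + 2 * F + 2 := by ring
      omega
    have h3 : m' + 5 ∣ (m' + 5) * (d' * (F + 1)) + 2 * F := by
      rw [← h2]; exact Dvd.intro _ rfl
    exact (Nat.dvd_add_right (Dvd.intro _ rfl)).mp h3
  obtain ⟨t, ht⟩ := hF
  have ht2 : t < 2 := by
    by_contra hlt
    push Not at hlt
    have : (m' + 5) * 2 ≤ (m' + 5) * t := Nat.mul_le_mul_left _ hlt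
    omega
  interval_cases t
  · -- `E = 1`
    have hF0 : F = 0 := by omega
    subst hF0
    have hd2 : d = (m' + 5) * (m' + 2) := by
      have : (m' + 4) * (m' + 3) = (m' + 5) * (m' + 2) + 2 := by ring
      omega
    have hu4 : u = (m' + 5) * (m' ^ 2 + 6 * m' + 10) := by
      have : (d + 2) * (m' + 5) = (m' + 5) * (m' ^ 2 + 6 * m' + 10) + d := by
        rw [hd2]; ring
      omega
    have h90 : m' + 6 ∣ 90 := by
      have h1 := h 1 (by omega)
      have e1 : (m' + 5 + 1).choose (1 + 1) * 2 = (m' + 6) * (m' + 5) := by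
        have := Nat.add_one_mul_choose_eq (m' + 5) 1
        simp only [Nat.choose_one_right] at this
        linarith
      have e2 : (u + 1).choose (1 + 1) * 2 = (u + 1) * u := by
        have := Nat.add_one_mul_choose_eq u 1
        simp only [Nat.choose_one_right] at this
        linarith
      have h2 : (m' + 6) * (m' + 5) ∣ (u + 1) * u := by
        rw [← e1, ← e2]
        exact Nat.mul_dvd_mul_right h1 2
      have h3 : m' + 6 ∣ (u + 1) * (m' ^ 2 + 6 * m' + 10) := by
        have : (m' + 5) * (m' + 6) ∣ (m' + 5) * ((u + 1) * (m' ^ 2 + 6 * m' + 10)) := by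
          convert h2 using 1
          · ring
          · conv_rhs => rw [hu4]
            conv_lhs => rw [hu4]
            ring
        exact Nat.dvd_of_mul_dvd_mul_left (by omega) this
      rw [hu4] at h3
      zify at h3 ⊢
      have h4 : ((m' : ℤ) + 6) ∣ ((m' : ℤ) + 6) * (((m' : ℤ) ^ 2 + 6 * m' + 10) *
          ((m' : ℤ) ^ 2 + 6 * m' + 10) - (m' : ℤ) * ((m' : ℤ) ^ 2 + 6 * m' + 10) - 9 * m') := dvd_mul_right _ _
      have h5 := dvd_sub h4 h3
      have e : ((m' : ℤ) + 6) * (((m' : ℤ) ^ 2 + 6 * m' + 10) *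
          ((m' : ℤ) ^ 2 + 6 * m' + 10) - (m' : ℤ) * ((m' : ℤ) ^ 2 + 6 * m' + 10) - 9 * m') -
          (((m' : ℤ) + 5) * ((m' : ℤ) ^ 2 + 6 * m' + 10) + 1) * ((m' : ℤ) ^ 2 + 6 * m' + 10) = 90 := by
        ring
      rwa [e] at h5
    have hmem : m' + 6 ∈ Nat.divisors 90 := by
      rw [Nat.mem_divisors]; exact ⟨h90, by norm_num⟩
    have hdiv : Nat.divisors 90 = {1, 2, 3, 5, 6, 9, 10, 15, 18, 30, 45, 90} := by decide +kernel
    rw [hdiv] at hmem
    simp only [Finset.mem_insert, Finset.mem_singleton] at hmem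
    have hcase : m' = 0 ∨ m' = 3 ∨ m' = 4 ∨ m' = 9 ∨ m' = 12 ∨ m' = 24 ∨ m' = 39 ∨ m' = 84 := by
      omega
    have key : (m' + 5 + 2) * (m' + 5 + 1) * (m' + 5) ∣ (u + 2) * (u + 1) * u := by
      have h2 := h 2 (by nlinarith)
      rw [← choose_three, ← choose_three]
      exact Nat.mul_dvd_mul_right h2 6
    rcases hcase with rfl | rfl | rfl | rfl | rfl | rfl | rfl | rfl
    · norm_num at hu4; subst hu4; norm_num at key
    · norm_num at hu4; subst hu4; norm_num at key
    · have h4 := h 4 (by norm_num at hd2; omega)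
      norm_num at hu4
      subst hu4
      norm_num [Nat.choose_eq_descFactorial_div_factorial, Nat.descFactorial, Nat.factorial] at h4
    · have h4 := h 3 (by norm_num at hd2; omega)
      norm_num at hu4
      subst hu4
      norm_num [Nat.choose_eq_descFactorial_div_factorial, Nat.descFactorial, Nat.factorial] at h4
    · norm_num at hu4; subst hu4; norm_num at key
    · norm_num at hu4; subst hu4; norm_num at key
    · norm_num at hu4; subst hu4; norm_num at key
    · norm_num at hu4; subst hu4; norm_num at key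
  · -- `2 (E - 1) = m`
    have hF2 : 2 * F = m' + 5 := by omega
    have h12 : F + 1 ∣ 12 := by
      have h1 : (2 * F - 1) * (2 * F - 2) = (d + 2) * (F + 1) := by
        rw [← hE]; congr 1 <;> omega
      obtain ⟨G, rfl⟩ : ∃ G, F = G + 1 := ⟨F - 1, by omega⟩
      have e1 : 2 * (G + 1) - 1 = 2 * G + 1 := by omega
      have e2 : 2 * (G + 1) - 2 = 2 * G := by omega
      rw [e1, e2] at h1
      zify at h1 ⊢
      have h2 : ((G : ℤ) + 1 + 1) ∣ ((G : ℤ) + 1 + 1) * (d + 2) := dvd_mul_right _ _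
      have h3 : ((G : ℤ) + 1 + 1) ∣ ((G : ℤ) + 1 + 1) * (4 * G - 6) := dvd_mul_right _ _
      have h4 := dvd_sub h2 h3
      have e : ((G : ℤ) + 1 + 1) * (d + 2) - ((G : ℤ) + 1 + 1) * (4 * G - 6) = 12 := by
        linarith
      rwa [e] at h4
    have hF12 : F + 1 ≤ 12 := Nat.le_of_dvd (by norm_num) h12
    have hF11 : F ≤ 11 := by omega
    have hF3 : 3 ≤ F := by omega
    interval_cases F
    · have : m' = 1 := by omega
      subst this
      norm_num at hE
      omega
    · norm_num at h12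
    · have : m' = 5 := by omega
      subst this
      have hd10 : d = 10 := by norm_num at hE; omega
      subst hd10
      have hu110 : u = 110 := by omega
      subst hu110
      have h4 := h 3 (by norm_num)
      norm_num [Nat.choose_eq_descFactorial_div_factorial, Nat.descFactorial, Nat.factorial] at h4
    · norm_num at h12
    · norm_num at h12
    · norm_num at h12
    · norm_num at h12
    · norm_num at h12
    · have : m' = 17 := by omega
      subst this
      norm_num at hE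
      omega

end Pool.Agent.BX
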