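import Mathlib

set_option autoImplicit false

namespace Pool.Agent.BX

open Finset

/-- square root with fuel -/
def isq : ℕ → ℕ → ℕ
  | 0, _ => 0
  | f + 1, n => if (2 * isq f (n / 4) + 1) * (2 * isq f (n / 4) + 1) ≤ n then
      2 * isq f (n / 4) + 1 else 2 * isq f (n / 4)

theorem isq_spec : ∀ (f n : ℕ), n < 4 ^ f → isq f n * isq f n ≤ n ∧
    n < (isq f n + 1) * (isq f n + 1) := by
  intro f
  induction f with
  | zero =>
    intro n hn
    rw [pow_zero] at hn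
    have : n = 0 := by omega
    subst this
    exact ⟨le_refl _, by norm_num [isq]⟩
  | succ f ih =>
    intro n hn
    have h1 : n / 4 < 4 ^ f := by
      rw [pow_succ] at hn
      omega
    obtain ⟨h2, h3⟩ := ih (n / 4) h1
    set r := isq f (n / 4) with hr
    have h4 : 4 * (n / 4) ≤ n := Nat.mul_div_le n 4
    have h5 : n < 4 * (n / 4) + 4 := by omega
    have h6 : isq (f + 1) n = if (2 * r + 1) * (2 * r + 1) ≤ n then 2 * r + 1 else 2 * r := rfl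
    rw [h6]
    split_ifs with h
    · refine ⟨h, ?_⟩
      nlinarith
    · refine ⟨by nlinarith, ?_⟩
      push Not at h
      nlinarith

theorem isq_eq (f n x : ℕ) (hn : n < 4 ^ f) (hx : x * x = n) : isq f n = x := by
  obtain ⟨h1, h2⟩ := isq_spec f n hn
  rw [← hx] at h1 h2
  rcases lt_trichotomy (isq f (x * x)) x with h | h | h
  · exfalso
    rw [hx] at h h1 h2
    nlinarith
  · rw [hx] at h
    exact h
  · exfalso
    nlinarith

/-- the hypotheses for a candidate `l` -/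
def hyp (a t1 t2 l : ℤ) : Bool :=
  decide (1 ≤ l) && decide (13 ≤ 1 + (t1 ^ 2 + t2 ^ 2 - 1 + (t1 + t2 - 1) * l) / (2 * (a + 2))) &&
  decide (t1 * t2 * ((t1 + l) * (t2 + l)) = (a + 1) * (a + 2) *
    ((1 + (t1 ^ 2 + t2 ^ 2 - 1 + (t1 + t2 - 1) * l) / (2 * (a + 2))) *
      ((t1 ^ 2 + t2 ^ 2 - 1 + (t1 + t2 - 1) * l) / (2 * (a + 2))))) &&
  decide ((3 + (t1 ^ 2 + t2 ^ 2 - 1 + (t1 + t2 - 1) * l) / (2 * (a + 2))) * (a - 1) + 9 ≤ 3 * l) &&
  decide ((2 + (t1 ^ 2 + t2 ^ 2 - 1 + (t1 + t2 - 1) * l) / (2 * (a + 2)) + l) % (a + 3) = 0)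

def al (a t1 t2 : ℤ) : ℤ := 4 * (a + 2) * (t1 * t2) - (a + 1) * (t1 + t2 - 1) ^ 2

def be (a t1 t2 : ℤ) : ℤ := 4 * (a + 2) * (t1 * t2) * (t1 + t2) -
  (a + 1) * (2 * (t1 ^ 2 + t2 ^ 2 - 1) * (t1 + t2 - 1) + 2 * (a + 2) * (t1 + t2 - 1))

def ga (a t1 t2 : ℤ) : ℤ := 4 * (a + 2) * (t1 * t2) ^ 2 -
  (a + 1) * ((t1 ^ 2 + t2 ^ 2 - 1) ^ 2 + 2 * (a + 2) * (t1 ^ 2 + t2 ^ 2 - 1))

/-- the test -/
def chk (a t1 t2 : ℤ) : Bool :=
  if al a t1 t2 = 0 then
    (if be a t1 t2 = 0 then decide (ga a t1 t2 ≠ 0) else ! hyp a t1 t2 (-(ga a t1 t2) / be a t1 t2))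
  else
    decide ((be a t1 t2 ^ 2 - 4 * al a t1 t2 * ga a t1 t2).toNat < 4 ^ 40) &&
    ! hyp a t1 t2 (((isq 40 (be a t1 t2 ^ 2 - 4 * al a t1 t2 * ga a t1 t2).toNat : ℕ) -
      be a t1 t2) / (2 * al a t1 t2)) &&
    ! hyp a t1 t2 ((-((isq 40 (be a t1 t2 ^ 2 - 4 * al a t1 t2 * ga a t1 t2).toNat : ℕ) : ℤ) -
      be a t1 t2) / (2 * al a t1 t2))

theorem chk_all : ∀ a < 15, 2 ≤ a → ∀ t2 < 25, ∀ t1 < t2, 2 ≤ t1 →
    chk (a : ℕ) (t1 : ℕ) (t2 : ℕ) = true := by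
  decide +kernel

theorem chk_sound {a t1 t2 l : ℤ} (h : chk a t1 t2 = true)
    (hq : al a t1 t2 * l ^ 2 + be a t1 t2 * l + ga a t1 t2 = 0) : hyp a t1 t2 l = false := by
  unfold chk at h
  split_ifs at h with h1 h2
  · rw [h1, h2] at hq
    simp at hq h
    exact absurd hq h
  · rw [h1] at hq
    have h3 : -(ga a t1 t2) = be a t1 t2 * l := by linarith
    rw [h3, Int.mul_ediv_cancel_left _ h2] at h
    simpa using h
  · rw [Bool.and_eq_true, Bool.and_eq_true] at h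
    obtain ⟨⟨h3, h4⟩, h5⟩ := h
    have h3' := of_decide_eq_true h3
    set D := be a t1 t2 ^ 2 - 4 * al a t1 t2 * ga a t1 t2 with hD
    have h6 : (2 * al a t1 t2 * l + be a t1 t2) ^ 2 = D := by
      rw [hD]
      linear_combination 4 * al a t1 t2 * hq
    have h7 : (2 * al a t1 t2 * l + be a t1 t2).natAbs * (2 * al a t1 t2 * l + be a t1 t2).natAbs =
        D.toNat := by
      rw [← h6]
      zify
      rw [Int.toNat_of_nonneg (sq_nonneg _), ← abs_mul, abs_mul_self, pow_two]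
    have h8 := isq_eq 40 D.toNat _ h3' h7
    rw [h8] at h4 h5
    have h2al : 2 * al a t1 t2 ≠ 0 := mul_ne_zero two_ne_zero h1
    rcases Int.natAbs_eq (2 * al a t1 t2 * l + be a t1 t2) with h9 | h9
    · have h10 : ((2 * al a t1 t2 * l + be a t1 t2).natAbs : ℤ) - be a t1 t2 =
          2 * al a t1 t2 * l := by rw [← h9]; ring
      rw [h10, Int.mul_ediv_cancel_left _ h2al] at h4
      simpa using h4
    · have h10 : -((2 * al a t1 t2 * l + be a t1 t2).natAbs : ℤ) - be a t1 t2 =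
          2 * al a t1 t2 * l := by rw [← h9]; ring
      rw [h10, Int.mul_ediv_cancel_left _ h2al] at h5
      simpa using h5

/-- **The case `i = 3`.**  (All in `ℤ`.)  First, `t1 + t2 ≤ 6 (a+2)/(a-1) + 1`, i.e.
`(t1 + t2 - 1)(a-1) ≤ 6 (a+2)`: by `hR2`, `(a-1)(N-1) ≤ 3 L - 9 - 3 (a-1)`, so by `e1`
`(a-1)((t1+t2-1) L + t1² + t2² - 1) = 2 (a+2) (a-1) (N-1) < 6 (a+2) L`, and `L > 0`.  So there are finitely
many `(a, t1, t2)` (`a ≤ 14`, `t1 + t2 ≤ 25`).  For each of them eliminate `N`: with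
`s = t1 + t2 - 1`, `c = t1² + t2² - 1`, `P = t1 t2`: `2 (a+2) (N-1) = c + s L` and
`4 (a+2) P (t1 + L)(t2 + L) = (a+1) (c + s L + 2 (a+2)) (c + s L)`, a quadratic equation
`α L² + β L + γ = 0` with `α = 4 (a+2) P - (a+1) s²`, `β = 4 (a+2) P (t1+t2) - (a+1)(2 c s + 2 (a+2) s)`,
`γ = 4 (a+2) P² - (a+1)(c² + 2 (a+2) c)`.  So `(2 α L + β)² = β² - 4 α γ =: Δ`; `Δ` must be a square
(`Nat.sqrt`), and `L` is one of the (at most two) solutions of `2 α L + β = ± √Δ` (if `α = 0`, `β L = - γ`;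
is `α = β = 0` possible? then treat it by hand).  Write a boolean function on `(a, t1, t2)` that computes the
candidates for `L ≥ 1`, then `N = 1 + (c + s L)/(2 (a+2))`, and checks that no candidate satisfies all
hypotheses; evaluate it by `decide +kernel` on the finite range, and prove that it is sound.
(The only candidates violating nothing but `hdiv` are `a = 2`, `N = 25`, `L = 12` and `a = 3`, `N = 55`,
`L = 41`.) -/
theorem n2_arith {a t1 t2 L N : ℕ} (ha : 2 ≤ a) (ha' : a ≤ 14) (h1 : 2 ≤ t1) (h12 : t1 < t2)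
    (hN : 13 ≤ N) (e1 : t1 * (t1 + L) + t2 * (t2 + L) = 1 + L + 2 * (a + 2) * (N - 1))
    (e2 : t1 * t2 * ((t1 + L) * (t2 + L)) = (a + 1) * (a + 2) * (N * (N - 1)))
    (hR2 : (N + 2) * (a - 1) + 9 ≤ 3 * L) (hdiv : (a + 3) ∣ N + L + 1) : False := by
  obtain ⟨n, rfl⟩ : ∃ n, N = n + 1 := ⟨N - 1, by omega⟩
  obtain ⟨b, rfl⟩ : ∃ b, a = b + 1 := ⟨a - 1, by omega⟩
  simp only [Nat.add_sub_cancel] at e1 e2 hR2
  have hL : 0 < L := by
    rcases Nat.eq_zero_or_pos L with h | h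
    · rw [h] at hR2
      omega
    · exact h
  -- integers
  have e1' : ((t1 : ℤ) ^ 2 + t2 ^ 2 - 1 + (t1 + t2 - 1) * L) = 2 * ((b : ℤ) + 1 + 2) * n := by
    have : ((t1 * (t1 + L) + t2 * (t2 + L) : ℕ) : ℤ) = ((1 + L + 2 * (b + 1 + 2) * n : ℕ) : ℤ) := by
      rw [e1]
    push_cast at this
    linear_combination this
  have e2' : (t1 : ℤ) * t2 * ((t1 + L) * (t2 + L)) = ((b : ℤ) + 1 + 1) * (b + 1 + 2) *
      ((n + 1) * n) := by
    have : ((t1 * t2 * ((t1 + L) * (t2 + L)) : ℕ) : ℤ) =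
        (((b + 1 + 1) * (b + 1 + 2) * ((n + 1) * n) : ℕ) : ℤ) := by rw [e2]
    push_cast at this
    exact this
  have hR' : ((n : ℤ) + 1 + 2) * b + 9 ≤ 3 * L := by exact_mod_cast hR2
  -- bound for `t1 + t2`
  have hs : (b : ℤ) * (t1 + t2 - 1) < 6 * (b + 3) := by
    have h1' : (2 : ℤ) ≤ t1 := by exact_mod_cast h1
    have h2' : (t1 : ℤ) < t2 := by exact_mod_cast h12
    have hb1 : (1 : ℤ) ≤ b := by
      have : 1 ≤ b := by omega
      exact_mod_cast this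
    have hLp : (0 : ℤ) < L := by exact_mod_cast hL
    by_contra hcon
    push Not at hcon
    have h3 : (b : ℤ) * ((t1 : ℤ) ^ 2 + t2 ^ 2 - 1 + (t1 + t2 - 1) * L) =
        2 * ((b : ℤ) + 3) * (b * n) := by
      rw [e1']
      ring
    have h4 : (b : ℤ) * n ≤ 3 * L - 9 - 3 * b := by linarith
    have h5 : 6 * ((b : ℤ) + 3) * L ≤ b * (t1 + t2 - 1) * L := mul_le_mul_of_nonneg_right hcon hLp.le
    have h6 : 0 ≤ (b : ℤ) * ((t1 : ℤ) ^ 2 + t2 ^ 2 - 1) := by nlinarith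
    have h7 : 2 * ((b : ℤ) + 3) * (b * n) ≤ 2 * ((b : ℤ) + 3) * (3 * L - 9 - 3 * b) :=
      mul_le_mul_of_nonneg_left h4 (by linarith)
    nlinarith
  have ht : t1 + t2 < 26 := by
    have hb1 : 1 ≤ b := by omega
    have hs' : b * (t1 + t2 - 1) < 6 * (b + 3) := by
      zify [show 1 ≤ t1 + t2 by omega]
      linarith
    by_contra hcon
    have h3 : 25 ≤ t1 + t2 - 1 := by omega
    have h4 : b * 25 ≤ b * (t1 + t2 - 1) := Nat.mul_le_mul_left b h3
    omega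
  have ht2 : t2 < 25 := by omega
  have hchk := chk_all (b + 1) (by omega) ha t2 ht2 t1 h12 h1
  have hq : al ((b + 1 : ℕ) : ℤ) t1 t2 * (L : ℤ) ^ 2 + be ((b + 1 : ℕ) : ℤ) t1 t2 * L +
      ga ((b + 1 : ℕ) : ℤ) t1 t2 = 0 := by
    unfold al be ga
    push_cast
    have h3 : ((b : ℤ) + 1 + 1) * ((2 * ((b : ℤ) + 1 + 2) * n) + 2 * (b + 1 + 2)) *
        (2 * ((b : ℤ) + 1 + 2) * n) = 4 * (b + 1 + 2) * (t1 * t2 * ((t1 + L) * (t2 + L))) := by
      rw [e2']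
      ring
    rw [← e1'] at h3
    linear_combination -h3
  have hf := chk_sound hchk hq
  have hdivn : ((t1 : ℤ) ^ 2 + t2 ^ 2 - 1 + (t1 + t2 - 1) * L) / (2 * (((b + 1 : ℕ) : ℤ) + 2)) =
      n := by
    rw [e1']
    push_cast
    exact Int.mul_ediv_cancel_left _ (by positivity)
  have ht : hyp ((b + 1 : ℕ) : ℤ) t1 t2 L = true := by
    unfold hyp
    rw [hdivn]
    simp only [Bool.and_eq_true, decide_eq_true_eq]
    refine ⟨⟨⟨⟨by exact_mod_cast hL, ?_⟩, ?_⟩, ?_⟩, ?_⟩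
    · have : (13 : ℤ) ≤ ((n + 1 : ℕ) : ℤ) := by exact_mod_cast hN
      push_cast at this
      linarith
    · push_cast
      linear_combination e2'
    · push_cast
      linarith
    · obtain ⟨q, hq'⟩ := hdiv
      have h9 : (2 + (n : ℤ) + L) = (((b + 1 : ℕ) : ℤ) + 3) * q := by
        have : ((n + 1 + L + 1 : ℕ) : ℤ) = (((b + 1 + 3) * q : ℕ) : ℤ) := by rw [hq']
        push_cast at this ⊢
        linarith
      rw [h9]
      exact Int.mul_emod_right _ _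
  rw [hf] at ht
  exact Bool.false_ne_true ht

end Pool.Agent.BX
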