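import Mathlib
import Pool.Agent.BX.Defs
import Pool.Agent.BetaL.Bound

set_option autoImplicit false

namespace Pool.Agent.BX

open Finset Pool.Agent.BetaL

/-- Both sides are `∑_{j ≤ n+T} (-1)ʲ ∏_{r<j} q r` with
`q r = (n-r)(T-r)(T+L+r)/((r+1)(a+1+r)(x-1-r))` (`dd_prod`; `q r = qq a T (1/n) (n/(x-1)) (n L/(x-1)) r`
by `field_simp`, in particular `(1/n)(n/(x-1)) = 1/(x-1)`; where `x - 1 - r = 0` both are `_ / 0 = 0`, so no
hypothesis is needed for the denominators): the terms `j > n` contain the factor `n - r`, `r = n`, the terms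
`j > T` the factor `T - r`, `r = T`.  (See `Pool.Agent.BetaF.Ps_eq_Phi` in `Pool/Agent/BetaF/G.lean` for
a similar proof.) -/
theorem Ps_eq_Psi (a n T : ℕ) {x L : ℝ} (hn : (n : ℝ) ≠ 0) (hx : x - 1 ≠ 0) :
    Ps n x a L (T * (L + T)) = Psi a T (1 / n) (n / (x - 1)) (n * L / (x - 1)) := by
  have hqq : ∀ r : ℕ, qq a T (1 / n) (n / (x - 1)) (n * L / (x - 1)) r =
      ((n : ℝ) - r) * ((T : ℝ) - r) * ((T : ℝ) + L + r) / ((r + 1) * (a + 1 + r) * (x - 1 - r)) := by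
    intro r
    unfold qq
    have e1 : (1 - (r : ℝ) * (1 / (n : ℝ) * (n / (x - 1)))) = (x - 1 - r) * (x - 1)⁻¹ := by
      field_simp
    have e2 : (1 - (r : ℝ) * (1 / (n : ℝ))) = (n - r) * (n : ℝ)⁻¹ := by
      field_simp
    have e3 : (n * L / (x - 1) + ((T : ℝ) + r) * (n / (x - 1))) = n * (T + L + r) * (x - 1)⁻¹ := by
      field_simp
      ring
    rw [e1, e2, e3]
    have f1 : (n : ℝ)⁻¹ * n = 1 := inv_mul_cancel₀ hn
    have f3 : (x - 1)⁻¹ * (x - 1) = 1 := inv_mul_cancel₀ hx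
    simp only [div_eq_mul_inv, mul_inv, inv_inv]
    calc ((T : ℝ) - r) * (((n : ℝ) - r) * (n : ℝ)⁻¹ * (n * (T + L + r) * (x - 1)⁻¹)) *
          (((r : ℝ) + 1)⁻¹ * ((a : ℝ) + 1 + r)⁻¹ * ((x - 1 - r)⁻¹ * (x - 1)))
        = ((n : ℝ)⁻¹ * n) * ((x - 1)⁻¹ * (x - 1)) * (((n : ℝ) - r) * (T - r) * (T + L + r) *
          (((r : ℝ) + 1)⁻¹ * ((a : ℝ) + 1 + r)⁻¹ * (x - 1 - r)⁻¹)) := by ring
      _ = _ := by rw [f1, f3]; ring
  unfold Psi tl Ps
  have h1 : ∑ j ∈ range (n + 1), (n.choose j : ℝ) * dd x a L (T * (L + T)) j =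
      ∑ j ∈ range (n + T + 1), (n.choose j : ℝ) * dd x a L (T * (L + T)) j := by
    refine Finset.sum_subset (Finset.range_subset_range.mpr (by omega)) fun j _ hj => ?_
    rw [Finset.mem_range, not_lt] at hj
    rw [Nat.choose_eq_zero_of_lt (by omega)]
    simp
  have h2 : ∑ i ∈ range (T - 0 + 1), (-1 : ℝ) ^ i * ∏ r ∈ range i,
        qq a T (1 / n) (n / (x - 1)) (n * L / (x - 1)) (0 + r) =
      ∑ i ∈ range (n + T + 1), (-1 : ℝ) ^ i * ∏ r ∈ range i,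
        qq a T (1 / n) (n / (x - 1)) (n * L / (x - 1)) (0 + r) := by
    refine Finset.sum_subset (Finset.range_subset_range.mpr (by omega)) fun j _ hj => ?_
    rw [Finset.mem_range, not_lt] at hj
    have : ∏ r ∈ range j, qq a T (1 / n) (n / (x - 1)) (n * L / (x - 1)) (0 + r) = 0 := by
      apply Finset.prod_eq_zero (i := T) (Finset.mem_range.mpr (by omega))
      rw [zero_add, hqq]
      simp
    rw [this, mul_zero]
  rw [h1, h2]
  refine Finset.sum_congr rfl fun j _ => ?_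
  rw [dd_prod]
  congr 1
  refine Finset.prod_congr rfl fun r _ => ?_
  rw [zero_add, hqq]

/-- `Ψ(1) = 1 - (c + e₂)/(a + 1)` -/
theorem Psi_one (a : ℕ) (e1 e2 c : ℝ) (h : c + e2 < a + 1) : 0 < Psi a 1 e1 e2 c := by
  have ha : (0 : ℝ) < a + 1 := by positivity
  unfold Psi tl qq
  simp [Finset.sum_range_succ]
  rw [div_lt_one ha]
  linarith

end Pool.Agent.BX
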