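import Mathlib
import Pool.Agent.BX.PsiL
import Pool.Agent.BetaF.T2

set_option autoImplicit false

namespace Pool.Agent.BX

open Finset Pool.Agent.BetaL Pool.Agent.MP_1e96f1_co

variable {Ω : Type*} [Fintype Ω] [DecidableEq Ω]

/-- `no_sign_change` in terms of `Psi`; copy the end of `Pool.Agent.BetaF.large_index`
(`Pool/Agent/BetaF/G.lean`, from `have p1 := Ps_eq_Phi`), with `Ps_eq_Psi` instead of `Ps_eq_Phi`,
`x = d + 2n + 1`, `x - 1 = d + 2n`, `w = v - k`, `w + A + 1 - x = L`, `w + A + 1 = L + x`,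
`G_eq_Ps`, `T + 1 < x`. -/
theorem no_sign {Bs : Finset (Finset Ω)} {v d n A : ℕ} (hD : IsDesign Bs v (d + 2 * n + 1 + A) d)
    (hB : IsBeta Bs v d (n + 1)) (hn : 1 ≤ n) (hv : 2 * (d + 2 * n + 1) ≤ v + 1) {N L : ℝ}
    (hN : N = d + 2 * n) (hL : L = (v : ℝ) - 2 * (d + 2 * n + 1) + 1) (T : ℕ) (hT : (T : ℝ) < N) :
    ¬ (Psi A T (1 / n) (n / N) (n * L / N) * Psi A (T + 1) (1 / n) (n / N) (n * L / N) < 0) := by
  intro hcon
  set x : ℝ := ((d + 2 * n + 1 : ℕ) : ℝ) with hx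
  have hxd : x = d + 2 * n + 1 := by rw [hx]; push_cast; ring
  have hLx : L = (v : ℝ) - 2 * x + 1 := by rw [hL, hxd]
  have hxN : x - 1 = N := by rw [hN, hxd]; ring
  have hn1' : (1 : ℝ) ≤ n := by exact_mod_cast hn
  have hn0' : (0 : ℝ) < n := by linarith
  have hd0 : (0 : ℝ) ≤ d := by positivity
  have hN0 : 0 < N := by rw [hN]; linarith
  have hx0 : 0 < x := by linarith
  have hL0 : 0 ≤ L := by
    have h1 : 2 * x ≤ (v : ℝ) + 1 := by rw [hx]; exact_mod_cast hv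
    rw [hLx]; linarith
  have p1 := Ps_eq_Psi A n T (x := x) (L := L) hn0'.ne' (by rw [hxN]; exact hN0.ne')
  have p2 := Ps_eq_Psi A n (T + 1) (x := x) (L := L) hn0'.ne' (by rw [hxN]; exact hN0.ne')
  rw [hxN] at p1 p2
  rw [← p1, ← p2] at hcon
  set w : ℝ := (v : ℝ) - (d + 2 * n + 1 + A : ℕ) with hw
  have hLw : w + A + 1 - x = L := by
    rw [hLx, hw, hxd]; push_cast; ring
  have hwa : w + A + 1 = L + x := by linarith
  have hx1 : (n : ℝ) + 1 < x := by rw [hxd]; linarith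
  have g1 := G_eq_Ps (x := x) (w := w) (a := (A : ℝ)) (by positivity) (T * (L + T)) n hx1
  have g2 := G_eq_Ps (x := x) (w := w) (a := (A : ℝ)) (by positivity)
    (((T + 1 : ℕ) : ℝ) * (L + (T + 1 : ℕ))) n hx1
  rw [hLw, hwa] at g1 g2
  refine no_sign_change hD hB hn (by omega) (x := x) (a := (A : ℝ)) (w := w) hx
    (by rw [hxd]; push_cast; ring) hw (by rw [hx]; exact_mod_cast hv) T ?_
  rw [← hLx]
  have hs0 : (0 : ℝ) ≤ T := by positivity
  have hTx : (T : ℝ) + 1 < x := by linarith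
  have q1 : 0 < x * (L + x) - T * (L + T) := by nlinarith
  have q2 : 0 < x * (L + x) - ((T + 1 : ℕ) : ℝ) * (L + (T + 1 : ℕ)) := by
    push_cast
    nlinarith
  have q3 : x * x * (G x w A n (T * (L + T)) *
      G x w A n (((T + 1 : ℕ) : ℝ) * (L + (T + 1 : ℕ)))) < 0 := by
    calc x * x * (G x w A n (T * (L + T)) *
        G x w A n (((T + 1 : ℕ) : ℝ) * (L + (T + 1 : ℕ))))
        = (x * G x w A n (T * (L + T))) *
          (x * G x w A n (((T + 1 : ℕ) : ℝ) * (L + (T + 1 : ℕ)))) := by ring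
      _ = ((x * (L + x) - T * (L + T)) * (x * (L + x) - ((T + 1 : ℕ) : ℝ) * (L + (T + 1 : ℕ)))) *
          (Ps n x A L (T * (L + T)) *
            Ps n x A L (((T + 1 : ℕ) : ℝ) * (L + (T + 1 : ℕ)))) := by rw [g1, g2]; ring
      _ < 0 := mul_neg_of_pos_of_neg (mul_pos q1 q2) hcon
  by_contra hge
  push Not at hge
  have := mul_nonneg (mul_nonneg hx0.le hx0.le) hge
  linarith

end Pool.Agent.BX
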