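import Mathlib
import Pool.Agent.BX.Cert
import Pool.Agent.BX.NoSign
import Pool.Agent.BX.D5
import Pool.Agent.BX.H1
import Pool.Agent.BX.H3
import Pool.Agent.BX.N1
import Pool.Agent.BetaL.Main
import Pool.Agent.BetaL.Spec

set_option autoImplicit false

namespace Pool.Agent.BX

open Finset Pool.Agent.MP_1e96f1_co Pool.Agent.BetaL

/-- the exceptional pair `n = 3`, `a = 4`: `Ψ(2) ≠ 0` -/
lemma psi_two_ne {N L : ℕ} (hN : 5 ≤ N) :
    Psi 4 2 (1 / (3 : ℕ)) ((3 : ℕ) / (N : ℝ)) ((3 : ℕ) * (L : ℝ) / N) ≠ 0 := by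
  intro h
  have hN' : (5 : ℝ) ≤ N := by exact_mod_cast hN
  have h1 : (N : ℝ) ≠ 0 := by positivity
  have h2 : (N : ℝ) - 1 ≠ 0 := by linarith
  have key : 5 * (N : ℝ) * (N - 1) - 6 * (L + 2) * (N - 1) + (L + 2) * (L + 3) = 0 := by
    have e : Psi 4 2 (1 / (3 : ℕ)) ((3 : ℕ) / (N : ℝ)) ((3 : ℕ) * (L : ℝ) / N) =
        (5 * (N : ℝ) * (N - 1) - 6 * (L + 2) * (N - 1) + (L + 2) * (L + 3)) /
          (5 * N * (N - 1)) := by
      unfold Psi tl qq
      simp only [Finset.sum_range_succ, Finset.prod_range_succ, Finset.sum_range_zero,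
        Finset.prod_range_zero]
      push_cast
      have e3 : (1 : ℝ) - 1 * (1 / 3 * (3 / (N : ℝ))) = (N - 1) / N := by field_simp
      field_simp
      ring_nf
    rw [e, div_eq_zero_iff] at h
    rcases h with h | h
    · exact h
    · exfalso
      have : 5 * (N : ℝ) * (N - 1) ≠ 0 := by positivity
      exact this h
  have key' : 5 * (N : ℤ) * (N - 1) - 6 * (L + 2) * (N - 1) + (L + 2) * (L + 3) = 0 := by
    exact_mod_cast key
  have hN2 : (5 : ℤ) ≤ N := by exact_mod_cast hN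
  set M : ℤ := N - 1 with hM
  have hM4 : 4 ≤ M := by omega
  have hNM : (N : ℤ) = M + 1 := by omega
  set Y : ℤ := 2 * (L + 2) - 6 * M + 1 with hY
  have hsq : Y ^ 2 = (4 * M - 4) ^ 2 - 15 := by
    rw [hNM] at key'
    rw [hY]
    linear_combination 4 * key'
  have h3 : Y ^ 2 < (4 * M - 4) ^ 2 := by linarith
  have h4 : (4 * M - 5) ^ 2 < Y ^ 2 := by nlinarith
  have h5 := abs_lt_of_sq_lt_sq h3 (by linarith)
  have h6 : 4 * M - 5 < |Y| := lt_of_pow_lt_pow_left₀ 2 (abs_nonneg Y) (by rw [sq_abs]; exact h4)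
  omega


variable {Ω : Type*} [Fintype Ω] [DecidableEq Ω]

/-- **The index `i = 3`** (`n = 2`). -/
lemma side_two {Bs : Finset (Finset Ω)} {v d a : ℕ}
    (hD : IsDesign Bs v (d + 2 * 2 + 1 + a) d) (hd : 0 < d) (hB : IsBeta Bs v d (2 + 1))
    (ha : 2 ≤ a) (ha' : a ≤ 14) {L : ℕ} (hL : v = 2 * (d + 4) + 1 + L)
    (hlow : (d + 4 + 2) * (a - 1) + 9 ≤ 3 * L)
    (hup : 2 * (L + 1) < (a + 1) * (d + 4)) : False := by
  have hT := Pool.Agent.BetaF.tits hD hd hB (by omega) (by omega)
  set x : ℝ := ((d + 2 * 2 + 1 : ℕ) : ℝ) with hx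
  have hxd : x = d + 5 := by rw [hx]; push_cast; ring
  have haA : (a : ℝ) = ((d + 2 * 2 + 1 + a : ℕ) : ℝ) - x := by rw [hxd]; push_cast; ring
  have hLr : (L : ℝ) = (v : ℝ) - 2 * x + 1 := by rw [hL, hxd]; push_cast; ring
  obtain ⟨t, hmono, ht1, hs1, hs2⟩ := int_zeros hD hB (by omega) (by omega) hx haA hLr
    (by positivity)
  rw [Fin.sum_univ_two, Fin.sum_univ_two] at hs1 hs2
  have h01 : t 0 < t 1 := hmono (by decide)
  have h0 : 1 ≤ t 0 := ht1 0
  generalize t 0 = t0 at *
  generalize t 1 = t1 at *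
  simp only [Fin.val_zero, Fin.val_one, Nat.cast_zero, Nat.cast_one, zero_mul, zero_add,
    one_mul, Nat.cast_ofNat] at hs1 hs2
  set y0 : ℝ := (t0 : ℝ) * (L + t0) with hy0
  set y1 : ℝ := (t1 : ℝ) * (L + t1) with hy1
  have hprod : y0 * y1 = (a + 1) * (a + 2) * ((d + 4) * (d + 3)) := by
    rw [hxd] at hs1 hs2
    linear_combination (1 / 2) * (y0 + y1 + (L + 1) + 2 * (a + 2) * (d + 5 - 2)) * hs1 -
      (1 / 2) * hs2
  have hsum : y0 + y1 = 1 + L + 2 * (a + 2) * (d + 3) := by
    rw [hxd] at hs1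
    linear_combination hs1
  -- natural numbers
  have e1 : t0 * (t0 + L) + t1 * (t1 + L) = 1 + L + 2 * (a + 2) * (d + 4 - 1) := by
    rw [show d + 4 - 1 = d + 3 by omega]
    have : ((t0 * (t0 + L) + t1 * (t1 + L) : ℕ) : ℝ) =
        ((1 + L + 2 * (a + 2) * (d + 3) : ℕ) : ℝ) := by
      push_cast
      rw [hy0, hy1] at hsum
      linear_combination hsum
    exact_mod_cast this
  have e2 : t0 * t1 * ((t0 + L) * (t1 + L)) = (a + 1) * (a + 2) * ((d + 4) * (d + 4 - 1)) := by
    rw [show d + 4 - 1 = d + 3 by omega]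
    have : ((t0 * t1 * ((t0 + L) * (t1 + L)) : ℕ) : ℝ) =
        (((a + 1) * (a + 2) * ((d + 4) * (d + 3)) : ℕ) : ℝ) := by
      push_cast
      rw [hy0, hy1] at hprod
      linear_combination hprod
    exact_mod_cast this
  -- `t0 ≥ 2`
  have h0' : 2 ≤ t0 := by
    by_contra hcon
    have ht0 : t0 = 1 := by omega
    subst ht0
    -- `t0 = 1` is a zero: `2 (L + 1) = (a + 1) (d + 4)`
    have r1 : ((1 : ℝ) + L - (1 + L + 2 * (a + 2) * (d + 3) - (1 + L))) = (1 + L) -
        2 * (a + 2) * (d + 3) := by ring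
    have r2 : y0 = 1 + L := by rw [hy0]; push_cast; ring
    have r3 : y1 = 2 * (a + 2) * (d + 3) := by linarith
    rw [r2, r3] at hprod
    have r4 : (2 * ((L : ℝ) + 1) - (a + 1) * (d + 4)) * ((a + 2) * (d + 3)) = 0 := by
      linear_combination hprod
    have r5 : ((a : ℝ) + 2) * (d + 3) ≠ 0 := by positivity
    have r6 : 2 * ((L : ℝ) + 1) - (a + 1) * (d + 4) = 0 := by
      rcases mul_eq_zero.mp r4 with h | h
      · exact h
      · exact absurd h r5
    have r7 : 2 * ((L : ℝ) + 1) < (a + 1) * (d + 4) := by exact_mod_cast hup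
    linarith
  have hdiv := div_co (n := 2) hD hB (by omega) (by omega) (by omega)
  refine n2_arith (N := d + 4) ha ha' h0' h01 (by omega) e1 e2 (by omega) ?_
  rw [show v - (d + 2 * 2) = d + 4 + L + 1 by omega] at hdiv
  rw [show a + 3 = 2 + a + 1 by omega]
  exact hdiv

/-- **The oriented case.** -/
theorem main_side : ∀ (n : ℕ), 1 ≤ n → ∀ (a d v : ℕ) (Bs : Finset (Finset Ω)),
    IsDesign Bs v (d + 2 * n + 1 + a) d → 0 < d → IsBeta Bs v d (n + 1) → 2 ≤ a → False := by
  intro n hn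
  induction n, hn using Nat.le_induction with
  | base =>
    intro a d v Bs hD hd hB ha
    obtain ⟨hdk, hkv⟩ := design_facts hD
    have hB1 := beta_two_imp_one hD (by omega) hB
    have heq := eq_of_beta_pred (n := 1) hD hB hB1 (by omega) (by omega)
    have hm : d + 2 * 1 + 1 + a - d = 3 + a := by omega
    refine hauck_arith (d := d) (m := 3 + a) hd (by omega) fun s hs => ?_
    have h1 := steiner_dvd hD hB1 hs
    rw [hm] at h1 heq
    have h2 : v = (d + 2) * (3 + a) := by
      rw [one_mul] at heq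
      rw [heq]
    rw [h2] at h1
    exact h1
  | succ n hn ih =>
    intro a d v Bs hD hd hB ha
    obtain ⟨hdk, hkv⟩ := design_facts hD
    have hkd : d + 2 * (n + 1) + 1 + a - d = 2 * (n + 1) + 1 + a := by omega
    have hup := noda_upper (n := n + 1) hD hB (by omega) (by omega)
    have hlow := noda_lower (n := n + 1) hD hB (by omega)
    rw [hkd] at hup hlow
    -- not far
    have hfar : ¬ Far (n + 1 + 1) (2 * (n + 1) + 1 + a) := by
      intro hF
      refine no_beta hD hd ?_ hB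
      rw [hkd]
      exact hF
    unfold Far at hfar
    -- the equality case
    by_cases heq : (n + 1) * v = (d + 2 * (n + 1)) * (2 * (n + 1) + 1 + a)
    · have hB' := beta_pred_of_eq (n := n + 1) hD hB (by omega) (by omega) (by rw [hkd]; exact heq)
      refine ih (a + 2) d v Bs ?_ hd hB' (by omega)
      rw [show d + 2 * n + 1 + (a + 2) = d + 2 * (n + 1) + 1 + a by omega]
      exact hD
    have hlt : (n + 1) * v < (d + 2 * (n + 1)) * (2 * (n + 1) + 1 + a) :=
      lt_of_le_of_ne hup heq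
    have hT := Pool.Agent.BetaF.tits hD hd hB (by omega) (by omega)
    -- `L`
    obtain ⟨a', rfl⟩ : ∃ a', a = a' + 2 := ⟨a - 2, by omega⟩
    have hv : 2 * (d + 2 * (n + 1)) + 1 + 3 < v := by
      by_contra hcon
      push Not at hcon
      have : (n + 1 + 1) * v ≤ (n + 1 + 1) * (2 * (d + 2 * (n + 1)) + 1 + 3) :=
        Nat.mul_le_mul_left _ hcon
      nlinarith
    obtain ⟨L, hL⟩ : ∃ L, v = 2 * (d + 2 * (n + 1)) + 1 + L := ⟨v - (2 * (d + 2 * (n + 1)) + 1), by omega⟩
    have hlow' : (d + 2 * (n + 1) + 2) * (a' + 1) + 3 * (n + 1 + 1) ≤ (n + 1 + 1) * L := by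
      rw [hL] at hlow
      nlinarith
    have hup' : (n + 1) * (L + 1) < (a' + 2 + 1) * (d + 2 * (n + 1)) := by
      rw [hL] at hlt
      nlinarith
    rcases Nat.lt_or_ge n 2 with hn2 | hn2
    · -- `n + 1 = 2`
      have : n = 1 := by omega
      subst this
      refine side_two (a := a' + 2) (L := L) hD hd hB (by omega) (by omega) (by omega) ?_ ?_
      · rw [show a' + 2 - 1 = a' + 1 by omega]
        linarith
      · linarith
    · have hcube := cube_bound (n := n + 1) (a := a' + 2) hD hd hB (by omega) (by omega)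
        (by omega) heq
      have hcastN : ((d + 2 * (n + 1) : ℕ) : ℝ) = (d : ℝ) + 2 * ((n + 1 : ℕ) : ℝ) := by
        push_cast; ring
      have hLr : (L : ℝ) = (v : ℝ) - 2 * ((d : ℝ) + 2 * ((n + 1 : ℕ) : ℝ) + 1) + 1 := by
        rw [hL]; push_cast; ring
      have hreg : Reg (a' + 2) (n + 1) ((d + 2 * (n + 1) : ℕ) : ℝ) (L : ℝ) := by
        refine ⟨by omega, ?_, ?_, ?_, ?_⟩
        · exact_mod_cast hup'
        · have : (((d + 2 * (n + 1) + 2) * (a' + 1) + 3 * (n + 1 + 1) : ℕ) : ℝ) ≤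
            (((n + 1 + 1) * L : ℕ) : ℝ) := by exact_mod_cast hlow'
          push_cast at this ⊢
          linarith
        · have : (((n + 1 + 1) ^ 2 : ℕ) : ℝ) ≤ (d : ℝ) := by exact_mod_cast hT
          push_cast at this ⊢
          linarith
        · exact_mod_cast hcube
      have hfacts := hreg.facts (by omega)
      refine cert_all (by omega) (by omega) hreg ?_ (Psi_one _ _ _ _ ?_) ?_
      · intro T hT1 hT2
        have := no_sign (n := n + 1) hD hB (by omega) (by omega) hcastN hLr T hT2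
        exact this
      · have := hfacts.2.1
        linarith
      · intro hn3 ha4
        have hn3' : n = 2 := by omega
        have ha4' : a' = 2 := by omega
        subst hn3' ha4'
        exact psi_two_ne (N := d + 2 * (2 + 1)) (L := L) (by omega)

/-- **Main theorem.** -/
theorem main {Bs : Finset (Finset Ω)} {v k d i : ℕ} (hD : IsDesign Bs v k d) (hd : 0 < d)
    (hB : IsBeta Bs v d i) (hi : 1 < i) (hi' : i < k - d) :
    k - d ≤ 2 * i ∧ 2 * i ≤ k - d + 2 := by
  obtain ⟨hdk, hkv⟩ := design_facts hD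
  constructor
  · by_contra hcon
    push Not at hcon
    obtain ⟨n, rfl⟩ : ∃ n, i = n + 1 := ⟨i - 1, by omega⟩
    obtain ⟨a, rfl⟩ : ∃ a, k = d + 2 * n + 1 + a := ⟨k - (d + 2 * n + 1), by omega⟩
    exact main_side n (by omega) a d v Bs hD hd hB (by omega)
  · by_contra hcon
    push Not at hcon
    have h1 := beta_co hD (by omega) hB
    have hd' : 0 < v + d - 2 * k := by
      rcases Nat.eq_zero_or_pos (v + d - 2 * k) with h0 | h0
      · exfalso
        obtain ⟨n, rfl⟩ : ∃ n, i = n + 1 := ⟨i - 1, by omega⟩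
        have hlow := noda_lower hD hB (by omega)
        obtain ⟨q, hq⟩ : ∃ q, k = d + q := ⟨k - d, by omega⟩
        have e1 : k - d = q := by omega
        have e2 : v = d + 2 * q := by omega
        have e3 : n + 2 ≤ q := by omega
        rw [e1] at hlow
        rw [e2] at hlow
        obtain ⟨r, hr⟩ : ∃ r, q = n + 2 + r := ⟨q - (n + 2), by omega⟩
        rw [hr] at hlow
        nlinarith
      · exact h0
    obtain ⟨n, hn⟩ : ∃ n, k - d - i + 1 = n + 1 := ⟨k - d - i, by omega⟩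
    rw [hn] at h1
    have hkd' : v - k - (v + d - 2 * k) = k - d := by omega
    obtain ⟨a, ha⟩ : ∃ a, v - k = (v + d - 2 * k) + 2 * n + 1 + a :=
      ⟨v - k - ((v + d - 2 * k) + 2 * n + 1), by omega⟩
    have hD' := design_co hD
    rw [ha] at hD'
    exact main_side n (by omega) a (v + d - 2 * k) v (co Bs) hD' hd' h1 (by omega)

end Pool.Agent.BX
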