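import Mathlib
import Pool.Agent.BX.Fin

set_option autoImplicit false

namespace Pool.Agent.BX

open Finset Pool.Agent.MP_1e96f1_co Pool.Agent.BetaL

/-- The arithmetic of Hauck's theorem for `m = k - d ∈ {3, 4}`. -/
theorem hauck_four_arith {d m : ℕ} (hd : 0 < d) (hm : m = 3 ∨ m = 4)
    (h : ∀ s ≤ d, (m + s).choose (s + 1) ∣ ((d + 2) * m - d + s).choose (s + 1)) :
    m = 4 ∧ d = 4 := by
  have hm3 : 3 ≤ m := by omega
  have hu0 : d ≤ (d + 2) * m := by nlinarith
  obtain ⟨u, hu⟩ : ∃ u, u = (d + 2) * m - d := ⟨_, rfl⟩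
  have hu1 : u + d = (d + 2) * m := by omega
  rw [← hu] at h
  have hmd : m ∣ d := by
    have h0 := h 0 (Nat.zero_le _)
    simp only [add_zero, zero_add, Nat.choose_one_right] at h0
    have h1 : m ∣ u + d := by rw [hu1]; exact Dvd.intro_left _ rfl
    exact (Nat.dvd_add_right h0).mp h1
  have hdm : m ≤ d := Nat.le_of_dvd hd hmd
  have hu2 : 2 ≤ u := by nlinarith
  have hu3 : u - 2 = (d + 2) * (m - 1) := by
    obtain ⟨m', rfl⟩ : ∃ m', m = m' + 1 := ⟨m - 1, by omega⟩
    have : (d + 2) * (m' + 1) = (d + 2) * m' + (d + 2) := by ring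
    simp only [Nat.add_sub_cancel]
    omega
  have hD : d + 2 ∣ (m - 1) * (m - 2) := by
    rw [Nat.dvd_iff_prime_pow_dvd_dvd]
    intro p k hp hk
    rcases Nat.lt_or_ge (p ^ k) 3 with h3 | h3
    · have hpos : 0 < p ^ k := pow_pos hp.pos k
      have h12 : p ^ k = 1 ∨ p ^ k = 2 := by omega
      rcases h12 with h12 | h12
      · rw [h12]; exact one_dvd _
      · rw [h12]
        obtain ⟨m', rfl⟩ : ∃ m', m = m' + 2 := ⟨m - 2, by omega⟩
        have : m' + 2 - 1 = m' + 1 := by omega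
        rw [this, Nat.add_sub_cancel, mul_comm]
        exact (Nat.even_mul_succ_self m').two_dvd
    · have hle : p ^ k ≤ d + 2 := Nat.le_of_dvd (by omega) hk
      apply pp_dvd hp h3 (by omega) hu2 (by rw [hu3]; exact Dvd.dvd.mul_right hk _)
      have h4 := h (p ^ k - 3) (by omega)
      have e1 : m + (p ^ k - 3) = m + p ^ k - 3 := by omega
      have e2 : u + (p ^ k - 3) = u + p ^ k - 3 := by omega
      have e3 : p ^ k - 3 + 1 = p ^ k - 2 := by omega
      rwa [e1, e2, e3] at h4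
  rcases hm with rfl | rfl
  · have := Nat.le_of_dvd (by norm_num) hD
    omega
  · have := Nat.le_of_dvd (by norm_num) hD
    omega

variable {Ω : Type*} [Fintype Ω] [DecidableEq Ω]

/-- **Hauck's theorem for `k - d ≤ 4`.**  A design that is both `β(1)` and `β(2)` with
`k - d ∈ {3, 4}` and `d > 0` has parameter `(24, 8, 4)`. -/
theorem hauck_four {Bs : Finset (Finset Ω)} {v k d : ℕ} (hD : IsDesign Bs v k d) (hd : 0 < d)
    (hB1 : IsBeta Bs v d 1) (hB2 : IsBeta Bs v d 2) (hk : k - d = 3 ∨ k - d = 4) :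
    v = 24 ∧ k = 8 ∧ d = 4 := by
  obtain ⟨hdk, hkv⟩ := design_facts hD
  have heq := eq_of_beta_pred (n := 1) hD hB2 hB1 (by omega) (by omega)
  have h2 : v = (d + 2) * (k - d) := by
    rw [one_mul] at heq
    rw [heq]
  have hmain := hauck_four_arith (d := d) (m := k - d) hd hk fun s hs => by
    have h1 := steiner_dvd hD hB1 hs
    rw [← h2]
    exact h1
  obtain ⟨h3, h4⟩ := hmain
  rw [h3, h4] at h2
  refine ⟨by omega, by omega, h4⟩

end Pool.Agent.BX
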