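import Mathlib
import Pool.Agent.MP_1e96f1_co.Compl

set_option autoImplicit false

namespace Pool.Agent.BX

open Finset Pool.Agent.MP_1e96f1_co

/-- `S` is the block set of a Steiner system `S(t, m, |P|)` on the point set `P`: a family of
`m`-subsets of `P` such that every `t`-subset of `P` is contained in exactly one of them. -/
def IsSteiner {α : Type*} (S : Finset (Finset α)) (P : Finset α) (t m : ℕ) : Prop :=
  (∀ A ∈ S, A ⊆ P ∧ A.card = m) ∧ ∀ T ⊆ P, T.card = t → ∃! A, A ∈ S ∧ T ⊆ A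

variable {Ω : Type*} [Fintype Ω] [DecidableEq Ω]

omit [Fintype Ω] in
lemma card_X {k i' i : ℕ} {B0 P Q : Finset Ω} (h0 : B0.card = k) (hP : P ⊆ B0) (hPc : P.card = i')
    (hQ : Disjoint Q B0) (hQc : Q.card = i) : ((B0 \ P) ∪ Q).card = k - i' + i := by
  have hdis : Disjoint (B0 \ P) Q := by
    rw [Finset.disjoint_left]
    intro y hy hyQ
    exact (Finset.disjoint_left.mp hQ hyQ) (Finset.mem_sdiff.mp hy).1
  rw [Finset.card_union_of_disjoint hdis, Finset.card_sdiff_of_subset hP, h0, hPc, hQc]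

/-- the key property -/
theorem key {Bs : Finset (Finset Ω)} {v k d i : ℕ} (hD : IsDesign Bs v k d)
    (hB : IsBeta Bs v d i) (hi : i ≤ k - d) {B0 P Q : Finset Ω} (hB0 : B0 ∈ Bs) (hP : P ⊆ B0)
    (hPc : P.card = k - d + 1 - i) (hQ : Disjoint Q B0) (hQc : Q.card = i) :
    ∃! B, B ∈ Bs ∧ Q ⊆ B ∧ Disjoint P B ∧ (B ∩ B0).card = d := by
  obtain ⟨hi1, -, hex⟩ := hB
  have hk0 := hD.card_block B0 hB0
  have hPk : P.card ≤ k := by rw [← hk0]; exact Finset.card_le_card hP
  have hXc := card_X hk0 hP hPc hQ hQc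
  set X := (B0 \ P) ∪ Q with hX
  have hXc' : X.card = d + 2 * i - 1 := by rw [hXc]; omega
  have hdis : Disjoint (B0 \ P) Q := by
    rw [Finset.disjoint_left]
    intro y hy hyQ
    exact (Finset.disjoint_left.mp hQ hyQ) (Finset.mem_sdiff.mp hy).1
  have hsplit : ∀ B : Finset Ω, (X ∩ B).card = ((B0 \ P) ∩ B).card + (Q ∩ B).card := by
    intro B
    rw [hX, Finset.union_inter_distrib_right, Finset.card_union_of_disjoint]
    exact hdis.mono Finset.inter_subset_left Finset.inter_subset_left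
  obtain ⟨B, ⟨hBs, hBX⟩, huniq⟩ := hex X hXc'
  have hne : B ≠ B0 := by
    rintro rfl
    rw [hsplit] at hBX
    have h1 : ((B \ P) ∩ B).card = k - (k - d + 1 - i) := by
      rw [Finset.inter_eq_left.mpr Finset.sdiff_subset, Finset.card_sdiff_of_subset hP, hk0, hPc]
    have h2 : (Q ∩ B).card = 0 := by
      rw [Finset.card_eq_zero, ← Finset.disjoint_iff_inter_eq_empty]
      exact hQ
    omega
  have hle := hD.inter_le B hBs B0 hB0 hne
  have hsub : (B0 \ P) ∩ B ⊆ B ∩ B0 := by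
    intro y hy
    rw [Finset.mem_inter, Finset.mem_sdiff] at hy
    exact Finset.mem_inter.mpr ⟨hy.2, hy.1.1⟩
  have h1 := Finset.card_le_card hsub
  have h2 : (Q ∩ B).card ≤ Q.card := Finset.card_le_card Finset.inter_subset_left
  rw [hsplit] at hBX
  have h3 : ((B0 \ P) ∩ B).card = (B ∩ B0).card := by omega
  have h4 : (Q ∩ B).card = Q.card := by omega
  have h5 : (B0 \ P) ∩ B = B ∩ B0 := Finset.eq_of_subset_of_card_le hsub h3.ge
  have h6 : Q ∩ B = Q := Finset.eq_of_subset_of_card_le Finset.inter_subset_left h4.ge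
  refine ⟨B, ⟨hBs, Finset.inter_eq_left.mp h6, ?_, by omega⟩, ?_⟩
  · rw [Finset.disjoint_left]
    intro y hyP hyB
    have : y ∈ (B0 \ P) ∩ B := by
      rw [h5]
      exact Finset.mem_inter.mpr ⟨hyB, hP hyP⟩
    rw [Finset.mem_inter, Finset.mem_sdiff] at this
    exact this.1.2 hyP
  · rintro C ⟨hC, hQC, hPC, hCd⟩
    refine huniq C ⟨hC, ?_⟩
    rw [hsplit]
    have e1 : (B0 \ P) ∩ C = C ∩ B0 := by
      ext y
      simp only [Finset.mem_inter, Finset.mem_sdiff]
      constructor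
      · rintro ⟨⟨h1, -⟩, h2⟩
        exact ⟨h2, h1⟩
      · rintro ⟨h1, h2⟩
        exact ⟨⟨h2, fun hyP => Finset.disjoint_left.mp hPC hyP h1⟩, h1⟩
    have e2 : Q ∩ C = Q := Finset.inter_eq_left.mpr hQC
    rw [e1, e2, hCd, hQc]

/-- Steiner systems inside a block and outside of it -/
theorem steiner_inside {Bs : Finset (Finset Ω)} {v k d i : ℕ} (hD : IsDesign Bs v k d)
    (hB : IsBeta Bs v d i) (hi : i ≤ k - d) {B0 : Finset Ω} (hB0 : B0 ∈ Bs) :
    (∀ Q : Finset Ω, Disjoint Q B0 → Q.card = i →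
      IsSteiner ((Bs.filter (fun B => Q ⊆ B ∧ (B ∩ B0).card = d)).image (fun B => B0 \ B)) B0
        (k - d + 1 - i) (k - d)) ∧
    (∀ P ⊆ B0, P.card = k - d + 1 - i →
      IsSteiner ((Bs.filter (fun B => Disjoint P B ∧ (B ∩ B0).card = d)).image (fun B => B \ B0))
        B0ᶜ i (k - d)) := by
  have hk0 := hD.card_block B0 hB0
  constructor
  · intro Q hQ hQc
    refine ⟨?_, ?_⟩
    · intro A hA
      rw [Finset.mem_image] at hA
      obtain ⟨B, hB, rfl⟩ := hA
      rw [Finset.mem_filter] at hB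
      refine ⟨Finset.sdiff_subset, ?_⟩
      have := Finset.card_sdiff_add_card_inter B0 B
      rw [Finset.inter_comm] at this
      omega
    · intro P hP hPc
      obtain ⟨B, ⟨hBs, hQB, hPB, hBd⟩, huniq⟩ := key hD hB hi hB0 hP hPc hQ hQc
      refine ⟨B0 \ B, ⟨?_, ?_⟩, ?_⟩
      · rw [Finset.mem_image]
        exact ⟨B, Finset.mem_filter.mpr ⟨hBs, hQB, hBd⟩, rfl⟩
      · intro y hy
        exact Finset.mem_sdiff.mpr ⟨hP hy, fun h => Finset.disjoint_left.mp hPB hy h⟩
      · rintro A ⟨hA, hPA⟩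
        rw [Finset.mem_image] at hA
        obtain ⟨C, hC, rfl⟩ := hA
        rw [Finset.mem_filter] at hC
        have : C = B := huniq C ⟨hC.1, hC.2.1, by
          rw [Finset.disjoint_left]
          intro y hy hyC
          exact (Finset.mem_sdiff.mp (hPA hy)).2 hyC, hC.2.2⟩
        rw [this]
  · intro P hP hPc
    refine ⟨?_, ?_⟩
    · intro A hA
      rw [Finset.mem_image] at hA
      obtain ⟨B, hB, rfl⟩ := hA
      rw [Finset.mem_filter] at hB
      refine ⟨?_, ?_⟩
      · intro y hy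
        exact Finset.mem_compl.mpr (Finset.mem_sdiff.mp hy).2
      · have := Finset.card_sdiff_add_card_inter B B0
        have := hD.card_block B hB.1
        omega
    · intro Q hQ hQc
      have hQ' : Disjoint Q B0 := by
        rw [Finset.disjoint_left]
        intro y hy
        exact Finset.mem_compl.mp (hQ hy)
      obtain ⟨B, ⟨hBs, hQB, hPB, hBd⟩, huniq⟩ := key hD hB hi hB0 hP hPc hQ' hQc
      refine ⟨B \ B0, ⟨?_, ?_⟩, ?_⟩
      · rw [Finset.mem_image]
        exact ⟨B, Finset.mem_filter.mpr ⟨hBs, hPB, hBd⟩, rfl⟩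
      · intro y hy
        exact Finset.mem_sdiff.mpr ⟨hQB hy, Finset.mem_compl.mp (hQ hy)⟩
      · rintro A ⟨hA, hQA⟩
        rw [Finset.mem_image] at hA
        obtain ⟨C, hC, rfl⟩ := hA
        rw [Finset.mem_filter] at hC
        have : C = B := huniq C ⟨hC.1, fun y hy => (Finset.mem_sdiff.mp (hQA hy)).1, hC.2.1,
          hC.2.2⟩
        rw [this]

end Pool.Agent.BX
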